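import Pool.Agent.W_fa9b59_h31.MainT
import Pool.Agent.W_fa9b59_hc.Mono

set_option autoImplicit false

/-!
# The monotone form of the theorem
-/

open MeasureTheory Metric Set

namespace NT31

open FB88 FB88Stmt

/-- three affinely independent points have a non zero determinant -/
theorem det_ne_of_indep {P Q R : E} (h : AffineIndependent ℝ ![P, Q, R]) :
    det2 (P - R) (Q - R) ≠ 0 := by
  intro hz
  rw [affineIndependent_iff] at h
  have key : ∀ a b : ℝ, a • (P - R) - b • (Q - R) = 0 → a = 0 ∧ b = 0 := by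
    intro a b hab
    have h1 : ∑ i : Fin 3, (![a, -b, b - a] : Fin 3 → ℝ) i = 0 := by
      simp [Fin.sum_univ_three]
      ring
    have h2 : ∑ i : Fin 3, (![a, -b, b - a] : Fin 3 → ℝ) i • (![P, Q, R] : Fin 3 → E) i = 0 := by
      rw [Fin.sum_univ_three]
      simp only [Matrix.cons_val_zero, Matrix.cons_val_one, Matrix.cons_val]
      have h3 : a • P + -b • Q + (b - a) • R = a • (P - R) - b • (Q - R) := by module
      rw [h3, hab]
    have h0 := h Finset.univ _ h1 h2
    have ha := h0 0 (Finset.mem_univ _)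
    have hb := h0 1 (Finset.mem_univ _)
    simp only [Matrix.cons_val_zero, Matrix.cons_val_one] at ha hb
    exact ⟨ha, by linarith⟩
  have hy := key ((Q - R) 1) ((P - R) 1) (by
    ext i
    fin_cases i
    · simp only [det2] at hz
      simp
      simp at hz
      linarith
    · simp
      ring)
  have hx := key ((Q - R) 0) ((P - R) 0) (by
    ext i
    fin_cases i
    · simp
      ring
    · simp only [det2] at hz
      simp
      simp at hz
      linarith)
  have hP : (P - R : E) = 0 := by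
    ext i
    fin_cases i
    · simpa using hx.2
    · simpa using hy.2
  have h1 := key 1 0 (by rw [hP]; simp)
  exact one_ne_zero h1.1

/-- the theorem for bodies K inside a body K' near the triangle whose optimal lattice covering
is not thinner -/
theorem main_tri_mono {K K' : Set E} (hc : Convex ℝ K) (hk : IsCompact K)
    (hi : (interior K).Nonempty) (hc' : Convex ℝ K') (hk' : IsCompact K') (hKK : K ⊆ K')
    {P Q R : E} (hd : det2 (P - R) (Q - R) ≠ 0) {τ : ℝ} (ht : 0 < τ) (ht1 : τ ≤ 1 / 3)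
    (h1 : (1 / 3 - τ) • P + (2 / 3 + τ) • Q ∈ K') (h2 : (2 / 3 + τ) • P + (1 / 3 - τ) • Q ∈ K')
    (h3 : (1 / 3 - τ) • Q + (2 / 3 + τ) • R ∈ K') (h4 : (2 / 3 + τ) • Q + (1 / 3 - τ) • R ∈ K')
    (h5 : (1 / 3 - τ) • R + (2 / 3 + τ) • P ∈ K') (h6 : (2 / 3 + τ) • R + (1 / 3 - τ) • P ∈ K')
    (hs : ∀ x ∈ K', ∃ p q r : ℝ, p + q + r = 1 ∧ -((τ / 10 ^ 9) ^ 2) ≤ p ∧
      -((τ / 10 ^ 9) ^ 2) ≤ q ∧ -((τ / 10 ^ 9) ^ 2) ≤ r ∧ x = p • P + q • Q + r • R)
    (hL : thetaL K / volume K ≤ thetaL K' / volume K') :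
    thetaT K = thetaL K := by
  have hK : Body K := ⟨hc, hk, hi.mono interior_subset⟩
  have h0 : volume K ≠ 0 := (Measure.measure_pos_of_nonempty_interior volume hi).ne'
  have htop : volume K ≠ ⊤ := hk.measure_lt_top.ne
  refine le_antisymm (thetaT_le_thetaL K hK) ?_
  have e1 : thetaL K / volume K ≤ thetaT K / volume K := by
    refine hL.trans ?_
    rw [← main_tri hc' hk' hd ht ht1 h1 h2 h3 h4 h5 h6 hs]
    exact HC60.thetaT_mono hKK h0 hk'.measure_lt_top.ne
  have e2 := mul_le_mul_left e1 (volume K)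
  rwa [ENNReal.div_mul_cancel h0 htop, ENNReal.div_mul_cancel h0 htop] at e2

end NT31
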