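import Mathlib

set_option autoImplicit false

/-!
# MP_fa9b59_co, neighbourhoods of the triangles: definitions for the certificate part

Coordinates: a point of the plane is `x : ℝ × ℝ` with barycentric coordinates `x.1`, `x.2`, `1 - x.1 - x.2`; a vector is `e : ℝ × ℝ` with
third coordinate `th e = - e.1 - e.2`. Areas are measured in units of the area of the triangle.
-/

namespace NT31

/-- third coordinate of a vector -/
def th (e : ℝ × ℝ) : ℝ := -e.1 - e.2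

/-- the edge potential of the triangle -/
noncomputable def f0 (e : ℝ × ℝ) : ℝ :=
  if 0 ≤ e.1 * e.2 then (e.2 - e.1) * (4 - 9 * |th e|) / 18
  else if 0 ≤ e.2 * th e then (th e - e.2) * (4 - 9 * |e.1|) / 18
  else (e.1 - th e) * (4 - 9 * |e.2|) / 18

/-- oriented area -/
def dd (x y z : ℝ × ℝ) : ℝ := (y.1 - x.1) * (z.2 - x.2) - (y.2 - x.2) * (z.1 - x.1)

/-- slack of the certificate of the triangle -/
noncomputable def HH (x y z : ℝ × ℝ) : ℝ :=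
  1 / 3 + f0 (y - x) + f0 (z - y) + f0 (x - z) - dd x y z

/-- `x` is in the triangle enlarged by `ε` in every barycentric coordinate -/
def Tr (ε : ℝ) (x : ℝ × ℝ) : Prop := -ε ≤ x.1 ∧ -ε ≤ x.2 ∧ x.1 + x.2 ≤ 1 + ε

/-- the edges of the optimal triangle `(1/3, 2/3, 0), (0, 1/3, 2/3), (2/3, 0, 1/3)` -/
noncomputable def ce : Fin 3 → ℝ × ℝ := ![(-1 / 3, -1 / 3), (2 / 3, -1 / 3), (-1 / 3, 2 / 3)]

/-- `e` is near the edge `ce j` -/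
def Eb (r : ℝ) (j : Fin 3) (e : ℝ × ℝ) : Prop :=
  |e.1 - (ce j).1| ≤ r ∧ |e.2 - (ce j).2| ≤ r ∧ |th e - th (ce j)| ≤ r

/-- the triangle is near the optimal one -/
def Near (r : ℝ) (x y z : ℝ × ℝ) : Prop := Eb r 0 (y - x) ∧ Eb r 1 (z - y) ∧ Eb r 2 (x - z)

/-- near the optimal triangle or its reflection, up to a cyclic relabelling -/
def NearA (r : ℝ) (x y z : ℝ × ℝ) : Prop :=
  (Near r x y z ∨ Near r y z x ∨ Near r z x y) ∨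
    (Near r (-x) (-y) (-z) ∨ Near r (-y) (-z) (-x) ∨ Near r (-z) (-x) (-y))

/-- `1` minus the size of the triangle (near the optimal one) -/
def sg (x y z : ℝ × ℝ) : ℝ := 1 - x.1 - x.2 + y.1 + z.2

/-- the slack as a function of the parameters -/
noncomputable def QQ (s p q r : ℝ) : ℝ :=
  s ^ 2 / 3 + 2 / 3 * s * (p + q + r) +
    ((p - q) ^ 2 + (q - r) ^ 2 + (r - p) ^ 2 + (1 - s - (p + q + r)) ^ 2) / 6

/-- quadratic part of `QQ` -/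
noncomputable def Pd (s p q r : ℝ) : ℝ :=
  s ^ 2 / 3 + 2 / 3 * s * (p + q + r) +
    ((p - q) ^ 2 + (q - r) ^ 2 + (r - p) ^ 2 + (s + (p + q + r)) ^ 2) / 6

/-- linear functional -/
def ip (l e : ℝ × ℝ) : ℝ := l.1 * e.1 + l.2 * e.2

/-- The hypotheses on the convex disk `K`: it contains the middle parts (parameters `1/3 - τ` to `2/3 + τ`) of the sides of the triangle and is
contained in the triangle enlarged by `δ²`, `δ = τ / 10^9`. -/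
structure KS (K : Set (ℝ × ℝ)) (τ δ : ℝ) : Prop where
  conv : Convex ℝ K
  comp : IsCompact K
  tau0 : 0 < τ
  tau1 : τ ≤ 1 / 3
  del : δ = τ / 10 ^ 9
  sub : ∀ x ∈ K, Tr (δ ^ 2) x
  s3a : (1 / 3 - τ, 2 / 3 + τ) ∈ K
  s3b : (2 / 3 + τ, 1 / 3 - τ) ∈ K
  s1a : (0, 1 / 3 - τ) ∈ K
  s1b : (0, 2 / 3 + τ) ∈ K
  s2a : (1 / 3 - τ, 0) ∈ K
  s2b : (2 / 3 + τ, 0) ∈ K

/-- `x, y, z ∈ K`, `v - x, v - y, v - z ∈ K`, with the largest area -/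
structure Opt (K : Set (ℝ × ℝ)) (x y z v : ℝ × ℝ) : Prop where
  hx : x ∈ K
  hy : y ∈ K
  hz : z ∈ K
  vx : v - x ∈ K
  vy : v - y ∈ K
  vz : v - z ∈ K
  opt : ∀ x' ∈ K, ∀ y' ∈ K, ∀ z' ∈ K, ∀ v' : ℝ × ℝ, v' - x' ∈ K → v' - y' ∈ K → v' - z' ∈ K →
    dd x' y' z' ≤ dd x y z

/-- the optimal triangle in good position: all consequences of the estimates -/
structure Pos (δ : ℝ) (x y z v : ℝ × ℝ) : Prop where
  dlo : 1 / 3 ≤ dd x y z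
  dhi : dd x y z ≤ 1 / 3 + 5 * δ ^ 2
  x3 : |1 - x.1 - x.2| ≤ 11 * δ ^ 2
  x1 : |x.1 - 1 / 3| ≤ 10 * δ
  x2 : |x.2 - 2 / 3| ≤ 10 * δ
  y1 : |y.1| ≤ 11 * δ ^ 2
  y2 : |y.2 - 1 / 3| ≤ 10 * δ
  z2 : |z.2| ≤ 11 * δ ^ 2
  z1 : |z.1 - 2 / 3| ≤ 10 * δ
  vx2 : |v.2 - x.2| ≤ 11 * δ ^ 2
  vx1 : |v.1 - x.1 - 1 / 3| ≤ 10 * δ
  vy3 : |1 - (v.1 - y.1) - (v.2 - y.2)| ≤ 11 * δ ^ 2
  vy1 : |v.1 - y.1 - 2 / 3| ≤ 10 * δ
  vz1 : |v.1 - z.1| ≤ 11 * δ ^ 2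
  vz2 : |v.2 - z.2 - 2 / 3| ≤ 10 * δ

end NT31
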