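import Mathlib

set_option autoImplicit false

/-!
# The certificate of the triangle, the cells of the second half

The slack of the certificate in the cells not containing an optimal triangle. `m`, `p`, `q`: smallest value and gaps of the three coordinates.
-/

namespace NT31

theorem c111 {x1 x2 y1 y2 z1 z2 : ℝ} (m1 : 0 ≤ y1) (p1 : 0 ≤ -y1 + z1) (q1 : 0 ≤ x1 - z1)
    (m2 : 0 ≤ y2) (p2 : 0 ≤ -y2 + z2) (q2 : 0 ≤ x2 - z2)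
    (m3 : 0 ≤ 1 - x1 - x2) (p3 : 0 ≤ x1 + x2 - z1 - z2) (q3 : 0 ≤ -y1 - y2 + z1 + z2) :
    1 / 42 ≤ 1 / 3 + ((y2 - x2) - (y1 - x1)) * (4 - 9 * ((1 - y1 - y2) - (1 - x1 - x2))) / 18 + ((z2 - y2) - (z1 - y1)) * (4 + 9 * ((1 - z1 - z2) - (1 - y1 - y2))) / 18 + ((x2 - z2) - (x1 - z1)) * (4 + 9 * ((1 - x1 - x2) - (1 - z1 - z2))) / 18 - ((y1 - x1) * (z2 - x2) - (y2 - x2) * (z1 - x1)) := by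
  linarith [mul_nonneg m1 p1, mul_nonneg m1 m2, mul_nonneg m1 p2, mul_nonneg m1 m3,
    mul_nonneg m1 p3, mul_nonneg p1 p2, mul_nonneg p1 m3, mul_nonneg q1 m3,
    mul_nonneg m2 m3, mul_nonneg m2 p3, mul_nonneg m2 q3, mul_nonneg p2 m3,
    mul_nonneg p2 p3, mul_nonneg q2 m3, sq_nonneg (y1 - 2 * y2), sq_nonneg (2 * y1 - y2),
    sq_nonneg (y1 + 2 * y2 - 2 * z2), sq_nonneg (-2 + 2 * x1 + 2 * x2 + y1), sq_nonneg (-x1 - x2 - y1 + 2 * z1 + z2)]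

theorem c120 {x1 x2 y1 y2 z1 z2 : ℝ} (m1 : 0 ≤ y1) (p1 : 0 ≤ -y1 + z1) (q1 : 0 ≤ x1 - z1)
    (m2 : 0 ≤ y2) (p2 : 0 ≤ x2 - y2) (q2 : 0 ≤ -x2 + z2)
    (m3 : 0 ≤ 1 - z1 - z2) (p3 : 0 ≤ -x1 - x2 + z1 + z2) (q3 : 0 ≤ x1 + x2 - y1 - y2) :
    1 / 42 ≤ 1 / 3 + ((y2 - x2) - (y1 - x1)) * (4 - 9 * ((1 - y1 - y2) - (1 - x1 - x2))) / 18 + ((z2 - y2) - (z1 - y1)) * (4 + 9 * ((1 - z1 - z2) - (1 - y1 - y2))) / 18 + ((x1 - z1) - ((1 - x1 - x2) - (1 - z1 - z2))) * (4 + 9 * (x2 - z2)) / 18 - ((y1 - x1) * (z2 - x2) - (y2 - x2) * (z1 - x1)) := by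
  linarith [mul_nonneg m1 q1, mul_nonneg m1 m2, mul_nonneg m1 q2, mul_nonneg m1 m3,
    mul_nonneg m1 q3, mul_nonneg p1 q1, mul_nonneg p1 m2, mul_nonneg p1 p2,
    mul_nonneg p1 p3, mul_nonneg q1 m2, mul_nonneg q1 p2, mul_nonneg q1 m3,
    mul_nonneg q1 p3, mul_nonneg m2 p2, mul_nonneg m2 q2, mul_nonneg m2 m3,
    mul_nonneg q2 m3, mul_nonneg m3 q3, sq_nonneg (2 * y1 - y2), sq_nonneg (-2 + y1 + 2 * z1 + 2 * z2),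
    sq_nonneg (-2 * y1 - y2 + 2 * z1), sq_nonneg (2 * x1 - y2 - 2 * z1), sq_nonneg (-1 + 2 * y2 + z1 + z2), sq_nonneg (2 * x2 - y2 - z2)]

theorem c121 {x1 x2 y1 y2 z1 z2 : ℝ} (m1 : 0 ≤ y1) (p1 : 0 ≤ -y1 + z1) (q1 : 0 ≤ x1 - z1)
    (m2 : 0 ≤ y2) (p2 : 0 ≤ x2 - y2) (q2 : 0 ≤ -x2 + z2)
    (m3 : 0 ≤ 1 - x1 - x2) (p3 : 0 ≤ x1 + x2 - z1 - z2) (q3 : 0 ≤ -y1 - y2 + z1 + z2) :
    1 / 42 ≤ 1 / 3 + ((y2 - x2) - (y1 - x1)) * (4 - 9 * ((1 - y1 - y2) - (1 - x1 - x2))) / 18 + ((z2 - y2) - (z1 - y1)) * (4 + 9 * ((1 - z1 - z2) - (1 - y1 - y2))) / 18 + (((1 - x1 - x2) - (1 - z1 - z2)) - (x2 - z2)) * (4 - 9 * (x1 - z1)) / 18 - ((y1 - x1) * (z2 - x2) - (y2 - x2) * (z1 - x1)) := by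
  linarith [mul_nonneg m1 p1, mul_nonneg m1 q1, mul_nonneg m1 m2, mul_nonneg m1 p2,
    mul_nonneg m1 q2, mul_nonneg m1 m3, mul_nonneg p1 p2, mul_nonneg p1 q2,
    mul_nonneg q1 m2, mul_nonneg q1 p2, mul_nonneg q1 m3, mul_nonneg m2 q2,
    mul_nonneg m2 m3, mul_nonneg m2 q3, mul_nonneg p2 p3, mul_nonneg q2 m3,
    mul_nonneg q2 p3, mul_nonneg m3 q3, sq_nonneg (y1 - 2 * y2), sq_nonneg (-2 * x2 + y1 + 2 * y2),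
    sq_nonneg (2 * x2 + y1 - 2 * z2), sq_nonneg (-1 + x1 + x2 + 2 * y1), sq_nonneg (-x1 - y1 + 2 * z1), sq_nonneg (-2 + 2 * x1 + 2 * x2 + y2)]

theorem c200 {x1 x2 y1 y2 z1 z2 : ℝ} (m1 : 0 ≤ y1) (p1 : 0 ≤ x1 - y1) (q1 : 0 ≤ -x1 + z1)
    (m2 : 0 ≤ z2) (p2 : 0 ≤ y2 - z2) (q2 : 0 ≤ x2 - y2)
    (m3 : 0 ≤ 1 - z1 - z2) (p3 : 0 ≤ -x1 - x2 + z1 + z2) (q3 : 0 ≤ x1 + x2 - y1 - y2) :
    1 / 42 ≤ 1 / 3 + ((y2 - x2) - (y1 - x1)) * (4 - 9 * ((1 - y1 - y2) - (1 - x1 - x2))) / 18 + (((1 - z1 - z2) - (1 - y1 - y2)) - (z2 - y2)) * (4 - 9 * (z1 - y1)) / 18 + (((1 - x1 - x2) - (1 - z1 - z2)) - (x2 - z2)) * (4 + 9 * (x1 - z1)) / 18 - ((y1 - x1) * (z2 - x2) - (y2 - x2) * (z1 - x1)) := by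
  linarith [mul_nonneg m1 p1, mul_nonneg m1 m2, mul_nonneg m1 p2, mul_nonneg m1 m3,
    mul_nonneg m1 p3, mul_nonneg p1 m2, mul_nonneg p1 m3, mul_nonneg p1 p3,
    mul_nonneg m2 p2, mul_nonneg m2 m3, mul_nonneg m2 p3, mul_nonneg p2 m3,
    mul_nonneg p2 p3, mul_nonneg m3 p3, sq_nonneg (y1 - 2 * z2), sq_nonneg (-x2 + 2 * y1 + y2),
    sq_nonneg (-1 + 2 * y1 + z1 + z2), sq_nonneg (x1 - y1 - y2 + z2), sq_nonneg (x1 - y1 - 2 * y2 + 2 * z2), sq_nonneg (2 * x1 - 2 * y1 - y2 + z2),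
    sq_nonneg (2 * x1 - x2 - 2 * y1 + y2), sq_nonneg (-x1 - 2 * x2 + 2 * y2 + z1), sq_nonneg (-x2 + y2 + 2 * z2), sq_nonneg (-2 + 2 * z1 + 3 * z2),
    sq_nonneg (2 * x1 + 2 * x2 - 2 * z1 - z2), sq_nonneg (-2 + x2 - y2 + 2 * z1 + 2 * z2)]

theorem c202 {x1 x2 y1 y2 z1 z2 : ℝ} (m1 : 0 ≤ y1) (p1 : 0 ≤ x1 - y1) (q1 : 0 ≤ -x1 + z1)
    (m2 : 0 ≤ z2) (p2 : 0 ≤ y2 - z2) (q2 : 0 ≤ x2 - y2)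
    (m3 : 0 ≤ 1 - x1 - x2) (p3 : 0 ≤ x1 + x2 - y1 - y2) (q3 : 0 ≤ y1 + y2 - z1 - z2) :
    1 / 42 ≤ 1 / 3 + ((y2 - x2) - (y1 - x1)) * (4 - 9 * ((1 - y1 - y2) - (1 - x1 - x2))) / 18 + ((z1 - y1) - ((1 - z1 - z2) - (1 - y1 - y2))) * (4 + 9 * (z2 - y2)) / 18 + ((x1 - z1) - ((1 - x1 - x2) - (1 - z1 - z2))) * (4 - 9 * (x2 - z2)) / 18 - ((y1 - x1) * (z2 - x2) - (y2 - x2) * (z1 - x1)) := by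
  linarith [mul_nonneg m1 p1, mul_nonneg m1 m2, mul_nonneg m1 p2, mul_nonneg m1 m3,
    mul_nonneg m1 p3, mul_nonneg p1 m2, mul_nonneg p1 m3, mul_nonneg q1 q3,
    mul_nonneg m2 p2, mul_nonneg m2 m3, mul_nonneg m2 p3, mul_nonneg p2 m3,
    mul_nonneg m3 p3, sq_nonneg (x1 + 2 * y1 - z1), sq_nonneg (y1 - 2 * z2), sq_nonneg (-2 * x2 + y1 + 2 * y2),
    sq_nonneg (y1 - y2 + z1 + z2), sq_nonneg (2 * x1 - 2 * y1 - y2 + z2), sq_nonneg (x1 - 2 * x2 - y1 + 2 * y2), sq_nonneg (-2 * x1 - x2 + y2 + 2 * z1),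
    sq_nonneg (-2 + x1 + 2 * x2 + z1), sq_nonneg (-x1 - x2 + y1 + 2 * y2 - z2), sq_nonneg (x2 - 2 * y1 - 3 * y2 + 2 * z1 + 2 * z2), sq_nonneg (2 - 2 * x1 - 2 * x2 - y1 - y2 + z1 + z2)]

theorem c210 {x1 x2 y1 y2 z1 z2 : ℝ} (m1 : 0 ≤ y1) (p1 : 0 ≤ x1 - y1) (q1 : 0 ≤ -x1 + z1)
    (m2 : 0 ≤ y2) (p2 : 0 ≤ -y2 + z2) (q2 : 0 ≤ x2 - z2)
    (m3 : 0 ≤ 1 - z1 - z2) (p3 : 0 ≤ -x1 - x2 + z1 + z2) (q3 : 0 ≤ x1 + x2 - y1 - y2) :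
    1 / 42 ≤ 1 / 3 + ((y2 - x2) - (y1 - x1)) * (4 - 9 * ((1 - y1 - y2) - (1 - x1 - x2))) / 18 + ((z2 - y2) - (z1 - y1)) * (4 + 9 * ((1 - z1 - z2) - (1 - y1 - y2))) / 18 + (((1 - x1 - x2) - (1 - z1 - z2)) - (x2 - z2)) * (4 + 9 * (x1 - z1)) / 18 - ((y1 - x1) * (z2 - x2) - (y2 - x2) * (z1 - x1)) := by
  linarith [mul_nonneg m1 p1, mul_nonneg m1 m2, mul_nonneg m1 p2, mul_nonneg m1 m3,
    mul_nonneg m1 p3, mul_nonneg p1 m2, mul_nonneg p1 p2, mul_nonneg p1 m3,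
    mul_nonneg p1 p3, mul_nonneg m2 p2, mul_nonneg m2 m3, mul_nonneg m2 p3,
    mul_nonneg p2 m3, mul_nonneg m3 p3, sq_nonneg (-2 * x1 + 3 * y1), sq_nonneg (y1 - 2 * y2),
    sq_nonneg (-x2 + 2 * y1 + z2), sq_nonneg (-1 + 2 * y1 + z1 + z2), sq_nonneg (-2 + x1 - y1 + 2 * z1 + 2 * z2), sq_nonneg (-2 * x1 - x2 + y1 + y2 + z1),
    sq_nonneg (-x2 + 2 * y2 + z2), sq_nonneg (2 * x1 + 2 * x2 - y2 - 2 * z1 - z2), sq_nonneg (x1 + x2 - 2 * y2 - z1 + z2), sq_nonneg (-2 + x2 + 2 * z1 + z2),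
    sq_nonneg (2 * x1 + 3 * x2 - 2 * z1 - 3 * z2), sq_nonneg (-x1 + x2 + y1 + y2 - 2 * z2)]

theorem c211 {x1 x2 y1 y2 z1 z2 : ℝ} (m1 : 0 ≤ y1) (p1 : 0 ≤ x1 - y1) (q1 : 0 ≤ -x1 + z1)
    (m2 : 0 ≤ y2) (p2 : 0 ≤ -y2 + z2) (q2 : 0 ≤ x2 - z2)
    (m3 : 0 ≤ 1 - x1 - x2) (p3 : 0 ≤ x1 + x2 - z1 - z2) (q3 : 0 ≤ -y1 - y2 + z1 + z2) :
    1 / 42 ≤ 1 / 3 + ((y2 - x2) - (y1 - x1)) * (4 - 9 * ((1 - y1 - y2) - (1 - x1 - x2))) / 18 + ((z2 - y2) - (z1 - y1)) * (4 + 9 * ((1 - z1 - z2) - (1 - y1 - y2))) / 18 + ((x1 - z1) - ((1 - x1 - x2) - (1 - z1 - z2))) * (4 - 9 * (x2 - z2)) / 18 - ((y1 - x1) * (z2 - x2) - (y2 - x2) * (z1 - x1)) := by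
  linarith [mul_nonneg m1 p1, mul_nonneg m1 m2, mul_nonneg m1 p2, mul_nonneg m1 m3,
    mul_nonneg m1 p3, mul_nonneg p1 m2, mul_nonneg p1 p2, mul_nonneg p1 m3,
    mul_nonneg m2 p2, mul_nonneg m2 m3, mul_nonneg m2 p3, mul_nonneg p2 m3,
    mul_nonneg p2 p3, mul_nonneg m3 p3, sq_nonneg (-x1 + 3 * y1), sq_nonneg (x1 + 2 * y1 - z1),
    sq_nonneg (y1 - 2 * y2), sq_nonneg (y1 + 2 * y2 - 2 * z2), sq_nonneg (-2 + 2 * x1 + 2 * x2 + y1), sq_nonneg (-x1 - 2 * y2 + z1),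
    sq_nonneg (-2 + x1 + 2 * x2 + z1), sq_nonneg (-3 * x1 - 2 * x2 + 3 * z1 + 2 * z2), sq_nonneg (-x1 + y1 + y2 - z2), sq_nonneg (-2 * x1 + y1 + y2 + z1 - z2),
    sq_nonneg (x2 + y1 + y2 - z1 - 2 * z2)]

theorem c220 {x1 x2 y1 y2 z1 z2 : ℝ} (m1 : 0 ≤ y1) (p1 : 0 ≤ x1 - y1) (q1 : 0 ≤ -x1 + z1)
    (m2 : 0 ≤ y2) (p2 : 0 ≤ x2 - y2) (q2 : 0 ≤ -x2 + z2)
    (m3 : 0 ≤ 1 - z1 - z2) (p3 : 0 ≤ -x1 - x2 + z1 + z2) (q3 : 0 ≤ x1 + x2 - y1 - y2) :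
    1 / 42 ≤ 1 / 3 + ((y2 - x2) - (y1 - x1)) * (4 - 9 * ((1 - y1 - y2) - (1 - x1 - x2))) / 18 + ((z2 - y2) - (z1 - y1)) * (4 + 9 * ((1 - z1 - z2) - (1 - y1 - y2))) / 18 + ((x2 - z2) - (x1 - z1)) * (4 - 9 * ((1 - x1 - x2) - (1 - z1 - z2))) / 18 - ((y1 - x1) * (z2 - x2) - (y2 - x2) * (z1 - x1)) := by
  linarith [mul_nonneg m1 p1, mul_nonneg m1 m2, mul_nonneg m1 p2, mul_nonneg m1 m3,
    mul_nonneg m1 p3, mul_nonneg p1 m2, mul_nonneg p1 p3, mul_nonneg q1 m2,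
    mul_nonneg q1 m3, mul_nonneg m2 p2, mul_nonneg m2 q2, mul_nonneg m2 m3,
    mul_nonneg q2 m3, mul_nonneg m3 q3, sq_nonneg (-2 + y1 + 2 * z1 + 2 * z2), sq_nonneg (-1 + 2 * y1 + z1 + z2),
    sq_nonneg (-1 + 2 * y2 + z1 + z2), sq_nonneg (-2 * x1 - 2 * x2 + y1 + y2 + z1 + z2)]

end NT31
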