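import Pool.Agent.W_fa9b59_h31.F0
import Pool.Agent.W_fa9b59_h31.CellB1
import Pool.Agent.W_fa9b59_h31.CellB2

set_option autoImplicit false

/-!
# The strict certificate of the triangle
-/

namespace NT31

section values

variable (u v : ℝ × ℝ)

private theorem E3p (h1 : v.1 ≤ u.1) (h2 : v.2 ≤ u.2) : f0 (v - u) =
    ((v.2 - u.2) - (v.1 - u.1)) * (4 - 9 * ((1 - v.1 - v.2) - (1 - u.1 - u.2))) / 18 := by
  rw [f0_a (by
    simp only [Prod.fst_sub, Prod.snd_sub]
    exact mul_nonneg_of_nonpos_of_nonpos (by linarith) (by linarith))]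
  rw [abs_of_nonneg (by simp only [th, Prod.fst_sub, Prod.snd_sub]; linarith)]
  simp only [th, Prod.fst_sub, Prod.snd_sub]
  ring

private theorem E3m (h1 : u.1 ≤ v.1) (h2 : u.2 ≤ v.2) : f0 (v - u) =
    ((v.2 - u.2) - (v.1 - u.1)) * (4 + 9 * ((1 - v.1 - v.2) - (1 - u.1 - u.2))) / 18 := by
  rw [f0_a (by
    simp only [Prod.fst_sub, Prod.snd_sub]
    exact mul_nonneg (by linarith) (by linarith))]
  rw [abs_of_nonpos (by simp only [th, Prod.fst_sub, Prod.snd_sub]; linarith)]
  simp only [th, Prod.fst_sub, Prod.snd_sub]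
  ring

private theorem E1p (h2 : v.2 ≤ u.2) (h3 : 1 - v.1 - v.2 ≤ 1 - u.1 - u.2) : f0 (v - u) =
    (((1 - v.1 - v.2) - (1 - u.1 - u.2)) - (v.2 - u.2)) * (4 - 9 * (v.1 - u.1)) / 18 := by
  rw [f0_b (by
    simp only [th, Prod.fst_sub, Prod.snd_sub]
    exact mul_nonneg_of_nonpos_of_nonpos (by linarith) (by linarith))]
  rw [abs_of_nonneg (by simp only [Prod.fst_sub]; linarith)]
  simp only [th, Prod.fst_sub, Prod.snd_sub]
  ring

private theorem E1m (h2 : u.2 ≤ v.2) (h3 : 1 - u.1 - u.2 ≤ 1 - v.1 - v.2) : f0 (v - u) =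
    (((1 - v.1 - v.2) - (1 - u.1 - u.2)) - (v.2 - u.2)) * (4 + 9 * (v.1 - u.1)) / 18 := by
  rw [f0_b (by
    simp only [th, Prod.fst_sub, Prod.snd_sub]
    exact mul_nonneg (by linarith) (by linarith))]
  rw [abs_of_nonpos (by simp only [Prod.fst_sub]; linarith)]
  simp only [th, Prod.fst_sub, Prod.snd_sub]
  ring

private theorem E2p (h1 : v.1 ≤ u.1) (h3 : 1 - v.1 - v.2 ≤ 1 - u.1 - u.2) : f0 (v - u) =
    ((v.1 - u.1) - ((1 - v.1 - v.2) - (1 - u.1 - u.2))) * (4 - 9 * (v.2 - u.2)) / 18 := by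
  rw [f0_c (by
    simp only [th, Prod.fst_sub, Prod.snd_sub]
    exact mul_nonneg_of_nonpos_of_nonpos (by linarith) (by linarith))]
  rw [abs_of_nonneg (by simp only [Prod.snd_sub]; linarith)]
  simp only [th, Prod.fst_sub, Prod.snd_sub]
  ring

private theorem E2m (h1 : u.1 ≤ v.1) (h3 : 1 - u.1 - u.2 ≤ 1 - v.1 - v.2) : f0 (v - u) =
    ((v.1 - u.1) - ((1 - v.1 - v.2) - (1 - u.1 - u.2))) * (4 + 9 * (v.2 - u.2)) / 18 := by
  rw [f0_c (by
    simp only [th, Prod.fst_sub, Prod.snd_sub]
    exact mul_nonneg (by linarith) (by linarith))]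
  rw [abs_of_nonpos (by simp only [Prod.snd_sub]; linarith)]
  simp only [th, Prod.fst_sub, Prod.snd_sub]
  ring

end values

/-- the statement of the certificate -/
def CellP (x y z : ℝ × ℝ) : Prop :=
  0 ≤ HH x y z ∧ (HH x y z < 1 / 40000 → NearA (1 / 40) x y z)

private theorem CellP_of_ge {x y z : ℝ × ℝ} (h : 1 / 42 ≤ HH x y z) : CellP x y z :=
  ⟨by linarith, fun h' => by linarith⟩

private theorem f0_zero' : f0 0 = 0 := by
  have h := f0_neg 0
  rw [neg_zero] at h
  linarith

private theorem HH_right (x y : ℝ × ℝ) : HH x y y = 1 / 3 := by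
  have h := f0_neg (y - x)
  rw [neg_sub] at h
  rw [HH, sub_self, f0_zero', h, dd]
  ring

private theorem HH_left (x y : ℝ × ℝ) : HH x y x = 1 / 3 := by
  have h := f0_neg (y - x)
  rw [neg_sub] at h
  rw [HH, sub_self, f0_zero', h, dd]
  ring

/-- small values of the slack in the cell of the optimal triangle -/
private theorem QQ_near {s p q r : ℝ} (hs : 0 ≤ s) (hp : 0 ≤ p) (hq : 0 ≤ q) (hr : 0 ≤ r)
    (h : QQ s p q r < 1 / 40000) :
    s ≤ 1 / 10000 ∧ |p - 1 / 3| ≤ 1 / 100 ∧ |q - 1 / 3| ≤ 1 / 100 ∧ |r - 1 / 3| ≤ 1 / 100 := by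
  unfold QQ at h
  have hsS : 0 ≤ s * (p + q + r) := by positivity
  have a1 := sq_nonneg (p - q)
  have a2 := sq_nonneg (q - r)
  have a3 := sq_nonneg (r - p)
  have a4 := sq_nonneg (1 - s - (p + q + r))
  have a5 := sq_nonneg s
  have hs1 : s ≤ 1 / 100 := by
    by_contra hc
    rw [not_le] at hc
    nlinarith
  have key : ∀ a b c : ℝ, (a + b + c) ^ 2 ≤ 3 * (a ^ 2 + b ^ 2 + c ^ 2) := by
    intro a b c
    nlinarith [sq_nonneg (a - b), sq_nonneg (b - c), sq_nonneg (a - c)]
  have hb : ∀ t : ℝ, t ^ 2 ≤ 18 / 40000 → |t| ≤ 22 / 1000 := by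
    intro t ht
    apply abs_le_of_sq_le_sq _ (by norm_num)
    linarith [ht]
  have k1 := key (p - q) (p - r) ((p + q + r) - (1 - s))
  have k2 := key (q - p) (q - r) ((p + q + r) - (1 - s))
  have k3 := key (r - p) (r - q) ((p + q + r) - (1 - s))
  have e1 := hb (3 * p - (1 - s)) (by nlinarith)
  have e2 := hb (3 * q - (1 - s)) (by nlinarith)
  have e3 := hb (3 * r - (1 - s)) (by nlinarith)
  rw [abs_le] at e1 e2 e3
  have hS : 9 / 10 ≤ p + q + r := by linarith
  have hs2 : s ≤ 1 / 10000 := by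
    by_contra hc
    rw [not_le] at hc
    nlinarith
  refine ⟨hs2, ?_, ?_, ?_⟩ <;> rw [abs_le] <;> constructor <;> linarith

/-- the cell of the optimal triangle -/
private theorem cell_T0 {x y z : ℝ × ℝ} (m3 : 0 ≤ 1 - x.1 - x.2) (m1 : 0 ≤ y.1) (m2 : 0 ≤ z.2)
    (p1 : y.1 ≤ x.1) (q1 : x.1 ≤ z.1) (p2 : z.2 ≤ y.2) (q2 : y.2 ≤ x.2)
    (p3 : 1 - x.1 - x.2 ≤ 1 - z.1 - z.2) (q3 : 1 - z.1 - z.2 ≤ 1 - y.1 - y.2) :
    CellP x y z := by
  have hH : HH x y z = QQ (sg x y z) (x.1 - y.1) (y.2 - z.2) (th (z - x)) := by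
    rw [HH, E3p x y p1 q2, E1p y z p2 q3, E2p z x q1 p3]
    simp only [QQ, sg, dd, th, Prod.fst_sub, Prod.snd_sub]
    ring
  have hs : 0 ≤ sg x y z := by
    unfold sg
    linarith
  have hp : 0 ≤ x.1 - y.1 := by linarith
  have hq : 0 ≤ y.2 - z.2 := by linarith
  have hr : 0 ≤ th (z - x) := by
    simp only [th, Prod.fst_sub, Prod.snd_sub]
    linarith
  constructor
  · rw [hH, QQ]
    positivity
  · intro h
    rw [hH] at h
    obtain ⟨h1, h2, h3, h4⟩ := QQ_near hs hp hq hr h
    rw [abs_le] at h2 h3 h4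
    simp only [sg, th, Prod.fst_sub, Prod.snd_sub] at h1 h2 h3 h4 hs
    refine Or.inl (Or.inl ⟨⟨?_, ?_, ?_⟩, ⟨?_, ?_, ?_⟩, ⟨?_, ?_, ?_⟩⟩) <;>
      simp only [ce, th, Prod.fst_sub, Prod.snd_sub, Matrix.cons_val_zero, Matrix.cons_val_one,
        Matrix.cons_val] <;> rw [abs_le] <;> constructor <;> linarith

/-- the triples with `y.1 ≤ x.1`, `y.2 ≤ x.2`: 27 cases according to the position of the coordinates of `z` -/
private theorem cell_sorted {x y z : ℝ × ℝ} (hx : Tr 0 x) (hy : Tr 0 y) (hz : Tr 0 z)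
    (h1 : y.1 ≤ x.1) (h2 : y.2 ≤ x.2) : CellP x y z := by
  obtain ⟨x1, x2, x3⟩ := hx
  obtain ⟨y1, y2, y3⟩ := hy
  obtain ⟨z1, z2, z3⟩ := hz
  by_cases hzy : z = y
  · subst hzy
    exact CellP_of_ge (by rw [HH_right]; norm_num)
  by_cases hzx : z = x
  · subst hzx
    exact CellP_of_ge (by rw [HH_left]; norm_num)
  have t1 : z.1 ≤ y.1 ∨ (y.1 ≤ z.1 ∧ z.1 ≤ x.1) ∨ x.1 ≤ z.1 := by
    rcases le_total z.1 y.1 with h | h
    · exact Or.inl h
    · rcases le_total z.1 x.1 with h' | h'
      · exact Or.inr (Or.inl ⟨h, h'⟩)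
      · exact Or.inr (Or.inr h')
  have t2 : z.2 ≤ y.2 ∨ (y.2 ≤ z.2 ∧ z.2 ≤ x.2) ∨ x.2 ≤ z.2 := by
    rcases le_total z.2 y.2 with h | h
    · exact Or.inl h
    · rcases le_total z.2 x.2 with h' | h'
      · exact Or.inr (Or.inl ⟨h, h'⟩)
      · exact Or.inr (Or.inr h')
  have t3 : 1 - z.1 - z.2 ≤ 1 - x.1 - x.2 ∨ (1 - x.1 - x.2 ≤ 1 - z.1 - z.2 ∧
      1 - z.1 - z.2 ≤ 1 - y.1 - y.2) ∨ 1 - y.1 - y.2 ≤ 1 - z.1 - z.2 := by
    rcases le_total (1 - z.1 - z.2) (1 - x.1 - x.2) with h | h
    · exact Or.inl h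
    · rcases le_total (1 - z.1 - z.2) (1 - y.1 - y.2) with h' | h'
      · exact Or.inr (Or.inl ⟨h, h'⟩)
      · exact Or.inr (Or.inr h')
  rcases t1 with a | ⟨a, a'⟩ | a <;> rcases t2 with b | ⟨b, b'⟩ | b <;>
    rcases t3 with c | ⟨c, c'⟩ | c
  · exact absurd (Prod.ext (by linarith) (by linarith)) hzy
  · exact absurd (Prod.ext (by linarith) (by linarith)) hzy
  · refine CellP_of_ge ?_
    have h := c002 (x1 := x.1) (x2 := x.2) (y1 := y.1) (y2 := y.2) (z1 := z.1) (z2 := z.2)
      (by linarith) (by linarith) (by linarith) (by linarith) (by linarith) (by linarith)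
      (by linarith) (by linarith) (by linarith)
    rw [HH, E3p x y (by linarith) (by linarith), E3p y z (by linarith) (by linarith),
      E3m z x (by linarith) (by linarith), dd]
    exact h
  · exact absurd (Prod.ext (by linarith) (by linarith)) hzx
  · refine CellP_of_ge ?_
    have h := c011 (x1 := x.1) (x2 := x.2) (y1 := y.1) (y2 := y.2) (z1 := z.1) (z2 := z.2)
      (by linarith) (by linarith) (by linarith) (by linarith) (by linarith) (by linarith)
      (by linarith) (by linarith) (by linarith)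
    rw [HH, E3p x y (by linarith) (by linarith), E2p y z (by linarith) (by linarith),
      E3m z x (by linarith) (by linarith), dd]
    exact h
  · refine CellP_of_ge ?_
    have h := c012 (x1 := x.1) (x2 := x.2) (y1 := y.1) (y2 := y.2) (z1 := z.1) (z2 := z.2)
      (by linarith) (by linarith) (by linarith) (by linarith) (by linarith) (by linarith)
      (by linarith) (by linarith) (by linarith)
    rw [HH, E3p x y (by linarith) (by linarith), E1m y z (by linarith) (by linarith),
      E3m z x (by linarith) (by linarith), dd]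
    exact h
  · refine CellP_of_ge ?_
    have h := c020 (x1 := x.1) (x2 := x.2) (y1 := y.1) (y2 := y.2) (z1 := z.1) (z2 := z.2)
      (by linarith) (by linarith) (by linarith) (by linarith) (by linarith) (by linarith)
      (by linarith) (by linarith) (by linarith)
    rw [HH, E3p x y (by linarith) (by linarith), E2p y z (by linarith) (by linarith),
      E2m z x (by linarith) (by linarith), dd]
    exact h
  · refine CellP_of_ge ?_
    have h := c021 (x1 := x.1) (x2 := x.2) (y1 := y.1) (y2 := y.2) (z1 := z.1) (z2 := z.2)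
      (by linarith) (by linarith) (by linarith) (by linarith) (by linarith) (by linarith)
      (by linarith) (by linarith) (by linarith)
    rw [HH, E3p x y (by linarith) (by linarith), E2p y z (by linarith) (by linarith),
      E1p z x (by linarith) (by linarith), dd]
    exact h
  · refine CellP_of_ge ?_
    have h := c022 (x1 := x.1) (x2 := x.2) (y1 := y.1) (y2 := y.2) (z1 := z.1) (z2 := z.2)
      (by linarith) (by linarith) (by linarith) (by linarith) (by linarith) (by linarith)
      (by linarith) (by linarith) (by linarith)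
    rw [HH, E3p x y (by linarith) (by linarith), E1m y z (by linarith) (by linarith),
      E1p z x (by linarith) (by linarith), dd]
    exact h
  · exact absurd (Prod.ext (by linarith) (by linarith)) hzx
  · refine CellP_of_ge ?_
    have h := c101 (x1 := x.1) (x2 := x.2) (y1 := y.1) (y2 := y.2) (z1 := z.1) (z2 := z.2)
      (by linarith) (by linarith) (by linarith) (by linarith) (by linarith) (by linarith)
      (by linarith) (by linarith) (by linarith)
    rw [HH, E3p x y (by linarith) (by linarith), E1p y z (by linarith) (by linarith),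
      E3m z x (by linarith) (by linarith), dd]
    exact h
  · refine CellP_of_ge ?_
    have h := c102 (x1 := x.1) (x2 := x.2) (y1 := y.1) (y2 := y.2) (z1 := z.1) (z2 := z.2)
      (by linarith) (by linarith) (by linarith) (by linarith) (by linarith) (by linarith)
      (by linarith) (by linarith) (by linarith)
    rw [HH, E3p x y (by linarith) (by linarith), E2m y z (by linarith) (by linarith),
      E3m z x (by linarith) (by linarith), dd]
    exact h
  · exact absurd (Prod.ext (by linarith) (by linarith)) hzx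
  · refine CellP_of_ge ?_
    have h := c111 (x1 := x.1) (x2 := x.2) (y1 := y.1) (y2 := y.2) (z1 := z.1) (z2 := z.2)
      (by linarith) (by linarith) (by linarith) (by linarith) (by linarith) (by linarith)
      (by linarith) (by linarith) (by linarith)
    rw [HH, E3p x y (by linarith) (by linarith), E3m y z (by linarith) (by linarith),
      E3m z x (by linarith) (by linarith), dd]
    exact h
  · exact absurd (Prod.ext (by linarith) (by linarith)) hzy
  · refine CellP_of_ge ?_
    have h := c120 (x1 := x.1) (x2 := x.2) (y1 := y.1) (y2 := y.2) (z1 := z.1) (z2 := z.2)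
      (by linarith) (by linarith) (by linarith) (by linarith) (by linarith) (by linarith)
      (by linarith) (by linarith) (by linarith)
    rw [HH, E3p x y (by linarith) (by linarith), E3m y z (by linarith) (by linarith),
      E2m z x (by linarith) (by linarith), dd]
    exact h
  · refine CellP_of_ge ?_
    have h := c121 (x1 := x.1) (x2 := x.2) (y1 := y.1) (y2 := y.2) (z1 := z.1) (z2 := z.2)
      (by linarith) (by linarith) (by linarith) (by linarith) (by linarith) (by linarith)
      (by linarith) (by linarith) (by linarith)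
    rw [HH, E3p x y (by linarith) (by linarith), E3m y z (by linarith) (by linarith),
      E1p z x (by linarith) (by linarith), dd]
    exact h
  · exact absurd (Prod.ext (by linarith) (by linarith)) hzy
  · refine CellP_of_ge ?_
    have h := c200 (x1 := x.1) (x2 := x.2) (y1 := y.1) (y2 := y.2) (z1 := z.1) (z2 := z.2)
      (by linarith) (by linarith) (by linarith) (by linarith) (by linarith) (by linarith)
      (by linarith) (by linarith) (by linarith)
    rw [HH, E3p x y (by linarith) (by linarith), E1p y z (by linarith) (by linarith),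
      E1m z x (by linarith) (by linarith), dd]
    exact h
  · exact cell_T0 (by linarith) (by linarith) (by linarith) h1 a b h2 c c'
  · refine CellP_of_ge ?_
    have h := c202 (x1 := x.1) (x2 := x.2) (y1 := y.1) (y2 := y.2) (z1 := z.1) (z2 := z.2)
      (by linarith) (by linarith) (by linarith) (by linarith) (by linarith) (by linarith)
      (by linarith) (by linarith) (by linarith)
    rw [HH, E3p x y (by linarith) (by linarith), E2m y z (by linarith) (by linarith),
      E2p z x (by linarith) (by linarith), dd]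
    exact h
  · refine CellP_of_ge ?_
    have h := c210 (x1 := x.1) (x2 := x.2) (y1 := y.1) (y2 := y.2) (z1 := z.1) (z2 := z.2)
      (by linarith) (by linarith) (by linarith) (by linarith) (by linarith) (by linarith)
      (by linarith) (by linarith) (by linarith)
    rw [HH, E3p x y (by linarith) (by linarith), E3m y z (by linarith) (by linarith),
      E1m z x (by linarith) (by linarith), dd]
    exact h
  · refine CellP_of_ge ?_
    have h := c211 (x1 := x.1) (x2 := x.2) (y1 := y.1) (y2 := y.2) (z1 := z.1) (z2 := z.2)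
      (by linarith) (by linarith) (by linarith) (by linarith) (by linarith) (by linarith)
      (by linarith) (by linarith) (by linarith)
    rw [HH, E3p x y (by linarith) (by linarith), E3m y z (by linarith) (by linarith),
      E2p z x (by linarith) (by linarith), dd]
    exact h
  · exact absurd (Prod.ext (by linarith) (by linarith)) hzy
  · refine CellP_of_ge ?_
    have h := c220 (x1 := x.1) (x2 := x.2) (y1 := y.1) (y2 := y.2) (z1 := z.1) (z2 := z.2)
      (by linarith) (by linarith) (by linarith) (by linarith) (by linarith) (by linarith)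
      (by linarith) (by linarith) (by linarith)
    rw [HH, E3p x y (by linarith) (by linarith), E3m y z (by linarith) (by linarith),
      E3p z x (by linarith) (by linarith), dd]
    exact h
  · exact absurd (Prod.ext (by linarith) (by linarith)) hzx
  · exact absurd (Prod.ext (by linarith) (by linarith)) hzy

/-- cyclic shift of the coordinates of a point -/
private def rho (x : ℝ × ℝ) : ℝ × ℝ := (x.2, 1 - x.1 - x.2)

/-- exchange of two coordinates -/
private def sw (x : ℝ × ℝ) : ℝ × ℝ := (x.2, x.1)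

private theorem rho_sub (x y : ℝ × ℝ) : rho x - rho y = ((x - y).2, th (x - y)) := by
  ext
  · simp [rho]
  · simp only [rho, th, Prod.snd_sub, Prod.fst_sub]
    ring

private theorem sw_sub (x y : ℝ × ℝ) : sw x - sw y = ((x - y).2, (x - y).1) := by
  ext <;> simp [sw]

private theorem th_rho (e : ℝ × ℝ) : th (e.2, th e) = e.1 := by
  simp only [th]
  ring

private theorem f0_rho (e : ℝ × ℝ) : f0 (e.2, th e) = f0 e := by
  rcases three_cases e with h | h | h
  · rw [f0_a h, f0_c (e := (e.2, th e)) (by rw [th_rho]; simpa [mul_comm] using h), th_rho]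
  · rw [f0_b h, f0_a (e := (e.2, th e)) h, th_rho]
  · rw [f0_c h, f0_b (e := (e.2, th e)) (by rw [th_rho]; simpa [mul_comm] using h), th_rho]

private theorem f0_sw (e : ℝ × ℝ) : f0 (e.2, e.1) = -f0 e := by
  have ht : th (e.2, e.1) = th e := by
    simp only [th]
    ring
  rcases three_cases e with h | h | h
  · rw [f0_a h, f0_a (e := (e.2, e.1)) (by simpa [mul_comm] using h), ht]
    ring
  · rw [f0_b h, f0_c (e := (e.2, e.1)) (by rw [ht]; exact h), ht]
    ring
  · rw [f0_c h, f0_b (e := (e.2, e.1)) (by rw [ht]; exact h), ht]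
    ring

private theorem HH_rho (x y z : ℝ × ℝ) : HH (rho x) (rho y) (rho z) = HH x y z := by
  rw [HH, HH, rho_sub, rho_sub, rho_sub, f0_rho, f0_rho, f0_rho]
  simp only [dd, rho]
  ring

private theorem HH_sw (x y z : ℝ × ℝ) : HH (sw z) (sw y) (sw x) = HH x y z := by
  rw [HH, HH, sw_sub, sw_sub, sw_sub, f0_sw, f0_sw, f0_sw, ← f0_neg, ← f0_neg, ← f0_neg,
    neg_sub, neg_sub, neg_sub]
  simp only [dd, sw]
  ring

private theorem Eb_rho {r : ℝ} {e : ℝ × ℝ} :
    (Eb r 2 (e.2, th e) → Eb r 0 e) ∧ (Eb r 0 (e.2, th e) → Eb r 1 e) ∧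
      (Eb r 1 (e.2, th e) → Eb r 2 e) := by
  refine ⟨?_, ?_, ?_⟩ <;> rintro ⟨h1, h2, h3⟩ <;>
    simp only [ce, th, Matrix.cons_val_zero, Matrix.cons_val_one,
        Matrix.cons_val] at h1 h2 h3 <;> refine ⟨?_, ?_, ?_⟩ <;>
    simp only [ce, th, Matrix.cons_val_zero, Matrix.cons_val_one,
        Matrix.cons_val] <;> rw [abs_le] at h1 h2 h3 ⊢ <;> constructor <;> linarith

private theorem Eb_sw {r : ℝ} {e : ℝ × ℝ} :
    (Eb r 0 (-(e.2, e.1)) → Eb r 0 (-e)) ∧ (Eb r 2 (-(e.2, e.1)) → Eb r 1 (-e)) ∧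
      (Eb r 1 (-(e.2, e.1)) → Eb r 2 (-e)) := by
  refine ⟨?_, ?_, ?_⟩ <;> rintro ⟨h1, h2, h3⟩ <;>
    simp only [ce, th, Matrix.cons_val_zero, Matrix.cons_val_one, Prod.fst_neg, Prod.snd_neg,
        Matrix.cons_val] at h1 h2 h3 <;> refine ⟨?_, ?_, ?_⟩ <;>
    simp only [ce, th, Matrix.cons_val_zero, Matrix.cons_val_one, Prod.fst_neg, Prod.snd_neg,
        Matrix.cons_val] <;> rw [abs_le] at h1 h2 h3 ⊢ <;> constructor <;> linarith

private theorem Near_rho {r : ℝ} {x y z : ℝ × ℝ} (h : Near r (rho x) (rho y) (rho z)) :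
    Near r z x y := by
  obtain ⟨h1, h2, h3⟩ := h
  rw [rho_sub] at h1 h2 h3
  exact ⟨Eb_rho.1 h3, Eb_rho.2.1 h1, Eb_rho.2.2 h2⟩

private theorem neg_rho_sub (x y : ℝ × ℝ) : -rho y - -rho x = ((-y - -x).2, th (-y - -x)) := by
  have h := rho_sub x y
  have h2 : -rho y - -rho x = rho x - rho y := by abel
  rw [h2, h]
  have h3 : -y - -x = x - y := by abel
  rw [h3]

private theorem Near_rho_neg {r : ℝ} {x y z : ℝ × ℝ} (h : Near r (-rho x) (-rho y) (-rho z)) :
    Near r (-z) (-x) (-y) := by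
  obtain ⟨h1, h2, h3⟩ := h
  rw [neg_rho_sub] at h1 h2 h3
  exact ⟨Eb_rho.1 h3, Eb_rho.2.1 h1, Eb_rho.2.2 h2⟩

private theorem NearA_rho {r : ℝ} {x y z : ℝ × ℝ} (h : NearA r (rho x) (rho y) (rho z)) :
    NearA r x y z := by
  rcases h with (h | h | h) | (h | h | h)
  · exact Or.inl (Or.inr (Or.inr (Near_rho h)))
  · exact Or.inl (Or.inl (Near_rho h))
  · exact Or.inl (Or.inr (Or.inl (Near_rho h)))
  · exact Or.inr (Or.inr (Or.inr (Near_rho_neg h)))
  · exact Or.inr (Or.inl (Near_rho_neg h))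
  · exact Or.inr (Or.inr (Or.inl (Near_rho_neg h)))

private theorem sw_sub' (x y : ℝ × ℝ) : sw x - sw y = -((y - x).2, (y - x).1) := by
  rw [sw_sub]
  ext <;> simp

private theorem Near_sw {r : ℝ} {x y z : ℝ × ℝ} (h : Near r (sw z) (sw y) (sw x)) :
    Near r (-y) (-z) (-x) := by
  obtain ⟨h1, h2, h3⟩ := h
  rw [sw_sub'] at h1 h2 h3
  have e : ∀ a b : ℝ × ℝ, -a - -b = -(a - b) := fun a b => by abel
  refine ⟨?_, ?_, ?_⟩ <;> rw [e]
  · exact Eb_sw.1 h1
  · exact Eb_sw.2.1 h3
  · exact Eb_sw.2.2 h2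

private theorem Near_sw_neg {r : ℝ} {x y z : ℝ × ℝ} (h : Near r (-sw z) (-sw y) (-sw x)) :
    Near r y z x := by
  obtain ⟨h1, h2, h3⟩ := h
  have e : ∀ a b : ℝ × ℝ, -sw a - -sw b = -((a - b).2, (a - b).1) := fun a b => by
    rw [← sw_sub]
    abel
  have e' : ∀ a b : ℝ × ℝ, a - b = -(b - a) := fun a b => by abel
  rw [e] at h1 h2 h3
  refine ⟨?_, ?_, ?_⟩ <;> rw [e']
  · exact Eb_sw.1 h1
  · exact Eb_sw.2.1 h3
  · exact Eb_sw.2.2 h2

private theorem NearA_sw {r : ℝ} {x y z : ℝ × ℝ} (h : NearA r (sw z) (sw y) (sw x)) :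
    NearA r x y z := by
  rcases h with (h | h | h) | (h | h | h)
  · exact Or.inr (Or.inr (Or.inl (Near_sw h)))
  · exact Or.inr (Or.inl (Near_sw h))
  · exact Or.inr (Or.inr (Or.inr (Near_sw h)))
  · exact Or.inl (Or.inr (Or.inl (Near_sw_neg h)))
  · exact Or.inl (Or.inl (Near_sw_neg h))
  · exact Or.inl (Or.inr (Or.inr (Near_sw_neg h)))

private theorem CellP_rho {x y z : ℝ × ℝ} (h : CellP (rho x) (rho y) (rho z)) : CellP x y z := by
  unfold CellP at h ⊢
  rw [HH_rho] at h
  exact ⟨h.1, fun h' => NearA_rho (h.2 h')⟩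

private theorem CellP_sw {x y z : ℝ × ℝ} (h : CellP (sw z) (sw y) (sw x)) : CellP x y z := by
  unfold CellP at h ⊢
  rw [HH_sw] at h
  exact ⟨h.1, fun h' => NearA_sw (h.2 h')⟩

private theorem CellP_cyc {x y z : ℝ × ℝ} (h : CellP y z x) : CellP x y z := by
  unfold CellP at h ⊢
  rw [HH_cyc] at h
  refine ⟨h.1, fun h' => ?_⟩
  rcases h.2 h' with (h | h | h) | (h | h | h)
  · exact Or.inl (Or.inr (Or.inl h))
  · exact Or.inl (Or.inr (Or.inr h))
  · exact Or.inl (Or.inl h)
  · exact Or.inr (Or.inr (Or.inl h))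
  · exact Or.inr (Or.inr (Or.inr h))
  · exact Or.inr (Or.inl h)

private theorem Tr_rho {x : ℝ × ℝ} (h : Tr 0 x) : Tr 0 (rho x) := by
  obtain ⟨h1, h2, h3⟩ := h
  refine ⟨?_, ?_, ?_⟩ <;> simp only [rho] <;> linarith

private theorem Tr_sw {x : ℝ × ℝ} (h : Tr 0 x) : Tr 0 (sw x) := by
  obtain ⟨h1, h2, h3⟩ := h
  refine ⟨?_, ?_, ?_⟩ <;> simp only [sw] <;> linarith

/-- `y - x` with two nonpositive or two nonnegative first coordinates -/
private theorem cell_two {x y z : ℝ × ℝ} (hx : Tr 0 x) (hy : Tr 0 y) (hz : Tr 0 z)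
    (h : 0 ≤ (y - x).1 * (y - x).2) : CellP x y z := by
  simp only [Prod.fst_sub, Prod.snd_sub] at h
  rcases mul_nonneg_iff.1 h with ⟨h1, h2⟩ | ⟨h1, h2⟩
  · -- reflection: the edge becomes the second one of `sw z, sw y, sw x`
    refine CellP_sw (CellP_cyc ?_)
    exact cell_sorted (Tr_sw hy) (Tr_sw hx) (Tr_sw hz) (by simp only [sw]; linarith)
      (by simp only [sw]; linarith)
  · exact cell_sorted hx hy hz (by linarith) (by linarith)

/-- The certificate, strict away from the optimal triangles. -/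
theorem cell_all {x y z : ℝ × ℝ} (hx : Tr 0 x) (hy : Tr 0 y) (hz : Tr 0 z) :
    0 ≤ HH x y z ∧ (HH x y z < 1 / 40000 → NearA (1 / 40) x y z) := by
  change CellP x y z
  rcases three_cases (y - x) with h | h | h
  · exact cell_two hx hy hz h
  · refine CellP_rho (cell_two (Tr_rho hx) (Tr_rho hy) (Tr_rho hz) ?_)
    rw [rho_sub]
    exact h
  · refine CellP_rho (CellP_rho (cell_two (Tr_rho (Tr_rho hx)) (Tr_rho (Tr_rho hy))
      (Tr_rho (Tr_rho hz)) ?_))
    rw [rho_sub, rho_sub, th_rho]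
    simpa [mul_comm] using h

end NT31
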