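import Pool.Agent.W_fa9b59_h31.Defs
import Pool.Agent.W_fa9b59_h88.Cells

set_option autoImplicit false

/-!
# Cells with nonempty interior
-/

open MeasureTheory Metric Set

namespace NT31

open FB88

private theorem Clean_mem {S : ℝ} {x : E} :
    x ∈ Rs S ↔ (EuclideanSpace.equiv (Fin 2) ℝ) x ∈ Set.Icc (fun _ : Fin 2 => (0 : ℝ))
      (fun _ : Fin 2 => S) := by
  have h0 : ∀ k : Fin 2, (EuclideanSpace.equiv (Fin 2) ℝ) x k = x k := fun k => rfl
  rw [Set.mem_Icc, Pi.le_def, Pi.le_def, Fin.forall_fin_two, Fin.forall_fin_two]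
  simp only [h0]
  unfold Rs
  rw [Set.mem_ofPred_eq]
  tauto

private theorem Clean_eq (S : ℝ) : Rs S = (EuclideanSpace.equiv (Fin 2) ℝ) ⁻¹'
    Set.Icc (fun _ : Fin 2 => (0 : ℝ)) (fun _ : Fin 2 => S) := by
  ext x
  exact Clean_mem

private theorem Clean_body {S : ℝ} (hS : 0 < S) : Body (Rs S) := by
  refine ⟨?_, ?_, ⟨pt 0 0, ?_⟩⟩
  · rw [Clean_eq]
    exact (convex_Icc _ _).is_linear_preimage
      (EuclideanSpace.equiv (Fin 2) ℝ).toLinearEquiv.toLinearMap.isLinear
  · rw [Clean_eq]
    exact (EuclideanSpace.equiv (Fin 2) ℝ).toHomeomorph.isCompact_preimage.2 isCompact_Icc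
  · simp [Rs, pt, hS.le]

private theorem Clean_int {S : ℝ} (hS : 0 < S) : (interior (Rs S)).Nonempty := by
  refine ⟨pt (S / 2) (S / 2), ?_⟩
  have ho : IsOpen {x : E | 0 < x 0 ∧ x 0 < S ∧ 0 < x 1 ∧ x 1 < S} := by
    have c0 : Continuous fun x : E => x 0 := by fun_prop
    have c1 : Continuous fun x : E => x 1 := by fun_prop
    exact (isOpen_lt continuous_const c0).inter ((isOpen_lt c0 continuous_const).inter
      ((isOpen_lt continuous_const c1).inter (isOpen_lt c1 continuous_const)))
  have hsub : {x : E | 0 < x 0 ∧ x 0 < S ∧ 0 < x 1 ∧ x 1 < S} ⊆ Rs S :=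
    fun x hx => ⟨hx.1.le, hx.2.1.le, hx.2.2.1.le, hx.2.2.2.le⟩
  refine interior_maximal hsub ho ?_
  simp only [Set.mem_ofPred_eq, pt]
  simp [hS]

/-- A covering of the square `Rs S` by translates of `K` can be refined to convex cells with nonempty interior. PROOF.
Restrict to the indices `i` with `(tr (v i) K ∩ Rs S).Nonempty` (subtype), apply `FB88.cells` (`Rs S` is a `Body`), and
remove the cells with empty interior: they are convex with empty interior, so they have measure zero
(`Convex.addHaar_frontier` or `Convex.interior_nonempty_iff_affineSpan_eq_top`) resp. their union is closed with empty interior; the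
union `U` of the others is closed (finite union of compact sets) and contains `Rs S` up to a set of measure zero, hence
contains the interior of `Rs S` (an open set contained in a closed set up to measure zero is contained in it) and its closure `Rs S`. -/
theorem exists_cells {ι : Type} [Fintype ι] [DecidableEq ι] {K : Set E} (hK : Body K)
    (v : ι → E) {S : ℝ} (hS : 0 < S) (hcov : Rs S ⊆ ⋃ i, tr (v i) K) :
    ∃ (s : Finset ι) (C : {i // i ∈ s} → Set E), Cells S C ∧
      ∀ i : {i // i ∈ s}, C i ⊆ tr (v i) K := by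
  classical
  have hB := Clean_body hS
  have hcov' : Rs S ⊆ ⋃ i : {i // (tr (v i) K ∩ Rs S).Nonempty}, tr (v i) K := by
    intro x hx
    obtain ⟨i, hi⟩ := mem_iUnion.1 (hcov hx)
    exact mem_iUnion.2 ⟨⟨i, x, hi, hx⟩, hi⟩
  obtain ⟨C, hC, hCc, hCd⟩ := cells hK (fun i : {i // (tr (v i) K ∩ Rs S).Nonempty} => v i) hB
    (fun i => i.2) hcov'
  set s : Finset ι := Finset.univ.filter (fun i => ∃ h : (tr (v i) K ∩ Rs S).Nonempty,
    (interior (C ⟨i, h⟩)).Nonempty) with hs
  have hmem : ∀ i : {i // i ∈ s}, ∃ h : (tr (v i) K ∩ Rs S).Nonempty,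
      (interior (C ⟨i, h⟩)).Nonempty := fun i => (Finset.mem_filter.1 i.2).2
  refine ⟨s, fun i => C ⟨i.1, (hmem i).fst⟩, ⟨?_, ?_, ?_, ?_, ?_⟩, ?_⟩
  · intro i
    exact (hC _).1
  · intro i x hx
    exact ((hC _).2 hx).2
  · intro i
    exact (hmem i).snd
  · have hUc : IsClosed (⋃ i : {i // i ∈ s}, C ⟨i.1, (hmem i).fst⟩) :=
      isClosed_iUnion_of_finite fun i => (hC _).1.2.1.isClosed
    have hdense : Dense (⋂ j : {j : {i // (tr (v i) K ∩ Rs S).Nonempty} //
        interior (C j) = ∅}, (C j.1)ᶜ) := by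
      refine dense_iInter_of_isOpen (fun j => (hC _).1.2.1.isClosed.isOpen_compl) fun j => ?_
      exact interior_eq_empty_iff_dense_compl.1 j.2
    have hint : interior (Rs S) ⊆ ⋃ i : {i // i ∈ s}, C ⟨i.1, (hmem i).fst⟩ := by
      by_contra hcon
      obtain ⟨x, hx1, hx2⟩ := Set.not_subset.1 hcon
      have hopen : IsOpen (interior (Rs S) ∩ (⋃ i : {i // i ∈ s}, C ⟨i.1, (hmem i).fst⟩)ᶜ) :=
        isOpen_interior.inter hUc.isOpen_compl
      obtain ⟨y, hy1, hy2⟩ := hdense.inter_open_nonempty _ hopen ⟨x, hx1, hx2⟩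
      obtain ⟨j, hj⟩ := mem_iUnion.1 (hCc (interior_subset hy1.1))
      by_cases hjI : interior (C j) = ∅
      · exact (mem_iInter.1 hy2 ⟨j, hjI⟩) hj
      · apply hy1.2
        have hjs : j.1 ∈ s := by
          rw [hs, Finset.mem_filter]
          exact ⟨Finset.mem_univ _, j.2, Set.nonempty_iff_ne_empty.2 hjI⟩
        exact mem_iUnion.2 ⟨⟨j.1, hjs⟩, hj⟩
    have hcl := hB.1.closure_interior_eq_closure_of_nonempty_interior (Clean_int hS)
    intro x hx
    have h1 : x ∈ closure (interior (Rs S)) := by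
      rw [hcl]
      exact subset_closure hx
    exact closure_minimal hint hUc h1
  · intro i j hij
    apply hCd
    intro h
    apply hij
    have h2 := congrArg Subtype.val h
    exact Subtype.ext h2
  · intro i x hx
    exact ((hC _).2 hx).1

end NT31
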