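import Pool.Agent.W_fa9b59_h88.HexLat
import Pool.Agent.W_fa9b59_h88.Stmt

set_option autoImplicit false

/-!
# MP_fa9b59_co, neighbourhoods of the triangles: definitions for the covering part

A covering by translates of `K` is refined to a tiling of a square by convex cells; the square is swept by a horizontal
line, and the chain of the cells met by the line changes by triangle moves.
-/

open MeasureTheory Metric Set

namespace NT31

open FB88

/-- the point with coordinates `x, y` -/
noncomputable def pt (x y : ℝ) : E := !₂[x, y]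

/-- the edge function `½ (v₀ + w₀) (w₁ - v₁) - φ (v - w)`; antisymmetric if `φ` is odd -/
noncomputable def gg (φ : E → ℝ) (v w : E) : ℝ := (v 0 + w 0) / 2 * (w 1 - v 1) - φ (v - w)

/-- the triangle inequality with the edge potential `φ` -/
def TB (K : Set E) (φ : E → ℝ) (c : ℝ) : Prop :=
  ∀ x ∈ K, ∀ y ∈ K, ∀ z ∈ K, det2 (y - x) (z - x) / 2 ≤ c + φ (y - x) + φ (z - y) + φ (x - z)

/-- the square of side `S` -/
def Rs (S : ℝ) : Set E := {x | 0 ≤ x 0 ∧ x 0 ≤ S ∧ 0 ≤ x 1 ∧ x 1 ≤ S}

/-- the boundary of the square -/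
def Fr (S : ℝ) : Set E := {x | x ∈ Rs S ∧ (x 0 = 0 ∨ x 0 = S ∨ x 1 = 0 ∨ x 1 = S)}

/-- convex cells tiling the square -/
structure Cells (S : ℝ) {ι : Type} (C : ι → Set E) : Prop where
  body : ∀ i, Body (C i)
  sub : ∀ i, C i ⊆ Rs S
  int : ∀ i, (interior (C i)).Nonempty
  cov : Rs S ⊆ ⋃ i, C i
  disj : ∀ i j, i ≠ j → interior (C i ∩ C j) = ∅

/-- lowest height -/
noncomputable def lo (C : Set E) : ℝ := sInf ((fun x : E => x 1) '' C)

/-- largest height -/
noncomputable def hi (C : Set E) : ℝ := sSup ((fun x : E => x 1) '' C)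

/-- left end of the slice at height `y` -/
noncomputable def sa (C : Set E) (y : ℝ) : ℝ := sInf {x | pt x y ∈ C}

/-- right end of the slice at height `y` -/
noncomputable def sb (C : Set E) (y : ℝ) : ℝ := sSup {x | pt x y ∈ C}

/-- the cell `i` is active at height `y` -/
def Act {ι : Type} (C : ι → Set E) (y : ℝ) (i : ι) : Prop := lo (C i) < y ∧ y < hi (C i)

/-- `y` is not an event height -/
def NonEv {ι : Type} (C : ι → Set E) (y : ℝ) : Prop := ∀ i, y ≠ lo (C i) ∧ y ≠ hi (C i)

/-- sum of `g` over the consecutive pairs of `i :: L` -/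
def PhiL {ι : Type} (g : ι → ι → ℝ) : ι → List ι → ℝ
  | _, [] => 0
  | i, j :: L => g i j + PhiL g j L

/-- the intervals `[a e, b e]` of `i :: L` are consecutive, the last one ends at `S` -/
def Ch {ι : Type} (a b : ι → ℝ) (S : ℝ) : ι → List ι → Prop
  | i, [] => b i = S
  | i, j :: L => b i = a j ∧ Ch a b S j L

/-- last element of `i :: L` -/
def lastD {ι : Type} : ι → List ι → ι
  | i, [] => i
  | _, j :: L => lastD j L

/-- `i :: L` is the chain of the active cells at height `y`, from left to right -/
structure Row {ι : Type} (C : ι → Set E) (S y : ℝ) (i : ι) (L : List ι) : Prop where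
  nd : (i :: L).Nodup
  act : ∀ e, e ∈ i :: L ↔ Act C y e
  head : sa (C i) y = 0
  ch : Ch (fun e => sa (C e) y) (fun e => sb (C e) y) S i L

/-- number of the indices with `y < f i ≤ y'` -/
noncomputable def c1 {ι : Type} [Fintype ι] (f : ι → ℝ) (y y' : ℝ) : ℕ :=
  by classical exact (Finset.univ.filter (fun i => y < f i ∧ f i ≤ y')).card

/-- number of the indices with `y ≤ f i < y'` -/
noncomputable def c2 {ι : Type} [Fintype ι] (f : ι → ℝ) (y y' : ℝ) : ℕ :=
  by classical exact (Finset.univ.filter (fun i => y ≤ f i ∧ f i < y')).card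

/-- top of the part of the cell on the left side of the square (`0` if it is empty) -/
noncomputable def bL (C : Set E) : ℝ := sSup {t | pt 0 t ∈ C}

/-- top of the part of the cell on the right side of the square (`0` if it is empty) -/
noncomputable def bR (S : ℝ) (C : Set E) : ℝ := sSup {t | pt S t ∈ C}

/-- the allowed increase between the heights `y` and `y'` -/
noncomputable def Mc {ι : Type} [Fintype ι] (C : ι → Set E) (S c c' y y' : ℝ) : ℝ :=
  c * ((c1 (fun i => hi (C i)) y y' : ℝ) + c1 (fun i => lo (C i)) y y') +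
    c' * ((c2 (fun i => bL (C i)) y y' : ℝ) + c2 (fun i => bR S (C i)) y y')

/-- the value of a chain of cells with centres `v` -/
noncomputable def Vl {ι : Type} (φ : E → ℝ) (v : ι → E) (S : ℝ) (i : ι) (L : List ι) : ℝ :=
  PhiL (fun e f => gg φ (v e) (v f)) i L - S * v (lastD i L) 1

end NT31
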