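import Pool.Agent.W_fa9b59_h31.Core
import Pool.Agent.W_fa9b59_h31.Defs

set_option autoImplicit false

/-!
# Affine coordinates
-/

open MeasureTheory Metric Set

namespace NT31

open FB88

/-- coordinates of a vector with respect to `a = P - R`, `b = Q - R` -/
noncomputable def cv (a b : E) (e : E) : ℝ × ℝ := (det2 e b / det2 a b, det2 a e / det2 a b)

theorem cv_add (a b e f : E) : cv a b (e + f) = cv a b e + cv a b f := by
  unfold cv det2
  ext
  · simp only [PiLp.add_apply, Prod.fst_add]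
    ring
  · simp only [PiLp.add_apply, Prod.snd_add]
    ring

theorem cv_sub (a b e f : E) : cv a b (e - f) = cv a b e - cv a b f := by
  unfold cv det2
  ext
  · simp only [PiLp.sub_apply, Prod.fst_sub]
    ring
  · simp only [PiLp.sub_apply, Prod.snd_sub]
    ring

theorem cv_neg (a b e : E) : cv a b (-e) = -cv a b e := by
  unfold cv det2
  ext
  · simp only [PiLp.neg_apply, Prod.fst_neg]
    ring
  · simp only [PiLp.neg_apply, Prod.snd_neg]
    ring

theorem cv_smul (a b : E) (t : ℝ) (e : E) : cv a b (t • e) = t • cv a b e := by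
  unfold cv det2
  ext
  · simp only [PiLp.smul_apply, Prod.smul_fst, smul_eq_mul]
    ring
  · simp only [PiLp.smul_apply, Prod.smul_snd, smul_eq_mul]
    ring

theorem cv_a {a b : E} (h : 0 < det2 a b) : cv a b a = (1, 0) := by
  have h0 : det2 a a = 0 := by
    unfold det2
    ring
  unfold cv
  rw [h0, div_self h.ne', zero_div]

theorem cv_b {a b : E} (h : 0 < det2 a b) : cv a b b = (0, 1) := by
  have h0 : det2 b b = 0 := by
    unfold det2
    ring
  unfold cv
  rw [h0, div_self h.ne', zero_div]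

/-- PROOF. Coordinates. -/
theorem cv_eq {a b : E} (h : 0 < det2 a b) (e : E) :
    e = (cv a b e).1 • a + (cv a b e).2 • b := by
  have h1 : ∀ k : Fin 2, det2 a b * e k = det2 e b * a k + det2 a e * b k := by
    rw [Fin.forall_fin_two]
    unfold det2
    constructor <;> ring
  ext k
  simp only [PiLp.add_apply, PiLp.smul_apply, smul_eq_mul, cv]
  have h2 := h1 k
  have h3 := h.ne'
  field_simp
  linarith

/-- PROOF. `cv_eq` for the two vectors, bilinearity of `det2`. -/
theorem det2_cv {a b : E} (h : 0 < det2 a b) (e f : E) :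
    det2 e f = det2 a b * ((cv a b e).1 * (cv a b f).2 - (cv a b e).2 * (cv a b f).1) := by
  have h1 : det2 a b * det2 e f = det2 e b * det2 a f - det2 a e * det2 f b := by
    unfold det2
    ring
  have h3 := h.ne'
  simp only [cv]
  field_simp
  linarith

private theorem Coord_cont (a b R : E) : Continuous fun x : E => cv a b (x - R) := by
  unfold cv det2
  fun_prop

private theorem Coord_comb {a b : E} (h : 0 < det2 a b) (u w : ℝ) :
    cv a b (u • a + w • b) = (u, w) := by
  rw [cv_add, cv_smul, cv_smul, cv_a h, cv_b h]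
  ext <;> simp

/-- The disk in coordinates. PROOF. `x = R + u • (P - R) + w • (Q - R)` has barycentric coordinates `u, w, 1 - u - w`. `K'` is the image of `K` under the affine
homeomorphism `x ↦ cv (P - R) (Q - R) (x - R)` (equivalently the preimage under `b ↦ R + b.1 • (P - R) + b.2 • (Q - R)`): convex, compact. -/
theorem KS_coord {K : Set E} (hc : Convex ℝ K) (hk : IsCompact K) {P Q R : E}
    (hd : 0 < det2 (P - R) (Q - R)) {τ : ℝ} (ht : 0 < τ) (ht1 : τ ≤ 1 / 3)
    (h1 : (1 / 3 - τ) • P + (2 / 3 + τ) • Q ∈ K) (h2 : (2 / 3 + τ) • P + (1 / 3 - τ) • Q ∈ K)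
    (h3 : (1 / 3 - τ) • Q + (2 / 3 + τ) • R ∈ K) (h4 : (2 / 3 + τ) • Q + (1 / 3 - τ) • R ∈ K)
    (h5 : (1 / 3 - τ) • R + (2 / 3 + τ) • P ∈ K) (h6 : (2 / 3 + τ) • R + (1 / 3 - τ) • P ∈ K)
    (hs : ∀ x ∈ K, ∃ p q r : ℝ, p + q + r = 1 ∧ -((τ / 10 ^ 9) ^ 2) ≤ p ∧
      -((τ / 10 ^ 9) ^ 2) ≤ q ∧ -((τ / 10 ^ 9) ^ 2) ≤ r ∧ x = p • P + q • Q + r • R) :
    KS {b : ℝ × ℝ | R + b.1 • (P - R) + b.2 • (Q - R) ∈ K} τ (τ / 10 ^ 9) := by
  have key : ∀ {u w p q r : ℝ}, p + q + r = 1 → u = p → w = q →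
      R + u • (P - R) + w • (Q - R) = p • P + q • Q + r • R := by
    intro u w p q r hs1 hu hw
    subst hu hw
    ext k
    simp only [PiLp.add_apply, PiLp.smul_apply, PiLp.sub_apply, smul_eq_mul]
    linear_combination (-(R k)) * hs1
  refine ⟨?_, ?_, ht, ht1, rfl, ?_, ?_, ?_, ?_, ?_, ?_, ?_⟩
  · intro x hx y hy α β hα hβ hαβ
    have h0 := hc hx hy hα hβ hαβ
    rw [Set.mem_ofPred_eq]
    convert h0 using 1
    ext k
    simp only [PiLp.add_apply, PiLp.smul_apply, PiLp.sub_apply, smul_eq_mul, Prod.fst_add,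
      Prod.snd_add, Prod.smul_fst, Prod.smul_snd]
    linear_combination (-(R k)) * hαβ
  · have himg : {b : ℝ × ℝ | R + b.1 • (P - R) + b.2 • (Q - R) ∈ K} =
        (fun x : E => cv (P - R) (Q - R) (x - R)) '' K := by
      ext b
      constructor
      · intro hb
        refine ⟨_, hb, ?_⟩
        dsimp only
        rw [add_assoc, add_sub_cancel_left, Coord_comb hd]
      · rintro ⟨x, hx, rfl⟩
        rw [Set.mem_ofPred_eq, add_assoc, ← cv_eq hd, add_sub_cancel]
        exact hx
    rw [himg]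
    exact hk.image (Coord_cont _ _ _)
  · intro b hb
    obtain ⟨p, q, r, h0, hp, hq, hr, hx⟩ := hs _ hb
    have h7 := key h0 (rfl : p = p) (rfl : q = q)
    rw [← h7, add_assoc, add_assoc, add_right_inj] at hx
    have h8 := congrArg (cv (P - R) (Q - R)) hx
    rw [Coord_comb hd, Coord_comb hd] at h8
    have h9 := congrArg Prod.fst h8
    have h10 := congrArg Prod.snd h8
    dsimp only at h9 h10
    refine ⟨by rw [h9]; exact hp, by rw [h10]; exact hq, ?_⟩
    rw [h9, h10]
    linarith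
  · rw [Set.mem_ofPred_eq, key (p := 1 / 3 - τ) (q := 2 / 3 + τ) (r := 0) (by ring) rfl rfl,
      zero_smul, add_zero]
    exact h1
  · rw [Set.mem_ofPred_eq, key (p := 2 / 3 + τ) (q := 1 / 3 - τ) (r := 0) (by ring) rfl rfl,
      zero_smul, add_zero]
    exact h2
  · rw [Set.mem_ofPred_eq, key (p := 0) (q := 1 / 3 - τ) (r := 2 / 3 + τ) (by ring) rfl rfl,
      zero_smul, zero_add]
    exact h3
  · rw [Set.mem_ofPred_eq, key (p := 0) (q := 2 / 3 + τ) (r := 1 / 3 - τ) (by ring) rfl rfl,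
      zero_smul, zero_add]
    exact h4
  · rw [Set.mem_ofPred_eq, key (p := 1 / 3 - τ) (q := 0) (r := 2 / 3 + τ) (by ring) rfl rfl,
      zero_smul, add_zero, add_comm]
    exact h6
  · rw [Set.mem_ofPred_eq, key (p := 2 / 3 + τ) (q := 0) (r := 1 / 3 - τ) (by ring) rfl rfl,
      zero_smul, add_zero, add_comm]
    exact h5

end NT31
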