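import Mathlib

set_option autoImplicit false

/-!
# Splitting a linear functional bounded on an intersection
-/

namespace NT31

/-- Separation. Let `A`, `B` be convex subsets of a real finite dimensional normed space `F`, `A` and `B` with a common interior point,
and `L` a linear functional with `L S ≤ c` on `A ∩ B`. Then `L = f + g` with `f S + g S' ≤ c` for all `S ∈ A`, `S' ∈ B`. PROOF. In `F × ℝ` the
convex set `W = {(S - S', t) | S ∈ interior A, S' ∈ interior B, t < L S - c}` is open and does not contain `(0, 0)` (`S = S'` gives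
`L S - c ≤ 0`). `geometric_hahn_banach_open_point`: a functional `(u, a)` with `u (S - S') + a t < 0` on `W`. As `t → -∞`, `a ≥ 0`; `a > 0` since
for a common interior point `S₀` all `(w, t)` with small `w` and `t < L S₀ - c - 1` are in `W`, so `a = 0` would give `u w < 0` for all small `w`.
Divide by `a`: `u' (S - S') + L S - c ≤ 0`; take `f = L + u'`, `g = - u'`; pass to the closures of the interiors (`A ⊆ closure (interior A)`). -/
theorem split_functional {F : Type} [NormedAddCommGroup F] [NormedSpace ℝ F]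
    [FiniteDimensional ℝ F] {A B : Set F} (hA : Convex ℝ A) (hB : Convex ℝ B)
    (hAB : (interior A ∩ interior B).Nonempty) (L : F →L[ℝ] ℝ) (c : ℝ)
    (hL : ∀ S ∈ A ∩ B, L S ≤ c) :
    ∃ f g : F →L[ℝ] ℝ, f + g = L ∧ ∀ S ∈ A, ∀ S' ∈ B, f S + g S' ≤ c := by
  classical
  obtain ⟨S₀, hS₀A, hS₀B⟩ := hAB
  set W : Set (F × ℝ) := {p | ∃ S ∈ interior A, ∃ S' ∈ interior B, p.1 = S - S' ∧ p.2 < L S - c} with hW
  have hWc : Convex ℝ W := by
    rintro ⟨w₁, t₁⟩ ⟨S₁, hS₁, T₁, hT₁, hw₁, ht₁⟩ ⟨w₂, t₂⟩ ⟨S₂, hS₂, T₂, hT₂, hw₂, ht₂⟩ a b ha hb hab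
    refine ⟨a • S₁ + b • S₂, hA.interior hS₁ hS₂ ha hb hab, a • T₁ + b • T₂,
      hB.interior hT₁ hT₂ ha hb hab, ?_, ?_⟩
    · simp only at hw₁ hw₂
      simp only [Prod.smul_mk, Prod.mk_add_mk, hw₁, hw₂, smul_sub]
      abel
    · simp only at ht₁ ht₂
      simp only [Prod.smul_mk, Prod.mk_add_mk, smul_eq_mul, map_add, map_smul]
      have hc : c = a * c + b * c := by rw [← add_mul, hab, one_mul]
      rcases eq_or_lt_of_le ha with h0 | h0
      · have hb1 : b = 1 := by linarith
        rw [← h0, hb1]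
        linarith
      · have h1 : a * t₁ < a * (L S₁ - c) := mul_lt_mul_of_pos_left ht₁ h0
        have h2 : b * t₂ ≤ b * (L S₂ - c) := mul_le_mul_of_nonneg_left ht₂.le hb
        nlinarith
  have hWo : IsOpen W := by
    have hWU : W = ⋃ S' ∈ interior B, {p : F × ℝ | p.1 + S' ∈ interior A ∧ p.2 < L (p.1 + S') - c} := by
      ext p
      simp only [hW, Set.mem_ofPred_eq, Set.mem_iUnion, exists_prop]
      constructor
      · rintro ⟨S, hS, S', hS', h1, h2⟩
        refine ⟨S', hS', ?_, ?_⟩
        · rw [h1, sub_add_cancel]; exact hS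
        · rw [h1, sub_add_cancel]; exact h2
      · rintro ⟨S', hS', h1, h2⟩
        exact ⟨p.1 + S', h1, S', hS', by abel, h2⟩
    rw [hWU]
    refine isOpen_biUnion fun S' _ => ?_
    refine IsOpen.inter ?_ ?_
    · exact isOpen_interior.preimage (by fun_prop : Continuous fun p : F × ℝ => p.1 + S')
    · have hc1 : Continuous fun p : F × ℝ => p.2 := continuous_snd
      have hc2 : Continuous fun p : F × ℝ => L (p.1 + S') - c := by fun_prop
      exact isOpen_lt hc1 hc2
  have h0W : (0 : F × ℝ) ∉ W := by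
    rintro ⟨S, hS, S', hS', h1, h2⟩
    simp only [Prod.fst_zero, Prod.snd_zero] at h1 h2
    have hSS : S = S' := by
      have := sub_eq_zero.mp h1.symm
      exact this
    have := hL S ⟨interior_subset hS, interior_subset (hSS ▸ hS')⟩
    linarith
  obtain ⟨φ, hφ⟩ := geometric_hahn_banach_open_point hWc hWo h0W
  rw [map_zero] at hφ
  set u : F →L[ℝ] ℝ := φ.comp (ContinuousLinearMap.inl ℝ F ℝ) with hu
  set a : ℝ := φ (0, 1) with haDef
  have hφe : ∀ w : F, ∀ t : ℝ, φ (w, t) = u w + t * a := by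
    intro w t
    have h1 : ((w, t) : F × ℝ) = (w, 0) + t • ((0 : F), (1 : ℝ)) := by
      ext <;> simp
    rw [h1, map_add, map_smul, smul_eq_mul]
    rfl
  have hlt : ∀ S ∈ interior A, ∀ S' ∈ interior B, ∀ t : ℝ, t < L S - c → u (S - S') + t * a < 0 := by
    intro S hS S' hS' t ht
    have := hφ (S - S', t) ⟨S, hS, S', hS', rfl, ht⟩
    rwa [hφe] at this
  have ha : 0 < a := by
    have h1 := hlt S₀ hS₀A S₀ hS₀B (min (L S₀ - c) 0 - 1) (by
      have := min_le_left (L S₀ - c) 0
      linarith)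
    rw [sub_self, map_zero, zero_add] at h1
    have h2 : min (L S₀ - c) 0 - 1 < 0 := by
      have := min_le_right (L S₀ - c) 0
      linarith
    by_contra hna
    push Not at hna
    have := mul_nonneg_of_nonpos_of_nonpos h2.le hna
    linarith
  have hle : ∀ S ∈ interior A, ∀ S' ∈ interior B, u (S - S') + (L S - c) * a ≤ 0 := by
    intro S hS S' hS'
    by_contra hcon
    push Not at hcon
    have hx := hlt S hS S' hS' (L S - c - (u (S - S') + (L S - c) * a) / (2 * a)) (by
      have : 0 < (u (S - S') + (L S - c) * a) / (2 * a) := by positivity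
      linarith)
    have h3 : (u (S - S') + (L S - c) * a) / (2 * a) * a = (u (S - S') + (L S - c) * a) / 2 := by
      field_simp
    rw [sub_mul, h3] at hx
    linarith
  refine ⟨L + a⁻¹ • u, -(a⁻¹ • u), by abel, ?_⟩
  have hint : ∀ p ∈ interior A ×ˢ interior B,
      (L + a⁻¹ • u) p.1 + (-(a⁻¹ • u)) p.2 ≤ c := by
    rintro ⟨S, S'⟩ ⟨hS, hS'⟩
    have h1 := hle S hS S' hS'
    simp only [add_apply, neg_apply, smul_apply,
      smul_eq_mul]
    rw [map_sub] at h1
    have h2 : a⁻¹ * (u S - u S' + (L S - c) * a) ≤ 0 :=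
      mul_nonpos_of_nonneg_of_nonpos (by positivity) h1
    have h3 : a⁻¹ * (u S - u S' + (L S - c) * a) = a⁻¹ * u S - a⁻¹ * u S' + (L S - c) := by
      field_simp
    linarith
  have hcl : closure (interior A ×ˢ interior B) ⊆
      {p : F × F | (L + a⁻¹ • u) p.1 + (-(a⁻¹ • u)) p.2 ≤ c} := by
    refine closure_minimal hint ?_
    exact isClosed_le (by fun_prop) (by fun_prop)
  intro S hS S' hS'
  have hSc : S ∈ closure (interior A) := by
    rw [Convex.closure_interior_eq_closure_of_nonempty_interior hA ⟨S₀, hS₀A⟩]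
    exact subset_closure hS
  have hSc' : S' ∈ closure (interior B) := by
    rw [Convex.closure_interior_eq_closure_of_nonempty_interior hB ⟨S₀, hS₀B⟩]
    exact subset_closure hS'
  have : (S, S') ∈ closure (interior A ×ˢ interior B) := by
    rw [closure_prod_eq]
    exact ⟨hSc, hSc'⟩
  exact hcl this

end NT31
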