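import Pool.Agent.W_fa9b59_h31.NearId
import Pool.Agent.W_fa9b59_h31.Sep

set_option autoImplicit false

/-!
# Lagrange multipliers
-/

namespace NT31

/-- First order condition. PROOF. For `s ∈ [0, 1]` replace `x, y, z, v` by `x + s (X - x)`, ..., `v + s (V - v)`: feasible by convexity
(`(v + s (V - v)) - (x + s (X - x)) = (1 - s) (v - x) + s (V - X)`). `dd_expand`: the area is `dd x y z + s a + s² b`, `a` the left side, so `a ≤ - s b`
for all small `s > 0`. -/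
theorem first_order {K : Set (ℝ × ℝ)} (hK : Convex ℝ K) {x y z v : ℝ × ℝ} (ho : Opt K x y z v)
    {X Y Z V : ℝ × ℝ} (hX : X ∈ K) (hY : Y ∈ K) (hZ : Z ∈ K) (hVX : V - X ∈ K) (hVY : V - Y ∈ K)
    (hVZ : V - Z ∈ K) :
    ip (y.2 - z.2, z.1 - y.1) (X - x) + ip (z.2 - x.2, x.1 - z.1) (Y - y) +
      ip (x.2 - y.2, y.1 - x.1) (Z - z) ≤ 0 := by
  set a : ℝ := ip (y.2 - z.2, z.1 - y.1) (X - x) + ip (z.2 - x.2, x.1 - z.1) (Y - y) +
      ip (x.2 - y.2, y.1 - x.1) (Z - z) with ha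
  set b : ℝ := dd (X - x) (Y - y) (Z - z) with hb
  have hmem : ∀ s : ℝ, 0 ≤ s → s ≤ 1 → ∀ p ∈ K, ∀ q ∈ K, p + s • (q - p) ∈ K := by
    intro s h0 h1 p hp q hq
    have h2 : p + s • (q - p) = (1 - s) • p + s • q := by
      rw [smul_sub, sub_smul, one_smul]
      abel
    rw [h2]
    exact hK hp hq (by linarith) h0 (by ring)
  have hvm : ∀ s : ℝ, 0 ≤ s → s ≤ 1 → ∀ p q : ℝ × ℝ, v - p ∈ K → V - q ∈ K →
      (v + s • (V - v)) - (p + s • (q - p)) ∈ K := by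
    intro s h0 h1 p q hp hq
    have h2 : (v + s • (V - v)) - (p + s • (q - p)) = (v - p) + s • ((V - q) - (v - p)) := by
      simp only [smul_sub]
      abel
    rw [h2]
    exact hmem s h0 h1 _ hp _ hq
  have hall : ∀ s : ℝ, 0 ≤ s → s ≤ 1 → s * a + s ^ 2 * b ≤ 0 := by
    intro s h0 h1
    have h2 := ho.opt (x + s • (X - x)) (hmem s h0 h1 x ho.hx X hX) (y + s • (Y - y))
      (hmem s h0 h1 y ho.hy Y hY) (z + s • (Z - z)) (hmem s h0 h1 z ho.hz Z hZ)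
      (v + s • (V - v)) (hvm s h0 h1 x X ho.vx hVX) (hvm s h0 h1 y Y ho.vy hVY)
      (hvm s h0 h1 z Z ho.vz hVZ)
    have h3 : dd (x + s • (X - x)) (y + s • (Y - y)) (z + s • (Z - z)) =
        dd x y z + s * a + s ^ 2 * b := by
      rw [ha, hb]
      simp only [dd, ip, Prod.fst_add, Prod.snd_add, Prod.smul_fst, Prod.smul_snd, Prod.fst_sub,
        Prod.snd_sub, smul_eq_mul]
      ring
    linarith
  by_contra hcon
  push Not at hcon
  have hs0 : 0 < a / (a + |b|) := div_pos hcon (by positivity)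
  have hs1 : a / (a + |b|) ≤ 1 := by
    rw [div_le_one (by positivity)]
    linarith [abs_nonneg b]
  have hs2 : 0 < a / (a + |b|) / 2 := by positivity
  have h4 := hall (a / (a + |b|) / 2) hs2.le (by linarith)
  have h5 : a / (a + |b|) * |b| ≤ a := by
    rw [div_mul_eq_mul_div, div_le_iff₀ (by positivity)]
    nlinarith [abs_nonneg b]
  have h6 : -|b| ≤ b := neg_abs_le b
  have h7 : a + a / (a + |b|) / 2 * b ≤ 0 := by
    by_contra hcc
    push Not at hcc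
    have h8 : 0 < a / (a + |b|) / 2 * (a + a / (a + |b|) / 2 * b) := mul_pos hs2 hcc
    nlinarith
  have h9 : a / (a + |b|) / 2 * (-|b|) ≤ a / (a + |b|) / 2 * b :=
    mul_le_mul_of_nonneg_left h6 hs2.le
  linarith

/-- PROOF. `split_functional` in `F = (ℝ × ℝ) × (ℝ × ℝ) × (ℝ × ℝ)` with `A = K × K × K`, `B = {(X, Y, Z) | ∃ V, V - X, V - Y, V - Z ∈ K}`, `L` the left side of
`first_order`, `c = L (x, y, z)`. A common interior point: `(q, q, q)` with `q` an interior point of `K` (`V = 2 q`). So `f (S) ≤ f (x, y, z)` for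
`S ∈ A` and `g (S') ≤ g (x, y, z)` for `S' ∈ B`. `B` is invariant under the translations `(w, w, w)`, so `g (w, w, w) = 0`; `L (w, w, w) = 0`
(`ip (y.2 - z.2, z.1 - y.1) w + ... = 0`), so `f (w, w, w) = 0`. `l1` = coefficients of `f` on the first component etc. Change one component
only. -/
theorem mult_exists {K : Set (ℝ × ℝ)} (hK : Convex ℝ K) (hKi : (interior K).Nonempty)
    {x y z v : ℝ × ℝ} (ho : Opt K x y z v) :
    ∃ l1 l2 l3 : ℝ × ℝ, l1 + l2 + l3 = 0 ∧ (∀ k ∈ K, ip l1 (k - x) ≤ 0) ∧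
      (∀ k ∈ K, ip l2 (k - y) ≤ 0) ∧ (∀ k ∈ K, ip l3 (k - z) ≤ 0) ∧
      (∀ k ∈ K, ip ((y.2 - z.2, z.1 - y.1) - l1) (v - k - x) ≤ 0) ∧
      (∀ k ∈ K, ip ((z.2 - x.2, x.1 - z.1) - l2) (v - k - y) ≤ 0) ∧
      (∀ k ∈ K, ip ((x.2 - y.2, y.1 - x.1) - l3) (v - k - z) ≤ 0) := by
  classical
  set n1 : ℝ × ℝ := (y.2 - z.2, z.1 - y.1) with hn1
  set n2 : ℝ × ℝ := (z.2 - x.2, x.1 - z.1) with hn2
  set n3 : ℝ × ℝ := (x.2 - y.2, y.1 - x.1) with hn3
  let A : Set ((ℝ × ℝ) × (ℝ × ℝ) × (ℝ × ℝ)) := K ×ˢ (K ×ˢ K)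
  let B : Set ((ℝ × ℝ) × (ℝ × ℝ) × (ℝ × ℝ)) :=
    {S | ∃ V : ℝ × ℝ, V - S.1 ∈ K ∧ V - S.2.1 ∈ K ∧ V - S.2.2 ∈ K}
  have hA : Convex ℝ A := hK.prod (hK.prod hK)
  have hB : Convex ℝ B := by
    rintro S ⟨V, h1, h2, h3⟩ S' ⟨V', h1', h2', h3'⟩ a b ha hb hab
    refine ⟨a • V + b • V', ?_, ?_, ?_⟩
    · have h := hK h1 h1' ha hb hab
      have e : a • V + b • V' - (a • S + b • S').1 = a • (V - S.1) + b • (V' - S'.1) := by
        simp only [Prod.fst_add, Prod.smul_fst, smul_sub]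
        abel
      rw [e]
      exact h
    · have h := hK h2 h2' ha hb hab
      have e : a • V + b • V' - (a • S + b • S').2.1 = a • (V - S.2.1) + b • (V' - S'.2.1) := by
        simp only [Prod.fst_add, Prod.snd_add, Prod.smul_fst, Prod.smul_snd, smul_sub]
        abel
      rw [e]
      exact h
    · have h := hK h3 h3' ha hb hab
      have e : a • V + b • V' - (a • S + b • S').2.2 = a • (V - S.2.2) + b • (V' - S'.2.2) := by
        simp only [Prod.snd_add, Prod.smul_snd, smul_sub]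
        abel
      rw [e]
      exact h
  obtain ⟨q, hq⟩ := hKi
  have hqA : (q, q, q) ∈ interior A := by
    simp only [A, interior_prod_eq]
    exact ⟨hq, hq, hq⟩
  have hqB : (q, q, q) ∈ interior B := by
    have hopen : IsOpen {S : (ℝ × ℝ) × (ℝ × ℝ) × (ℝ × ℝ) | (q + q) - S.1 ∈ interior K ∧
        (q + q) - S.2.1 ∈ interior K ∧ (q + q) - S.2.2 ∈ interior K} := by
      refine IsOpen.inter ?_ (IsOpen.inter ?_ ?_)
      · exact isOpen_interior.preimage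
          (by fun_prop : Continuous fun S : (ℝ × ℝ) × (ℝ × ℝ) × (ℝ × ℝ) => (q + q) - S.1)
      · exact isOpen_interior.preimage
          (by fun_prop : Continuous fun S : (ℝ × ℝ) × (ℝ × ℝ) × (ℝ × ℝ) => (q + q) - S.2.1)
      · exact isOpen_interior.preimage
          (by fun_prop : Continuous fun S : (ℝ × ℝ) × (ℝ × ℝ) × (ℝ × ℝ) => (q + q) - S.2.2)
    refine mem_interior.2 ⟨_, ?_, hopen, ?_⟩
    · rintro S ⟨h1, h2, h3⟩
      exact ⟨q + q, interior_subset h1, interior_subset h2, interior_subset h3⟩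
    · have e : q + q - q = q := by abel
      refine ⟨?_, ?_, ?_⟩ <;> simpa only [e] using hq
  let L : ((ℝ × ℝ) × (ℝ × ℝ) × (ℝ × ℝ)) →L[ℝ] ℝ := LinearMap.toContinuousLinearMap
    { toFun := fun S => ip n1 S.1 + ip n2 S.2.1 + ip n3 S.2.2
      map_add' := by
        intro S T
        simp only [ip, Prod.fst_add, Prod.snd_add]
        ring
      map_smul' := by
        intro t S
        simp only [ip, Prod.smul_fst, Prod.smul_snd, smul_eq_mul, RingHom.id_apply]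
        ring }
  have hLe : ∀ S, L S = ip n1 S.1 + ip n2 S.2.1 + ip n3 S.2.2 := fun S => rfl
  have hLc : ∀ S ∈ A ∩ B, L S ≤ L (x, y, z) := by
    rintro S ⟨⟨h1, h2, h3⟩, ⟨V, h4, h5, h6⟩⟩
    have h := first_order hK ho h1 h2 h3 h4 h5 h6
    rw [hLe, hLe]
    simp only [ip, Prod.fst_sub, Prod.snd_sub] at h ⊢
    linarith
  obtain ⟨f, g, hfg, hle⟩ := split_functional hA hB ⟨_, hqA, hqB⟩ L _ hLc
  have hsA : ((x, y, z) : (ℝ × ℝ) × (ℝ × ℝ) × (ℝ × ℝ)) ∈ A := ⟨ho.hx, ho.hy, ho.hz⟩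
  have hsB : ((x, y, z) : (ℝ × ℝ) × (ℝ × ℝ) × (ℝ × ℝ)) ∈ B := ⟨v, ho.vx, ho.vy, ho.vz⟩
  have hLfg : ∀ S, L S = f S + g S := by
    intro S
    rw [← hfg]
    rfl
  have hf : ∀ S ∈ A, f S ≤ f (x, y, z) := by
    intro S hS
    have h := hle S hS _ hsB
    rw [hLfg] at h
    linarith
  have hg : ∀ S ∈ B, g S ≤ g (x, y, z) := by
    intro S hS
    have h := hle _ hsA S hS
    rw [hLfg] at h
    linarith
  have hgw1 : ∀ w : ℝ × ℝ, g (w, w, w) ≤ 0 := by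
    intro w
    have h := hg ((x, y, z) + (w, w, w)) ⟨v + w, by
      simpa only [Prod.mk_add_mk, add_sub_add_right_eq_sub] using ho.vx, by
      simpa only [Prod.mk_add_mk, add_sub_add_right_eq_sub] using ho.vy, by
      simpa only [Prod.mk_add_mk, add_sub_add_right_eq_sub] using ho.vz⟩
    rw [map_add] at h
    linarith
  have hgw : ∀ w : ℝ × ℝ, g (w, w, w) = 0 := by
    intro w
    have h1 := hgw1 w
    have h2 := hgw1 (-w)
    have h3 : ((-w, -w, -w) : (ℝ × ℝ) × (ℝ × ℝ) × (ℝ × ℝ)) = -(w, w, w) := rfl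
    rw [h3, map_neg] at h2
    linarith
  have hfw : ∀ w : ℝ × ℝ, f (w, w, w) = 0 := by
    intro w
    have h1 := hLfg (w, w, w)
    rw [hgw w, hLe] at h1
    simp only [ip, hn1, hn2, hn3] at h1
    linarith
  have hf1 : ∀ e : ℝ × ℝ, ip (f ((1, 0), 0, 0), f ((0, 1), 0, 0)) e = f (e, 0, 0) := by
    intro e
    have h1 : ((e, 0, 0) : (ℝ × ℝ) × (ℝ × ℝ) × (ℝ × ℝ)) =
        e.1 • (((1, 0), 0, 0) : (ℝ × ℝ) × (ℝ × ℝ) × (ℝ × ℝ)) +
          e.2 • (((0, 1), 0, 0) : (ℝ × ℝ) × (ℝ × ℝ) × (ℝ × ℝ)) := by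
      ext <;> simp
    rw [h1, map_add, map_smul, map_smul]
    simp only [ip, smul_eq_mul]
    ring
  have hf2 : ∀ e : ℝ × ℝ, ip (f (0, (1, 0), 0), f (0, (0, 1), 0)) e = f (0, e, 0) := by
    intro e
    have h1 : ((0, e, 0) : (ℝ × ℝ) × (ℝ × ℝ) × (ℝ × ℝ)) =
        e.1 • ((0, (1, 0), 0) : (ℝ × ℝ) × (ℝ × ℝ) × (ℝ × ℝ)) +
          e.2 • ((0, (0, 1), 0) : (ℝ × ℝ) × (ℝ × ℝ) × (ℝ × ℝ)) := by
      ext <;> simp
    rw [h1, map_add, map_smul, map_smul]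
    simp only [ip, smul_eq_mul]
    ring
  have hf3 : ∀ e : ℝ × ℝ, ip (f (0, 0, (1, 0)), f (0, 0, (0, 1))) e = f (0, 0, e) := by
    intro e
    have h1 : ((0, 0, e) : (ℝ × ℝ) × (ℝ × ℝ) × (ℝ × ℝ)) =
        e.1 • ((0, 0, (1, 0)) : (ℝ × ℝ) × (ℝ × ℝ) × (ℝ × ℝ)) +
          e.2 • ((0, 0, (0, 1)) : (ℝ × ℝ) × (ℝ × ℝ) × (ℝ × ℝ)) := by
      ext <;> simp
    rw [h1, map_add, map_smul, map_smul]
    simp only [ip, smul_eq_mul]
    ring
  have hsum : ∀ w : ℝ × ℝ, f (w, 0, 0) + f (0, w, 0) + f (0, 0, w) = 0 := by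
    intro w
    have h := hfw w
    have h1 : ((w, w, w) : (ℝ × ℝ) × (ℝ × ℝ) × (ℝ × ℝ)) = (w, 0, 0) + (0, w, 0) + (0, 0, w) := by
      ext <;> simp
    rw [h1, map_add, map_add] at h
    exact h
  have hipsub : ∀ a b e : ℝ × ℝ, ip (a - b) e = ip a e - ip b e := by
    intro a b e
    simp only [ip, Prod.fst_sub, Prod.snd_sub]
    ring
  refine ⟨(f ((1, 0), 0, 0), f ((0, 1), 0, 0)), (f (0, (1, 0), 0), f (0, (0, 1), 0)),
    (f (0, 0, (1, 0)), f (0, 0, (0, 1))), ?_, ?_, ?_, ?_, ?_, ?_, ?_⟩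
  · rw [Prod.mk_add_mk, Prod.mk_add_mk, hsum, hsum]
    rfl
  · intro k hk
    have h := hf (k, y, z) ⟨hk, ho.hy, ho.hz⟩
    have h1 : ((k - x, 0, 0) : (ℝ × ℝ) × (ℝ × ℝ) × (ℝ × ℝ)) = (k, y, z) - (x, y, z) := by
      ext <;> simp
    rw [hf1, h1, map_sub]
    linarith
  · intro k hk
    have h := hf (x, k, z) ⟨ho.hx, hk, ho.hz⟩
    have h1 : ((0, k - y, 0) : (ℝ × ℝ) × (ℝ × ℝ) × (ℝ × ℝ)) = (x, k, z) - (x, y, z) := by
      ext <;> simp
    rw [hf2, h1, map_sub]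
    linarith
  · intro k hk
    have h := hf (x, y, k) ⟨ho.hx, ho.hy, hk⟩
    have h1 : ((0, 0, k - z) : (ℝ × ℝ) × (ℝ × ℝ) × (ℝ × ℝ)) = (x, y, k) - (x, y, z) := by
      ext <;> simp
    rw [hf3, h1, map_sub]
    linarith
  · intro k hk
    have h := hg (v - k, y, z) ⟨v, by
      show v - (v - k) ∈ K
      rw [sub_sub_cancel]
      exact hk, ho.vy, ho.vz⟩
    have h1 : ((v - k - x, 0, 0) : (ℝ × ℝ) × (ℝ × ℝ) × (ℝ × ℝ)) = (v - k, y, z) - (x, y, z) := by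
      ext <;> simp
    have h2 := hLfg (v - k - x, 0, 0)
    have h3 := hLe (v - k - x, 0, 0)
    have h4 : g (v - k - x, 0, 0) ≤ 0 := by
      rw [h1, map_sub]
      linarith
    rw [hipsub, hf1]
    simp only [ip, Prod.fst_zero, Prod.snd_zero, mul_zero, add_zero] at h3 ⊢
    linarith
  · intro k hk
    have h := hg (x, v - k, z) ⟨v, ho.vx, by
      show v - (v - k) ∈ K
      rw [sub_sub_cancel]
      exact hk, ho.vz⟩
    have h1 : ((0, v - k - y, 0) : (ℝ × ℝ) × (ℝ × ℝ) × (ℝ × ℝ)) = (x, v - k, z) - (x, y, z) := by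
      ext <;> simp
    have h2 := hLfg (0, v - k - y, 0)
    have h3 := hLe (0, v - k - y, 0)
    have h4 : g (0, v - k - y, 0) ≤ 0 := by
      rw [h1, map_sub]
      linarith
    rw [hipsub, hf2]
    simp only [ip, Prod.fst_zero, Prod.snd_zero, mul_zero, add_zero, zero_add] at h3 ⊢
    linarith
  · intro k hk
    have h := hg (x, y, v - k) ⟨v, ho.vx, ho.vy, by
      show v - (v - k) ∈ K
      rw [sub_sub_cancel]
      exact hk⟩
    have h1 : ((0, 0, v - k - z) : (ℝ × ℝ) × (ℝ × ℝ) × (ℝ × ℝ)) = (x, y, v - k) - (x, y, z) := by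
      ext <;> simp
    have h2 := hLfg (0, 0, v - k - z)
    have h3 := hLe (0, 0, v - k - z)
    have h4 : g (0, 0, v - k - z) ≤ 0 := by
      rw [h1, map_sub]
      linarith
    rw [hipsub, hf3]
    simp only [ip, Prod.fst_zero, Prod.snd_zero, mul_zero, add_zero, zero_add] at h3 ⊢
    linarith

end NT31
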