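import Pool.Agent.W_fa9b59_h31.NearId

set_option autoImplicit false

/-!
# Estimates for the multipliers
-/

namespace NT31

private theorem MultEst_one {τ δ α β a b : ℝ} (ht : 0 < τ) (hd : δ = τ / 10 ^ 9)
    (h1 : |α| ≤ τ / 2) (h3 : |β| ≤ 11 * δ ^ 2)
    (i1 : (α + τ) * a + β * b ≤ 0) (i2 : (α - τ) * a + β * b ≤ 0) : |a| ≤ δ / 10 * |b| := by
  have hδ : 0 < δ := by rw [hd]; positivity
  have hb : -(β * b) ≤ 11 * δ ^ 2 * |b| := by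
    calc -(β * b) ≤ |β * b| := neg_le_abs _
      _ = |β| * |b| := abs_mul _ _
      _ ≤ 11 * δ ^ 2 * |b| := mul_le_mul_of_nonneg_right h3 (abs_nonneg b)
  obtain ⟨h1a, h1b⟩ := abs_le.1 h1
  have key : τ / 2 * |a| ≤ 11 * δ ^ 2 * |b| := by
    rcases le_total 0 a with ha | ha
    · rw [abs_of_nonneg ha]
      have : τ / 2 * a ≤ (α + τ) * a := mul_le_mul_of_nonneg_right (by linarith) ha
      linarith
    · rw [abs_of_nonpos ha]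
      have : τ / 2 * -a ≤ (τ - α) * -a := mul_le_mul_of_nonneg_right (by linarith) (by linarith)
      nlinarith
  have hτ : τ = 10 ^ 9 * δ := by rw [hd]; ring
  rw [hτ] at key
  have hbn := abs_nonneg b
  have key2 : δ * (10 ^ 9 / 2 * |a|) ≤ δ * (11 * δ * |b|) := by nlinarith
  have key3 := le_of_mul_le_mul_left key2 hδ
  have : 0 ≤ δ * |b| := mul_nonneg hδ.le hbn
  nlinarith

/-- Two directions. `U = |l(u)|`, `W = |l(w)|` etc. for a functional `l` and its complement `m = L - l`. Abstract form: `a = l(u)`, `b = l(w)`, `a' = m(u)`,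
`b' = m(w)`. From the four inequalities `(α ± τ) a + β b ≤ 0`, `β' a' + (α' ± τ) b' ≤ 0` with `|α|, |α'| ≤ τ / 2`, `|β|, |β'| ≤ 11 δ²`, `δ ≤ τ / 10^9`:
`|a| ≤ (22 δ² / τ) |b|`, `|b'| ≤ (22 δ² / τ) |a'|`, `22 δ² / τ ≤ δ / 10`, and `|a + a'| ≤ 1`, `|b + b'| ≤ 1`. So `|b| ≤ 1 + |b'| ≤ 1 + |a'| / 10 ≤ 2`, `|a'| ≤ 2`
and `|a|, |b'| ≤ δ`. -/
theorem two_dir {τ δ α β α' β' a b a' b' : ℝ} (ht : 0 < τ) (ht1 : τ ≤ 1 / 3)
    (hd : δ = τ / 10 ^ 9) (h1 : |α| ≤ τ / 2) (h2 : |α'| ≤ τ / 2) (h3 : |β| ≤ 11 * δ ^ 2)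
    (h4 : |β'| ≤ 11 * δ ^ 2) (i1 : (α + τ) * a + β * b ≤ 0) (i2 : (α - τ) * a + β * b ≤ 0)
    (i3 : β' * a' + (α' + τ) * b' ≤ 0) (i4 : β' * a' + (α' - τ) * b' ≤ 0)
    (j1 : |a + a'| ≤ 1) (j2 : |b + b'| ≤ 1) : |a| ≤ δ ∧ |b'| ≤ δ := by
  have hδ : 0 < δ := by rw [hd]; positivity
  have hδ1 : δ ≤ 1 := by rw [hd]; linarith
  have k1 := MultEst_one ht hd h1 h3 i1 i2
  have k2 := MultEst_one (a := b') (b := a') ht hd h2 h4 (by linarith) (by linarith)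
  have e1 : |a'| ≤ 1 + |a| := by
    have : |a'| ≤ |a + a'| + |a| := by
      have h := abs_sub (a + a') a
      rwa [add_sub_cancel_left] at h
    linarith
  have e2 : |b| ≤ 1 + |b'| := by
    have : |b| ≤ |b + b'| + |b'| := by
      have h := abs_sub (b + b') b'
      rwa [add_sub_cancel_right] at h
    linarith
  have n1 := abs_nonneg a
  have n2 := abs_nonneg b
  have n3 := abs_nonneg a'
  have n4 := abs_nonneg b'
  have f1 : δ / 10 * |b| ≤ 1 / 10 * |b| := mul_le_mul_of_nonneg_right (by linarith) n2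
  have f2 : δ / 10 * |a'| ≤ 1 / 10 * |a'| := mul_le_mul_of_nonneg_right (by linarith) n3
  have g1 : |b| ≤ 2 := by linarith
  have g2 : |a'| ≤ 2 := by linarith
  have g3 : δ / 10 * |b| ≤ δ / 10 * 2 := mul_le_mul_of_nonneg_left g1 (by linarith)
  have g4 : δ / 10 * |a'| ≤ δ / 10 * 2 := mul_le_mul_of_nonneg_left g2 (by linarith)
  exact ⟨by linarith, by linarith⟩

/-- points of a segment in a convex set, by the parameter -/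
private theorem MultEst_seg {K : Set (ℝ × ℝ)} (hK : Convex ℝ K) {a b : ℝ × ℝ} (ha : a ∈ K)
    (hb : b ∈ K) (t : ℝ) (h0 : 0 ≤ t) (h1 : t ≤ 1) {c : ℝ × ℝ}
    (hc1 : c.1 = (1 - t) * a.1 + t * b.1) (hc2 : c.2 = (1 - t) * a.2 + t * b.2) : c ∈ K := by
  have h := hK ha hb (by linarith : (0 : ℝ) ≤ 1 - t) h0 (by ring)
  have e : (1 - t) • a + t • b = c := by
    refine Prod.ext ?_ ?_
    · rw [hc1]; simp
    · rw [hc2]; simp
  rwa [e] at h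

/-- PROOF. For each vertex `two_dir`. Vertex `x` (on the side with third coordinate `0`), `u = (1, -1)`, `w = (1, 0)`: `k - x = α u + β w` with
`β = 1 - x.1 - x.2 - (1 - k.1 - k.2)`, `α = x.2 - k.2`; `k = (1/3 ± τ, 2/3 ∓ τ)`. And `v - x` is on the side with second coordinate `0`: `(v - x) - k = α' u + β' w`,
hence `α' = -((v - x) - k).2`, `β'` = minus its third coordinate `(1 - ..)`; `k = (1/3 ± τ, 0)`. Then `l1 (u) = l1.1 - l1.2` and `m1 (w) = m1.1` are at most `δ` in modulus,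
`m1 = (y.2 - z.2, z.1 - y.1) - l1`, so `|l1.1 - (y.2 - z.2)| ≤ δ`, `|l1.2 - l1.1| ≤ δ`, `|y.2 - z.2 - 1/3| ≤ 11 δ`. Vertex `y` (first coordinate `0`), `u = (0, 1)` (along the side),
`v - y` has third coordinate `0`, `w = (1, -1)`. Vertex `z` (second coordinate `0`), `u = (1, 0)`, `v - z` has first coordinate `0`, `w = (0, 1)`. The points of the sides
in `K`: convex combinations of the given ones. -/
theorem mult_est {K : Set (ℝ × ℝ)} {τ δ : ℝ} (h : KS K τ δ) {x y z v l1 l2 l3 : ℝ × ℝ}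
    (hp : Pos δ x y z v) (hx : ∀ k ∈ K, ip l1 (k - x) ≤ 0)
    (hy : ∀ k ∈ K, ip l2 (k - y) ≤ 0) (hz : ∀ k ∈ K, ip l3 (k - z) ≤ 0)
    (gx : ∀ k ∈ K, ip ((y.2 - z.2, z.1 - y.1) - l1) (v - k - x) ≤ 0)
    (gy : ∀ k ∈ K, ip ((z.2 - x.2, x.1 - z.1) - l2) (v - k - y) ≤ 0)
    (gz : ∀ k ∈ K, ip ((x.2 - y.2, y.1 - x.1) - l3) (v - k - z) ≤ 0) :
    (|l1.1 - 1 / 3| ≤ 50 * δ ∧ |l1.2 - 1 / 3| ≤ 50 * δ) ∧
      (|l2.1 + 1 / 3| ≤ 50 * δ ∧ |l2.2| ≤ 50 * δ) ∧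
      (|l3.1| ≤ 50 * δ ∧ |l3.2 + 1 / 3| ≤ 50 * δ) := by
  have ht := h.tau0
  have ht1 := h.tau1
  have hd := h.del
  have hδ : 0 < δ := by rw [hd]; positivity
  have hτ : τ = 10 ^ 9 * δ := by rw [hd]; ring
  have hδ1 : δ ≤ 1 / 10 ^ 9 := by rw [hd]; linarith
  have hsq : 11 * δ ^ 2 ≤ δ := by nlinarith
  have hsq0 : 0 ≤ δ ^ 2 := sq_nonneg δ
  obtain ⟨dlo, dhi, x3, x1, x2, y1, y2, z2, z1, vx2, vx1, vy3, vy1, vz1, vz2⟩ := hp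
  obtain ⟨x3a, x3b⟩ := abs_le.1 x3
  obtain ⟨x1a, x1b⟩ := abs_le.1 x1
  obtain ⟨x2a, x2b⟩ := abs_le.1 x2
  obtain ⟨y1a, y1b⟩ := abs_le.1 y1
  obtain ⟨y2a, y2b⟩ := abs_le.1 y2
  obtain ⟨z2a, z2b⟩ := abs_le.1 z2
  obtain ⟨z1a, z1b⟩ := abs_le.1 z1
  obtain ⟨vx2a, vx2b⟩ := abs_le.1 vx2
  obtain ⟨vx1a, vx1b⟩ := abs_le.1 vx1
  obtain ⟨vy3a, vy3b⟩ := abs_le.1 vy3
  obtain ⟨vy1a, vy1b⟩ := abs_le.1 vy1
  obtain ⟨vz1a, vz1b⟩ := abs_le.1 vz1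
  obtain ⟨vz2a, vz2b⟩ := abs_le.1 vz2
  have hden : 0 < 1 / 3 + 2 * τ := by linarith
  -- points of the sides
  have t0 : 0 ≤ 2 * τ / (1 / 3 + 2 * τ) := by positivity
  have t1 : 2 * τ / (1 / 3 + 2 * τ) ≤ 1 := by
    rw [div_le_one hden]; linarith
  have te : 2 * τ / (1 / 3 + 2 * τ) * (1 / 3 + 2 * τ) = 2 * τ := div_mul_cancel₀ _ hden.ne'
  set t := 2 * τ / (1 / 3 + 2 * τ) with htdef
  have p3a : ((1 / 3 + τ, 2 / 3 - τ) : ℝ × ℝ) ∈ K :=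
    MultEst_seg h.conv h.s3a h.s3b t t0 t1 (by simp only; linarith) (by simp only; linarith)
  have p3b : ((2 / 3 - τ, 1 / 3 + τ) : ℝ × ℝ) ∈ K :=
    MultEst_seg h.conv h.s3b h.s3a t t0 t1 (by simp only; linarith) (by simp only; linarith)
  have p1a : ((0, 1 / 3 + τ) : ℝ × ℝ) ∈ K :=
    MultEst_seg h.conv h.s1a h.s1b t t0 t1 (by simp only; ring) (by simp only; linarith)
  have p1b : ((0, 2 / 3 - τ) : ℝ × ℝ) ∈ K :=
    MultEst_seg h.conv h.s1b h.s1a t t0 t1 (by simp only; ring) (by simp only; linarith)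
  have p2a : ((1 / 3 + τ, 0) : ℝ × ℝ) ∈ K :=
    MultEst_seg h.conv h.s2a h.s2b t t0 t1 (by simp only; linarith) (by simp only; ring)
  have p2b : ((2 / 3 - τ, 0) : ℝ × ℝ) ∈ K :=
    MultEst_seg h.conv h.s2b h.s2a t t0 t1 (by simp only; linarith) (by simp only; ring)
  -- vertex x
  have qx1 := hx _ p3a
  have qx2 := hx _ h.s3a
  have rx1 := gx _ p2a
  have rx2 := gx _ h.s2a
  have qy1 := hy _ p1a
  have qy2 := hy _ h.s1a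
  have ry1 := gy _ p3b
  have ry2 := gy _ h.s3b
  have qz1 := hz _ p2b
  have qz2 := hz _ h.s2b
  have rz1 := gz _ p1b
  have rz2 := gz _ h.s1b
  simp only [ip, Prod.fst_sub, Prod.snd_sub] at qx1 qx2 rx1 rx2 qy1 qy2 ry1 ry2 qz1 qz2 rz1 rz2
  have X := two_dir (τ := τ) (δ := δ) (α := x.2 - 2 / 3) (β := 1 - x.1 - x.2)
    (α' := (v.1 - x.1 - 1 / 3) + (v.2 - x.2)) (β' := -(v.2 - x.2)) (a := l1.1 - l1.2)
    (b := l1.1) (a' := (y.2 - z.2 - l1.1) - (z.1 - y.1 - l1.2)) (b' := y.2 - z.2 - l1.1)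
    ht ht1 hd (abs_le.2 ⟨by linarith, by linarith⟩) (abs_le.2 ⟨by linarith, by linarith⟩)
    (abs_le.2 ⟨by linarith, by linarith⟩) (abs_le.2 ⟨by linarith, by linarith⟩)
    (le_of_eq_of_le (by ring) qx1) (le_of_eq_of_le (by ring) qx2)
    (le_of_eq_of_le (by ring) rx2) (le_of_eq_of_le (by ring) rx1)
    (abs_le.2 ⟨by linarith, by linarith⟩) (abs_le.2 ⟨by linarith, by linarith⟩)
  have Y := two_dir (τ := τ) (δ := δ) (α := 1 / 3 - y.2 - y.1) (β := -y.1)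
    (α' := v.1 - y.1 - 2 / 3) (β' := (v.1 - y.1) + (v.2 - y.2) - 1) (a := l2.2)
    (b := l2.1 - l2.2) (a' := x.1 - z.1 - l2.2) (b' := (z.2 - x.2 - l2.1) - (x.1 - z.1 - l2.2))
    ht ht1 hd (abs_le.2 ⟨by linarith, by linarith⟩) (abs_le.2 ⟨by linarith, by linarith⟩)
    (abs_le.2 ⟨by linarith, by linarith⟩) (abs_le.2 ⟨by linarith, by linarith⟩)
    (le_of_eq_of_le (by ring) qy1) (le_of_eq_of_le (by ring) qy2)
    (le_of_eq_of_le (by ring) ry1) (le_of_eq_of_le (by ring) ry2)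
    (abs_le.2 ⟨by linarith, by linarith⟩) (abs_le.2 ⟨by linarith, by linarith⟩)
  have Z := two_dir (τ := τ) (δ := δ) (α := 2 / 3 - z.1) (β := -z.2)
    (α' := v.2 - z.2 - 2 / 3) (β' := v.1 - z.1) (a := l3.1)
    (b := l3.2) (a' := x.2 - y.2 - l3.1) (b' := y.1 - x.1 - l3.2)
    ht ht1 hd (abs_le.2 ⟨by linarith, by linarith⟩) (abs_le.2 ⟨by linarith, by linarith⟩)
    (abs_le.2 ⟨by linarith, by linarith⟩) (abs_le.2 ⟨by linarith, by linarith⟩)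
    (le_of_eq_of_le (by ring) qz2) (le_of_eq_of_le (by ring) qz1)
    (le_of_eq_of_le (by ring) rz1) (le_of_eq_of_le (by ring) rz2)
    (abs_le.2 ⟨by linarith, by linarith⟩) (abs_le.2 ⟨by linarith, by linarith⟩)
  obtain ⟨Xa, Xb⟩ := X
  obtain ⟨Ya, Yb⟩ := Y
  obtain ⟨Za, Zb⟩ := Z
  obtain ⟨Xa1, Xa2⟩ := abs_le.1 Xa
  obtain ⟨Xb1, Xb2⟩ := abs_le.1 Xb
  obtain ⟨Ya1, Ya2⟩ := abs_le.1 Ya
  obtain ⟨Yb1, Yb2⟩ := abs_le.1 Yb
  obtain ⟨Za1, Za2⟩ := abs_le.1 Za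
  obtain ⟨Zb1, Zb2⟩ := abs_le.1 Zb
  refine ⟨⟨abs_le.2 ⟨?_, ?_⟩, abs_le.2 ⟨?_, ?_⟩⟩, ⟨abs_le.2 ⟨?_, ?_⟩, abs_le.2 ⟨?_, ?_⟩⟩,
    ⟨abs_le.2 ⟨?_, ?_⟩, abs_le.2 ⟨?_, ?_⟩⟩⟩ <;> linarith

end NT31
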