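import Pool.Agent.W_fa9b59_h31.F0

set_option autoImplicit false

/-!
# The certificate near the optimal triangles
-/

namespace NT31

private theorem nearId_signs {a b t a0 b0 t0 : ℝ} (h : |a - a0| ≤ 1 / 4 ∧ |b - b0| ≤ 1 / 4 ∧ |t - t0| ≤ 1 / 4) :
    (a0 - 1 / 4 ≤ a ∧ a ≤ a0 + 1 / 4) ∧ (b0 - 1 / 4 ≤ b ∧ b ≤ b0 + 1 / 4) ∧
      (t0 - 1 / 4 ≤ t ∧ t ≤ t0 + 1 / 4) := by
  obtain ⟨h1, h2, h3⟩ := h
  rw [abs_le] at h1 h2 h3
  refine ⟨⟨by linarith [h1.1], by linarith [h1.2]⟩, ⟨by linarith [h2.1], by linarith [h2.2]⟩,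
    ⟨by linarith [h3.1], by linarith [h3.2]⟩⟩

/-- PROOF. For the edge `e = y - x`: `e.1, e.2 < 0`, `th e > 0` so `f0 e = (e.2 - e.1) (4 - 9 th e) / 18` (`f0_a`); for `e = z - y`: `e.2, th e < 0`,
`e.1 > 0` (`f0_b`); for `e = x - z`: `e.1, th e < 0`, `e.2 > 0` (`f0_c`). Then `ring`. -/
theorem near_id {x y z : ℝ × ℝ} (h : Near (1 / 4) x y z) :
    HH x y z = QQ (sg x y z) (x.1 - y.1) (y.2 - z.2) (th (z - x)) := by
  obtain ⟨ha, hb, hc⟩ := h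
  have ea := nearId_signs ha
  have eb := nearId_signs hb
  have ec := nearId_signs hc
  simp only [ce, Matrix.cons_val_zero, Matrix.cons_val_one, Matrix.cons_val, th, Prod.fst_sub,
    Prod.snd_sub] at ea eb ec
  obtain ⟨⟨a1, a2⟩, ⟨a3, a4⟩, ⟨a5, a6⟩⟩ := ea
  obtain ⟨⟨b1, b2⟩, ⟨b3, b4⟩, ⟨b5, b6⟩⟩ := eb
  obtain ⟨⟨c1, c2⟩, ⟨c3, c4⟩, ⟨c5, c6⟩⟩ := ec
  unfold HH
  have fa : f0 (y - x) = ((y - x).2 - (y - x).1) * (4 - 9 * |th (y - x)|) / 18 := by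
    apply f0_a
    simp only [Prod.fst_sub, Prod.snd_sub]
    nlinarith
  have fb : f0 (z - y) = (th (z - y) - (z - y).2) * (4 - 9 * |(z - y).1|) / 18 := by
    apply f0_b
    simp only [Prod.fst_sub, Prod.snd_sub, th]
    nlinarith
  have fc : f0 (x - z) = ((x - z).1 - th (x - z)) * (4 - 9 * |(x - z).2|) / 18 := by
    apply f0_c
    simp only [Prod.fst_sub, Prod.snd_sub, th]
    nlinarith
  rw [fa, fb, fc]
  rw [abs_of_nonneg (a := th (y - x)) (by simp only [th, Prod.fst_sub, Prod.snd_sub]; linarith),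
    abs_of_nonneg (a := (z - y).1) (by simp only [Prod.fst_sub]; linarith),
    abs_of_nonneg (a := (x - z).2) (by simp only [Prod.snd_sub]; linarith)]
  simp only [QQ, sg, dd, th, Prod.fst_sub, Prod.snd_sub]
  ring

/-- The reflected position. PROOF. The same with the opposite signs. -/
theorem near_id' {x y z : ℝ × ℝ} (h : Near (1 / 4) (-x) (-y) (-z)) :
    HH x y z = QQ (1 + x.2 - y.1 - y.2 + z.1) (x.1 - z.1) (y.2 - x.2) (th (z - y)) := by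
  obtain ⟨ha, hb, hc⟩ := h
  have ea := nearId_signs ha
  have eb := nearId_signs hb
  have ec := nearId_signs hc
  simp only [ce, Matrix.cons_val_zero, Matrix.cons_val_one, Matrix.cons_val, th, Prod.fst_sub,
    Prod.snd_sub, Prod.fst_neg, Prod.snd_neg] at ea eb ec
  obtain ⟨⟨a1, a2⟩, ⟨a3, a4⟩, ⟨a5, a6⟩⟩ := ea
  obtain ⟨⟨b1, b2⟩, ⟨b3, b4⟩, ⟨b5, b6⟩⟩ := eb
  obtain ⟨⟨c1, c2⟩, ⟨c3, c4⟩, ⟨c5, c6⟩⟩ := ec
  unfold HH
  have fa : f0 (y - x) = ((y - x).2 - (y - x).1) * (4 - 9 * |th (y - x)|) / 18 := by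
    apply f0_a
    simp only [Prod.fst_sub, Prod.snd_sub]
    nlinarith
  have fb : f0 (z - y) = (th (z - y) - (z - y).2) * (4 - 9 * |(z - y).1|) / 18 := by
    apply f0_b
    simp only [Prod.fst_sub, Prod.snd_sub, th]
    nlinarith
  have fc : f0 (x - z) = ((x - z).1 - th (x - z)) * (4 - 9 * |(x - z).2|) / 18 := by
    apply f0_c
    simp only [Prod.fst_sub, Prod.snd_sub, th]
    nlinarith
  rw [fa, fb, fc]
  rw [abs_of_nonpos (a := th (y - x)) (by simp only [th, Prod.fst_sub, Prod.snd_sub]; linarith),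
    abs_of_nonpos (a := (z - y).1) (by simp only [Prod.fst_sub]; linarith),
    abs_of_nonpos (a := (x - z).2) (by simp only [Prod.snd_sub]; linarith)]
  simp only [QQ, dd, th, Prod.fst_sub, Prod.snd_sub]
  ring

/-- PROOF. `ring`. -/
theorem Pd_dual (d1 d2 d3 : ℝ × ℝ) :
    Pd (th d1 + d2.1 + d3.2) (d1.1 - d2.1) (d2.2 - d3.2) (th (d3 - d1)) +
      Pd (-(d1.2 + th d2 + d3.1)) (d3.1 - d1.1) (d1.2 - d2.2) (th (d2 - d3)) +
      2 * dd d1 d2 d3 = 0 := by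
  simp only [Pd, dd, th, Prod.fst_sub, Prod.snd_sub]
  ring

/-- PROOF. `ring`. -/
theorem dd_expand (x y z X Y Z : ℝ × ℝ) :
    dd X Y Z = dd x y z + ip (y.2 - z.2, z.1 - y.1) (X - x) + ip (z.2 - x.2, x.1 - z.1) (Y - y) +
      ip (x.2 - y.2, y.1 - x.1) (Z - z) + dd (X - x) (Y - y) (Z - z) := by
  simp only [ip, dd, Prod.fst_sub, Prod.snd_sub]
  ring

end NT31
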