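import Pool.Agent.W_fa9b59_h31.Scale
import Pool.Agent.W_fa9b59_h31.NearId

set_option autoImplicit false

/-!
# Position of the optimal triangle
-/

namespace NT31

/-- From a small value of `QQ` to the parameters. PROOF. `(2/3) s (p + q + r) ≤ 5 δ²`, `p + q + r ≥ 11/12`: `s ≤ 9 δ²`. As `s ≥ - 3 δ²`:
`((p - q)² + (q - r)² + (r - p)² + (1 - s - (p + q + r))²) / 6 ≤ 5 δ² + 2 δ² * 13/12 ≤ 7.2 δ²`, so each of the four terms is at most `6.6 δ` in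
modulus, `|3 p - 1| ≤ |p + q + r - 1| + |p - q| + |p - r| ≤ 20 δ`. -/
theorem QQ_small {δ s p q r : ℝ} (h0 : 0 ≤ δ) (h1 : δ ≤ 1 / 10 ^ 4) (hs : -(3 * δ ^ 2) ≤ s)
    (hp : |p - 1 / 3| ≤ 1 / 36) (hq : |q - 1 / 3| ≤ 1 / 36) (hr : |r - 1 / 3| ≤ 1 / 36)
    (h : QQ s p q r ≤ 5 * δ ^ 2) :
    s ≤ 9 * δ ^ 2 ∧ |p - 1 / 3| ≤ 7 * δ ∧ |q - 1 / 3| ≤ 7 * δ ∧ |r - 1 / 3| ≤ 7 * δ := by
  rw [abs_le] at hp hq hr
  unfold QQ at h
  obtain ⟨hp1, hp2⟩ := hp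
  obtain ⟨hq1, hq2⟩ := hq
  obtain ⟨hr1, hr2⟩ := hr
  have hm1 : 11 / 12 ≤ p + q + r := by linarith
  have hm2 : p + q + r ≤ 13 / 12 := by linarith
  have hs1 : s ≤ 9 * δ ^ 2 := by
    by_contra hcon
    push Not at hcon
    have hs0 : 0 < s := lt_of_le_of_lt (by positivity) hcon
    have h2 : s * (11 / 12) ≤ s * (p + q + r) := mul_le_mul_of_nonneg_left hm1 hs0.le
    nlinarith [sq_nonneg (p - q), sq_nonneg (q - r), sq_nonneg (r - p),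
      sq_nonneg (1 - s - (p + q + r)), sq_nonneg s, sq_nonneg δ]
  have hsm : -(13 / 4 * δ ^ 2) ≤ s * (p + q + r) := by
    rcases le_total 0 s with h3 | h3
    · have : 0 ≤ s * (p + q + r) := mul_nonneg h3 (by linarith)
      nlinarith [sq_nonneg δ]
    · have : s * (13 / 12) ≤ s * (p + q + r) := mul_le_mul_of_nonpos_left hm2 h3
      nlinarith
  have hsum : (p - q) ^ 2 + (q - r) ^ 2 + (r - p) ^ 2 + (1 - s - (p + q + r)) ^ 2 ≤
      43 * δ ^ 2 := by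
    nlinarith [sq_nonneg s]
  have key : ∀ t : ℝ, t ^ 2 ≤ 43 * δ ^ 2 → |t| ≤ 33 / 5 * δ := by
    intro t ht
    apply abs_le_of_sq_le_sq _ (by positivity)
    nlinarith [sq_nonneg δ]
  have w1 := sq_nonneg (p - q)
  have w2 := sq_nonneg (q - r)
  have w3 := sq_nonneg (r - p)
  have w4 := sq_nonneg (1 - s - (p + q + r))
  have k1 := key (p - q) (by linarith)
  have k2 := key (q - r) (by linarith)
  have k3 := key (r - p) (by linarith)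
  have k4 := key (1 - s - (p + q + r)) (by linarith)
  have hδ2 : 9 * δ ^ 2 ≤ 9 / 10 ^ 4 * δ := by nlinarith
  rw [abs_le] at k1 k2 k3 k4
  obtain ⟨a1, b1⟩ := k1
  obtain ⟨a2, b2⟩ := k2
  obtain ⟨a3, b3⟩ := k3
  obtain ⟨a4, b4⟩ := k4
  refine ⟨hs1, ?_, ?_, ?_⟩
  · rw [abs_le]; constructor <;> linarith
  · rw [abs_le]; constructor <;> linarith
  · rw [abs_le]; constructor <;> linarith

/-- PROOF. By `HH_refl`, `cell_eps`: `HH x y z ≤ 5 δ²`, `HH (v - x) (v - y) (v - z) ≤ 5 δ²` and `dd x y z ≤ 1/3 + 5 δ²`. `near_id` and `QQ_small` with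
`s = sg x y z = (1 - x.1 - x.2) + y.1 + z.2`, the sum of three numbers `≥ - δ²`, so each of them is in `[- δ², 11 δ²]`; `p = x.1 - y.1`,
`q = y.2 - z.2`, `r = th (z - x)`. The same for `v - x, v - y, v - z` with `near_id'`: `s' = (v - x).2 + (1 - (v - y).1 - (v - y).2) + (v - z).1`,
`p' = (v - x).1 - (v - z).1`, `q' = (v - y).2 - (v - x).2`, `r' = th ((v - z) - (v - y))`. -/
theorem opt_pos {K : Set (ℝ × ℝ)} {τ δ : ℝ} (h : KS K τ δ) {x y z v : ℝ × ℝ}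
    (ho : Opt K x y z v) (hd : 1 / 3 ≤ dd x y z) (hn : Near (1 / 36) x y z) : Pos δ x y z v := by
  have hδ0 : 0 ≤ δ := by rw [h.del]; have := h.tau0; positivity
  have hδ1 : δ ≤ 1 / (3 * 10 ^ 9) := by
    rw [h.del]
    have := h.tau1
    norm_num
    linarith
  have hδ4 : δ ≤ 1 / 10 ^ 4 := hδ1.trans (by norm_num)
  have hd2 : 0 ≤ δ ^ 2 := sq_nonneg δ
  have hδδ : δ ^ 2 ≤ 1 / 10 ^ 4 * δ := by nlinarith
  have hε : δ ^ 2 ≤ 1 / 10 ^ 6 := by nlinarith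
  have tx := h.sub _ ho.hx
  have ty := h.sub _ ho.hy
  have tz := h.sub _ ho.hz
  have ux := h.sub _ ho.vx
  have uy := h.sub _ ho.vy
  have uz := h.sub _ ho.vz
  have H1 := (cell_eps hd2 hε tx ty tz).1
  have H2 := (cell_eps hd2 hε ux uy uz).1
  have H3 := HH_refl x y z v
  have hn' : Near (1 / 4) x y z := Near_mono (by norm_num) hn
  have hn2 : Near (1 / 4) (-(v - x)) (-(v - y)) (-(v - z)) := by
    unfold Near at hn' ⊢
    have e1 : -(v - y) - -(v - x) = y - x := by abel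
    have e2 : -(v - z) - -(v - y) = z - y := by abel
    have e3 : -(v - x) - -(v - z) = x - z := by abel
    rw [e1, e2, e3]
    exact hn'
  have N1 := near_id hn'
  have N2 := near_id' hn2
  obtain ⟨⟨n1, n2, n3⟩, ⟨n4, n5, n6⟩, ⟨n7, n8, n9⟩⟩ := hn
  simp only [ce, Matrix.cons_val_zero, Matrix.cons_val_one, Matrix.cons_val, th,
    Prod.fst_sub, Prod.snd_sub] at n1 n2 n3 n4 n5 n6 n7 n8 n9
  simp only [Tr, Prod.fst_sub, Prod.snd_sub] at tx ty tz ux uy uz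
  obtain ⟨tx1, tx2, tx3⟩ := tx
  obtain ⟨ty1, ty2, ty3⟩ := ty
  obtain ⟨tz1, tz2, tz3⟩ := tz
  obtain ⟨ux1, ux2, ux3⟩ := ux
  obtain ⟨uy1, uy2, uy3⟩ := uy
  obtain ⟨uz1, uz2, uz3⟩ := uz
  simp only [sg, th, Prod.fst_sub, Prod.snd_sub] at N1 N2
  rw [abs_le] at n1 n2 n3 n4 n5 n6 n7 n8 n9
  obtain ⟨n1a, n1b⟩ := n1
  obtain ⟨n2a, n2b⟩ := n2
  obtain ⟨n3a, n3b⟩ := n3
  obtain ⟨n4a, n4b⟩ := n4
  obtain ⟨n5a, n5b⟩ := n5
  obtain ⟨n6a, n6b⟩ := n6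
  obtain ⟨n7a, n7b⟩ := n7
  obtain ⟨n8a, n8b⟩ := n8
  obtain ⟨n9a, n9b⟩ := n9
  have Q1 := QQ_small hδ0 hδ4 (s := 1 - x.1 - x.2 + y.1 + z.2) (p := x.1 - y.1)
    (q := y.2 - z.2) (r := -(z.1 - x.1) - (z.2 - x.2)) (by linarith)
    (by rw [abs_le]; constructor <;> linarith) (by rw [abs_le]; constructor <;> linarith)
    (by rw [abs_le]; constructor <;> linarith) (by rw [← N1]; linarith)
  have Q2 := QQ_small hδ0 hδ4
    (s := 1 + (v.2 - x.2) - (v.1 - y.1) - (v.2 - y.2) + (v.1 - z.1))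
    (p := v.1 - x.1 - (v.1 - z.1)) (q := v.2 - y.2 - (v.2 - x.2))
    (r := -(v.1 - z.1 - (v.1 - y.1)) - (v.2 - z.2 - (v.2 - y.2))) (by linarith)
    (by rw [abs_le]; constructor <;> linarith) (by rw [abs_le]; constructor <;> linarith)
    (by rw [abs_le]; constructor <;> linarith) (by rw [← N2]; linarith)
  obtain ⟨A1, A2, A3, A4⟩ := Q1
  obtain ⟨B1, B2, B3, B4⟩ := Q2
  rw [abs_le] at A2 A3 A4 B2 B3 B4
  obtain ⟨A2a, A2b⟩ := A2
  obtain ⟨A3a, A3b⟩ := A3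
  obtain ⟨A4a, A4b⟩ := A4
  obtain ⟨B2a, B2b⟩ := B2
  obtain ⟨B3a, B3b⟩ := B3
  obtain ⟨B4a, B4b⟩ := B4
  constructor
  · exact hd
  · linarith
  all_goals
    rw [abs_le]
    constructor <;> linarith

end NT31
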