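import Pool.Agent.W_fa9b59_h31.Scale
import Pool.Agent.W_fa9b59_h31.NearId

set_option autoImplicit false

/-!
# Existence of the optimal triangle
-/

namespace NT31

private lemma OptEx_seg {K : Set (ℝ × ℝ)} (hK : Convex ℝ K) {A B : ℝ × ℝ} (hA : A ∈ K) (hB : B ∈ K)
    {t : ℝ} (h0 : 0 ≤ t) (h1 : t ≤ 1) {P : ℝ × ℝ} (e1 : P.1 = (1 - t) * A.1 + t * B.1)
    (e2 : P.2 = (1 - t) * A.2 + t * B.2) : P ∈ K := by
  have h := hK hA hB (sub_nonneg.2 h1) h0 (by ring : (1 - t) + t = 1)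
  have e : P = (1 - t) • A + t • B := by
    apply Prod.ext
    · simp only [Prod.fst_add, Prod.smul_fst, smul_eq_mul, e1]
    · simp only [Prod.snd_add, Prod.smul_snd, smul_eq_mul, e2]
  rw [e]
  exact h

/-- The six points `(1/3, 2/3), (0, 1/3), (2/3, 0)` and `(1/3, 0), (2/3, 1/3), (0, 2/3)` are in `K`. PROOF. Convexity. -/
theorem six_mem {K : Set (ℝ × ℝ)} {τ δ : ℝ} (h : KS K τ δ) :
    ((1 / 3, 2 / 3) : ℝ × ℝ) ∈ K ∧ ((0, 1 / 3) : ℝ × ℝ) ∈ K ∧ ((2 / 3, 0) : ℝ × ℝ) ∈ K ∧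
      ((1 / 3, 0) : ℝ × ℝ) ∈ K ∧ ((2 / 3, 1 / 3) : ℝ × ℝ) ∈ K ∧ ((0, 2 / 3) : ℝ × ℝ) ∈ K := by
  have ht := h.tau0
  have hp : 0 < 1 / 3 + 2 * τ := by linarith
  have hp' : 1 / 3 + 2 * τ ≠ 0 := hp.ne'
  have ha0 : 0 ≤ τ / (1 / 3 + 2 * τ) := by positivity
  have ha1 : τ / (1 / 3 + 2 * τ) ≤ 1 := by
    rw [div_le_one hp]; linarith
  have hb0 : 0 ≤ (1 / 3 + τ) / (1 / 3 + 2 * τ) := by positivity
  have hb1 : (1 / 3 + τ) / (1 / 3 + 2 * τ) ≤ 1 := by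
    rw [div_le_one hp]; linarith
  have ka : τ / (1 / 3 + 2 * τ) * (1 / 3 + 2 * τ) = τ := div_mul_cancel₀ _ hp'
  have kb : (1 / 3 + τ) / (1 / 3 + 2 * τ) * (1 / 3 + 2 * τ) = 1 / 3 + τ := div_mul_cancel₀ _ hp'
  refine ⟨?_, ?_, ?_, ?_, ?_, ?_⟩
  · exact OptEx_seg h.conv h.s3a h.s3b ha0 ha1 (by dsimp only; linear_combination (-1) * ka)
      (by dsimp only; linear_combination ka)
  · exact OptEx_seg h.conv h.s1a h.s1b ha0 ha1 (by dsimp only; ring)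
      (by dsimp only; linear_combination (-1) * ka)
  · exact OptEx_seg h.conv h.s2a h.s2b hb0 hb1 (by dsimp only; linear_combination (-1) * kb)
      (by dsimp only; ring)
  · exact OptEx_seg h.conv h.s2a h.s2b ha0 ha1 (by dsimp only; linear_combination (-1) * ka)
      (by dsimp only; ring)
  · exact OptEx_seg h.conv h.s3a h.s3b hb0 hb1 (by dsimp only; linear_combination (-1) * kb)
      (by dsimp only; linear_combination kb)
  · exact OptEx_seg h.conv h.s1a h.s1b hb0 hb1 (by dsimp only; ring)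
      (by dsimp only; linear_combination (-1) * kb)

/-- PROOF. Maximize `dd x y z` over the compact set of the `(x, y, z, w)`, `x, y, z ∈ K`, `v - x, v - y, v - z ∈ K` (`v` is bounded: `v = x + (v - x)`, so the
set is compact), nonempty by `six_mem` (`v = (2/3, 2/3)`), where `dd = 1/3`. -/
theorem opt_exists0 {K : Set (ℝ × ℝ)} {τ δ : ℝ} (h : KS K τ δ) :
    ∃ x y z v, Opt K x y z v ∧ 1 / 3 ≤ dd x y z := by
  obtain ⟨m1, m2, m3, m4, m5, m6⟩ := six_mem h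
  have hcl : IsClosed K := h.comp.isClosed
  set C : Set ((ℝ × ℝ) × (ℝ × ℝ) × (ℝ × ℝ) × (ℝ × ℝ)) :=
    (K ×ˢ (K ×ˢ (K ×ˢ K))) ∩ ({q | q.2.2.2 + q.1 - q.2.1 ∈ K} ∩ {q | q.2.2.2 + q.1 - q.2.2.1 ∈ K})
    with hC
  have hcomp : IsCompact C := by
    apply IsCompact.inter_right
    · exact h.comp.prod (h.comp.prod (h.comp.prod h.comp))
    · apply IsClosed.inter
      · exact hcl.preimage (by fun_prop)
      · exact hcl.preimage (by fun_prop)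
  have e1 : ((1 / 3, 0) : ℝ × ℝ) + (1 / 3, 2 / 3) - (0, 1 / 3) = (2 / 3, 1 / 3) := by
    ext <;> simp only [Prod.fst_add, Prod.snd_add, Prod.fst_sub, Prod.snd_sub] <;> norm_num
  have e2 : ((1 / 3, 0) : ℝ × ℝ) + (1 / 3, 2 / 3) - (2 / 3, 0) = (0, 2 / 3) := by
    ext <;> simp only [Prod.fst_add, Prod.snd_add, Prod.fst_sub, Prod.snd_sub] <;> norm_num
  have hmem : (((1 / 3, 2 / 3), (0, 1 / 3), (2 / 3, 0), (1 / 3, 0)) :
      (ℝ × ℝ) × (ℝ × ℝ) × (ℝ × ℝ) × (ℝ × ℝ)) ∈ C := by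
    refine ⟨⟨m1, m2, m3, m4⟩, ?_, ?_⟩
    · change ((1 / 3, 0) : ℝ × ℝ) + (1 / 3, 2 / 3) - (0, 1 / 3) ∈ K
      rw [e1]
      exact m5
    · change ((1 / 3, 0) : ℝ × ℝ) + (1 / 3, 2 / 3) - (2 / 3, 0) ∈ K
      rw [e2]
      exact m6
  have hcont : Continuous (fun q : (ℝ × ℝ) × (ℝ × ℝ) × (ℝ × ℝ) × (ℝ × ℝ) => dd q.1 q.2.1 q.2.2.1) := by
    unfold dd
    fun_prop
  obtain ⟨q, hq, hmax⟩ := hcomp.exists_isMaxOn ⟨_, hmem⟩ hcont.continuousOn
  obtain ⟨x, y, z, w⟩ := q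
  obtain ⟨⟨hx, hy, hz, hw⟩, hwy, hwz⟩ := hq
  refine ⟨x, y, z, w + x, ⟨hx, hy, hz, ?_, hwy, hwz, ?_⟩, ?_⟩
  · rw [add_sub_cancel_right]
    exact hw
  · intro x' hx' y' hy' z' hz' v' hvx hvy hvz
    have hm : ((x', y', z', v' - x') : (ℝ × ℝ) × (ℝ × ℝ) × (ℝ × ℝ) × (ℝ × ℝ)) ∈ C := by
      refine ⟨⟨hx', hy', hz', hvx⟩, ?_, ?_⟩
      · change v' - x' + x' - y' ∈ K
        rw [sub_add_cancel]
        exact hvy
      · change v' - x' + x' - z' ∈ K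
        rw [sub_add_cancel]
        exact hvz
    exact hmax hm
  · have hd : dd ((1 / 3, 2 / 3) : ℝ × ℝ) (0, 1 / 3) (2 / 3, 0) = 1 / 3 := by
      simp only [dd]
      norm_num
    have := hmax hmem
    rw [← hd]
    exact this

private lemma OptEx_cyc {K : Set (ℝ × ℝ)} {x y z v : ℝ × ℝ} (h : Opt K x y z v) : Opt K y z x v := by
  refine ⟨h.hy, h.hz, h.hx, h.vy, h.vz, h.vx, ?_⟩
  intro x' hx' y' hy' z' hz' v' a b c
  rw [dd_cyc x y z]
  exact h.opt x' hx' y' hy' z' hz' v' a b c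

private lemma OptEx_refl {K : Set (ℝ × ℝ)} {x y z v : ℝ × ℝ} (h : Opt K x y z v) :
    Opt K (v - x) (v - y) (v - z) v ∧ dd (v - x) (v - y) (v - z) = dd x y z := by
  have h4 : dd (v - x) (v - y) (v - z) = dd x y z := by
    simp only [dd, Prod.fst_sub, Prod.snd_sub]
    ring
  refine ⟨⟨h.vx, h.vy, h.vz, ?_, ?_, ?_, ?_⟩, h4⟩
  · rw [sub_sub_cancel]
    exact h.hx
  · rw [sub_sub_cancel]
    exact h.hy
  · rw [sub_sub_cancel]
    exact h.hz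
  · intro x' hx' y' hy' z' hz' v' a b c
    rw [h4]
    exact h.opt x' hx' y' hy' z' hz' v' a b c

private lemma OptEx_near {r : ℝ} {x y z : ℝ × ℝ} (v : ℝ × ℝ) (h : Near r (-x) (-y) (-z)) :
    Near r (v - x) (v - y) (v - z) := by
  have h1 : (v - y) - (v - x) = -y - -x := by abel
  have h2 : (v - z) - (v - y) = -z - -y := by abel
  have h3 : (v - x) - (v - z) = -x - -z := by abel
  unfold Near
  rw [h1, h2, h3]
  exact h

/-- PROOF. `opt_exists0`, `HH_refl`: `HH x y z + HH (v - x) (v - y) (v - z) = 2 (1/3 - dd x y z) ≤ 0`, both are `≥ - 5 δ²` (`cell_eps`), so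
`HH x y z ≤ 5 δ² < 1/50000`: `NearA (1/36) x y z`. In each of the six cases relabel (`y z x`, `z x y`, or `v - x, v - y, v - z` and its relabellings:
`Opt` is invariant; `Near` depends on the differences only, `(v - y) - (v - x) = (-y) - (-x)`). `dd_cyc`. -/
theorem opt_exists {K : Set (ℝ × ℝ)} {τ δ : ℝ} (h : KS K τ δ) :
    ∃ x y z v, Opt K x y z v ∧ 1 / 3 ≤ dd x y z ∧ Near (1 / 36) x y z := by
  obtain ⟨x, y, z, v, ho, hd⟩ := opt_exists0 h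
  have hδ0 : 0 ≤ δ := by
    rw [h.del]
    have := h.tau0
    positivity
  have hδ1 : δ ≤ 1 / 10 ^ 9 := by
    rw [h.del]
    have := h.tau1
    apply div_le_div_of_nonneg_right _ (by positivity)
    linarith
  have hsq : δ ^ 2 ≤ 1 / 10 ^ 6 := by nlinarith
  have c1 := cell_eps (sq_nonneg δ) hsq (h.sub _ ho.hx) (h.sub _ ho.hy) (h.sub _ ho.hz)
  have c2 := cell_eps (sq_nonneg δ) hsq (h.sub _ ho.vx) (h.sub _ ho.vy) (h.sub _ ho.vz)
  have hr := HH_refl x y z v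
  have hN : NearA (1 / 36) x y z := by
    apply c1.2
    have := c2.1
    nlinarith
  have ho1 := OptEx_cyc ho
  have ho2 := OptEx_cyc ho1
  have d1 : dd y z x = dd x y z := dd_cyc x y z
  have d2 : dd z x y = dd y z x := dd_cyc y z x
  obtain ⟨p0, q0⟩ := OptEx_refl ho
  obtain ⟨p1, q1⟩ := OptEx_refl ho1
  obtain ⟨p2, q2⟩ := OptEx_refl ho2
  rcases hN with (hN | hN | hN) | (hN | hN | hN)
  · exact ⟨x, y, z, v, ho, hd, hN⟩
  · exact ⟨y, z, x, v, ho1, by rw [d1]; exact hd, hN⟩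
  · exact ⟨z, x, y, v, ho2, by rw [d2, d1]; exact hd, hN⟩
  · exact ⟨v - x, v - y, v - z, v, p0, by rw [q0]; exact hd, OptEx_near v hN⟩
  · exact ⟨v - y, v - z, v - x, v, p1, by rw [q1, d1]; exact hd, OptEx_near v hN⟩
  · exact ⟨v - z, v - x, v - y, v, p2, by rw [q2, d2, d1]; exact hd, OptEx_near v hN⟩

end NT31
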