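import Pool.Agent.W_fa9b59_h31.NearMinus
import Pool.Agent.W_fa9b59_h31.OptEx
import Pool.Agent.W_fa9b59_h31.OptEst
import Pool.Agent.W_fa9b59_h31.Mult
import Pool.Agent.W_fa9b59_h31.MultEst

set_option autoImplicit false

/-!
# The certificate for `K` in coordinates
-/

namespace NT31

private theorem Core_del {K : Set (ℝ × ℝ)} {τ δ : ℝ} (h : KS K τ δ) :
    0 < δ ∧ δ ≤ 1 / (3 * 10 ^ 9) := by
  have h1 := h.tau0
  have h2 := h.tau1
  have h3 := h.del
  refine ⟨by rw [h3]; positivity, ?_⟩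
  rw [h3]
  have : τ / 10 ^ 9 ≤ (1 / 3) / 10 ^ 9 := by gcongr
  linarith

/-- PROOF. `near_plus`, `near_minus` and their cyclic versions (`Near_mono`, `dd_cyc`, commutativity of the sum) if `NearA (1/36) X Y Z`. Otherwise
`HH X Y Z ≥ 1/50000` (`cell_eps` with `ε = δ²`), `dd x y z ≥ 1/3`, and `|psi| ≤ 18 * 500 δ = 9000 δ` (`psi_small`, `aK_small`, `kK_small`), so the slack
is at least `1/50000 - 27000 δ ≥ 0`. -/
theorem all_tri {K : Set (ℝ × ℝ)} {τ δ : ℝ} (h : KS K τ δ) {x y z v l1 l2 l3 : ℝ × ℝ}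
    (hp : Pos δ x y z v) (hm : Mul K δ x y z v l1 l2 l3) {X Y Z : ℝ × ℝ} (hX : X ∈ K)
    (hY : Y ∈ K) (hZ : Z ∈ K) :
    dd X Y Z ≤ dd x y z + pk (kK x y z l1 l2) (aK x y z l1 l2) (Y - X) +
        pk (kK x y z l1 l2) (aK x y z l1 l2) (Z - Y) +
        pk (kK x y z l1 l2) (aK x y z l1 l2) (X - Z) := by
  have e1 : dd Y Z X = dd X Y Z := dd_cyc X Y Z
  have e2 : dd Z X Y = dd Y Z X := dd_cyc Y Z X
  have hle : (1 / 36 : ℝ) ≤ 1 / 30 := by norm_num
  by_cases hN : NearA (1 / 36) X Y Z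
  · rcases hN with (h1 | h1 | h1) | (h1 | h1 | h1)
    · exact near_plus h hp hm hX hY hZ (Near_mono hle h1)
    · have := near_plus h hp hm hY hZ hX (Near_mono hle h1)
      linarith
    · have := near_plus h hp hm hZ hX hY (Near_mono hle h1)
      linarith
    · exact near_minus h hp hm hX hY hZ (Near_mono hle h1)
    · have := near_minus h hp hm hY hZ hX (Near_mono hle h1)
      linarith
    · have := near_minus h hp hm hZ hX hY (Near_mono hle h1)
      linarith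
  · obtain ⟨hd0, hd1⟩ := Core_del h
    have hsq : δ ^ 2 ≤ 1 / 10 ^ 6 := by
      have h5 : δ ^ 2 ≤ (1 / (3 * 10 ^ 9)) ^ 2 := by gcongr
      have h6 : ((1 : ℝ) / (3 * 10 ^ 9)) ^ 2 ≤ 1 / 10 ^ 6 := by norm_num
      linarith
    have hc := cell_eps (sq_nonneg δ) hsq (h.sub X hX) (h.sub Y hY) (h.sub Z hZ)
    have hH : 1 / 50000 ≤ HH X Y Z := by
      by_contra hcon
      push Not at hcon
      exact hN (hc.2 hcon)
    have hk : |kK x y z l1 l2| ≤ 500 * δ := kK_small h hp hm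
    have ha1 : ∀ j, |(aK x y z l1 l2 j).1| ≤ 500 * δ := fun j => by
      have := (aK_small h hp hm j).1
      linarith
    have ha2 : ∀ j, |(aK x y z l1 l2 j).2| ≤ 500 * δ := fun j => by
      have := (aK_small h hp hm j).2
      linarith
    have p1 := abs_le.1 (psi_small hk ha1 ha2 (Y - X))
    have p2 := abs_le.1 (psi_small hk ha1 ha2 (Z - Y))
    have p3 := abs_le.1 (psi_small hk ha1 ha2 (X - Z))
    have hlo := hp.dlo
    have hb : 27000 * δ ≤ 1 / 50000 := by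
      have : 27000 * δ ≤ 27000 * (1 / (3 * 10 ^ 9)) := by gcongr
      have h7 : (27000 : ℝ) * (1 / (3 * 10 ^ 9)) ≤ 1 / 50000 := by norm_num
      linarith
    unfold HH at hH
    unfold pk
    linarith [p1.1, p2.1, p3.1]

/-- The interior of `K` is nonempty: it contains a neighbourhood of `(1/3, 1/3)` in the hexagon. -/
theorem KS_int {K : Set (ℝ × ℝ)} {τ δ : ℝ} (h : KS K τ δ) : (interior K).Nonempty := by
  obtain ⟨h1, h2, h3, -, -, -⟩ := six_mem h
  have hU : IsOpen {p : ℝ × ℝ | 0 < p.1 - p.2 + 1 / 3 ∧ 0 < p.1 + 2 * p.2 - 2 / 3 ∧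
      0 < 4 / 3 - 2 * p.1 - p.2} := by
    have c1 : Continuous fun p : ℝ × ℝ => p.1 - p.2 + 1 / 3 := by fun_prop
    have c2 : Continuous fun p : ℝ × ℝ => p.1 + 2 * p.2 - 2 / 3 := by fun_prop
    have c3 : Continuous fun p : ℝ × ℝ => 4 / 3 - 2 * p.1 - p.2 := by fun_prop
    exact (isOpen_lt continuous_const c1).inter
      ((isOpen_lt continuous_const c2).inter (isOpen_lt continuous_const c3))
  have hsub : {p : ℝ × ℝ | 0 < p.1 - p.2 + 1 / 3 ∧ 0 < p.1 + 2 * p.2 - 2 / 3 ∧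
      0 < 4 / 3 - 2 * p.1 - p.2} ⊆ K := by
    rintro ⟨a, b⟩ ⟨ha, hb, hc⟩
    simp only at ha hb hc
    obtain ⟨s, hs⟩ : ∃ s, s = a + 2 * b - 2 / 3 := ⟨_, rfl⟩
    obtain ⟨t, ht⟩ : ∃ t, t = 4 / 3 - 2 * a - b := ⟨_, rfl⟩
    obtain ⟨u, hu⟩ : ∃ u, u = a - b + 1 / 3 := ⟨_, rfl⟩
    rw [← hu] at ha
    rw [← hs] at hb
    rw [← ht] at hc
    have hst : 0 < s + t := by linarith
    have hne : s + t ≠ 0 := hst.ne'
    have hc1 := h.conv h1 h2 (a := s / (s + t)) (b := t / (s + t))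
      (by positivity) (by positivity) (by field_simp)
    have hc2 := h.conv hc1 h3 (a := s + t) (b := u) hst.le ha.le (by rw [hs, ht, hu]; ring)
    have e1 : (s + t) * (s / (s + t)) = s := by field_simp
    have e2 : (s + t) * (t / (s + t)) = t := by field_simp
    convert hc2 using 1
    ext
    · simp only [Prod.fst_add, Prod.smul_fst, smul_eq_mul]
      have : (s + t) * (s / (s + t) * (1 / 3) + t / (s + t) * 0) + u * (2 / 3) =
          (s + t) * (s / (s + t)) * (1 / 3) + u * (2 / 3) := by ring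
      rw [this, e1, hs, hu]
      ring
    · simp only [Prod.snd_add, Prod.smul_snd, smul_eq_mul]
      have : (s + t) * (s / (s + t) * (2 / 3) + t / (s + t) * (1 / 3)) + u * 0 =
          (s + t) * (s / (s + t)) * (2 / 3) + (s + t) * (t / (s + t)) * (1 / 3) := by ring
      rw [this, e1, e2, hs, ht]
      ring
  refine ⟨(1 / 3, 1 / 3), interior_maximal hsub hU ?_⟩
  refine ⟨?_, ?_, ?_⟩ <;> norm_num

/-- PROOF. `opt_exists`, `opt_pos`, `mult_exists`, `mult_est`, `all_tri` with `φ = pk ..`; odd by `f0_neg`, `psi_neg`; bounded by `f0_bound` and `psi_small`. -/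
theorem core {K : Set (ℝ × ℝ)} {τ δ : ℝ} (h : KS K τ δ) :
    ∃ (φ : ℝ × ℝ → ℝ) (B : ℝ) (x y z v : ℝ × ℝ), (∀ e, φ (-e) = -φ e) ∧
      (∀ e : ℝ × ℝ, |e.1| ≤ 2 → |e.2| ≤ 2 → |φ e| ≤ B) ∧ Opt K x y z v ∧ Pos δ x y z v ∧
      ∀ X ∈ K, ∀ Y ∈ K, ∀ Z ∈ K, dd X Y Z ≤ dd x y z + φ (Y - X) + φ (Z - Y) + φ (X - Z) := by
  obtain ⟨x, y, z, v, ho, hd, hn⟩ := opt_exists h
  have hp : Pos δ x y z v := opt_pos h ho hd hn
  obtain ⟨l1, l2, l3, hs, kx, ky, kz, gx, gy, gz⟩ := mult_exists h.conv (KS_int h) ho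
  obtain ⟨⟨m1, m2⟩, ⟨m3, m4⟩, ⟨m5, m6⟩⟩ := mult_est h hp kx ky kz gx gy gz
  have hm : Mul K δ x y z v l1 l2 l3 :=
    ⟨hs, kx, ky, kz, gx, gy, gz, m1, m2, m3, m4, m5, m6⟩
  obtain ⟨hd0, hd1⟩ := Core_del h
  have hk : |kK x y z l1 l2| ≤ 500 * δ := kK_small h hp hm
  have ha1 : ∀ j, |(aK x y z l1 l2 j).1| ≤ 500 * δ := fun j => by
    have := (aK_small h hp hm j).1
    linarith
  have ha2 : ∀ j, |(aK x y z l1 l2 j).2| ≤ 500 * δ := fun j => by
    have := (aK_small h hp hm j).2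
    linarith
  refine ⟨pk (kK x y z l1 l2) (aK x y z l1 l2), 2 * 2 * (4 + 18 * 2) + 18 * (500 * δ),
    x, y, z, v, ?_, ?_, ho, hp, ?_⟩
  · intro e
    unfold pk
    rw [f0_neg, psi_neg]
    ring
  · intro e he1 he2
    unfold pk
    have q1 := f0_bound he1 he2
    have q2 := psi_small hk ha1 ha2 e
    calc |f0 e + psi (kK x y z l1 l2) (aK x y z l1 l2) e|
        ≤ |f0 e| + |psi (kK x y z l1 l2) (aK x y z l1 l2) e| := abs_add_le _ _
      _ ≤ _ := by linarith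
  · intro X hX Y hY Z hZ
    exact all_tri h hp hm hX hY hZ

end NT31
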