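import Pool.Agent.W_fa9b59_h31.CovCount

set_option autoImplicit false

/-!
# The covering theorem
-/

open MeasureTheory Metric Set

namespace NT31

open FB88

private theorem Cov_low_S {K : Set E} (hK : Body K) {c C₀ D : ℝ} (hc : 0 < c) (hC₀ : 0 ≤ C₀)
    (hD0 : 0 < D) {S : ℝ} (hS : 1 ≤ S) {T : Set E} {R : ℝ}
    (hR : ∀ r : ℝ, R < r →
      ENNReal.ofReal (S ^ 2 - C₀ * S) * volume (closedBall (0 : E) (r - R)) ≤
        (Set.encard {t : E | t ∈ T ∧ ∀ k ∈ K, t + k ∈ closedBall (0 : E) r} : ENNReal) *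
          ENNReal.ofReal (2 * c * (S + 2 * D) ^ 2 + 8 * C₀ * D * (S + 2 * D)))
    (hR0 : 0 ≤ R) :
    volume K * ENNReal.ofReal ((S ^ 2 - C₀ * S) /
        (2 * c * (S + 2 * D) ^ 2 + 8 * C₀ * D * (S + 2 * D))) ≤
      Filter.liminf (fun r : ℝ =>
        ((Set.encard {t : E | t ∈ T ∧ ∀ k ∈ K, t + k ∈ closedBall (0 : E) r} : ENNReal) *
          volume K) / volume (closedBall (0 : E) r)) Filter.atTop := by
  have hp : 0 < 2 * c * (S + 2 * D) ^ 2 + 8 * C₀ * D * (S + 2 * D) := by positivity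
  have hKfin : volume K ≠ ⊤ := hK.2.1.measure_lt_top.ne
  set p : ℝ := 2 * c * (S + 2 * D) ^ 2 + 8 * C₀ * D * (S + 2 * D) with hpdef
  set a : ℝ := S ^ 2 - C₀ * S with hadef
  set β : ENNReal := volume (ball (0 : E) 1) with hβ
  have hβ0 : β ≠ 0 := (measure_ball_pos volume (0 : E) one_pos).ne'
  have hβt : β ≠ ⊤ := measure_ball_lt_top.ne
  have hp0 : ENNReal.ofReal p ≠ 0 := by
    rw [Ne, ENNReal.ofReal_eq_zero, not_le]; exact hp
  have hball : ∀ r : ℝ, 0 ≤ r → volume (closedBall (0 : E) r) = ENNReal.ofReal (r ^ 2) * β := by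
    intro r hr
    rw [Measure.addHaar_closedBall volume (0 : E) hr, finrank_euclideanSpace, Fintype.card_fin]
  have hbound : ∀ r : ℝ, R < r →
      volume K * ENNReal.ofReal (a / p) * ENNReal.ofReal (((r - R) / r) ^ 2) ≤
      ((Set.encard {t : E | t ∈ T ∧ ∀ k ∈ K, t + k ∈ closedBall (0 : E) r}
        : ENNReal) * volume K) / volume (closedBall (0 : E) r) := by
    intro r hr
    have hr0 : 0 < r := by linarith
    have h1 := hR r hr
    rw [hball _ (by linarith)] at h1
    rw [hball r hr0.le]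
    have hr2 : ENNReal.ofReal (r ^ 2) ≠ 0 := by
      rw [Ne, ENNReal.ofReal_eq_zero, not_le]
      positivity
    rw [ENNReal.le_div_iff_mul_le (Or.inl (mul_ne_zero hr2 hβ0))
      (Or.inl (ENNReal.mul_ne_top ENNReal.ofReal_ne_top hβt))]
    have h2 : ENNReal.ofReal a * (ENNReal.ofReal ((r - R) ^ 2) * β) / ENNReal.ofReal p ≤
        (Set.encard {t : E | t ∈ T ∧ ∀ k ∈ K, t + k ∈ closedBall (0 : E) r} : ENNReal) :=
      ENNReal.div_le_of_le_mul h1
    have h3 : ENNReal.ofReal (((r - R) / r) ^ 2) * ENNReal.ofReal (r ^ 2) =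
        ENNReal.ofReal ((r - R) ^ 2) := by
      rw [← ENNReal.ofReal_mul (by positivity)]
      congr 1
      rw [← mul_pow, div_mul_cancel₀ _ hr0.ne']
    calc volume K * ENNReal.ofReal (a / p) *
          ENNReal.ofReal (((r - R) / r) ^ 2) * (ENNReal.ofReal (r ^ 2) * β)
        = volume K * ENNReal.ofReal (a / p) *
          (ENNReal.ofReal (((r - R) / r) ^ 2) * ENNReal.ofReal (r ^ 2)) * β := by ring
      _ = ENNReal.ofReal a * (ENNReal.ofReal ((r - R) ^ 2) * β) /
        ENNReal.ofReal p * volume K := by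
          rw [h3, ENNReal.ofReal_div_of_pos hp, ENNReal.div_eq_inv_mul, ENNReal.div_eq_inv_mul]
          ring
      _ ≤ _ := by gcongr
  have hlim : Filter.Tendsto (fun r : ℝ => volume K * ENNReal.ofReal (a / p) *
      ENNReal.ofReal (((r - R) / r) ^ 2))
      Filter.atTop (nhds (volume K * ENNReal.ofReal (a / p))) := by
    have h1 : Filter.Tendsto (fun r : ℝ => ((r - R) / r) ^ 2) Filter.atTop (nhds 1) := by
      have h2 : Filter.Tendsto (fun r : ℝ => 1 - R / r) Filter.atTop (nhds (1 - 0)) :=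
        tendsto_const_nhds.sub (Filter.Tendsto.div_atTop tendsto_const_nhds Filter.tendsto_id)
      have h3 : Filter.Tendsto (fun r : ℝ => (1 - R / r) ^ 2) Filter.atTop (nhds 1) := by
        have := h2.pow 2
        simpa using this
      refine h3.congr' ?_
      filter_upwards [Filter.eventually_gt_atTop (0 : ℝ)] with r hr
      congr 1
      field_simp
    have h4 := ENNReal.Tendsto.const_mul (a := volume K * ENNReal.ofReal (a / p))
      (ENNReal.tendsto_ofReal h1)
      (Or.inr (ENNReal.mul_ne_top hKfin ENNReal.ofReal_ne_top))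
    simpa using h4
  rw [← hlim.liminf_eq]
  refine Filter.liminf_le_liminf ?_
  filter_upwards [Filter.eventually_gt_atTop R] with r hr
  exact hbound r hr

/-- Lower bound for the density from an edge potential. PROOF. `cov_fin`, `cov_count` for every `S ≥ 1`; then as `HC60.low_AH` and `HC60.low_hc`
(W_fa9b59_hc/Low.lean): for fixed `S` divide by the volume of the ball and let `r → ∞`: the liminf is at least
`volume K * ofReal ((S² - C₀ S) / (2 c (S + 2 D)² + 8 C₀ D (S + 2 D)))`; let `S → ∞`. -/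
theorem cov {K : Set E} (hK : Body K) {φ : E → ℝ} (ho : ∀ e, φ (-e) = -φ e) {B c : ℝ}
    (hB : ∀ x ∈ K, ∀ y ∈ K, |φ (x - y)| ≤ B) (hc : 0 < c) (hT : TB K φ c) :
    volume K / ENNReal.ofReal (2 * c) ≤ FB88Stmt.thetaT K := by
  have hKfin : volume K ≠ ⊤ := hK.2.1.measure_lt_top.ne
  obtain ⟨D0, hD0⟩ := hK.2.1.isBounded.exists_norm_le
  have hD1 : 0 < max D0 1 := lt_of_lt_of_le one_pos (le_max_right _ _)
  have hD : ∀ x ∈ K, ‖x‖ ≤ max D0 1 := fun x hx => (hD0 x hx).trans (le_max_left _ _)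
  set D := max D0 1 with hDdef
  obtain ⟨C₀, hC₀, hfin⟩ := cov_fin hK ho hB hc.le hT
  unfold FB88Stmt.thetaT
  refine le_iInf fun T => le_iInf fun hTc => ?_
  have hz : ∀ a : ℝ, Filter.Tendsto (fun j : ℝ => a / j) Filter.atTop (nhds 0) := fun a =>
    Filter.Tendsto.div_atTop tendsto_const_nhds Filter.tendsto_id
  have h1 : Filter.Tendsto (fun S : ℝ => (S ^ 2 - C₀ * S) /
      (2 * c * (S + 2 * D) ^ 2 + 8 * C₀ * D * (S + 2 * D))) Filter.atTop
      (nhds (1 / (2 * c))) := by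
    have h2 : Filter.Tendsto (fun j : ℝ => (1 - C₀ / j) /
        (2 * c * (1 + 2 * D / j) ^ 2 + 8 * C₀ * D / j * (1 + 2 * D / j))) Filter.atTop
        (nhds ((1 - 0) / (2 * c * (1 + 0) ^ 2 + 0 * (1 + 0)))) := by
      refine Filter.Tendsto.div (tendsto_const_nhds.sub (hz C₀))
        (((tendsto_const_nhds.add (hz (2 * D))).pow 2).const_mul (2 * c) |>.add
          ((hz (8 * C₀ * D)).mul (tendsto_const_nhds.add (hz (2 * D))))) ?_
      have : 2 * c ≠ 0 := by positivity
      simpa using this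
    have h3 : ((1 : ℝ) - 0) / (2 * c * (1 + 0) ^ 2 + 0 * (1 + 0)) = 1 / (2 * c) := by norm_num
    rw [h3] at h2
    refine h2.congr' ?_
    filter_upwards [Filter.eventually_gt_atTop (0 : ℝ)] with j hj
    have h6 : j ≠ 0 := hj.ne'
    have h4 : 2 * c * (j + 2 * D) ^ 2 + 8 * C₀ * D * (j + 2 * D) ≠ 0 := by positivity
    have h5 : 2 * c * (1 + 2 * D / j) ^ 2 + 8 * C₀ * D / j * (1 + 2 * D / j) ≠ 0 := by positivity
    rw [div_eq_div_iff h5 h4]
    field_simp
  have h2 := ENNReal.Tendsto.const_mul (a := volume K)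
      (ENNReal.tendsto_ofReal h1) (Or.inr hKfin)
  have h3 : volume K * ENNReal.ofReal (1 / (2 * c)) = volume K / ENNReal.ofReal (2 * c) := by
    rw [ENNReal.ofReal_div_of_pos (by positivity), ENNReal.ofReal_one, mul_one_div]
  rw [h3] at h2
  refine le_of_tendsto h2 ?_
  filter_upwards [Filter.eventually_ge_atTop (1 : ℝ)] with S hS
  obtain ⟨R, hR0, hR⟩ := cov_count hK hc hC₀ hD1 hD hS (hfin S hS) hTc
  exact Cov_low_S hK hc hC₀ hD1 hS hR hR0

end NT31
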