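import Pool.Agent.W_fa9b59_h31.CovFin
import Pool.Agent.W_fa9b59_hc.Count

set_option autoImplicit false

/-!
# Averaging
-/

open MeasureTheory Metric Set

namespace NT31

open FB88

/-- An axis parallel box relative to `t`. -/
private noncomputable def bx (t : E) (a0 a1 b0 b1 : ℝ) : Set E :=
  HC60.par !₂[1, 0] !₂[0, 1] t a0 a1 b0 b1

private lemma bx_mem {t z : E} {a0 a1 b0 b1 : ℝ} (h1 : a0 ≤ z 0 - t 0) (h2 : z 0 - t 0 ≤ a1)
    (h3 : b0 ≤ z 1 - t 1) (h4 : z 1 - t 1 ≤ b1) : z ∈ bx t a0 a1 b0 b1 := by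
  refine ⟨z 0 - t 0, z 1 - t 1, h1, h2, h3, h4, ?_⟩
  ext i
  fin_cases i
  · show z 0 = t 0 + (z 0 - t 0) * 1 + (z 1 - t 1) * 0
    ring
  · show z 1 = t 1 + (z 0 - t 0) * 0 + (z 1 - t 1) * 1
    ring

private lemma bx_meas (t : E) (a0 a1 b0 b1 : ℝ) : MeasurableSet (bx t a0 a1 b0 b1) :=
  (HC60.par_compact _ _ _ _ _ _ _).measurableSet

private lemma bx_vol (t : E) {a0 a1 b0 b1 : ℝ} (h1 : a0 < a1) (h2 : b0 < b1) :
    volume (bx t a0 a1 b0 b1) = ENNReal.ofReal ((a1 - a0) * (b1 - b0)) := by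
  refine HC60.vol_par ?_ t h1 h2
  show (1 : ℝ) * 1 - 0 * 0 = 1
  norm_num

private lemma ind_meas (t : E) (a0 a1 b0 b1 : ℝ) :
    Measurable ((bx t a0 a1 b0 b1).indicator (1 : E → ENNReal)) :=
  measurable_one.indicator (bx_meas t a0 a1 b0 b1)

private lemma ind_int (t : E) {a0 a1 b0 b1 : ℝ} (h1 : a0 < a1) (h2 : b0 < b1) :
    ∫⁻ z, (bx t a0 a1 b0 b1).indicator (1 : E → ENNReal) z =
      ENNReal.ofReal ((a1 - a0) * (b1 - b0)) := by
  rw [lintegral_indicator_one (bx_meas t a0 a1 b0 b1), bx_vol t h1 h2]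

/-- the four boxes of the boundary -/
private noncomputable def qf (S D : ℝ) (t z : E) : ENNReal :=
  (bx t (-D) D (-D - S) D).indicator 1 z + (bx t (-D - S) (D - S) (-D - S) D).indicator 1 z +
    ((bx t (-D - S) D (-D) D).indicator 1 z + (bx t (-D - S) D (-D - S) (D - S)).indicator 1 z)

private lemma lint4 {f1 f2 f3 f4 : E → ENNReal} (h1 : Measurable f1) (h2 : Measurable f2)
    (h3 : Measurable f3) : ∫⁻ z, (f1 z + f2 z + (f3 z + f4 z)) =
      (∫⁻ z, f1 z) + (∫⁻ z, f2 z) + ((∫⁻ z, f3 z) + (∫⁻ z, f4 z)) := by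
  have hm : Measurable fun z => f1 z + f2 z := h1.add h2
  rw [lintegral_add_left hm (fun z => f3 z + f4 z), lintegral_add_left h1, lintegral_add_left h3]

private lemma lint2 {f g : E → ENNReal} (a b : ENNReal) (hf : Measurable f) (hg : Measurable g) :
    ∫⁻ z, (a * f z + b * g z) = a * (∫⁻ z, f z) + b * (∫⁻ z, g z) := by
  have hm : Measurable fun z => a * f z := hf.const_mul a
  rw [lintegral_add_left hm (fun z => b * g z), lintegral_const_mul a hf, lintegral_const_mul b hg]

private lemma coord_le {x : E} {D : ℝ} (h : ‖x‖ ≤ D) (i : Fin 2) : -D ≤ x i ∧ x i ≤ D := by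
  have h1 := PiLp.norm_apply_le x i
  rw [Real.norm_eq_abs] at h1
  exact abs_le.1 (h1.trans h)

private lemma norm_le_two {x : E} {S : ℝ} (h : x ∈ Rs S) : ‖x‖ ≤ 2 * S := by
  obtain ⟨h1, h2, h3, h4⟩ := h
  have h5 : ‖x‖ ^ 2 ≤ (2 * S) ^ 2 := by
    rw [EuclideanSpace.norm_sq_eq, Fin.sum_univ_two, Real.norm_eq_abs, Real.norm_eq_abs, sq_abs,
      sq_abs]
    nlinarith
  exact le_of_sq_le_sq h5 (by linarith)
where
  le_of_sq_le_sq {a b : ℝ} (h : a ^ 2 ≤ b ^ 2) (hb : 0 ≤ b) : a ≤ b := by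
    by_contra hcon
    push Not at hcon
    nlinarith

/-- Counting bound. PROOF. As `HC60.count_hc` (W_fa9b59_hc/Count.lean). `R = 2 S + 2 D` (`S ≥ 1`). If the set `Z` of the `t ∈ T` with
`t + K ⊆ B(0, r)` is infinite the right side is `⊤`. For `‖z‖ ≤ r - R` each point `z + x`, `x ∈ Rs S`, is in `t + K` for some `t ∈ T`, and
`t ∈ Z`. Apply `hfin` to the finite set `{t - z | t ∈ Z, (tr (t - z) K ∩ Rs S).Nonempty}`: with
`P t = {z | (tr (t - z) K ∩ Rs S).Nonempty}` and `Q t = {z | (tr (t - z) K ∩ Fr S).Nonempty}`,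
`S² ≤ 2 c #{t ∈ Z | z ∈ P t} + C₀ (S + #{t ∈ Z | z ∈ Q t})`. `P t` is contained in the box `t + [-D - S, D]²` of area `(S + 2 D)²`, `Q t` in the union of
the four boxes `t + [-D, D] × [-D - S, D]`, `t + [-D - S, D - S] × [-D - S, D]` and the two transposed ones, each of area `2 D (S + 2 D)`
(`HC60.par`, `HC60.vol_par` with `e = !₂[1, 0]`, `v = !₂[0, 1]`). Integrate the sum of the indicator functions of the boxes over the ball. -/
theorem cov_count {K : Set E} (hK : Body K) {c C₀ D : ℝ} (hc : 0 < c) (hC₀ : 0 ≤ C₀)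
    (hD0 : 0 < D) (hD : ∀ x ∈ K, ‖x‖ ≤ D) {S : ℝ} (hS : 1 ≤ S)
    (hfin : ∀ (Z : Finset E), (∀ x ∈ Rs S, ∃ t ∈ Z, x - t ∈ K) →
      S ^ 2 ≤ 2 * c * Z.card +
        C₀ * (S + ({t | t ∈ Z ∧ (tr t K ∩ Fr S).Nonempty} : Set E).ncard))
    {T : Set E} (hT : ∀ x : E, ∃ t ∈ T, x - t ∈ K) :
    ∃ R : ℝ, 0 ≤ R ∧ ∀ r : ℝ, R < r →
      ENNReal.ofReal (S ^ 2 - C₀ * S) * volume (closedBall (0 : E) (r - R)) ≤
        (Set.encard {t : E | t ∈ T ∧ ∀ k ∈ K, t + k ∈ closedBall (0 : E) r} : ENNReal) *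
          ENNReal.ofReal (2 * c * (S + 2 * D) ^ 2 + 8 * C₀ * D * (S + 2 * D)) := by
  classical
  have hS0 : 0 < S := by linarith
  have hpos : 0 < 2 * c * (S + 2 * D) ^ 2 + 8 * C₀ * D * (S + 2 * D) := by
    have h1 : 0 < 2 * c * (S + 2 * D) ^ 2 := by positivity
    have h2 : 0 ≤ 8 * C₀ * D * (S + 2 * D) := by positivity
    linarith
  refine ⟨2 * S + 2 * D, by positivity, ?_⟩
  intro r hr
  set SS : Set E := {t : E | t ∈ T ∧ ∀ k ∈ K, t + k ∈ closedBall (0 : E) r} with hSS
  by_cases hSfin : SS.Finite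
  swap
  · have h1 : SS.encard = ⊤ := Set.encard_eq_top_iff.2 hSfin
    rw [h1, ENat.toENNReal_top, ENNReal.top_mul (by
      rw [Ne, ENNReal.ofReal_eq_zero, not_le]; exact hpos)]
    exact le_top
  set Z : Finset E := hSfin.toFinset with hZ
  have hcardZ : (SS.encard : ENNReal) = (Z.card : ENNReal) := by
    rw [hSfin.encard_eq_coe_toFinset_card]
    rfl
  -- the pointwise bound
  have hpt : ∀ z ∈ closedBall (0 : E) (r - (2 * S + 2 * D)),
      ENNReal.ofReal (S ^ 2 - C₀ * S) ≤
        ∑ t ∈ Z, (ENNReal.ofReal (2 * c) * (bx t (-D - S) D (-D - S) D).indicator 1 z +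
          ENNReal.ofReal C₀ * qf S D t z) := by
    intro z hz
    rw [mem_closedBall_zero_iff] at hz
    set ZP : Finset E := Z.filter (fun t => (tr (t - z) K ∩ Rs S).Nonempty) with hZP
    set ZQ : Finset E := Z.filter (fun t => (tr (t - z) K ∩ Fr S).Nonempty) with hZQ
    have hcov : ∀ x ∈ Rs S, ∃ t ∈ ZP.image (fun t => t - z), x - t ∈ K := by
      intro x hx
      obtain ⟨t, ht, htK⟩ := hT (x + z)
      have hxt : x - (t - z) = x + z - t := by abel
      refine ⟨t - z, Finset.mem_image.2 ⟨t, Finset.mem_filter.2 ⟨?_, ⟨x, ?_, hx⟩⟩, rfl⟩, ?_⟩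
      · rw [hZ, Set.Finite.mem_toFinset]
        refine ⟨ht, fun k hk => ?_⟩
        rw [mem_closedBall_zero_iff]
        have h1 := hD _ htK
        have h2 := hD _ hk
        have h3 : t + k = x + z - (x + z - t) + k := by abel
        have h4 := norm_le_two hx
        have h5 : ‖x + z‖ ≤ ‖x‖ + ‖z‖ := norm_add_le _ _
        have h6 : ‖x + z - (x + z - t) + k‖ ≤ ‖x + z‖ + ‖x + z - t‖ + ‖k‖ :=
          (norm_add_le _ _).trans (add_le_add (norm_sub_le _ _) (le_refl _))
        rw [h3]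
        linarith
      · show x - (t - z) ∈ K
        rw [hxt]
        exact htK
      · rw [hxt]
        exact htK
    have hmain := hfin _ hcov
    have hcP : ((ZP.image (fun t => t - z)).card : ℝ) ≤ ZP.card := by
      exact_mod_cast Finset.card_image_le
    have hcQ : (({t | t ∈ ZP.image (fun t => t - z) ∧ (tr t K ∩ Fr S).Nonempty} : Set E).ncard : ℝ)
        ≤ ZQ.card := by
      have hsub : ({t | t ∈ ZP.image (fun t => t - z) ∧ (tr t K ∩ Fr S).Nonempty} : Set E) ⊆
          ((ZQ.image (fun t => t - z) : Finset E) : Set E) := by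
        rintro t ⟨ht, hne⟩
        obtain ⟨s, hs, rfl⟩ := Finset.mem_image.1 ht
        rw [Finset.mem_coe]
        exact Finset.mem_image.2 ⟨s, Finset.mem_filter.2 ⟨(Finset.mem_filter.1 hs).1, hne⟩, rfl⟩
      have h1 := Set.ncard_le_ncard hsub (Finset.finite_toSet _)
      rw [Set.ncard_coe_finset] at h1
      exact_mod_cast h1.trans Finset.card_image_le
    have hreal : S ^ 2 - C₀ * S ≤ 2 * c * ZP.card + C₀ * ZQ.card := by
      have h1 := mul_le_mul_of_nonneg_left hcP (by linarith : 0 ≤ 2 * c)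
      have h2 := mul_le_mul_of_nonneg_left hcQ hC₀
      linarith
    have hP : (ZP.card : ENNReal) ≤ ∑ t ∈ Z, (bx t (-D - S) D (-D - S) D).indicator 1 z := by
      rw [hZP, Finset.card_eq_sum_ones, Finset.sum_filter, Nat.cast_sum]
      refine Finset.sum_le_sum fun t _ => ?_
      by_cases hzt : (tr (t - z) K ∩ Rs S).Nonempty
      · rw [if_pos hzt]
        obtain ⟨x, hx, hx1, hx2, hx3, hx4⟩ := hzt
        have hx' := hD _ (show x - (t - z) ∈ K from hx)
        have c0 := coord_le hx' 0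
        have c1 := coord_le hx' 1
        have e0 : (x - (t - z)) 0 = x 0 - (t 0 - z 0) := rfl
        have e1 : (x - (t - z)) 1 = x 1 - (t 1 - z 1) := rfl
        rw [e0] at c0
        rw [e1] at c1
        rw [Set.indicator_of_mem (bx_mem (by linarith) (by linarith) (by linarith) (by linarith))]
        simp
      · rw [if_neg hzt]
        simp
    have hQ : (ZQ.card : ENNReal) ≤ ∑ t ∈ Z, qf S D t z := by
      rw [hZQ, Finset.card_eq_sum_ones, Finset.sum_filter, Nat.cast_sum]
      refine Finset.sum_le_sum fun t _ => ?_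
      by_cases hzt : (tr (t - z) K ∩ Fr S).Nonempty
      · rw [if_pos hzt]
        obtain ⟨x, hx, ⟨hx1, hx2, hx3, hx4⟩, hfr⟩ := hzt
        have hx' := hD _ (show x - (t - z) ∈ K from hx)
        have c0 := coord_le hx' 0
        have c1 := coord_le hx' 1
        have e0 : (x - (t - z)) 0 = x 0 - (t 0 - z 0) := rfl
        have e1 : (x - (t - z)) 1 = x 1 - (t 1 - z 1) := rfl
        rw [e0] at c0
        rw [e1] at c1
        unfold qf
        rw [Nat.cast_one]
        rcases hfr with h | h | h | h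
        · rw [Set.indicator_of_mem (s := bx t (-D) D (-D - S) D)
            (bx_mem (by linarith) (by linarith) (by linarith) (by linarith)), Pi.one_apply,
            add_assoc]
          exact le_self_add
        · rw [Set.indicator_of_mem (s := bx t (-D - S) (D - S) (-D - S) D)
            (bx_mem (by linarith) (by linarith) (by linarith) (by linarith)), Pi.one_apply]
          exact le_add_self.trans le_self_add
        · rw [Set.indicator_of_mem (s := bx t (-D - S) D (-D) D)
            (bx_mem (by linarith) (by linarith) (by linarith) (by linarith)), Pi.one_apply]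
          exact le_self_add.trans le_add_self
        · rw [Set.indicator_of_mem (s := bx t (-D - S) D (-D - S) (D - S))
            (bx_mem (by linarith) (by linarith) (by linarith) (by linarith)), Pi.one_apply]
          exact le_add_self.trans le_add_self
      · rw [if_neg hzt]
        simp
    calc ENNReal.ofReal (S ^ 2 - C₀ * S)
        ≤ ENNReal.ofReal (2 * c * ZP.card + C₀ * ZQ.card) := ENNReal.ofReal_le_ofReal hreal
      _ = ENNReal.ofReal (2 * c) * ZP.card + ENNReal.ofReal C₀ * ZQ.card := by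
          rw [ENNReal.ofReal_add (by positivity) (by positivity),
            ENNReal.ofReal_mul (by positivity), ENNReal.ofReal_mul hC₀, ENNReal.ofReal_natCast,
            ENNReal.ofReal_natCast]
      _ ≤ ENNReal.ofReal (2 * c) * ∑ t ∈ Z, (bx t (-D - S) D (-D - S) D).indicator 1 z +
          ENNReal.ofReal C₀ * ∑ t ∈ Z, qf S D t z :=
          add_le_add (mul_le_mul_right hP _) (mul_le_mul_right hQ _)
      _ = _ := by
          rw [Finset.mul_sum, Finset.mul_sum, ← Finset.sum_add_distrib]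
  have hmq : ∀ t : E, Measurable (qf S D t) := by
    intro t
    unfold qf
    exact ((ind_meas _ _ _ _ _).add (ind_meas _ _ _ _ _)).add
      ((ind_meas _ _ _ _ _).add (ind_meas _ _ _ _ _))
  have hmg : ∀ t : E, Measurable (fun z : E =>
      ENNReal.ofReal (2 * c) * (bx t (-D - S) D (-D - S) D).indicator 1 z +
          ENNReal.ofReal C₀ * qf S D t z) := by
    intro t
    exact ((ind_meas _ _ _ _ _).const_mul _).add ((hmq t).const_mul _)
  have hiq : ∀ t : E, ∫⁻ z, qf S D t z = ENNReal.ofReal (8 * D * (S + 2 * D)) := by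
    intro t
    unfold qf
    rw [lint4 (ind_meas _ _ _ _ _) (ind_meas _ _ _ _ _) (ind_meas _ _ _ _ _),
      ind_int t (by linarith) (by linarith), ind_int t (by linarith) (by linarith),
      ind_int t (by linarith) (by linarith), ind_int t (by linarith) (by linarith)]
    have e1 : 0 ≤ (D - -D) * (D - (-D - S)) := mul_nonneg (by linarith) (by linarith)
    have e2 : 0 ≤ (D - S - (-D - S)) * (D - (-D - S)) := mul_nonneg (by linarith) (by linarith)
    have e3 : 0 ≤ (D - (-D - S)) * (D - -D) := mul_nonneg (by linarith) (by linarith)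
    have e4 : 0 ≤ (D - (-D - S)) * (D - S - (-D - S)) := mul_nonneg (by linarith) (by linarith)
    rw [← ENNReal.ofReal_add e1 e2, ← ENNReal.ofReal_add e3 e4,
      ← ENNReal.ofReal_add (add_nonneg e1 e2) (add_nonneg e3 e4)]
    congr 1
    ring
  have hig : ∀ t : E, ∫⁻ z, (ENNReal.ofReal (2 * c) *
      (bx t (-D - S) D (-D - S) D).indicator 1 z + ENNReal.ofReal C₀ * qf S D t z) =
      ENNReal.ofReal (2 * c * (S + 2 * D) ^ 2 + 8 * C₀ * D * (S + 2 * D)) := by
    intro t
    rw [lint2 _ _ (ind_meas _ _ _ _ _) (hmq t), hiq t,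
      ind_int t (by linarith) (by linarith), ← ENNReal.ofReal_mul (by positivity),
      ← ENNReal.ofReal_mul hC₀, ← ENNReal.ofReal_add
        (mul_nonneg (by positivity) (mul_nonneg (by linarith) (by linarith))) (by positivity)]
    congr 1
    ring
  rw [hcardZ]
  calc ENNReal.ofReal (S ^ 2 - C₀ * S) * volume (closedBall (0 : E) (r - (2 * S + 2 * D)))
      = ∫⁻ _ in closedBall (0 : E) (r - (2 * S + 2 * D)), ENNReal.ofReal (S ^ 2 - C₀ * S) := by
        rw [setLIntegral_const]
    _ ≤ ∫⁻ z in closedBall (0 : E) (r - (2 * S + 2 * D)),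
          ∑ t ∈ Z, (ENNReal.ofReal (2 * c) * (bx t (-D - S) D (-D - S) D).indicator 1 z +
            ENNReal.ofReal C₀ * qf S D t z) :=
        setLIntegral_mono' isClosed_closedBall.measurableSet hpt
    _ ≤ ∫⁻ z, ∑ t ∈ Z, (ENNReal.ofReal (2 * c) * (bx t (-D - S) D (-D - S) D).indicator 1 z +
            ENNReal.ofReal C₀ * qf S D t z) := setLIntegral_le_lintegral _ _
    _ = ∑ t ∈ Z, ENNReal.ofReal (2 * c * (S + 2 * D) ^ 2 + 8 * C₀ * D * (S + 2 * D)) := by
        rw [lintegral_finsetSum]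
        · exact Finset.sum_congr rfl fun t _ => hig t
        · intro t _
          exact hmg t
    _ = _ := by
        rw [Finset.sum_const, nsmul_eq_mul]

end NT31
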