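import Pool.Agent.W_fa9b59_h31.RowCell

set_option autoImplicit false

/-!
# The lowest and the highest chain
-/

open MeasureTheory Metric Set

namespace NT31

open FB88

private theorem Ends_exact {ι : Type} (φ : E → ℝ) (v : ι → E) {D B y₀ : ℝ} (hD : 0 ≤ D) :
    ∀ (L : List ι) (i : ι), (∀ e ∈ i :: L, |v e 1 - y₀| ≤ D) →
    List.IsChain (fun e f => |v e 0 - v f 0| ≤ 2 * D ∧ |φ (v e - v f)| ≤ B) (i :: L) →
    |PhiL (fun e f => gg φ (v e) (v f)) i L -
      (v (lastD i L) 0 * (v (lastD i L) 1 - y₀) - v i 0 * (v i 1 - y₀))| ≤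
      (2 * D ^ 2 + B) * L.length := by
  intro L
  induction L with
  | nil =>
    intro i _ _
    simp [PhiL, lastD]
  | cons j L ih =>
    intro i hy hc
    rw [List.isChain_cons_cons] at hc
    obtain ⟨⟨h1, h2⟩, hc'⟩ := hc
    have h3 := ih j (fun e he => hy e (List.mem_cons_of_mem _ he)) hc'
    have hi := hy i (List.mem_cons_self)
    have hj := hy j (List.mem_cons_of_mem _ (List.mem_cons_self))
    simp only [PhiL, lastD, List.length_cons]
    set P := PhiL (fun e f => gg φ (v e) (v f)) j L with hP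
    set T := v (lastD j L) 0 * (v (lastD j L) 1 - y₀) with hT
    have h4 : |(v i 1 - y₀ + (v j 1 - y₀)) / 2 * (v j 0 - v i 0)| ≤ 2 * D ^ 2 := by
      rw [abs_mul]
      have h5 : |(v i 1 - y₀ + (v j 1 - y₀)) / 2| ≤ D := by
        rw [abs_div, abs_of_pos (by norm_num : (0 : ℝ) < 2)]
        have := abs_add_le (v i 1 - y₀) (v j 1 - y₀)
        linarith
      have h6 : |v j 0 - v i 0| ≤ 2 * D := by rw [abs_sub_comm]; exact h1
      calc _ ≤ D * (2 * D) := mul_le_mul h5 h6 (abs_nonneg _) hD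
        _ = 2 * D ^ 2 := by ring
    have h7 : gg φ (v i) (v j) + P - (T - v i 0 * (v i 1 - y₀)) =
        (P - (T - v j 0 * (v j 1 - y₀))) - (v i 1 - y₀ + (v j 1 - y₀)) / 2 * (v j 0 - v i 0)
          - φ (v i - v j) := by
      unfold gg
      ring
    rw [h7]
    have h8 := abs_sub (P - (T - v j 0 * (v j 1 - y₀)) -
      (v i 1 - y₀ + (v j 1 - y₀)) / 2 * (v j 0 - v i 0)) (φ (v i - v j))
    have h9 := abs_sub (P - (T - v j 0 * (v j 1 - y₀)))
      ((v i 1 - y₀ + (v j 1 - y₀)) / 2 * (v j 0 - v i 0))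
    push_cast
    nlinarith

private theorem Ends_lastD_mem {ι : Type} : ∀ (L : List ι) (i : ι), lastD i L ∈ i :: L
  | [], i => by simp [lastD]
  | j :: L, i => by
    have := Ends_lastD_mem L j
    simp only [lastD]
    exact List.mem_cons_of_mem _ this

/-- PROOF. With `η = v e 1 - y₀`: `½ (x + x') (η' - η) = x' η' - x η - ½ (η + η') (x' - x)`, so the area terms sum to
`x_last η_last - x_first η_first - ∑ ½ (η + η') (x' - x)`; `|η| ≤ D`, `|x' - x| ≤ 2 D`, `|x| ≤ X`. Induction on `L`. -/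
theorem phi_bound {ι : Type} (φ : E → ℝ) (v : ι → E) {X D B y₀ : ℝ} (hD : 0 ≤ D) (i : ι)
    (L : List ι) (hx : ∀ e ∈ i :: L, |v e 0| ≤ X) (hy : ∀ e ∈ i :: L, |v e 1 - y₀| ≤ D)
    (hc : List.IsChain (fun e f => |v e 0 - v f 0| ≤ 2 * D ∧ |φ (v e - v f)| ≤ B) (i :: L)) :
    |PhiL (fun e f => gg φ (v e) (v f)) i L| ≤ 2 * X * D + (2 * D ^ 2 + B) * L.length := by
  have h1 := Ends_exact φ v hD L i hy hc
  have hl := Ends_lastD_mem L i
  have hi : i ∈ i :: L := List.mem_cons_self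
  have hX : 0 ≤ X := (abs_nonneg _).trans (hx i hi)
  have h2 : |v (lastD i L) 0 * (v (lastD i L) 1 - y₀)| ≤ X * D := by
    rw [abs_mul]
    exact mul_le_mul (hx _ hl) (hy _ hl) (abs_nonneg _) hX
  have h3 : |v i 0 * (v i 1 - y₀)| ≤ X * D := by
    rw [abs_mul]
    exact mul_le_mul (hx _ hi) (hy _ hi) (abs_nonneg _) hX
  rw [abs_le] at h1 h2 h3 ⊢
  constructor <;> linarith [h1.1, h1.2, h2.1, h2.2, h3.1, h3.2]

private theorem Ends_chain {ι : Type} (a b : ι → ℝ) (S : ℝ) (P : ι → Prop) :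
    ∀ (L : List ι) (i : ι), Ch a b S i L → (∀ e ∈ i :: L, P e) →
      List.IsChain (fun e f => P e ∧ P f ∧ b e = a f) (i :: L) := by
  intro L
  induction L with
  | nil => intro i _ _; exact List.isChain_singleton i
  | cons j L ih =>
    intro i hch hP
    rw [List.isChain_cons_cons]
    refine ⟨⟨hP i List.mem_cons_self, hP j (List.mem_cons_of_mem _ List.mem_cons_self), hch.1⟩,
      ih j hch.2 fun e he => hP e (List.mem_cons_of_mem _ he)⟩

private theorem Ends_coord (p : E) (k : Fin 2) : |p k| ≤ ‖p‖ := by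
  have := PiLp.norm_apply_le p k
  rwa [Real.norm_eq_abs] at this

/-- common part of the two statements -/
private theorem Ends_main {ι : Type} [Fintype ι] {K : Set E} {φ : E → ℝ} {B D : ℝ}
    (hB : ∀ x ∈ K, ∀ y ∈ K, |φ (x - y)| ≤ B) (hD : ∀ x ∈ K, ‖x‖ ≤ D) (hD0 : 0 ≤ D) {S : ℝ}
    {C : ι → Set E} (h : Cells S C) {v : ι → E} (hv : ∀ i, C i ⊆ tr (v i) K)
    {y y₀ : ℝ} (hy₀ : y₀ = 0 ∨ y₀ = S) (hact : ∀ i, Act C y i → ∃ p ∈ C i, p 1 = y₀)
    {N : ℕ} (hN : ({i | (C i ∩ Fr S).Nonempty} : Set ι).ncard ≤ N)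
    {i : ι} {L : List ι} (h1 : Row C S y i L) :
    |PhiL (fun e f => gg φ (v e) (v f)) i L| ≤ 2 * (S + D) * D + (2 * D ^ 2 + B) * N ∧
      |v (lastD i L) 1 - y₀| ≤ D := by
  have hB0 : 0 ≤ B := by
    obtain ⟨p, hp⟩ := (h.body i).2.2
    have := hv i hp
    exact (abs_nonneg _).trans (hB _ this _ this)
  have hx : ∀ e ∈ i :: L, |v e 0| ≤ S + D := by
    intro e _
    obtain ⟨p, hp⟩ := (h.body e).2.2
    have h2 : ‖p - v e‖ ≤ D := hD _ (hv e hp)
    have h3 := (Ends_coord (p - v e) 0).trans h2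
    obtain ⟨h4, h5, _, _⟩ := h.sub e hp
    rw [PiLp.sub_apply, abs_le] at h3
    rw [abs_le]
    constructor <;> linarith [h3.1, h3.2]
  have hy : ∀ e ∈ i :: L, |v e 1 - y₀| ≤ D := by
    intro e he
    obtain ⟨p, hp, hp1⟩ := hact e ((h1.act e).1 he)
    have h2 : ‖p - v e‖ ≤ D := hD _ (hv e hp)
    have h3 := (Ends_coord (p - v e) 1).trans h2
    rw [PiLp.sub_apply, hp1, abs_sub_comm] at h3
    exact h3
  have hc : List.IsChain (fun e f => |v e 0 - v f 0| ≤ 2 * D ∧ |φ (v e - v f)| ≤ B)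
      (i :: L) := by
    refine (Ends_chain _ _ S (fun e => Act C y e) L i h1.ch
      (fun e he => (h1.act e).1 he)).imp ?_
    rintro e f ⟨he, hf, hef⟩
    have h2 : pt (sb (C e) y) y ∈ C e :=
      (mem_slice (h.body e) he.1.le he.2.le _).2
        ⟨sa_le_sb (h.body e) he.1.le he.2.le, le_rfl⟩
    have h3 : pt (sb (C e) y) y ∈ C f := by
      have hef' : sb (C e) y = sa (C f) y := hef
      rw [hef']
      exact (mem_slice (h.body f) hf.1.le hf.2.le _).2
        ⟨le_rfl, sa_le_sb (h.body f) hf.1.le hf.2.le⟩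
    set p := pt (sb (C e) y) y with hp
    have h4 : p - v e ∈ K := hv e h2
    have h5 : p - v f ∈ K := hv f h3
    have h6 : v e - v f = (p - v f) - (p - v e) := by abel
    refine ⟨?_, ?_⟩
    · have h7 := (Ends_coord (p - v e) 0).trans (hD _ h4)
      have h8 := (Ends_coord (p - v f) 0).trans (hD _ h5)
      rw [PiLp.sub_apply, abs_le] at h7 h8
      rw [abs_le]
      constructor <;> linarith [h7.1, h7.2, h8.1, h8.2]
    · rw [h6]
      exact hB _ h5 _ h4
  have hlen : (i :: L).length ≤ N := by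
    classical
    have h2 : ((i :: L).toFinset : Set ι) ⊆ {i | (C i ∩ Fr S).Nonempty} := by
      intro e he
      have he' : e ∈ i :: L := by simpa using he
      obtain ⟨p, hp, hp1⟩ := hact e ((h1.act e).1 he')
      refine ⟨p, hp, h.sub e hp, ?_⟩
      rcases hy₀ with h0 | h0
      · exact Or.inr (Or.inr (Or.inl (hp1.trans h0)))
      · exact Or.inr (Or.inr (Or.inr (hp1.trans h0)))
    have h3 := Set.ncard_le_ncard h2 (Set.toFinite _)
    rw [Set.ncard_coe_finset, List.toFinset_card_of_nodup h1.nd] at h3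
    exact h3.trans hN
  have hlen' : (L.length : ℝ) ≤ N := by
    have : L.length ≤ N := by
      simp only [List.length_cons] at hlen
      omega
    exact_mod_cast this
  have h2 := phi_bound φ v hD0 i L hx hy hc
  refine ⟨h2.trans ?_, hy _ (Ends_lastD_mem L i)⟩
  have h3 : (2 * D ^ 2 + B) * (L.length : ℝ) ≤ (2 * D ^ 2 + B) * N :=
    mul_le_mul_of_nonneg_left hlen' (by positivity)
  linarith

/-- The lowest chain. PROOF. `y` is not an event and there is no event in `(0, y]`, so every active cell has `lo = 0` and meets the bottom side: it is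
one of the `N` cells whose translate meets `Fr S` (so `L.length ≤ N`), and `|v e 1| ≤ D`, `|v e 0| ≤ S + D`. Consecutive cells of the chain have the
common point `pt (sb (C e) y) y`, so `|v e 0 - v f 0| ≤ 2 D` and `|φ (v e - v f)| ≤ B` (`v e - v f = (p - v f) - (p - v e)`). `phi_bound` with
`X = S + D`, `y₀ = 0`. -/
theorem low_end {ι : Type} [Fintype ι] {K : Set E} {φ : E → ℝ} {B D : ℝ}
    (hB : ∀ x ∈ K, ∀ y ∈ K, |φ (x - y)| ≤ B) (hD : ∀ x ∈ K, ‖x‖ ≤ D) (hD0 : 0 ≤ D) {S : ℝ}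
    (hS : 0 < S) {C : ι → Set E} (h : Cells S C) {v : ι → E} (hv : ∀ i, C i ⊆ tr (v i) K)
    {y : ℝ} (hy0 : 0 < y) (hy1 : y < S) (hne : ∀ i, lo (C i) ≤ y → lo (C i) = 0)
    {N : ℕ} (hN : ({i | (C i ∩ Fr S).Nonempty} : Set ι).ncard ≤ N)
    {i : ι} {L : List ι} (h1 : Row C S y i L) :
    -(2 * (S + D) * D + (2 * D ^ 2 + B) * N + S * D) ≤ Vl φ v S i L := by
  have hact : ∀ i, Act C y i → ∃ p ∈ C i, p 1 = 0 := by
    intro e he
    obtain ⟨p, hp, hp1⟩ := slc_lo_mem (h.body e)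
    exact ⟨p, hp, hp1.trans (hne e he.1.le)⟩
  obtain ⟨h2, h3⟩ := Ends_main hB hD hD0 h hv (Or.inl rfl) hact hN h1
  rw [sub_zero] at h3
  unfold Vl
  rw [abs_le] at h2 h3
  have h4 : S * v (lastD i L) 1 ≤ S * D := mul_le_mul_of_nonneg_left h3.2 hS.le
  linarith [h2.1]

/-- The highest chain, symmetric, with `y₀ = S`: `v (last) 1 ≥ S - D`. -/
theorem high_end {ι : Type} [Fintype ι] {K : Set E} {φ : E → ℝ} {B D : ℝ}
    (hB : ∀ x ∈ K, ∀ y ∈ K, |φ (x - y)| ≤ B) (hD : ∀ x ∈ K, ‖x‖ ≤ D) (hD0 : 0 ≤ D) {S : ℝ}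
    (hS : 0 < S) {C : ι → Set E} (h : Cells S C) {v : ι → E} (hv : ∀ i, C i ⊆ tr (v i) K)
    {y : ℝ} (hy0 : 0 < y) (hy1 : y < S) (hne : ∀ i, y ≤ hi (C i) → hi (C i) = S)
    {N : ℕ} (hN : ({i | (C i ∩ Fr S).Nonempty} : Set ι).ncard ≤ N)
    {i : ι} {L : List ι} (h1 : Row C S y i L) :
    Vl φ v S i L ≤ 2 * (S + D) * D + (2 * D ^ 2 + B) * N - S * (S - D) := by
  have hact : ∀ i, Act C y i → ∃ p ∈ C i, p 1 = S := by
    intro e he
    obtain ⟨p, hp, hp1⟩ := slc_hi_mem (h.body e)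
    exact ⟨p, hp, hp1.trans (hne e he.2.le)⟩
  obtain ⟨h2, h3⟩ := Ends_main hB hD hD0 h hv (Or.inr rfl) hact hN h1
  unfold Vl
  rw [abs_le] at h2 h3
  have h4 : S * (S - D) ≤ S * v (lastD i L) 1 :=
    mul_le_mul_of_nonneg_left (by linarith [h3.1]) hS.le
  linarith [h2.2]

end NT31
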