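import Pool.Agent.W_fa9b59_h31.Sweep
import Pool.Agent.W_fa9b59_h31.Ends
import Pool.Agent.W_fa9b59_h31.Clean

set_option autoImplicit false

/-!
# The finite covering theorem
-/

open MeasureTheory Metric Set

namespace NT31

open FB88

private theorem CovFin_low (A : Finset ℝ) {S : ℝ} (hS : 0 < S) :
    ∃ y, 0 < y ∧ y < S / 2 ∧ ∀ a ∈ A, 0 < a → y < a := by
  have h1 : ∀ᶠ y in nhdsWithin (0 : ℝ) (Set.Ioi 0), 0 < y := self_mem_nhdsWithin
  have h2 : ∀ᶠ y in nhdsWithin (0 : ℝ) (Set.Ioi 0), y < S / 2 :=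
    mem_nhdsWithin_of_mem_nhds (Iio_mem_nhds (by linarith))
  have h3 : ∀ᶠ y in nhdsWithin (0 : ℝ) (Set.Ioi 0), ∀ a ∈ A, 0 < a → y < a := by
    rw [Filter.eventually_all_finset]
    intro a _
    by_cases ha : 0 < a
    · filter_upwards [mem_nhdsWithin_of_mem_nhds (Iio_mem_nhds ha)] with y hy _
      exact hy
    · exact Filter.Eventually.of_forall fun y h => absurd h ha
  obtain ⟨y, hy1, hy2, hy3⟩ := (h1.and (h2.and h3)).exists
  exact ⟨y, hy1, hy2, hy3⟩

private theorem CovFin_high (A : Finset ℝ) {S : ℝ} (hS : 0 < S) :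
    ∃ y, S / 2 < y ∧ y < S ∧ ∀ a ∈ A, a < S → a < y := by
  have h1 : ∀ᶠ y in nhdsWithin S (Set.Iio S), y < S := self_mem_nhdsWithin
  have h2 : ∀ᶠ y in nhdsWithin S (Set.Iio S), S / 2 < y :=
    mem_nhdsWithin_of_mem_nhds (Ioi_mem_nhds (by linarith))
  have h3 : ∀ᶠ y in nhdsWithin S (Set.Iio S), ∀ a ∈ A, a < S → a < y := by
    rw [Filter.eventually_all_finset]
    intro a _
    by_cases ha : a < S
    · filter_upwards [mem_nhdsWithin_of_mem_nhds (Ioi_mem_nhds ha)] with y hy _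
      exact hy
    · exact Filter.Eventually.of_forall fun y h => absurd h ha
  obtain ⟨y, hy1, hy2, hy3⟩ := (h1.and (h2.and h3)).exists
  exact ⟨y, hy2, hy1, hy3⟩

private theorem CovFin_c1 {ι : Type} [Fintype ι] (f : ι → ℝ) (y y' : ℝ) :
    c1 f y y' ≤ Fintype.card ι := by
  unfold c1
  exact (Finset.card_filter_le _ _).trans (by rw [Finset.card_univ])

private theorem CovFin_c2 {ι : Type} [Fintype ι] (f : ι → ℝ) (y y' : ℝ) (A : Set ι)
    (h : ∀ i, y ≤ f i → i ∈ A) : c2 f y y' ≤ A.ncard := by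
  classical
  unfold c2
  rw [← Set.ncard_coe_finset]
  refine Set.ncard_le_ncard ?_ (Set.toFinite A)
  intro i hi
  rw [Finset.mem_coe, Finset.mem_filter] at hi
  exact h i hi.2.1

/-- PROOF. `exists_cells`. Choose `y` small (no event in `(0, y]`) and `y'` close to `S` (no event in `[y', S)`), `y < y'`, both no events; rows by
`row_exists`. `sweep`, `low_end`, `high_end`: `S² - 2 S D - 4 (S + D) D - 2 (2 D² + B) N∂ ≤ c (c1 + c1) + (2 D² + B) (c2 + c2)`; `c1 ≤ N`;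
`c2 ≤ N∂` (a cell counted by `c2 bL y y'` has `bL > 0`, so it contains a point of the left side). `N∂` = number of the cells meeting
`Fr S`, at most the number of the translates meeting `Fr S`. -/
theorem cov_fin {K : Set E} (hK : Body K) {φ : E → ℝ} (ho : ∀ e, φ (-e) = -φ e) {B c : ℝ}
    (hB : ∀ x ∈ K, ∀ y ∈ K, |φ (x - y)| ≤ B) (hc : 0 ≤ c) (hT : TB K φ c) :
    ∃ C₀ : ℝ, 0 ≤ C₀ ∧ ∀ S : ℝ, 1 ≤ S → ∀ (Z : Finset E), (∀ x ∈ Rs S, ∃ t ∈ Z, x - t ∈ K) →
      S ^ 2 ≤ 2 * c * Z.card +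
        C₀ * (S + ({t | t ∈ Z ∧ (tr t K ∩ Fr S).Nonempty} : Set E).ncard) := by
  classical
  obtain ⟨x0, hx0⟩ := hK.2.2
  have hB0 : 0 ≤ B := (abs_nonneg _).trans (hB x0 hx0 x0 hx0)
  obtain ⟨D, hD⟩ := hK.2.1.isBounded.exists_norm_le
  have hD0 : 0 ≤ D := (norm_nonneg _).trans (hD x0 hx0)
  refine ⟨6 * D + 4 * D ^ 2 + 4 * (2 * D ^ 2 + B), by positivity, ?_⟩
  intro S hS Z hZ
  have hS0 : 0 < S := by linarith
  have hcov : Rs S ⊆ ⋃ i : {t // t ∈ Z}, tr (i : E) K := by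
    intro x hx
    obtain ⟨t, ht, htK⟩ := hZ x hx
    exact mem_iUnion.2 ⟨⟨t, ht⟩, htK⟩
  obtain ⟨s, C, hC, hCv⟩ := exists_cells hK (fun i : {t // t ∈ Z} => (i : E)) hS0 hcov
  set A : Set {i // i ∈ s} := {i | (C i ∩ Fr S).Nonempty} with hA
  set N : ℕ := ({t | t ∈ Z ∧ (tr t K ∩ Fr S).Nonempty} : Set E).ncard with hN
  have hAN : A.ncard ≤ N := by
    refine Set.ncard_le_ncard_of_injOn (fun i => ((i : {t // t ∈ Z}) : E)) ?_ ?_ ?_
    · intro i hi
      obtain ⟨p, hp1, hp2⟩ := hi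
      exact ⟨i.1.2, p, hCv i hp1, hp2⟩
    · intro i _ j _ hij
      exact Subtype.ext (Subtype.ext hij)
    · exact Z.finite_toSet.subset fun t ht => ht.1
  have hcard : Fintype.card {i // i ∈ s} ≤ Z.card := by
    rw [Fintype.card_coe]
    exact (Finset.card_le_univ s).trans (by rw [Fintype.card_coe])
  have hlo0 : ∀ i, 0 ≤ lo (C i) := by
    intro i
    obtain ⟨p, hp, hp1⟩ := slc_lo_mem (hC.body i)
    rw [← hp1]
    exact (hC.sub i hp).2.2.1
  have hhiS : ∀ i, hi (C i) ≤ S := by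
    intro i
    obtain ⟨p, hp, hp1⟩ := slc_hi_mem (hC.body i)
    rw [← hp1]
    exact (hC.sub i hp).2.2.2
  set Ev : Finset ℝ := Finset.univ.image (fun i => lo (C i)) ∪
    Finset.univ.image (fun i => hi (C i)) with hEv
  have hlo : ∀ i, lo (C i) ∈ Ev := fun i => Finset.mem_union_left _
    (Finset.mem_image_of_mem _ (Finset.mem_univ i))
  have hhi : ∀ i, hi (C i) ∈ Ev := fun i => Finset.mem_union_right _
    (Finset.mem_image_of_mem _ (Finset.mem_univ i))
  obtain ⟨y, hy0, hy1, hy⟩ := CovFin_low Ev hS0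
  obtain ⟨y', hy'0, hy'1, hy'⟩ := CovFin_high Ev hS0
  have hlh : ∀ i, lo (C i) < hi (C i) := fun i => lo_lt_hi (hC.body i) (hC.int i)
  have hlow : ∀ i, lo (C i) ≤ y → lo (C i) = 0 := by
    intro i h
    by_contra hne
    exact absurd (hy _ (hlo i) (lt_of_le_of_ne (hlo0 i) (Ne.symm hne))) (not_lt.2 h)
  have hhigh : ∀ i, y' ≤ hi (C i) → hi (C i) = S := by
    intro i h
    by_contra hne
    exact absurd (hy' _ (hhi i) (lt_of_le_of_ne (hhiS i) hne)) (not_lt.2 h)
  have hnev : NonEv C y := by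
    intro i
    constructor
    · intro h
      have := hlow i h.ge
      linarith
    · intro h
      have := hy _ (hhi i) (by rw [← h]; exact hy0)
      linarith
  have hnev' : NonEv C y' := by
    intro i
    constructor
    · intro h
      have := hy' _ (hlo i) (by rw [← h]; exact hy'1)
      linarith
    · intro h
      have := hhigh i h.le
      linarith
  have hyS : y < S := by linarith
  have hyy : y < y' := by linarith
  have hy'pos : 0 < y' := by linarith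
  obtain ⟨i, L, hrow⟩ := row_exists hC hy0 hyS hnev
  obtain ⟨j, M, hrow'⟩ := row_exists hC hy'pos hy'1 hnev'
  have hsw := sweep ho hB hB0 hD hc hT hC hCv hy0 hyy hy'1 hnev hnev' hrow hrow'
  have hl := low_end hB hD hD0 hS0 hC hCv hy0 hyS hlow hAN hrow
  have hh := high_end hB hD hD0 hS0 hC hCv hy'pos hy'1 hhigh hAN hrow'
  have e1 : (c1 (fun i => hi (C i)) y y' : ℝ) ≤ Z.card := by
    exact_mod_cast (CovFin_c1 _ _ _).trans hcard
  have e2 : (c1 (fun i => lo (C i)) y y' : ℝ) ≤ Z.card := by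
    exact_mod_cast (CovFin_c1 _ _ _).trans hcard
  have e3 : (c2 (fun i => bL (C i)) y y' : ℝ) ≤ N := by
    refine Nat.cast_le.2 ((CovFin_c2 _ _ _ A ?_).trans hAN)
    intro i hi1
    have hne : {t | pt 0 t ∈ C i}.Nonempty := by
      by_contra hcon
      rw [Set.not_nonempty_iff_eq_empty] at hcon
      have : bL (C i) = 0 := by rw [bL, hcon, Real.sSup_empty]
      linarith
    obtain ⟨t, ht⟩ := hne
    exact ⟨pt 0 t, ht, hC.sub i ht, Or.inl (by simp [pt])⟩
  have e4 : (c2 (fun i => bR S (C i)) y y' : ℝ) ≤ N := by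
    refine Nat.cast_le.2 ((CovFin_c2 _ _ _ A ?_).trans hAN)
    intro i hi1
    have hne : {t | pt S t ∈ C i}.Nonempty := by
      by_contra hcon
      rw [Set.not_nonempty_iff_eq_empty] at hcon
      have : bR S (C i) = 0 := by rw [bR, hcon, Real.sSup_empty]
      linarith
    obtain ⟨t, ht⟩ := hne
    exact ⟨pt S t, ht, hC.sub i ht, Or.inr (Or.inl (by simp [pt]))⟩
  have hM : Mc C S c (2 * D ^ 2 + B) y y' ≤ c * (2 * Z.card) + (2 * D ^ 2 + B) * (2 * N) := by
    unfold Mc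
    have h1 : 0 ≤ 2 * D ^ 2 + B := by positivity
    exact add_le_add (mul_le_mul_of_nonneg_left (by linarith) hc)
      (mul_le_mul_of_nonneg_left (by linarith) h1)
  have hfin : S * (S - D) - (2 * (S + D) * D + (2 * D ^ 2 + B) * N) -
      (2 * (S + D) * D + (2 * D ^ 2 + B) * N + S * D) ≤
      c * (2 * Z.card) + (2 * D ^ 2 + B) * (2 * N) := by linarith
  have hNn : (0 : ℝ) ≤ N := Nat.cast_nonneg _
  have hx1 : D ^ 2 ≤ D ^ 2 * S := by nlinarith [sq_nonneg D]
  have hx2 : 0 ≤ (2 * D ^ 2 + B) * S := by positivity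
  have hx3 : 0 ≤ (6 * D + 4 * D ^ 2) * N := by positivity
  nlinarith

end NT31
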