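import Pool.Agent.W_fa9b59_h31.CDefs

set_option autoImplicit false

/-!
# The edge potential `f0`
-/

namespace NT31

private lemma F0_sign {a b c : ℝ} (h : a + b + c = 0) (h1 : 0 ≤ a * b) (h2 : 0 ≤ b * c) : b = 0 := by
  by_contra hb
  rcases lt_or_gt_of_ne hb with hb | hb
  · have ha : a ≤ 0 := by
      by_contra ha
      push Not at ha
      nlinarith
    have hc : c ≤ 0 := by
      by_contra hc
      push Not at hc
      nlinarith
    linarith
  · have ha : 0 ≤ a := by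
      by_contra ha
      push Not at ha
      nlinarith
    have hc : 0 ≤ c := by
      by_contra hc
      push Not at hc
      nlinarith
    linarith

private lemma F0_sum (e : ℝ × ℝ) : e.1 + e.2 + th e = 0 := by
  unfold th
  ring

/-- PROOF. By definition. -/
theorem f0_a {e : ℝ × ℝ} (h : 0 ≤ e.1 * e.2) : f0 e = (e.2 - e.1) * (4 - 9 * |th e|) / 18 := by
  unfold f0
  rw [if_pos h]

/-- PROOF. If also `0 ≤ e.1 * e.2`, then `e.2 = 0` or `e.1 = 0` or `th e = 0` (three numbers of sum `0`: `e.2` has the sign of `e.1` and of `th e`,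
so `e.2 = 0`, or `e.1 = th e = 0`...) and both formulas give the same value. -/
theorem f0_b {e : ℝ × ℝ} (h : 0 ≤ e.2 * th e) :
    f0 e = (th e - e.2) * (4 - 9 * |e.1|) / 18 := by
  by_cases h1 : 0 ≤ e.1 * e.2
  · rw [f0_a h1]
    have hs := F0_sum e
    have h2 : e.2 = 0 := F0_sign hs h1 h
    have h3 : th e = -e.1 := by linarith
    rw [h3, h2, abs_neg]
    ring
  · unfold f0
    rw [if_neg h1, if_pos h]

/-- PROOF. As `f0_b`. -/
theorem f0_c {e : ℝ × ℝ} (h : 0 ≤ e.1 * th e) :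
    f0 e = (e.1 - th e) * (4 - 9 * |e.2|) / 18 := by
  have hs := F0_sum e
  by_cases h1 : 0 ≤ e.1 * e.2
  · rw [f0_a h1]
    have h2 : e.1 = 0 := by
      refine F0_sign (a := e.2) (c := th e) (by linarith) ?_ h
      rw [mul_comm]
      exact h1
    have h3 : th e = -e.2 := by linarith
    rw [h3, h2, abs_neg]
    ring
  · by_cases h2 : 0 ≤ e.2 * th e
    · rw [f0_b h2]
      have h3 : th e = 0 := by
        refine F0_sign (a := e.2) (c := e.1) (by linarith) h2 ?_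
        rw [mul_comm]
        exact h
      have h4 : e.2 = -e.1 := by linarith
      rw [h3, h4, abs_neg]
      ring
    · unfold f0
      rw [if_neg h1, if_neg h2]

/-- One of the three products of two of the coordinates is nonnegative. -/
theorem three_cases (e : ℝ × ℝ) : 0 ≤ e.1 * e.2 ∨ 0 ≤ e.2 * th e ∨ 0 ≤ e.1 * th e := by
  by_contra hcon
  push Not at hcon
  obtain ⟨h1, h2, h3⟩ := hcon
  have h4 : 0 < (e.1 * e.2) * (e.2 * th e) := mul_pos_of_neg_of_neg h1 h2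
  have h5 : (e.1 * e.2) * (e.2 * th e) = e.2 ^ 2 * (e.1 * th e) := by ring
  have h6 : e.2 ^ 2 * (e.1 * th e) ≤ 0 := mul_nonpos_of_nonneg_of_nonpos (sq_nonneg _) h3.le
  linarith

private lemma F0_th_neg (e : ℝ × ℝ) : th (-e) = -th e := by
  simp only [th, Prod.fst_neg, Prod.snd_neg]
  ring

theorem f0_neg (e : ℝ × ℝ) : f0 (-e) = -f0 e := by
  have ht := F0_th_neg e
  rcases three_cases e with h | h | h
  · have h' : 0 ≤ (-e).1 * (-e).2 := by
      simp only [Prod.fst_neg, Prod.snd_neg]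
      linarith [neg_mul_neg e.1 e.2]
    rw [f0_a h, f0_a h', ht, abs_neg, Prod.fst_neg, Prod.snd_neg]
    ring
  · have h' : 0 ≤ (-e).2 * th (-e) := by
      rw [ht, Prod.snd_neg]
      linarith [neg_mul_neg e.2 (th e)]
    rw [f0_b h, f0_b h', ht, Prod.fst_neg, Prod.snd_neg, abs_neg]
    ring
  · have h' : 0 ≤ (-e).1 * th (-e) := by
      rw [ht, Prod.fst_neg]
      linarith [neg_mul_neg e.1 (th e)]
    rw [f0_c h, f0_c h', ht, Prod.fst_neg, Prod.snd_neg, abs_neg]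
    ring

private lemma F0_prod {A Bq M N : ℝ} (h1 : |A| ≤ M) (h2 : |Bq| ≤ N) :
    |A * Bq / 18| ≤ M * N / 18 := by
  rw [abs_div, abs_mul, abs_of_pos (by norm_num : (0 : ℝ) < 18)]
  have h0 : 0 ≤ M := le_trans (abs_nonneg _) h1
  have h3 : |A| * |Bq| ≤ M * N := mul_le_mul h1 h2 (abs_nonneg _) h0
  linarith

private lemma F0_four {c M : ℝ} (h : |c| ≤ M) : |(4 - 9 * |c|)| ≤ 4 + 9 * M := by
  have h0 := abs_nonneg c
  rw [abs_le]
  constructor <;> linarith

/-- PROOF. `three_cases`; in each case both factors are bounded. -/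
theorem f0_bound {e : ℝ × ℝ} {m : ℝ} (h1 : |e.1| ≤ m) (h2 : |e.2| ≤ m) :
    |f0 e| ≤ 2 * m * (4 + 18 * m) := by
  have hm : 0 ≤ m := le_trans (abs_nonneg _) h1
  have hc : |th e| ≤ 2 * m := by
    have h3 : th e = -(e.1 + e.2) := by
      unfold th
      ring
    rw [h3, abs_neg]
    linarith [abs_add_le e.1 e.2]
  rcases three_cases e with h | h | h
  · rw [f0_a h]
    have h3 : |e.2 - e.1| ≤ 2 * m := by linarith [abs_sub e.2 e.1]
    refine (F0_prod h3 (F0_four hc)).trans ?_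
    nlinarith
  · rw [f0_b h]
    have h3 : |th e - e.2| ≤ 3 * m := by linarith [abs_sub (th e) e.2]
    refine (F0_prod h3 (F0_four h1)).trans ?_
    nlinarith
  · rw [f0_c h]
    have h3 : |e.1 - th e| ≤ 3 * m := by linarith [abs_sub e.1 (th e)]
    refine (F0_prod h3 (F0_four h2)).trans ?_
    nlinarith

/-- the modulus of a difference of two numbers of the same sign -/
private lemma F0_diff {a b c : ℝ} (h : a + b + c = 0) (h1 : 0 ≤ a * b) : |b - a| ≤ |c| := by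
  rw [← sq_le_sq]
  have h2 : c = -(a + b) := by linarith
  rw [h2]
  nlinarith

private lemma F0_core {a b c ε m : ℝ} (h : a + b + c = 0) (h1 : 0 ≤ a * b) (hε : 0 ≤ ε)
    (hm : |c| ≤ m) :
    |(1 + 3 * ε) ^ 2 * (((1 + 3 * ε)⁻¹ * b - (1 + 3 * ε)⁻¹ * a) * (4 - 9 * |(1 + 3 * ε)⁻¹ * c|) / 18)
      - (b - a) * (4 - 9 * |c|) / 18| ≤ 2 / 3 * ε * m := by
  have ht : 0 < 1 + 3 * ε := by linarith
  have h2 : |(1 + 3 * ε)⁻¹ * c| = (1 + 3 * ε)⁻¹ * |c| := by
    rw [abs_mul, abs_of_pos (inv_pos.2 ht)]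
  rw [h2]
  have h3 : (1 + 3 * ε) ^ 2 * (((1 + 3 * ε)⁻¹ * b - (1 + 3 * ε)⁻¹ * a) *
      (4 - 9 * ((1 + 3 * ε)⁻¹ * |c|)) / 18) - (b - a) * (4 - 9 * |c|) / 18 =
      2 / 3 * ε * (b - a) := by
    field_simp
    ring
  rw [h3, abs_mul, abs_of_nonneg (by positivity : (0 : ℝ) ≤ 2 / 3 * ε)]
  exact mul_le_mul_of_nonneg_left ((F0_diff h h1).trans hm) (by positivity)

/-- Scaling: for `t = 1 + 3 ε`, `t² f0 (e / t)` differs from `f0 e` by at most `(2/3) ε |e|`, where `|e|` is the largest modulus of a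
coordinate. PROOF. In each of the three cases (`three_cases`, the same case for `e / t`): `t² f0 (e / t) = A (4 t - 9 |e|) / 18` with `A` the
difference of the two coordinates of the same sign, `|A| ≤ |e|` = modulus of the third coordinate. -/
theorem f0_scale {e : ℝ × ℝ} {ε m : ℝ} (hε : 0 ≤ ε) (h1 : |e.1| ≤ m) (h2 : |e.2| ≤ m)
    (h3 : |th e| ≤ m) :
    |(1 + 3 * ε) ^ 2 * f0 ((1 + 3 * ε)⁻¹ • e) - f0 e| ≤ 2 / 3 * ε * m := by
  have ht : 0 < 1 + 3 * ε := by linarith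
  have hi : 0 < (1 + 3 * ε)⁻¹ := inv_pos.2 ht
  have e1 : ((1 + 3 * ε)⁻¹ • e).1 = (1 + 3 * ε)⁻¹ * e.1 := rfl
  have e2 : ((1 + 3 * ε)⁻¹ • e).2 = (1 + 3 * ε)⁻¹ * e.2 := rfl
  have e3 : th ((1 + 3 * ε)⁻¹ • e) = (1 + 3 * ε)⁻¹ * th e := by
    unfold th
    rw [e1, e2]
    ring
  have hs := F0_sum e
  have key : ∀ a b : ℝ, 0 ≤ a * b → 0 ≤ (1 + 3 * ε)⁻¹ * a * ((1 + 3 * ε)⁻¹ * b) := by
    intro a b hab
    have h5 : (1 + 3 * ε)⁻¹ * a * ((1 + 3 * ε)⁻¹ * b) = ((1 + 3 * ε)⁻¹) ^ 2 * (a * b) := by ring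
    rw [h5]
    positivity
  rcases three_cases e with h | h | h
  · rw [f0_a h, f0_a (by rw [e1, e2]; exact key _ _ h), e1, e2, e3]
    exact F0_core hs h hε h3
  · rw [f0_b h, f0_b (by rw [e2, e3]; exact key _ _ h), e1, e2, e3]
    exact F0_core (by linarith) h hε h1
  · rw [f0_c h, f0_c (by rw [e1, e3]; exact key _ _ h), e1, e2, e3]
    exact F0_core (by linarith) (by rw [mul_comm]; exact h) hε h2

theorem dd_neg (x y z : ℝ × ℝ) : dd (-x) (-y) (-z) = dd x y z := by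
  simp only [dd, Prod.fst_neg, Prod.snd_neg]
  ring

theorem dd_cyc (x y z : ℝ × ℝ) : dd y z x = dd x y z := by
  simp only [dd]
  ring

theorem HH_cyc (x y z : ℝ × ℝ) : HH y z x = HH x y z := by
  simp only [HH]
  rw [dd_cyc x y z]
  ring

/-- PROOF. `f0_neg`, `dd` is invariant under `x ↦ v - x`. -/
theorem HH_refl (x y z v : ℝ × ℝ) :
    HH (v - x) (v - y) (v - z) + HH x y z = 2 / 3 - 2 * dd x y z := by
  have h1 : (v - y) - (v - x) = -(y - x) := by abel
  have h2 : (v - z) - (v - y) = -(z - y) := by abel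
  have h3 : (v - x) - (v - z) = -(x - z) := by abel
  have h4 : dd (v - x) (v - y) (v - z) = dd x y z := by
    simp only [dd, Prod.fst_sub, Prod.snd_sub]
    ring
  unfold HH
  rw [h1, h2, h3, h4, f0_neg, f0_neg, f0_neg]
  ring

theorem Near_mono {r r' : ℝ} (h : r ≤ r') {x y z : ℝ × ℝ} (hn : Near r x y z) :
    Near r' x y z := by
  obtain ⟨⟨a1, a2, a3⟩, ⟨b1, b2, b3⟩, ⟨c1, c2, c3⟩⟩ := hn
  exact ⟨⟨a1.trans h, a2.trans h, a3.trans h⟩, ⟨b1.trans h, b2.trans h, b3.trans h⟩,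
    ⟨c1.trans h, c2.trans h, c3.trans h⟩⟩

end NT31
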