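import Pool.Agent.W_fa9b59_h31.Coord

set_option autoImplicit false

/-!
# The lattice covering
-/

open MeasureTheory Metric Set

namespace NT31

open FB88 FB88Stmt

/-- determinant of two vectors given by coordinates -/
private theorem det2_comb (a b : E) (s t u w : ℝ) :
    det2 (s • a + t • b) (u • a + w • b) = det2 a b * (s * w - t * u) := by
  simp only [det2, PiLp.add_apply, PiLp.smul_apply, smul_eq_mul]
  ring

/-- The lattice covering. PROOF. `core` gives `x, y, z, v` in coordinates; let `t i ∈ K` be the points `R + (·).1 • (P - R) + (·).2 • (Q - R)` of `x, y, z`, and `w` the point with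
`w - t i ∈ K` (`w = 2 R + v.1 • (P - R) + v.2 • (Q - R)`). With the centre `g = w / 2` (`(1/2) • w`) and `p₁ = t x - g`, `p₂ = g - t z`, `p₃ = t y - g` the six points `g ± p i` are in `K`; in coordinates
`p₁ ≈ (0, 1/3)`, `p₂ ≈ (-1/3, 1/3)`, `p₃ ≈ (-1/3, 0)`, so the three determinants are positive (`≈ D / 9`, `D = det2 (P - R) (Q - R)`, `Pos`), and their sum is
exactly `D * dd x y z`. `FB88.hex_lat` and `iInf₂_le`. -/
theorem lat_upper {K : Set E} (hc : Convex ℝ K) {P Q R : E}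
    (hd : 0 < det2 (P - R) (Q - R)) {δ : ℝ} (h0 : 0 ≤ δ) (h1 : δ ≤ 1 / 10 ^ 4) {x y z v : ℝ × ℝ}
    (ho : Opt {b : ℝ × ℝ | R + b.1 • (P - R) + b.2 • (Q - R) ∈ K} x y z v)
    (hp : Pos δ x y z v) :
    thetaL K ≤ volume K / ENNReal.ofReal (det2 (P - R) (Q - R) * dd x y z) := by
  obtain ⟨x1, x2⟩ := x
  obtain ⟨y1, y2⟩ := y
  obtain ⟨z1, z2⟩ := z
  obtain ⟨v1, v2⟩ := v
  set A : E := P - R with hA
  set B : E := Q - R with hB
  have mx := ho.hx
  have my := ho.hy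
  have mz := ho.hz
  have mvx := ho.vx
  have mvy := ho.vy
  have mvz := ho.vz
  simp only [mem_ofPred_eq, Prod.fst_sub, Prod.snd_sub] at mx my mz mvx mvy mvz
  set c : E := R + (v1 / 2) • A + (v2 / 2) • B with hcdef
  set p₁ : E := (x1 - v1 / 2) • A + (x2 - v2 / 2) • B with hp₁
  set p₂ : E := (v1 / 2 - z1) • A + (v2 / 2 - z2) • B with hp₂
  set p₃ : E := (y1 - v1 / 2) • A + (y2 - v2 / 2) • B with hp₃
  have e1 : c + p₁ = R + x1 • A + x2 • B := by rw [hcdef, hp₁]; module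
  have e2 : c + p₂ = R + (v1 - z1) • A + (v2 - z2) • B := by rw [hcdef, hp₂]; module
  have e3 : c + p₃ = R + y1 • A + y2 • B := by rw [hcdef, hp₃]; module
  have e1' : c - p₁ = R + (v1 - x1) • A + (v2 - x2) • B := by rw [hcdef, hp₁]; module
  have e2' : c - p₂ = R + z1 • A + z2 • B := by rw [hcdef, hp₂]; module
  have e3' : c - p₃ = R + (v1 - y1) • A + (v2 - y2) • B := by rw [hcdef, hp₃]; module
  have hδ2 : δ ^ 2 ≤ 1 / 10 ^ 4 := by nlinarith
  have qx3 := abs_le.1 hp.x3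
  have qx1 := abs_le.1 hp.x1
  have qx2 := abs_le.1 hp.x2
  have qy1 := abs_le.1 hp.y1
  have qy2 := abs_le.1 hp.y2
  have qz1 := abs_le.1 hp.z1
  have qz2 := abs_le.1 hp.z2
  have qvx2 := abs_le.1 hp.vx2
  have qvx1 := abs_le.1 hp.vx1
  simp only at qx3 qx1 qx2 qy1 qy2 qz1 qz2 qvx2 qvx1
  have hv1 : |v1 / 2 - 1 / 3| ≤ 1 / 90 := by
    rw [abs_le]; constructor <;> linarith
  have hv2 : |v2 / 2 - 1 / 3| ≤ 1 / 90 := by
    rw [abs_le]; constructor <;> linarith
  have hv1' := abs_le.1 hv1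
  have hv2' := abs_le.1 hv2
  set a1 : ℝ := x1 - v1 / 2 with ha1
  set a2 : ℝ := x2 - v2 / 2 with ha2
  set b1 : ℝ := v1 / 2 - z1 with hb1
  set b2 : ℝ := v2 / 2 - z2 with hb2
  set c1 : ℝ := y1 - v1 / 2 with hc1
  set c2 : ℝ := y2 - v2 / 2 with hc2
  have r1 : |a1| ≤ 1 / 30 := by rw [abs_le]; constructor <;> linarith
  have r2 : |a2 - 1 / 3| ≤ 1 / 30 := by rw [abs_le]; constructor <;> linarith
  have r3 : |b1 + 1 / 3| ≤ 1 / 30 := by rw [abs_le]; constructor <;> linarith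
  have r4 : |b2 - 1 / 3| ≤ 1 / 30 := by rw [abs_le]; constructor <;> linarith
  have r5 : |c1 + 1 / 3| ≤ 1 / 30 := by rw [abs_le]; constructor <;> linarith
  have r6 : |c2| ≤ 1 / 30 := by rw [abs_le]; constructor <;> linarith
  have key : ∀ {s t u w : ℝ}, |s| ≤ 1 / 30 ∨ |w| ≤ 1 / 30 → |s| ≤ 2 / 5 → |w| ≤ 2 / 5 →
      |t - 1 / 3| ≤ 1 / 30 → |u + 1 / 3| ≤ 1 / 30 → 0 < s * w - t * u := by
    intro s t u w h h' h'' ht hu
    have hsw : |s * w| ≤ 1 / 75 := by
      rw [abs_mul]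
      rcases h with h | h
      · calc |s| * |w| ≤ (1 / 30) * (2 / 5) := mul_le_mul h h'' (abs_nonneg _) (by norm_num)
          _ = 1 / 75 := by norm_num
      · calc |s| * |w| ≤ (2 / 5) * (1 / 30) := mul_le_mul h' h (abs_nonneg _) (by norm_num)
          _ = 1 / 75 := by norm_num
    have ht' := abs_le.1 ht
    have hu' := abs_le.1 hu
    have htu : (3 / 10) * (3 / 10) ≤ t * (-u) :=
      mul_le_mul (by linarith) (by linarith) (by norm_num) (by linarith)
    have := abs_le.1 hsw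
    nlinarith
  have s1 : |a1| ≤ 2 / 5 := r1.trans (by norm_num)
  have s2 : |b2| ≤ 2 / 5 := by
    have := abs_le.1 r4
    rw [abs_le]; constructor <;> linarith
  have s3 : |b1| ≤ 2 / 5 := by
    have := abs_le.1 r3
    rw [abs_le]; constructor <;> linarith
  have s4 : |c2| ≤ 2 / 5 := r6.trans (by norm_num)
  have k12 : 0 < a1 * b2 - a2 * b1 := key (Or.inl r1) s1 s2 r2 r3
  have k23 : 0 < b1 * c2 - b2 * c1 := key (Or.inr r6) s3 s4 r4 r5
  have k13 : 0 < a1 * c2 - a2 * c1 := key (Or.inl r1) s1 s4 r2 r5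
  have d12 : det2 p₁ p₂ = det2 A B * (a1 * b2 - a2 * b1) := det2_comb A B a1 a2 b1 b2
  have d23 : det2 p₂ p₃ = det2 A B * (b1 * c2 - b2 * c1) := det2_comb A B b1 b2 c1 c2
  have d13 : det2 p₁ p₃ = det2 A B * (a1 * c2 - a2 * c1) := det2_comb A B a1 a2 c1 c2
  have g12 : 0 < det2 p₁ p₂ := by rw [d12]; exact mul_pos hd k12
  have g23 : 0 < det2 p₂ p₃ := by rw [d23]; exact mul_pos hd k23
  have g13 : 0 < det2 p₁ p₃ := by rw [d13]; exact mul_pos hd k13
  have hsum : det2 p₁ p₂ + det2 p₂ p₃ + det2 p₁ p₃ =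
      det2 A B * dd (x1, x2) (y1, y2) (z1, z2) := by
    rw [d12, d23, d13, ha1, ha2, hb1, hb2, hc1, hc2]
    simp only [dd]
    ring
  obtain ⟨b, hb, hbv⟩ := hex_lat hc (c := c) (p₁ := p₁) (p₂ := p₂) (p₃ := p₃)
    (by rw [e1]; exact mx) (by rw [e2]; exact mvz) (by rw [e3]; exact my)
    (by rw [e1']; exact mvx) (by rw [e2']; exact mz) (by rw [e3']; exact mvy)
    g12.le g23.le g13.le (by linarith)
  calc thetaL K ≤ volume K / volume (parallelepiped b) := iInf₂_le b hb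
    _ = volume K / ENNReal.ofReal (det2 A B * dd (x1, x2) (y1, y2) (z1, z2)) := by
        rw [hbv, hsum]

end NT31
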