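import Pool.Agent.W_fa9b59_h31.Coord

set_option autoImplicit false

/-!
# The potential in the plane
-/

open MeasureTheory Metric Set

namespace NT31

open FB88 FB88Stmt

/-- The potential in the plane. PROOF. `φ' e = D / 2 * φ (cv (P - R) (Q - R) e)`, `c = D / 2 * dd x y z`: `det2 (Y - X) (Z - X) = D * dd ..` in coordinates (`det2_cv`, `cv_sub`). Points of `K` have
coordinates in `[-1, 2]`... more precisely differences of points of `K` have coordinates at most `2` in modulus (`KS.sub`). -/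
theorem pot_plane {K : Set E} {P Q R : E} (hd : 0 < det2 (P - R) (Q - R)) {τ δ : ℝ}
    (hK : KS {b : ℝ × ℝ | R + b.1 • (P - R) + b.2 • (Q - R) ∈ K} τ δ) {φ : ℝ × ℝ → ℝ} {B c : ℝ}
    (ho : ∀ e, φ (-e) = -φ e) (hB : ∀ e : ℝ × ℝ, |e.1| ≤ 2 → |e.2| ≤ 2 → |φ e| ≤ B)
    (hT : ∀ X, R + X.1 • (P - R) + X.2 • (Q - R) ∈ K → ∀ Y, R + Y.1 • (P - R) + Y.2 • (Q - R) ∈ K →
      ∀ Z, R + Z.1 • (P - R) + Z.2 • (Q - R) ∈ K →
      dd X Y Z ≤ c + φ (Y - X) + φ (Z - Y) + φ (X - Z)) :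
    ∃ (φ' : E → ℝ) (B' : ℝ), (∀ e, φ' (-e) = -φ' e) ∧ (∀ x ∈ K, ∀ y ∈ K, |φ' (x - y)| ≤ B') ∧
      TB K φ' (det2 (P - R) (Q - R) / 2 * c) := by
  set D := det2 (P - R) (Q - R) with hD
  have hcv : ∀ x ∈ K, R + (cv (P - R) (Q - R) (x - R)).1 • (P - R) +
      (cv (P - R) (Q - R) (x - R)).2 • (Q - R) ∈ K := by
    intro x hx
    have h := cv_eq hd (x - R)
    rw [add_assoc, ← h, add_sub_cancel]
    exact hx
  have hsub : ∀ x y : E, cv (P - R) (Q - R) (x - y) =
      cv (P - R) (Q - R) (x - R) - cv (P - R) (Q - R) (y - R) := by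
    intro x y
    rw [← cv_sub, sub_sub_sub_cancel_right]
  have hδ : δ ^ 2 ≤ 1 / 3 := by
    have h1 := hK.tau0
    have h2 := hK.tau1
    have h3 : δ ≤ 1 / 3 := by rw [hK.del]; linarith
    have h4 : 0 ≤ δ := by rw [hK.del]; positivity
    nlinarith
  refine ⟨fun e => D / 2 * φ (cv (P - R) (Q - R) e), D / 2 * B, ?_, ?_, ?_⟩
  · intro e
    simp only [cv_neg, ho]
    ring
  · intro x hx y hy
    have hX := hK.sub _ (hcv x hx)
    have hY := hK.sub _ (hcv y hy)
    simp only [hsub x y]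
    obtain ⟨hX1, hX2, hX3⟩ := hX
    obtain ⟨hY1, hY2, hY3⟩ := hY
    rw [abs_mul, abs_of_pos (by positivity : 0 < D / 2)]
    refine mul_le_mul_of_nonneg_left (hB _ ?_ ?_) (by positivity)
    · rw [Prod.fst_sub, abs_le]
      constructor <;> linarith
    · rw [Prod.snd_sub, abs_le]
      constructor <;> linarith
  · intro x hx y hy z hz
    have h := hT _ (hcv x hx) _ (hcv y hy) _ (hcv z hz)
    have hdet := det2_cv hd (y - x) (z - x)
    simp only [hsub y x, hsub z x, hsub z y, hsub x z] at hdet ⊢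
    rw [hdet, ← hD]
    have hdd : dd (cv (P - R) (Q - R) (x - R)) (cv (P - R) (Q - R) (y - R))
        (cv (P - R) (Q - R) (z - R)) =
        (cv (P - R) (Q - R) (y - R) - cv (P - R) (Q - R) (x - R)).1 *
          (cv (P - R) (Q - R) (z - R) - cv (P - R) (Q - R) (x - R)).2 -
        (cv (P - R) (Q - R) (y - R) - cv (P - R) (Q - R) (x - R)).2 *
          (cv (P - R) (Q - R) (z - R) - cv (P - R) (Q - R) (x - R)).1 := by
      simp only [dd, Prod.fst_sub, Prod.snd_sub]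
    rw [← hdd]
    have hD2 : 0 ≤ D / 2 := by positivity
    have h' := mul_le_mul_of_nonneg_left h hD2
    linarith

end NT31
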