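import Pool.Agent.W_fa9b59_h31.LatT
import Pool.Agent.W_fa9b59_h31.PotT
import Pool.Agent.W_fa9b59_h31.Cov
import Pool.Agent.W_fa9b59_h88.Main

set_option autoImplicit false

/-!
# Assembly
-/

open MeasureTheory Metric Set

namespace NT31

open FB88 FB88Stmt

/-- PROOF. `KS_coord`, `core`, `pot_plane`, `cov`, `lat_upper`; `thetaT K ≤ thetaL K` by `FB88.thetaT_le_thetaL` (W_fa9b59_h88), see the assembly of
`HC60.main_hc` (W_fa9b59_hc/MainHC.lean). -/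
theorem main_pos {K : Set E} (hc : Convex ℝ K) (hk : IsCompact K) {P Q R : E}
    (hd : 0 < det2 (P - R) (Q - R)) {τ : ℝ} (ht : 0 < τ) (ht1 : τ ≤ 1 / 3)
    (h1 : (1 / 3 - τ) • P + (2 / 3 + τ) • Q ∈ K) (h2 : (2 / 3 + τ) • P + (1 / 3 - τ) • Q ∈ K)
    (h3 : (1 / 3 - τ) • Q + (2 / 3 + τ) • R ∈ K) (h4 : (2 / 3 + τ) • Q + (1 / 3 - τ) • R ∈ K)
    (h5 : (1 / 3 - τ) • R + (2 / 3 + τ) • P ∈ K) (h6 : (2 / 3 + τ) • R + (1 / 3 - τ) • P ∈ K)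
    (hs : ∀ x ∈ K, ∃ p q r : ℝ, p + q + r = 1 ∧ -((τ / 10 ^ 9) ^ 2) ≤ p ∧
      -((τ / 10 ^ 9) ^ 2) ≤ q ∧ -((τ / 10 ^ 9) ^ 2) ≤ r ∧ x = p • P + q • Q + r • R) :
    thetaT K = thetaL K := by
  have hK : Body K := ⟨hc, hk, ⟨_, h1⟩⟩
  have hKS := KS_coord hc hk hd ht ht1 h1 h2 h3 h4 h5 h6 hs
  obtain ⟨φ, B, x, y, z, v, hodd, hB, ho, hp, hT⟩ := core hKS
  obtain ⟨φ', B', hodd', hB', hTB⟩ := pot_plane hd hKS hodd hB
    (fun X hX Y hY Z hZ => hT X hX Y hY Z hZ)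
  have hdd : 0 < dd x y z := lt_of_lt_of_le (by norm_num) hp.dlo
  have hcpos : 0 < det2 (P - R) (Q - R) / 2 * dd x y z := mul_pos (by linarith) hdd
  refine le_antisymm (thetaT_le_thetaL K hK) ?_
  have hup := lat_upper hc hd (δ := τ / 10 ^ 9) (by positivity) (by linarith) ho hp
  have hlow := cov hK hodd' hB' hcpos hTB
  have he : 2 * (det2 (P - R) (Q - R) / 2 * dd x y z) = det2 (P - R) (Q - R) * dd x y z := by
    ring
  rw [he] at hlow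
  exact hup.trans hlow

/-- PROOF. `det2 (P - R) (Q - R) ≠ 0`; if it is negative exchange `P` and `Q` in `main_pos`. -/
theorem main_tri {K : Set E} (hc : Convex ℝ K) (hk : IsCompact K) {P Q R : E}
    (hd : det2 (P - R) (Q - R) ≠ 0) {τ : ℝ} (ht : 0 < τ) (ht1 : τ ≤ 1 / 3)
    (h1 : (1 / 3 - τ) • P + (2 / 3 + τ) • Q ∈ K) (h2 : (2 / 3 + τ) • P + (1 / 3 - τ) • Q ∈ K)
    (h3 : (1 / 3 - τ) • Q + (2 / 3 + τ) • R ∈ K) (h4 : (2 / 3 + τ) • Q + (1 / 3 - τ) • R ∈ K)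
    (h5 : (1 / 3 - τ) • R + (2 / 3 + τ) • P ∈ K) (h6 : (2 / 3 + τ) • R + (1 / 3 - τ) • P ∈ K)
    (hs : ∀ x ∈ K, ∃ p q r : ℝ, p + q + r = 1 ∧ -((τ / 10 ^ 9) ^ 2) ≤ p ∧
      -((τ / 10 ^ 9) ^ 2) ≤ q ∧ -((τ / 10 ^ 9) ^ 2) ≤ r ∧ x = p • P + q • Q + r • R) :
    thetaT K = thetaL K := by
  rcases lt_or_gt_of_ne hd with hneg | hpos
  · have hanti : det2 (Q - R) (P - R) = -det2 (P - R) (Q - R) := by
      unfold det2
      ring
    have hpos' : 0 < det2 (Q - R) (P - R) := by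
      rw [hanti]
      linarith
    refine main_pos hc hk hpos' ht ht1 ?_ ?_ ?_ ?_ ?_ ?_ ?_
    · rw [add_comm]; exact h2
    · rw [add_comm]; exact h1
    · rw [add_comm]; exact h6
    · rw [add_comm]; exact h5
    · rw [add_comm]; exact h4
    · rw [add_comm]; exact h3
    · intro x hx
      obtain ⟨p, q, r, hpqr, hp, hq, hr, hxe⟩ := hs x hx
      refine ⟨q, p, r, by linarith, hq, hp, hr, ?_⟩
      rw [hxe, add_comm (p • P) (q • Q)]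
  · exact main_pos hc hk hpos ht ht1 h1 h2 h3 h4 h5 h6 hs

end NT31
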