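import Pool.Agent.W_fa9b59_h31.Defs

set_option autoImplicit false

/-!
# The merge lemma for two chains of intervals
-/

namespace NT31

private noncomputable def mF {ι : Type} [DecidableEq ι] (A B : List ι) : ℝ :=
  ((A.filter (fun e => e ∉ B)).length : ℝ)

private theorem mF_nil {ι : Type} [DecidableEq ι] (B : List ι) : mF ([] : List ι) B = 0 := by
  simp [mF]

private theorem mF_cons {ι : Type} [DecidableEq ι] (i : ι) (L B : List ι) :
    mF (i :: L) B = (if i ∈ B then 0 else 1) + mF L B := by
  unfold mF
  by_cases h : i ∈ B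
  · rw [List.filter_cons_of_neg (by simpa using h)]
    simp [h]
  · rw [List.filter_cons_of_pos (by simpa using h)]
    simp [h]
    ring

private theorem mF_snd {ι : Type} [DecidableEq ι] (i : ι) (L : List ι) (hi : i ∉ L) :
    ∀ B : List ι, B.Nodup → mF B (i :: L) = mF B L - (if i ∈ B then 1 else 0)
  | [], _ => by simp [mF_nil]
  | b :: B, hB => by
    have hb : b ∉ B := (List.nodup_cons.1 hB).1
    have ih := mF_snd i L hi B (List.nodup_cons.1 hB).2
    rw [mF_cons, mF_cons, ih]
    by_cases h : b = i
    · subst h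
      simp [hb, hi]
    · have h' : ¬ i = b := fun e => h e.symm
      by_cases h2 : i ∈ B
      · simp [h, h2]
        ring
      · simp [h, h', h2]

private theorem mCh_le {ι : Type} (a b : ι → ℝ) (S : ℝ) :
    ∀ (i : ι) (L : List ι), Ch a b S i L → (∀ e ∈ i :: L, a e < b e) → b i ≤ S
  | i, [], h, _ => by
    simp only [Ch] at h
    exact h.le
  | i, j :: L, h, p => by
    simp only [Ch] at h
    have := mCh_le a b S j L h.2 (fun e he => p e (List.mem_cons_of_mem _ he))
    have h2 := p j (by simp)
    rw [h.1]
    linarith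

private theorem mCh_mem {ι : Type} (a b : ι → ℝ) (S : ℝ) :
    ∀ (i : ι) (L : List ι), Ch a b S i L → (∀ e ∈ i :: L, a e < b e) → ∀ e ∈ L, b i ≤ a e
  | i, [], h, _ => by simp
  | i, j :: L, h, p => by
    simp only [Ch] at h
    intro e he
    rcases List.mem_cons.1 he with rfl | he
    · exact h.1.le
    · have := mCh_mem a b S j L h.2 (fun e he => p e (List.mem_cons_of_mem _ he)) e he
      have h2 := p j (by simp)
      rw [h.1]
      linarith

private theorem merge_core {ι : Type} [DecidableEq ι] (g : ι → ι → ℝ) (hg : ∀ i j, g i j = - g j i)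
    {c : ℝ} (hc : 0 ≤ c) (am bm ap bp : ι → ℝ) (S : ℝ) :
    ∀ (n : ℕ) (i : ι) (L : List ι) (j : ι) (M : List ι) (x : ℝ), L.length + M.length = n →
    (i :: L).Nodup → (j :: M).Nodup → Ch am bm S i L → Ch ap bp S j M →
    (∀ e ∈ i :: L, am e < bm e) → (∀ e ∈ j :: M, ap e < bp e) →
    am i ≤ x → x ≤ bm i → ap j ≤ x → x ≤ bp j →
    (∀ e ∈ i :: L, ∀ e' ∈ i :: L, ∀ f ∈ j :: M, bm e = am e' → ap f ≤ bm e → bm e ≤ bp f →
      g f e + g e e' + g e' f ≤ c) →
    (∀ f ∈ j :: M, ∀ f' ∈ j :: M, ∀ e ∈ i :: L, bp f = ap f' → am e ≤ bp f → bp f ≤ bm e →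
      g f e + g e f' + g f' f ≤ c) →
    (∀ e ∈ i :: L, e ∈ j :: M → am e < bp e ∧ ap e < bm e) →
    g j i + PhiL g i L + g (lastD i L) (lastD j M) - PhiL g j M ≤
      c * (mF (i :: L) (j :: M) + mF (j :: M) (i :: L) - (if i = j then 0 else 1)) := by
  have g0 : ∀ i, g i i = 0 := fun i => by
    have := hg i i
    linarith
  intro n
  induction n with
  | zero =>
    intro i L j M x hn hL hM cL cM pL pM x1 x2 x3 x4 h1 h2 h3
    have hL0 : L = [] := List.length_eq_zero_iff.1 (by omega)
    have hM0 : M = [] := List.length_eq_zero_iff.1 (by omega)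
    subst hL0 hM0
    simp only [PhiL, lastD]
    have e1 := hg j i
    have : g j i + 0 + g i j - 0 = 0 := by rw [e1]; ring
    rw [this]
    apply mul_nonneg hc
    simp only [mF_cons, mF_nil]
    by_cases h : i = j
    · simp [h]
    · have h' : ¬ j = i := fun e => h e.symm
      simp [h, h']
  | succ n ih =>
    intro i L j M x hn hL hM cL cM pL pM x1 x2 x3 x4 h1 h2 h3
    by_cases hcase : L ≠ [] ∧ (M = [] ∨ bm i ≤ bp j)
    · -- pass `bm i`
      obtain ⟨hLn, hor⟩ := hcase
      obtain ⟨i', L', rfl⟩ : ∃ i' L', L = i' :: L' := List.exists_cons_of_ne_nil hLn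
      simp only [Ch] at cL
      have hle : bm i ≤ bp j := by
        rcases hor with rfl | h
        · simp only [Ch] at cM
          have := mCh_le am bm S i' L' cL.2 (fun e he => pL e (List.mem_cons_of_mem _ he))
          have h5 := pL i' (by simp)
          rw [cM, cL.1]
          linarith
        · exact h
      have hiM : i ∉ M := by
        intro hi
        have h5 := (h3 i (by simp) (List.mem_cons_of_mem _ hi)).2
        have h6 := mCh_mem ap bp S j M cM pM i hi
        linarith
      have hii' : i ≠ i' := by
        rintro rfl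
        exact (List.nodup_cons.1 hL).1 (by simp)
      have hiL' : i ∉ i' :: L' := (List.nodup_cons.1 hL).1
      have hL' : (i' :: L').Nodup := (List.nodup_cons.1 hL).2
      have ih' := ih i' L' j M (bm i) (by simp at hn; omega) hL' hM cL.2 cM
        (fun e he => pL e (List.mem_cons_of_mem _ he)) pM cL.1.ge
        (by rw [cL.1]; exact (pL i' (by simp)).le) (x3.trans x2) hle
        (fun e he e' he' f hf => h1 e (List.mem_cons_of_mem _ he) e' (List.mem_cons_of_mem _ he') f hf)
        (fun f hf f' hf' e he => h2 f hf f' hf' e (List.mem_cons_of_mem _ he))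
        (fun e he he' => h3 e (List.mem_cons_of_mem _ he) he')
      have hstep := h1 i (by simp) i' (by simp) j (by simp) cL.1 (x3.trans x2) hle
      rw [mF_cons i, mF_snd i (i' :: L') hiL' (j :: M) hM]
      simp only [PhiL, lastD]
      set K := mF (i' :: L') (j :: M)
      set K2 := mF (j :: M) (i' :: L')
      have hmem : (i ∈ j :: M) ↔ i = j := by
        simp [hiM]
      have e1 := hg i' j
      have e2 := hg i j
      by_cases hij : i = j
      · subst hij
        have hi'j : ¬ i' = i := fun e => hii' e.symm
        simp only [hi'j, if_false] at ih'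
        simp only [List.mem_cons, true_or, if_true]
        have e3 := g0 i
        have e4 := hg i' i
        nlinarith
      · simp only [hmem, hij, if_false]
        by_cases hi'j : i' = j
        · subst hi'j
          simp only [if_true] at ih'
          have e3 := g0 i'
          nlinarith
        · simp only [hi'j, if_false] at ih'
          nlinarith
    · -- pass `bp j`
      have hMn : M ≠ [] := by
        rintro rfl
        apply hcase
        refine ⟨?_, Or.inl rfl⟩
        rintro rfl
        simp at hn
      obtain ⟨j', M', rfl⟩ : ∃ j' M', M = j' :: M' := List.exists_cons_of_ne_nil hMn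
      simp only [Ch] at cM
      have hle : bp j ≤ bm i := by
        by_cases hLn : L = []
        · subst hLn
          simp only [Ch] at cL
          have := mCh_le ap bp S j' M' cM.2 (fun e he => pM e (List.mem_cons_of_mem _ he))
          have h5 := pM j' (by simp)
          rw [cL, cM.1]
          linarith
        · by_contra h
          exact hcase ⟨hLn, Or.inr (by linarith)⟩
      have hjL : j ∉ L := by
        intro hj
        have h5 := (h3 j (List.mem_cons_of_mem _ hj) (by simp)).1
        have h6 := mCh_mem am bm S i L cL pL j hj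
        linarith
      have hjj' : j ≠ j' := by
        rintro rfl
        exact (List.nodup_cons.1 hM).1 (by simp)
      have hjM' : j ∉ j' :: M' := (List.nodup_cons.1 hM).1
      have hM' : (j' :: M').Nodup := (List.nodup_cons.1 hM).2
      have ih' := ih i L j' M' (bp j) (by simp at hn; omega) hL hM' cL cM.2 pL
        (fun e he => pM e (List.mem_cons_of_mem _ he)) (x1.trans x4) hle cM.1.ge
        (by rw [cM.1]; exact (pM j' (by simp)).le)
        (fun e he e' he' f hf => h1 e he e' he' f (List.mem_cons_of_mem _ hf))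
        (fun f hf f' hf' e he => h2 f (List.mem_cons_of_mem _ hf) f' (List.mem_cons_of_mem _ hf') e he)
        (fun e he he' => h3 e he (List.mem_cons_of_mem _ he'))
      have hstep := h2 j (by simp) j' (by simp) i (by simp) cM.1 (x1.trans x4) hle
      rw [mF_cons j, mF_snd j (j' :: M') hjM' (i :: L) hL]
      simp only [PhiL, lastD]
      set K := mF (i :: L) (j' :: M')
      set K2 := mF (j' :: M') (i :: L)
      have hmem : (j ∈ i :: L) ↔ i = j := by
        simp [hjL, eq_comm]
      have e1 := hg j' j
      have e2 := hg i j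
      have e5 := hg j' i
      by_cases hij : i = j
      · subst hij
        have hj'i : ¬ i = j' := hjj'
        simp only [hj'i, if_false] at ih'
        simp only [List.mem_cons, true_or, if_true]
        have e3 := g0 i
        nlinarith
      · simp only [hmem, hij, if_false]
        by_cases hi'j : i = j'
        · subst hi'j
          simp only [if_true] at ih'
          have e3 := g0 i
          nlinarith
        · simp only [hi'j, if_false] at ih'
          nlinarith

/-- Two chains of consecutive intervals `[am e, bm e]` (`e ∈ i :: L`) and `[ap f, bp f]` (`f ∈ j :: M`) which both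
end at `S` and whose first intervals contain `x`. Walk from left to right and pass one end of an interval after the
other. PROOF. Put `K i L j M = #{e ∈ L | e ≠ j, e ∉ M} + #{f ∈ M | f ≠ i, f ∉ L} - [j ∈ L] - [i ∈ M] + [i ≠ j]` (in `ℤ`).
Show by induction on `L.length + M.length` (all of `i, L, j, M, x` general) that the left side is `≤ c * K i L j M`; both sides
of the statement are related by `K i L j M ≤ ` the number on the right (if `i = j` both are equal, if `i ≠ j` then `K` is
one less). Induction: `L = [] = M`: left side `g j i + g i j = 0`, `K = [i ≠ j] ≥ 0`. If `L = i' :: L'` and (`M = []` or `bm i ≤ bp j`):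
pass `bm i` (`bm i ≤ S = bp j` if `M = []`): the left side decreases by `g j i + g i i' - g j i' = g j i + g i i' + g i' j`; this is `≤ c` by
`h1` (`ap j ≤ x ≤ bm i ≤ bp j`), and it is `0` if `i' = j` or `i = j`. We have `i ∉ M`: otherwise `h3` gives `ap i < bm i`, but `i ∈ M` gives
`bp j ≤ ap i` (monotonicity of a chain), so `ap i ≥ bp j ≥ bm i`. Hence `K i L j M - K i' L' j M = [i ≠ j]` if `i' ≠ j`, and it is `0` if
`i' = j`. Otherwise `M = j' :: M'` and (`L = []` or `bp j < bm i`): pass `bp j`, symmetric (`h2`, `h3`): the left side decreases by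
`g j i - g j j' - g j' i = g j i + g i j' + g j' j`. -/
theorem merge {ι : Type} [DecidableEq ι] (g : ι → ι → ℝ) (hg : ∀ i j, g i j = - g j i) {c : ℝ}
    (hc : 0 ≤ c) (am bm ap bp : ι → ℝ) (S : ℝ) (i : ι) (L : List ι) (j : ι) (M : List ι) (x : ℝ)
    (hL : (i :: L).Nodup) (hM : (j :: M).Nodup) (cL : Ch am bm S i L) (cM : Ch ap bp S j M)
    (pL : ∀ e ∈ i :: L, am e < bm e) (pM : ∀ e ∈ j :: M, ap e < bp e)
    (x1 : am i ≤ x) (x2 : x ≤ bm i) (x3 : ap j ≤ x) (x4 : x ≤ bp j)
    (h1 : ∀ e ∈ i :: L, ∀ e' ∈ i :: L, ∀ f ∈ j :: M, bm e = am e' → ap f ≤ bm e → bm e ≤ bp f →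
      g f e + g e e' + g e' f ≤ c)
    (h2 : ∀ f ∈ j :: M, ∀ f' ∈ j :: M, ∀ e ∈ i :: L, bp f = ap f' → am e ≤ bp f → bp f ≤ bm e →
      g f e + g e f' + g f' f ≤ c)
    (h3 : ∀ e ∈ i :: L, e ∈ j :: M → am e < bp e ∧ ap e < bm e) :
    g j i + PhiL g i L + g (lastD i L) (lastD j M) - PhiL g j M ≤
      c * ((((i :: L).filter (fun e => e ∉ j :: M)).length : ℝ) +
        (((j :: M).filter (fun e => e ∉ i :: L)).length : ℝ)) := by
  have h := merge_core g hg hc am bm ap bp S _ i L j M x rfl hL hM cL cM pL pM x1 x2 x3 x4 h1 h2 h3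
  refine h.trans (mul_le_mul_of_nonneg_left ?_ hc)
  have h0 : (0 : ℝ) ≤ (if i = j then (0 : ℝ) else 1) := by
    split_ifs <;> norm_num
  have h5 : mF (i :: L) (j :: M) + mF (j :: M) (i :: L) - (if i = j then (0 : ℝ) else 1) ≤
      mF (i :: L) (j :: M) + mF (j :: M) (i :: L) := by linarith
  exact h5

end NT31
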