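import Pool.Agent.W_fa9b59_h31.CDefs

set_option autoImplicit false

/-!
# The inequality near the optimum
-/

namespace NT31

/-- PROOF. Let `w = |p| + |q| + |r|`, `π = p + q + r`. `Pd = ((π + 3 s)² + 3 (p² + q² + r²) - π²) / 6 - s²` and
`(π + 3 s)² ≥ π² / 2 - 9 s²`, `π² ≤ 3 (p² + q² + r²)`, so `Pd ≥ (p² + q² + r²) / 4 - (5/2) s²`. From `h`: `(99/100) |s| ≤ 3 lam + w / 100`, so
`s² ≤ 18.6 lam² + w² / 4000`, `w² ≤ 3 (p² + q² + r²)`; and `3 lam ≤ |s| + (|s| + w) / 100`, so `lam ≤ 1/24` and `46.5 lam² ≤ 2 lam`. -/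
theorem near_ineq {s p q r lam : ℝ} (hs : |s| ≤ 1 / 12) (hp : |p| ≤ 1 / 12) (hq : |q| ≤ 1 / 12)
    (hr : |r| ≤ 1 / 12) (h0 : 0 ≤ lam)
    (h : |s - 3 * lam| ≤ (|s| + |p| + |q| + |r|) / 100) : 0 ≤ 2 * lam + Pd s p q r := by
  have e : Pd s p q r = (s ^ 2 + 2 * s * (p + q + r) + (p ^ 2 + q ^ 2 + r ^ 2)) / 2 := by
    unfold Pd; ring
  have ap := abs_nonneg p
  have aq := abs_nonneg q
  have ar := abs_nonneg r
  have as := abs_nonneg s
  -- `w ^ 2 ≤ 3 (p ^ 2 + q ^ 2 + r ^ 2)`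
  have h3 : (|p| + |q| + |r|) ^ 2 ≤ 3 * (p ^ 2 + q ^ 2 + r ^ 2) := by
    rw [← sq_abs p, ← sq_abs q, ← sq_abs r]
    nlinarith [sq_nonneg (|p| - |q|), sq_nonneg (|q| - |r|), sq_nonneg (|r| - |p|)]
  have h4 : |p + q + r| ≤ |p| + |q| + |r| := by
    calc |p + q + r| ≤ |p + q| + |r| := abs_add_le _ _
      _ ≤ |p| + |q| + |r| := by linarith [abs_add_le p q]
  have h5 : -(|s| * (|p| + |q| + |r|)) ≤ s * (p + q + r) := by
    have h6 : |s * (p + q + r)| ≤ |s| * (|p| + |q| + |r|) := by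
      rw [abs_mul]
      exact mul_le_mul_of_nonneg_left h4 as
    linarith [neg_abs_le (s * (p + q + r))]
  have h7 : s ^ 2 = |s| ^ 2 := (sq_abs s).symm
  rw [e]
  generalize hw : |p| + |q| + |r| = w at *
  have hw0 : 0 ≤ w := by rw [← hw]; positivity
  have h' : |s - 3 * lam| ≤ (|s| + w) / 100 := by
    rw [← hw]
    calc |s - 3 * lam| ≤ (|s| + |p| + |q| + |r|) / 100 := h
      _ = (|s| + (|p| + |q| + |r|)) / 100 := by ring
  by_cases hc : 6 * |s| ≤ w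
  · nlinarith [mul_nonneg hw0 (sub_nonneg.2 hc), sq_nonneg s]
  · push Not at hc
    have h8 : |s - 3 * lam| ≤ 7 * |s| / 100 := by linarith
    have h9 : |s| ≤ |s - 3 * lam| + 3 * lam := by
      have := abs_add_le (s - 3 * lam) (3 * lam)
      rw [sub_add_cancel, abs_of_nonneg (by positivity : (0 : ℝ) ≤ 3 * lam)] at this
      exact this
    have h10 : 93 * |s| ≤ 300 * lam := by linarith
    have h11 : |s| ^ 2 ≤ |s| / 12 := by nlinarith
    nlinarith [sq_nonneg (w - 3 * |s|)]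

end NT31
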