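import Pool.Agent.W_fa9b59_h31.NearPlus

set_option autoImplicit false

/-!
# Triangles near the reflected optimal one
-/

namespace NT31

private theorem NearMinus_pk_neg (k : ℝ) (a : Fin 3 → ℝ × ℝ) (e : ℝ × ℝ) :
    pk k a (-e) = -pk k a e := by
  unfold pk
  rw [f0_neg, psi_neg]
  ring

private theorem NearMinus_ip_sub (g l d : ℝ × ℝ) : ip (g - l) d = ip g d - ip l d := by
  unfold ip
  simp only [Prod.fst_sub, Prod.snd_sub]
  ring

/-- The exact expansion for a reflected triangle `v - X, v - Y, v - Z`. PROOF. The potential is odd (`f0_neg`, `psi_neg`), the edges of `v - X, ...` are the negatives of those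
of `X, Y, Z`; with `plus_id` for `X, Y, Z` (`P` the value of `Pd` there): the left side is `2 dd x y z - 2 dd X Y Z - (-2 l + P)`, `l = ip l1 (X - x) + ...`;
`dd_expand` and `Pd_dual`. -/
theorem minus_id {x y z v l1 l2 l3 : ℝ × ℝ} (hn : Near (1 / 4) x y z) (hl : l1 + l2 + l3 = 0)
    {X Y Z : ℝ × ℝ} (hN : Near (1 / 30) X Y Z) :
    dd x y z + pk (kK x y z l1 l2) (aK x y z l1 l2) ((v - Y) - (v - X)) +
        pk (kK x y z l1 l2) (aK x y z l1 l2) ((v - Z) - (v - Y)) +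
        pk (kK x y z l1 l2) (aK x y z l1 l2) ((v - X) - (v - Z)) - dd (v - X) (v - Y) (v - Z) =
      -2 * (ip ((y.2 - z.2, z.1 - y.1) - l1) (X - x) + ip ((z.2 - x.2, x.1 - z.1) - l2) (Y - y) +
          ip ((x.2 - y.2, y.1 - x.1) - l3) (Z - z)) +
        Pd (-((X - x).2 + th (Y - y) + (Z - z).1)) ((Z - z).1 - (X - x).1) ((X - x).2 - (Y - y).2)
          (th ((Y - y) - (Z - z))) := by
  have e1 : (v - Y) - (v - X) = -(Y - X) := by abel
  have e2 : (v - Z) - (v - Y) = -(Z - Y) := by abel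
  have e3 : (v - X) - (v - Z) = -(X - Z) := by abel
  have hd : dd (v - X) (v - Y) (v - Z) = dd X Y Z := by
    unfold dd
    simp only [Prod.fst_sub, Prod.snd_sub]
    ring
  have hp := plus_id hn hl hN
  have hE := dd_expand x y z X Y Z
  have hD := Pd_dual (X - x) (Y - y) (Z - z)
  have hP : Pd (sg X Y Z - sg x y z) ((X.1 - Y.1) - (x.1 - y.1)) ((Y.2 - Z.2) - (y.2 - z.2))
      (th (Z - X) - th (z - x)) =
      Pd (th (X - x) + (Y - y).1 + (Z - z).2) ((X - x).1 - (Y - y).1) ((Y - y).2 - (Z - z).2)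
        (th ((Z - z) - (X - x))) := by
    congr 1 <;> simp only [sg, th, Prod.fst_sub, Prod.snd_sub] <;> ring
  rw [hP] at hp
  rw [e1, e2, e3, NearMinus_pk_neg, NearMinus_pk_neg, NearMinus_pk_neg, hd, NearMinus_ip_sub,
    NearMinus_ip_sub, NearMinus_ip_sub]
  linarith

/-- PROOF. Let `S = v - X`, `S' = v - Y`, `S'' = v - Z`; `Near (1/30) S S' S''` (differences), `X = v - S` etc.; `minus_id` for `S, S', S''`; `near_ineq` with
`lam = -(ip m1 (S - x) + ip m2 (S' - y) + ip m3 (S'' - z)) ≥ 0` (`gx`, `gy`, `gz`, `S - x = v - X - x`); `m1 ≈ (0, 1/3)`, `m2 ≈ (-1/3, -1/3)`, `m3 ≈ (1/3, 0)` with errors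
`≤ 80 δ`, so `s - 3 lam` is small as in `near_plus`; the sizes of `s, p, q, r` from `hN` and `pos_near`. -/
theorem near_minus {K : Set (ℝ × ℝ)} {τ δ : ℝ} (h : KS K τ δ) {x y z v l1 l2 l3 : ℝ × ℝ}
    (hp : Pos δ x y z v) (hm : Mul K δ x y z v l1 l2 l3) {X Y Z : ℝ × ℝ} (hX : X ∈ K)
    (hY : Y ∈ K) (hZ : Z ∈ K) (hN : Near (1 / 30) (-X) (-Y) (-Z)) :
    dd X Y Z ≤ dd x y z + pk (kK x y z l1 l2) (aK x y z l1 l2) (Y - X) +
        pk (kK x y z l1 l2) (aK x y z l1 l2) (Z - Y) +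
        pk (kK x y z l1 l2) (aK x y z l1 l2) (X - Z) := by
  have hn100 := pos_near h hp
  have hn : Near (1 / 4) x y z := Near_mono (by norm_num) hn100
  have hδ0 : 0 < δ := by
    rw [h.del]
    have := h.tau0
    positivity
  have hδ1 : δ ≤ 1 / (3 * 10 ^ 9) := by
    rw [h.del]
    have := h.tau1
    rw [div_le_div_iff₀ (by positivity) (by positivity)]
    linarith
  have hδ2 : δ ^ 2 ≤ δ := by nlinarith
  have hN' : Near (1 / 30) (v - X) (v - Y) (v - Z) := by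
    have e1 : (v - Y) - (v - X) = (-Y) - (-X) := by abel
    have e2 : (v - Z) - (v - Y) = (-Z) - (-Y) := by abel
    have e3 : (v - X) - (v - Z) = (-X) - (-Z) := by abel
    unfold Near
    rw [e1, e2, e3]
    exact hN
  have key := minus_id (v := v) hn hm.sum hN'
  rw [sub_sub_cancel, sub_sub_cancel, sub_sub_cancel] at key
  set A := ip ((y.2 - z.2, z.1 - y.1) - l1) (v - X - x) with hA
  set B := ip ((z.2 - x.2, x.1 - z.1) - l2) (v - Y - y) with hB
  set C := ip ((x.2 - y.2, y.1 - x.1) - l3) (v - Z - z) with hC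
  set s : ℝ := -((v - X - x).2 + th (v - Y - y) + (v - Z - z).1) with hs
  set p : ℝ := (v - Z - z).1 - (v - X - x).1 with hpp
  set q : ℝ := (v - X - x).2 - (v - Y - y).2 with hq
  set r : ℝ := th ((v - Y - y) - (v - Z - z)) with hr
  have hA0 : A ≤ 0 := hm.gx X hX
  have hB0 : B ≤ 0 := hm.gy Y hY
  have hC0 : C ≤ 0 := hm.gz Z hZ
  obtain ⟨⟨a1, a2, a3⟩, ⟨b1, b2, b3⟩, ⟨c1, c2, c3⟩⟩ := hn100
  obtain ⟨⟨a1', a2', a3'⟩, ⟨b1', b2', b3'⟩, ⟨c1', c2', c3'⟩⟩ := hN
  simp only [ce, Matrix.cons_val_zero, Matrix.cons_val_one, Matrix.cons_val, th, Prod.fst_sub,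
    Prod.snd_sub] at a1 a2 a3 b1 b2 b3 c1 c2 c3
  simp only [ce, Matrix.cons_val_zero, Matrix.cons_val_one, Matrix.cons_val, th, Prod.fst_sub,
    Prod.snd_sub, Prod.fst_neg, Prod.snd_neg] at a1' a2' a3' b1' b2' b3' c1' c2' c3'
  rw [abs_le] at a1 a2 a3 b1 b2 b3 c1 c2 c3 a1' a2' a3' b1' b2' b3' c1' c2' c3'
  have hx1 := abs_le.1 hp.x1
  have hx2 := abs_le.1 hp.x2
  have hy1 := abs_le.1 hp.y1
  have hy2 := abs_le.1 hp.y2
  have hz1 := abs_le.1 hp.z1
  have hz2 := abs_le.1 hp.z2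
  have la1 := abs_le.1 hm.a1
  have lb1 := abs_le.1 hm.b1
  have la2 := abs_le.1 hm.a2
  have lb2 := abs_le.1 hm.b2
  have la3 := abs_le.1 hm.a3
  have lb3 := abs_le.1 hm.b3
  have hs1 : l1.1 + l2.1 + l3.1 = 0 := by
    have := congrArg Prod.fst hm.sum
    simpa only [Prod.fst_add, Prod.fst_zero] using this
  have hs2 : l1.2 + l2.2 + l3.2 = 0 := by
    have := congrArg Prod.snd hm.sum
    simpa only [Prod.snd_add, Prod.snd_zero] using this
  have hse : s = -((v.2 - X.2 - x.2) + (-(v.1 - Y.1 - y.1) - (v.2 - Y.2 - y.2)) +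
      (v.1 - Z.1 - z.1)) := by
    rw [hs]
    simp only [th, Prod.fst_sub, Prod.snd_sub]
  have hpe : p = (v.1 - Z.1 - z.1) - (v.1 - X.1 - x.1) := by
    rw [hpp]
    simp only [Prod.fst_sub]
  have hqe : q = (v.2 - X.2 - x.2) - (v.2 - Y.2 - y.2) := by
    rw [hq]
    simp only [Prod.snd_sub]
  have hre : r = -((v.1 - Y.1 - y.1) - (v.1 - Z.1 - z.1)) -
      ((v.2 - Y.2 - y.2) - (v.2 - Z.2 - z.2)) := by
    rw [hr]
    simp only [th, Prod.fst_sub, Prod.snd_sub]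
  have hsb : |s| ≤ 1 / 12 := by
    rw [hse, abs_le]
    constructor <;> linarith
  have hpb : |p| ≤ 1 / 12 := by
    rw [hpe, abs_le]
    constructor <;> linarith
  have hqb : |q| ≤ 1 / 12 := by
    rw [hqe, abs_le]
    constructor <;> linarith
  have hrb : |r| ≤ 1 / 12 := by
    rw [hre, abs_le]
    constructor <;> linarith
  have hmul : ∀ a b : ℝ, |a| ≤ 1 / 10 ^ 6 → |a * b| ≤ 1 / 10 ^ 6 * |b| := fun a b hab => by
    rw [abs_mul]
    exact mul_le_mul_of_nonneg_right hab (abs_nonneg b)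
  have n1a : |y.2 - z.2 - l1.1| ≤ 1 / 10 ^ 6 := by
    rw [abs_le]
    constructor <;> linarith
  have n1b : |z.1 - y.1 - l1.2 - 1 / 3| ≤ 1 / 10 ^ 6 := by
    rw [abs_le]
    constructor <;> linarith
  have n2a : |z.2 - x.2 - l2.1 + 1 / 3| ≤ 1 / 10 ^ 6 := by
    rw [abs_le]
    constructor <;> linarith
  have n2b : |x.1 - z.1 - l2.2 + 1 / 3| ≤ 1 / 10 ^ 6 := by
    rw [abs_le]
    constructor <;> linarith
  have hexp : s - 3 * (-(A + B + C)) =
      3 * (-((y.2 - z.2 - l1.1) * p) - (z.1 - y.1 - l1.2 - 1 / 3) * (r + s) +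
        (z.2 - x.2 - l2.1 + 1 / 3) * (s + q) - (x.1 - z.1 - l2.2 + 1 / 3) * (r + s + q)) := by
    have h3 : l3.1 = -l1.1 - l2.1 := by linarith
    have h4 : l3.2 = -l1.2 - l2.2 := by linarith
    rw [hse, hpe, hqe, hre, hA, hB, hC]
    simp only [ip, Prod.fst_sub, Prod.snd_sub]
    rw [h3, h4]
    ring
  have t1 := hmul _ p n1a
  have t2 := hmul _ (r + s) n1b
  have t3 := hmul _ (s + q) n2a
  have t4 := hmul _ (r + s + q) n2b
  have u2 := abs_add_le r s
  have u3 := abs_add_le s q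
  have u4 := abs_add_le (r + s) q
  have habs : |s - 3 * (-(A + B + C))| ≤ (|s| + |p| + |q| + |r|) / 100 := by
    have p1 := abs_nonneg s
    have p2 := abs_nonneg p
    have p3 := abs_nonneg q
    have p4 := abs_nonneg r
    rw [hexp]
    rw [abs_le] at t1 t2 t3 t4 ⊢
    constructor <;> linarith
  have hfin := near_ineq hsb hpb hqb hrb (lam := -(A + B + C)) (by linarith) habs
  linarith

end NT31
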