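import Pool.Agent.W_fa9b59_h31.Pot
import Pool.Agent.W_fa9b59_h31.NearIneq

set_option autoImplicit false

/-!
# Triangles near the optimal one
-/

namespace NT31

/-- The exact expansion. PROOF. `psi_in` for the three edges of `X, Y, Z`; `near_id` for `X, Y, Z` and for `x, y, z` (`HH` unfolded: `f0 + f0 + f0 = HH - 1/3 + dd`), the
definition of `kK`, `l3 = - l1 - l2`; then it is a polynomial identity (`QQ` at `X, Y, Z` expanded around `x, y, z`), `ring` / `linear_combination`. -/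
theorem plus_id {x y z l1 l2 l3 : ℝ × ℝ} (hn : Near (1 / 4) x y z) (hl : l1 + l2 + l3 = 0)
    {X Y Z : ℝ × ℝ} (hN : Near (1 / 30) X Y Z) :
    dd x y z + pk (kK x y z l1 l2) (aK x y z l1 l2) (Y - X) +
        pk (kK x y z l1 l2) (aK x y z l1 l2) (Z - Y) +
        pk (kK x y z l1 l2) (aK x y z l1 l2) (X - Z) - dd X Y Z =
      -2 * (ip l1 (X - x) + ip l2 (Y - y) + ip l3 (Z - z)) +
        Pd (sg X Y Z - sg x y z) ((X.1 - Y.1) - (x.1 - y.1)) ((Y.2 - Z.2) - (y.2 - z.2))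
          (th (Z - X) - th (z - x)) := by
  have e1 := near_id hn
  have e2 := near_id (Near_mono (by norm_num : (1 : ℝ) / 30 ≤ 1 / 4) hN)
  unfold HH at e1 e2
  rw [pk, pk, pk, psi_in _ _ hN.1, psi_in _ _ hN.2.1, psi_in _ _ hN.2.2]
  have h1 : l3.1 = -l1.1 - l2.1 := by
    have := congrArg Prod.fst hl
    simp only [Prod.fst_add, Prod.fst_zero] at this
    linarith
  have h2 : l3.2 = -l1.2 - l2.2 := by
    have := congrArg Prod.snd hl
    simp only [Prod.snd_add, Prod.snd_zero] at this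
    linarith
  have a0 : aK x y z l1 l2 0 =
      (-(dqs (sg x y z) (x.1 - y.1) (y.2 - z.2) (th (z - x)) - 2 / 3) +
        dqp (sg x y z) (x.1 - y.1) (y.2 - z.2) (th (z - x)),
        -(dqs (sg x y z) (x.1 - y.1) (y.2 - z.2) (th (z - x)) - 2 / 3)) := rfl
  have a1 : aK x y z l1 l2 1 =
      (2 * l2.1 + 2 / 3, 2 * l2.2 + dqp (sg x y z) (y.2 - z.2) (th (z - x)) (x.1 - y.1) -
        dqs (sg x y z) (x.1 - y.1) (y.2 - z.2) (th (z - x)) + 2 / 3) := rfl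
  have a2 : aK x y z l1 l2 2 =
      (-2 * l1.1 - (dqp (sg x y z) (th (z - x)) (x.1 - y.1) (y.2 - z.2) - 2 / 3),
        -2 * l1.2 - (dqp (sg x y z) (th (z - x)) (x.1 - y.1) (y.2 - z.2) - 2 / 3)) := rfl
  unfold kK
  rw [a0, a1, a2]
  simp only [QQ, Pd, dqs, dqp, sg, th, ip, dd, Prod.fst_sub, Prod.snd_sub, h1, h2] at e1 e2 ⊢
  linear_combination e2 - e1

/-- PROOF. `plus_id` and `near_ineq` with `lam = -(ip l1 (X - x) + ip l2 (Y - y) + ip l3 (Z - z)) ≥ 0` (`kx`, `ky`, `kz`), `s = sg X Y Z - sg x y z` etc.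
With `d1 = X - x`, ...: `s = th d1 + d2.1 + d3.2`, so `s - 3 lam = 3 (ip (l1 - (1/3, 1/3)) d1 + ip (l2 + (1/3, 0)) d2 + ip (l3 + (0, 1/3)) d3)`, and as the three
functionals `n1, n2, n3` have sum `0` this is `3 (ip n1 (d1 - d3) + ip n2 (d2 - d3))`, with coefficients at most `50 δ` and
`(d1 - d3).1 = -(...)`: the coordinates of the differences `d1 - d3`, `d2 - d3` are sums of at most three of `s, p, q, r` up to sign
(`p = d1.1 - d2.1`, `q = d2.2 - d3.2`, `r = th (d3 - d1)`; third coordinate of `d2 - d1` is `- s - q`, and so on cyclically). So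
`|s - 3 lam| ≤ 3 * 200 δ * 3 (|s| + |p| + |q| + |r|)`. Sizes: `|p| ≤ 1/30 + 1/100 ≤ 1/12` etc., `|sg X Y Z| ≤ 2/30`, `|sg x y z| ≤ 1/100`. -/
theorem near_plus {K : Set (ℝ × ℝ)} {τ δ : ℝ} (h : KS K τ δ) {x y z v l1 l2 l3 : ℝ × ℝ}
    (hp : Pos δ x y z v) (hm : Mul K δ x y z v l1 l2 l3) {X Y Z : ℝ × ℝ} (hX : X ∈ K)
    (hY : Y ∈ K) (hZ : Z ∈ K) (hN : Near (1 / 30) X Y Z) :
    dd X Y Z ≤ dd x y z + pk (kK x y z l1 l2) (aK x y z l1 l2) (Y - X) +
        pk (kK x y z l1 l2) (aK x y z l1 l2) (Z - Y) +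
        pk (kK x y z l1 l2) (aK x y z l1 l2) (X - Z) := by
  have hn100 := pos_near h hp
  have hn4 := Near_mono (by norm_num : (1 : ℝ) / 100 ≤ 1 / 4) hn100
  have hid := plus_id hn4 hm.sum hN
  have hδ0 : 0 < δ := by rw [h.del]; have := h.tau0; positivity
  have hδ1 : δ ≤ 1 / 10 ^ 9 := by
    rw [h.del]
    have := h.tau1
    apply div_le_div_of_nonneg_right _ (by positivity)
    linarith
  have hx := hm.kx X hX
  have hy := hm.ky Y hY
  have hz := hm.kz Z hZ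
  have h1 : l3.1 = -l1.1 - l2.1 := by
    have := congrArg Prod.fst hm.sum
    simp only [Prod.fst_add, Prod.fst_zero] at this
    linarith
  have h2 : l3.2 = -l1.2 - l2.2 := by
    have := congrArg Prod.snd hm.sum
    simp only [Prod.snd_add, Prod.snd_zero] at this
    linarith
  obtain ⟨⟨A1, A2, A3⟩, ⟨B1, B2, B3⟩, ⟨C1, C2, C3⟩⟩ := hN
  obtain ⟨⟨a1, a2, a3⟩, ⟨b1, b2, b3⟩, ⟨c1, c2, c3⟩⟩ := hn100
  have e0 : ce 0 = (-1 / 3, -1 / 3) := rfl
  have e1 : ce 1 = (2 / 3, -1 / 3) := rfl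
  have e2 : ce 2 = (-1 / 3, 2 / 3) := rfl
  rw [e0] at A1 A2 A3 a1 a2 a3
  rw [e1] at B1 B2 B3 b1 b2 b3
  rw [e2] at C1 C2 C3 c1 c2 c3
  have px3 := hp.x3
  have py1 := hp.y1
  have pz2 := hp.z2
  have m1 := hm.a1
  have m2 := hm.b1
  have m3 := hm.a2
  have m4 := hm.b2
  simp only [th, Prod.fst_sub, Prod.snd_sub] at A1 A2 A3 B1 B2 B3 C1 C2 C3
  simp only [th, Prod.fst_sub, Prod.snd_sub] at a1 a2 a3 b1 b2 b3 c1 c2 c3
  rw [abs_le] at A1 A2 A3 B1 B2 B3 C1 C2 C3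
  rw [abs_le] at a1 a2 a3 b1 b2 b3 c1 c2 c3
  rw [abs_le] at px3 py1 pz2
  have hδ2 : 11 * δ ^ 2 ≤ 1 / 1000 := by nlinarith
  obtain ⟨s, hs⟩ : ∃ s, s = sg X Y Z - sg x y z := ⟨_, rfl⟩
  obtain ⟨p, hpp⟩ : ∃ p, p = (X.1 - Y.1) - (x.1 - y.1) := ⟨_, rfl⟩
  obtain ⟨q, hq⟩ : ∃ q, q = (Y.2 - Z.2) - (y.2 - z.2) := ⟨_, rfl⟩
  obtain ⟨r, hr⟩ : ∃ r, r = th (Z - X) - th (z - x) := ⟨_, rfl⟩
  obtain ⟨lam, hlam⟩ : ∃ lam, lam = -(ip l1 (X - x) + ip l2 (Y - y) + ip l3 (Z - z)) :=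
    ⟨_, rfl⟩
  rw [← hs, ← hpp, ← hq, ← hr] at hid
  have hs12 : |s| ≤ 1 / 12 := by
    rw [hs, abs_le]
    unfold sg
    constructor <;> linarith
  have hp12 : |p| ≤ 1 / 12 := by
    rw [hpp, abs_le]
    constructor <;> linarith
  have hq12 : |q| ≤ 1 / 12 := by
    rw [hq, abs_le]
    constructor <;> linarith
  have hr12 : |r| ≤ 1 / 12 := by
    rw [hr, abs_le]
    simp only [th, Prod.fst_sub, Prod.snd_sub]
    constructor <;> linarith
  have hlam0 : 0 ≤ lam := by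
    rw [hlam]
    linarith
  have key : s - 3 * lam = 3 * ((l1.1 - 1 / 3) * (p + s + r) + (l1.2 - 1 / 3) * (-p - s) +
      (l2.1 + 1 / 3) * (s + r) + l2.2 * q) := by
    rw [hs, hpp, hq, hr, hlam]
    simp only [sg, th, ip, Prod.fst_sub, Prod.snd_sub, h1, h2]
    ring
  have bd : ∀ a b B : ℝ, |a| ≤ 50 * δ → |b| ≤ B → |a * b| ≤ 50 * δ * B := by
    intro a b B ha hb
    rw [abs_mul]
    exact mul_le_mul ha hb (abs_nonneg _) (by positivity)
  have t1 := bd (l1.1 - 1 / 3) (p + s + r) (|p| + |s| + |r|) m1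
    ((abs_add_le _ _).trans (add_le_add_left (abs_add_le _ _) _))
  have t2 := bd (l1.2 - 1 / 3) (-p - s) (|p| + |s|) m2 (by
    have := abs_sub (-p) s
    rw [abs_neg] at this
    exact this)
  have t3 := bd (l2.1 + 1 / 3) (s + r) (|s| + |r|) m3 (abs_add_le _ _)
  have t4 := bd l2.2 q |q| m4 le_rfl
  have hdist : |s - 3 * lam| ≤ (|s| + |p| + |q| + |r|) / 100 := by
    rw [key, abs_mul, abs_of_pos (by norm_num : (0 : ℝ) < 3)]
    have g1 := abs_add_le ((l1.1 - 1 / 3) * (p + s + r)) ((l1.2 - 1 / 3) * (-p - s))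
    have g2 := abs_add_le ((l1.1 - 1 / 3) * (p + s + r) + (l1.2 - 1 / 3) * (-p - s))
      ((l2.1 + 1 / 3) * (s + r))
    have g3 := abs_add_le ((l1.1 - 1 / 3) * (p + s + r) + (l1.2 - 1 / 3) * (-p - s) +
      (l2.1 + 1 / 3) * (s + r)) (l2.2 * q)
    have as := abs_nonneg s
    have ap := abs_nonneg p
    have aq := abs_nonneg q
    have ar := abs_nonneg r
    have g4 : 50 * δ * (|p| + |s| + |r|) + 50 * δ * (|p| + |s|) + 50 * δ * (|s| + |r|) +
        50 * δ * |q| ≤ 150 * δ * (|s| + |p| + |q| + |r|) := by nlinarith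
    have g5 : 450 * δ * (|s| + |p| + |q| + |r|) ≤ 1 / 100 * (|s| + |p| + |q| + |r|) :=
      mul_le_mul_of_nonneg_right (by linarith) (by positivity)
    linarith
  have hfin := near_ineq hs12 hp12 hq12 hr12 hlam0 hdist
  have hl2 : -2 * (ip l1 (X - x) + ip l2 (Y - y) + ip l3 (Z - z)) = 2 * lam := by
    rw [hlam]
    ring
  rw [hl2] at hid
  linarith

end NT31
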