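import Pool.Agent.W_fa9b59_h31.Slice

set_option autoImplicit false

/-!
# Cells at two close heights
-/

open MeasureTheory Metric Set

namespace NT31

open FB88

/-- PROOF. For fixed `i, j, k` with `C i ∩ C j ∩ C k = ∅` the compact sets `C i ∩ C j` and `C k` are disjoint and have positive distance
(`Disjoint.exists_thickenings` or `IsCompact.exists_infDist_eq_dist`); take the minimum over the finitely many triples. -/
theorem near_triple {ι : Type} [Finite ι] {C : ι → Set E} (hC : ∀ i, IsCompact (C i)) :
    ∃ η > 0, ∀ i j k, ∀ p ∈ C i ∩ C j, ∀ q ∈ C k, dist p q ≤ η →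
      (C i ∩ C j ∩ C k).Nonempty := by
  have key : ∀ i j k, ∀ᶠ η in nhdsWithin (0 : ℝ) (Ioi 0), ∀ p ∈ C i ∩ C j, ∀ q ∈ C k,
      dist p q ≤ η → (C i ∩ C j ∩ C k).Nonempty := by
    intro i j k
    by_cases hne : (C i ∩ C j ∩ C k).Nonempty
    · exact Filter.Eventually.of_forall fun _ _ _ _ _ _ => hne
    · have hd : Disjoint (C i ∩ C j) (C k) := by
        rw [Set.disjoint_iff_inter_eq_empty]
        exact Set.not_nonempty_iff_eq_empty.1 hne
      obtain ⟨r, hr, h⟩ := Metric.exists_pos_forall_lt_edist ((hC i).inter (hC j))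
        (hC k).isClosed hd
      filter_upwards [Ioo_mem_nhdsGT (show (0 : ℝ) < r from by exact_mod_cast hr)]
        with η hη p hp q hq hle
      exfalso
      have h1 := h p hp q hq
      rw [edist_dist] at h1
      have h2 : ENNReal.ofReal (dist p q) ≤ ENNReal.ofReal (r : ℝ) :=
        ENNReal.ofReal_le_ofReal (hle.trans hη.2.le)
      rw [ENNReal.ofReal_coe_nnreal] at h2
      exact absurd h1 (not_lt.2 h2)
  have h := (Filter.eventually_all.2 fun i => Filter.eventually_all.2 fun j =>
    Filter.eventually_all.2 fun k => key i j k).and self_mem_nhdsWithin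
  obtain ⟨η, h1, h2⟩ := h.exists
  exact ⟨η, h2, h1⟩

private theorem NearTr_ne (a : ℝ) : ∀ᶠ ε in nhdsWithin (0 : ℝ) (Ioi 0), ε ≠ a := by
  by_cases ha : 0 < a
  · filter_upwards [Ioo_mem_nhdsGT ha] with ε hε
    exact hε.2.ne
  · filter_upwards [self_mem_nhdsWithin] with ε hε
    have : (0 : ℝ) < ε := hε
    intro h
    exact ha (h ▸ this)

private theorem NearTr_cont (m : ℝ) : Continuous (fun y : ℝ => pt m y) := by
  unfold pt
  fun_prop

private theorem NearTr_one {C : Set E} (h : Body C) (hi' : (interior C).Nonempty) (t : ℝ) :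
    ∀ᶠ ε in nhdsWithin (0 : ℝ) (Ioi 0), (lo C < t - ε ∧ t - ε < hi C) →
      (lo C < t + ε ∧ t + ε < hi C) → sa C (t - ε) < sb C (t + ε) ∧ sa C (t + ε) < sb C (t - ε) := by
  by_cases h1 : lo C < t
  · by_cases h2 : t < hi C
    · have hab := sa_lt_sb h hi' h1 h2
      have hm : pt ((sa C t + sb C t) / 2) t ∈ interior C :=
        slice_interior h hi' h1 h2 (by linarith) (by linarith)
      set m := (sa C t + sb C t) / 2 with hmdef
      have hc := NearTr_cont m
      have e1 : ∀ᶠ ε in nhds (0 : ℝ), pt m (t - ε) ∈ interior C := by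
        have h3 : Continuous (fun ε : ℝ => pt m (t - ε)) :=
          hc.comp (continuous_const.sub continuous_id)
        have h4 : (fun ε : ℝ => pt m (t - ε)) 0 ∈ interior C := by simpa using hm
        exact h3.continuousAt.eventually_mem (isOpen_interior.mem_nhds h4)
      have e2 : ∀ᶠ ε in nhds (0 : ℝ), pt m (t + ε) ∈ interior C := by
        have h3 : Continuous (fun ε : ℝ => pt m (t + ε)) :=
          hc.comp (continuous_const.add continuous_id)
        have h4 : (fun ε : ℝ => pt m (t + ε)) 0 ∈ interior C := by simpa using hm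
        exact h3.continuousAt.eventually_mem (isOpen_interior.mem_nhds h4)
      filter_upwards [mem_nhdsWithin_of_mem_nhds e1, mem_nhdsWithin_of_mem_nhds e2]
        with ε h3 h4 _ _
      obtain ⟨_, _, a1, a2⟩ := interior_slice h h3
      obtain ⟨_, _, b1, b2⟩ := interior_slice h h4
      exact ⟨a1.trans b2, b1.trans a2⟩
    · filter_upwards [self_mem_nhdsWithin] with ε hε _ h4
      have : (0 : ℝ) < ε := hε
      exfalso
      linarith [h4.2]
  · filter_upwards [self_mem_nhdsWithin] with ε hε h3 _
    have : (0 : ℝ) < ε := hε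
    exfalso
    linarith [h3.1]

/-- For every height `t` the heights `t - ε`, `t + ε` are no events for all small `ε > 0`, and the slices of the cells active at both
heights overlap. PROOF. Finitely many events: choose `ε₀` smaller than the distance of `t` to all events different from `t`. A cell `i` active
at `t - ε` and `t + ε` then has `lo (C i) < t < hi (C i)`; there is an interior point `pt m t`, with a ball of radius `r` in `C i`; for
`ε < r` the point `pt m (t ± ε)` is an interior point of `C i`, so `sa < m < sb` at both heights (`interior_slice`). -/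
theorem straddle {ι : Type} [Finite ι] {S : ℝ} {C : ι → Set E} (h : Cells S C) (t : ℝ) :
    ∃ ε₀ > 0, ∀ ε, 0 < ε → ε < ε₀ → NonEv C (t - ε) ∧ NonEv C (t + ε) ∧
      ∀ i, Act C (t - ε) i → Act C (t + ε) i →
        sa (C i) (t - ε) < sb (C i) (t + ε) ∧ sa (C i) (t + ε) < sb (C i) (t - ε) := by
  have key : ∀ᶠ ε in nhdsWithin (0 : ℝ) (Ioi 0), NonEv C (t - ε) ∧ NonEv C (t + ε) ∧
      ∀ i, Act C (t - ε) i → Act C (t + ε) i →
        sa (C i) (t - ε) < sb (C i) (t + ε) ∧ sa (C i) (t + ε) < sb (C i) (t - ε) := by
    refine Filter.Eventually.and ?_ (Filter.Eventually.and ?_ ?_)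
    · unfold NonEv
      rw [Filter.eventually_all]
      intro i
      filter_upwards [NearTr_ne (t - lo (C i)), NearTr_ne (t - hi (C i))] with ε h1 h2
      constructor
      · intro h3
        exact h1 (by linarith)
      · intro h3
        exact h2 (by linarith)
    · unfold NonEv
      rw [Filter.eventually_all]
      intro i
      filter_upwards [NearTr_ne (lo (C i) - t), NearTr_ne (hi (C i) - t)] with ε h1 h2
      constructor
      · intro h3
        exact h1 (by linarith)
      · intro h3
        exact h2 (by linarith)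
    · rw [Filter.eventually_all]
      intro i
      exact NearTr_one (h.body i) (h.int i) t
  obtain ⟨u, hu, hsub⟩ := mem_nhdsGT_iff_exists_Ioo_subset.1 key
  exact ⟨u, hu, fun ε h1 h2 => hsub ⟨h1, h2⟩⟩

end NT31
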