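import Pool.Agent.W_fa9b59_h31.NearId

set_option autoImplicit false

/-!
# The corrected edge potential
-/

namespace NT31

/-- The correction: the affine function `k + a j` on the ball around the edge `ce j`, continued oddly. -/
noncomputable def psi (k : ℝ) (a : Fin 3 → ℝ × ℝ) (e : ℝ × ℝ) : ℝ := by
  classical
  exact ∑ j, ((if Eb (1 / 30) j e then k + ip (a j) e else 0) -
    (if Eb (1 / 30) j (-e) then k + ip (a j) (-e) else 0))

/-- the corrected potential -/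
noncomputable def pk (k : ℝ) (a : Fin 3 → ℝ × ℝ) (e : ℝ × ℝ) : ℝ := f0 e + psi k a e

/-- the multipliers of the optimal triangle, with estimates -/
structure Mul (K : Set (ℝ × ℝ)) (δ : ℝ) (x y z v l1 l2 l3 : ℝ × ℝ) : Prop where
  sum : l1 + l2 + l3 = 0
  kx : ∀ k ∈ K, ip l1 (k - x) ≤ 0
  ky : ∀ k ∈ K, ip l2 (k - y) ≤ 0
  kz : ∀ k ∈ K, ip l3 (k - z) ≤ 0
  gx : ∀ k ∈ K, ip ((y.2 - z.2, z.1 - y.1) - l1) (v - k - x) ≤ 0
  gy : ∀ k ∈ K, ip ((z.2 - x.2, x.1 - z.1) - l2) (v - k - y) ≤ 0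
  gz : ∀ k ∈ K, ip ((x.2 - y.2, y.1 - x.1) - l3) (v - k - z) ≤ 0
  a1 : |l1.1 - 1 / 3| ≤ 50 * δ
  b1 : |l1.2 - 1 / 3| ≤ 50 * δ
  a2 : |l2.1 + 1 / 3| ≤ 50 * δ
  b2 : |l2.2| ≤ 50 * δ
  a3 : |l3.1| ≤ 50 * δ
  b3 : |l3.2 + 1 / 3| ≤ 50 * δ

/-- derivative of `QQ` with respect to `s` -/
noncomputable def dqs (s p q r : ℝ) : ℝ := 2 / 3 * s + 2 / 3 * (p + q + r) - (1 - s - (p + q + r)) / 3

/-- derivative of `QQ` with respect to `p` (symmetric in `q, r`) -/
noncomputable def dqp (s p q r : ℝ) : ℝ :=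
  2 / 3 * s + ((p - q) + (p - r)) / 3 - (1 - s - (p + q + r)) / 3

/-- the linear parts of the correction -/
noncomputable def aK (x y z l1 l2 : ℝ × ℝ) : Fin 3 → ℝ × ℝ :=
  let s := sg x y z
  let p := x.1 - y.1
  let q := y.2 - z.2
  let r := th (z - x)
  ![(-(dqs s p q r - 2 / 3) + dqp s p q r, -(dqs s p q r - 2 / 3)),
    (2 * l2.1 + 2 / 3, 2 * l2.2 + dqp s q r p - dqs s p q r + 2 / 3),
    (-2 * l1.1 - (dqp s r p q - 2 / 3), -2 * l1.2 - (dqp s r p q - 2 / 3))]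

/-- the constant part of the correction -/
noncomputable def kK (x y z l1 l2 : ℝ × ℝ) : ℝ :=
  -(f0 (y - x) + f0 (z - y) + f0 (x - z) + ip (aK x y z l1 l2 0) (y - x) +
    ip (aK x y z l1 l2 1) (z - y) + ip (aK x y z l1 l2 2) (x - z)) / 3

private theorem Pot_excl {e : ℝ × ℝ} {i j : Fin 3} (h : Eb (1 / 30) j e)
    (h' : Eb (1 / 30) i e) : i = j := by
  obtain ⟨a1, a2, a3⟩ := h
  obtain ⟨b1, b2, b3⟩ := h'
  rw [abs_le] at a1 a2 b1 b2
  clear a3 b3
  fin_cases i <;> fin_cases j <;> first | rfl | (exfalso; simp [ce] at a1 a2 b1 b2; linarith)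

private theorem Pot_excl' {e : ℝ × ℝ} {i j : Fin 3} (h : Eb (1 / 30) j e)
    (h' : Eb (1 / 30) i (-e)) : False := by
  obtain ⟨a1, a2, a3⟩ := h
  obtain ⟨b1, b2, b3⟩ := h'
  rw [abs_le] at a1 a2 b1 b2
  clear a3 b3
  fin_cases i <;> fin_cases j <;> (simp [ce] at a1 a2 b1 b2; linarith)

private theorem Pot_coord {e : ℝ × ℝ} {j : Fin 3} (h : Eb (1 / 30) j e) :
    |e.1| ≤ 1 ∧ |e.2| ≤ 1 := by
  obtain ⟨a1, a2, a3⟩ := h
  rw [abs_le] at a1 a2
  clear a3
  rw [abs_le, abs_le]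
  fin_cases j <;> (simp [ce] at a1 a2; refine ⟨⟨?_, ?_⟩, ⟨?_, ?_⟩⟩ <;> linarith)

private theorem Pot_del {K : Set (ℝ × ℝ)} {τ δ : ℝ} (h : KS K τ δ) :
    0 ≤ δ ∧ δ ≤ 1 / 10 ^ 6 ∧ 0 ≤ δ ^ 2 ∧ δ ^ 2 ≤ δ / 10 ^ 6 := by
  have h0 := h.tau0
  have h1 := h.tau1
  have h2 := h.del
  have d0 : 0 ≤ δ := by
    rw [h2]
    positivity
  have d1 : δ ≤ 1 / 10 ^ 6 := by
    rw [h2]
    norm_num
    linarith
  refine ⟨d0, d1, by positivity, ?_⟩
  have : δ * δ ≤ δ * (1 / 10 ^ 6) := mul_le_mul_of_nonneg_left d1 d0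
  calc δ ^ 2 = δ * δ := by ring
    _ ≤ δ * (1 / 10 ^ 6) := this
    _ = δ / 10 ^ 6 := by ring

private theorem Pot_params {K : Set (ℝ × ℝ)} {τ δ : ℝ} (h : KS K τ δ) {x y z v : ℝ × ℝ}
    (hp : Pos δ x y z v) : |sg x y z| ≤ δ ∧ |x.1 - y.1 - 1 / 3| ≤ 11 * δ ∧
      |y.2 - z.2 - 1 / 3| ≤ 11 * δ ∧ |th (z - x) - 1 / 3| ≤ 11 * δ := by
  obtain ⟨d0, d1, d2, d3⟩ := Pot_del h
  have hx3 := abs_le.1 hp.x3
  have hx1 := abs_le.1 hp.x1
  have hx2 := abs_le.1 hp.x2
  have hy1 := abs_le.1 hp.y1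
  have hy2 := abs_le.1 hp.y2
  have hz1 := abs_le.1 hp.z1
  have hz2 := abs_le.1 hp.z2
  refine ⟨?_, ?_, ?_, ?_⟩
  · unfold sg
    rw [abs_le]
    constructor <;> linarith
  · rw [abs_le]
    constructor <;> linarith
  · rw [abs_le]
    constructor <;> linarith
  · unfold th
    rw [Prod.fst_sub, Prod.snd_sub, abs_le]
    constructor <;> linarith

private theorem Pot_dqs {δ s p q r : ℝ} (hs : |s| ≤ δ) (hp : |p - 1 / 3| ≤ 11 * δ)
    (hq : |q - 1 / 3| ≤ 11 * δ) (hr : |r - 1 / 3| ≤ 11 * δ) : |dqs s p q r - 2 / 3| ≤ 40 * δ := by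
  unfold dqs
  rw [abs_le] at *
  constructor <;> linarith

private theorem Pot_dqp {δ s p q r : ℝ} (hs : |s| ≤ δ) (hp : |p - 1 / 3| ≤ 11 * δ)
    (hq : |q - 1 / 3| ≤ 11 * δ) (hr : |r - 1 / 3| ≤ 11 * δ) : |dqp s p q r| ≤ 40 * δ := by
  unfold dqp
  rw [abs_le] at *
  constructor <;> linarith

private theorem Pot_prod {A t δ : ℝ} (h1 : |A| ≤ 45 * δ) (h2 : |t| ≤ 7 / 9) :
    |A * (4 - 9 * |t|) / 18| ≤ 10 * δ := by
  have hb : abs (4 - 9 * |t|) ≤ 4 := by
    have := abs_nonneg t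
    rw [abs_le]
    constructor <;> linarith
  rw [abs_div, abs_mul, abs_of_pos (by norm_num : (0 : ℝ) < 18), div_le_iff₀ (by norm_num)]
  have h0 : 0 ≤ 45 * δ := le_trans (abs_nonneg _) h1
  calc |A| * abs (4 - 9 * |t|) ≤ (45 * δ) * 4 := mul_le_mul h1 hb (abs_nonneg _) h0
    _ = 10 * δ * 18 := by ring

private theorem Pot_ip {δ : ℝ} {a e : ℝ × ℝ} (hd : 0 ≤ δ) (h1 : |a.1| ≤ 200 * δ)
    (h2 : |a.2| ≤ 200 * δ) (h3 : |e.1| ≤ 1) (h4 : |e.2| ≤ 1) : |ip a e| ≤ 400 * δ := by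
  unfold ip
  have t1 : |a.1 * e.1| ≤ 200 * δ := by
    rw [abs_mul]
    calc |a.1| * |e.1| ≤ (200 * δ) * 1 := mul_le_mul h1 h3 (abs_nonneg _) (by positivity)
      _ = 200 * δ := mul_one _
  have t2 : |a.2 * e.2| ≤ 200 * δ := by
    rw [abs_mul]
    calc |a.2| * |e.2| ≤ (200 * δ) * 1 := mul_le_mul h2 h4 (abs_nonneg _) (by positivity)
      _ = 200 * δ := mul_one _
  have t4 := abs_add_le (a.1 * e.1) (a.2 * e.2)
  linarith

theorem psi_neg (k : ℝ) (a : Fin 3 → ℝ × ℝ) (e : ℝ × ℝ) : psi k a (-e) = -psi k a e := by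
  unfold psi
  rw [← Finset.sum_neg_distrib]
  refine Finset.sum_congr rfl ?_
  intro j _
  rw [neg_neg]
  ring

/-- PROOF. The six balls are disjoint: `Eb (1/30) j e` excludes `Eb (1/30) i e` for `i ≠ j` and `Eb (1/30) i (-e)` for all `i`. -/
theorem psi_in (k : ℝ) (a : Fin 3 → ℝ × ℝ) {j : Fin 3} {e : ℝ × ℝ} (h : Eb (1 / 30) j e) :
    psi k a e = k + ip (a j) e := by
  classical
  unfold psi
  rw [Finset.sum_eq_single j]
  · rw [if_pos h, if_neg (fun h' => Pot_excl' h h')]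
    ring
  · intro i _ hij
    rw [if_neg (fun h' => hij (Pot_excl h h')), if_neg (fun h' => Pot_excl' h h')]
    ring
  · intro hj
    exact absurd (Finset.mem_univ j) hj

/-- PROOF. Each of the six terms is at most `3 m` in modulus (`|e.1|, |e.2| ≤ 1` in the balls). -/
theorem psi_small {k m : ℝ} {a : Fin 3 → ℝ × ℝ} (hk : |k| ≤ m) (h1 : ∀ j, |(a j).1| ≤ m)
    (h2 : ∀ j, |(a j).2| ≤ m) (e : ℝ × ℝ) : |psi k a e| ≤ 18 * m := by
  classical
  have hm : 0 ≤ m := le_trans (abs_nonneg k) hk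
  unfold psi
  have hterm : ∀ j : Fin 3, ∀ e : ℝ × ℝ,
      |(if Eb (1 / 30) j e then k + ip (a j) e else 0)| ≤ 3 * m := by
    intro j e
    by_cases hE : Eb (1 / 30) j e
    · rw [if_pos hE]
      have he := Pot_coord hE
      unfold ip
      have t1 : |(a j).1 * e.1| ≤ m := by
        rw [abs_mul]
        calc |(a j).1| * |e.1| ≤ m * 1 := mul_le_mul (h1 j) he.1 (abs_nonneg _) hm
          _ = m := mul_one m
      have t2 : |(a j).2 * e.2| ≤ m := by
        rw [abs_mul]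
        calc |(a j).2| * |e.2| ≤ m * 1 := mul_le_mul (h2 j) he.2 (abs_nonneg _) hm
          _ = m := mul_one m
      have t3 := abs_add_le k ((a j).1 * e.1 + (a j).2 * e.2)
      have t4 := abs_add_le ((a j).1 * e.1) ((a j).2 * e.2)
      linarith
    · rw [if_neg hE, abs_zero]
      positivity
  refine le_trans (Finset.abs_sum_le_sum_abs _ _) ?_
  have hsum : ∀ j ∈ (Finset.univ : Finset (Fin 3)),
      |(if Eb (1 / 30) j e then k + ip (a j) e else 0) -
        (if Eb (1 / 30) j (-e) then k + ip (a j) (-e) else 0)| ≤ 6 * m := by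
    intro j _
    have u1 := hterm j e
    have u2 := hterm j (-e)
    have u3 := abs_sub (if Eb (1 / 30) j e then k + ip (a j) e else 0)
      (if Eb (1 / 30) j (-e) then k + ip (a j) (-e) else 0)
    linarith
  refine le_trans (Finset.sum_le_card_nsmul _ _ _ hsum) ?_
  rw [Finset.card_univ, Fintype.card_fin, nsmul_eq_mul]
  push_cast
  linarith

/-- PROOF. With `s, p - 1/3, q - 1/3, r - 1/3` at most `11 δ` in modulus (`Pos`; `s` is even `≤ 33 δ²`): `|dqs - 2/3| ≤ 40 δ`, `|dqp| ≤ 40 δ`. -/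
theorem aK_small {K : Set (ℝ × ℝ)} {τ δ : ℝ} (h : KS K τ δ) {x y z v l1 l2 l3 : ℝ × ℝ}
    (hp : Pos δ x y z v) (hm : Mul K δ x y z v l1 l2 l3) (j : Fin 3) :
    |(aK x y z l1 l2 j).1| ≤ 200 * δ ∧ |(aK x y z l1 l2 j).2| ≤ 200 * δ := by
  obtain ⟨d0, d1, d2, d3⟩ := Pot_del h
  obtain ⟨hs, hP, hQ, hR⟩ := Pot_params h hp
  have hS := Pot_dqs hs hP hQ hR
  have hP1 := Pot_dqp hs hP hQ hR
  have hP2 := Pot_dqp hs hQ hR hP
  have hP3 := Pot_dqp hs hR hP hQ
  have e1 := abs_le.1 hm.a1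
  have e2 := abs_le.1 hm.b1
  have e3 := abs_le.1 hm.a2
  have e4 := abs_le.1 hm.b2
  rw [abs_le] at hS hP1 hP2 hP3
  have key : ∀ j : Fin 3, |(aK x y z l1 l2 j).1| ≤ 200 * δ ∧ |(aK x y z l1 l2 j).2| ≤ 200 * δ := by
    intro j
    fin_cases j
    · simp only [aK]
      simp only [Fin.zero_eta, Matrix.cons_val_zero]
      constructor <;> rw [abs_le] <;> constructor <;> linarith
    · simp only [aK]
      simp only [Fin.mk_one, Matrix.cons_val_one, Matrix.cons_val_zero]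
      constructor <;> rw [abs_le] <;> constructor <;> linarith
    · simp only [aK]
      simp only [Fin.reduceFinMk, Matrix.cons_val]
      constructor <;> rw [abs_le] <;> constructor <;> linarith
  exact key j

/-- PROOF. The coordinates of the three edges are at most `1` in modulus, and `f0` of the edges is at most `10 δ` in modulus (`f0_a`, `f0_b`, `f0_c`: the difference
of the two coordinates of the same sign is at most `40 δ`). -/
theorem kK_small {K : Set (ℝ × ℝ)} {τ δ : ℝ} (h : KS K τ δ) {x y z v l1 l2 l3 : ℝ × ℝ}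
    (hp : Pos δ x y z v) (hm : Mul K δ x y z v l1 l2 l3) : |kK x y z l1 l2| ≤ 500 * δ := by
  obtain ⟨d0, d1, d2, d3⟩ := Pot_del h
  have hx3 := abs_le.1 hp.x3
  have hx1 := abs_le.1 hp.x1
  have hx2 := abs_le.1 hp.x2
  have hy1 := abs_le.1 hp.y1
  have hy2 := abs_le.1 hp.y2
  have hz1 := abs_le.1 hp.z1
  have hz2 := abs_le.1 hp.z2
  have a0 := aK_small h hp hm 0
  have a1 := aK_small h hp hm 1
  have a2 := aK_small h hp hm 2
  have hf0 : |f0 (y - x)| ≤ 10 * δ := by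
    have c1 : (y - x).1 ≤ 0 := by
      rw [Prod.fst_sub]
      linarith
    have c2 : (y - x).2 ≤ 0 := by
      rw [Prod.snd_sub]
      linarith
    rw [f0_a (mul_nonneg_of_nonpos_of_nonpos c1 c2)]
    refine Pot_prod ?_ ?_
    · rw [Prod.fst_sub, Prod.snd_sub, abs_le]
      constructor <;> linarith
    · unfold th
      rw [Prod.fst_sub, Prod.snd_sub, abs_le]
      constructor <;> linarith
  have hf1 : |f0 (z - y)| ≤ 10 * δ := by
    have c1 : (z - y).2 ≤ 0 := by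
      rw [Prod.snd_sub]
      linarith
    have c2 : th (z - y) ≤ 0 := by
      unfold th
      rw [Prod.fst_sub, Prod.snd_sub]
      linarith
    rw [f0_b (mul_nonneg_of_nonpos_of_nonpos c1 c2)]
    refine Pot_prod ?_ ?_
    · unfold th
      rw [Prod.fst_sub, Prod.snd_sub, abs_le]
      constructor <;> linarith
    · rw [Prod.fst_sub, abs_le]
      constructor <;> linarith
  have hf2 : |f0 (x - z)| ≤ 10 * δ := by
    have c1 : (x - z).1 ≤ 0 := by
      rw [Prod.fst_sub]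
      linarith
    have c2 : th (x - z) ≤ 0 := by
      unfold th
      rw [Prod.fst_sub, Prod.snd_sub]
      linarith
    rw [f0_c (mul_nonneg_of_nonpos_of_nonpos c1 c2)]
    refine Pot_prod ?_ ?_
    · unfold th
      rw [Prod.fst_sub, Prod.snd_sub, abs_le]
      constructor <;> linarith
    · rw [Prod.snd_sub, abs_le]
      constructor <;> linarith
  have hi0 : |ip (aK x y z l1 l2 0) (y - x)| ≤ 400 * δ := by
    refine Pot_ip d0 a0.1 a0.2 ?_ ?_
    · rw [Prod.fst_sub, abs_le]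
      constructor <;> linarith
    · rw [Prod.snd_sub, abs_le]
      constructor <;> linarith
  have hi1 : |ip (aK x y z l1 l2 1) (z - y)| ≤ 400 * δ := by
    refine Pot_ip d0 a1.1 a1.2 ?_ ?_
    · rw [Prod.fst_sub, abs_le]
      constructor <;> linarith
    · rw [Prod.snd_sub, abs_le]
      constructor <;> linarith
  have hi2 : |ip (aK x y z l1 l2 2) (x - z)| ≤ 400 * δ := by
    refine Pot_ip d0 a2.1 a2.2 ?_ ?_
    · rw [Prod.fst_sub, abs_le]
      constructor <;> linarith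
    · rw [Prod.snd_sub, abs_le]
      constructor <;> linarith
  unfold kK
  rw [abs_le] at hf0 hf1 hf2 hi0 hi1 hi2 ⊢
  constructor <;> linarith

/-- The triangle of `Pos` is near the optimal one. -/
theorem pos_near {K : Set (ℝ × ℝ)} {τ δ : ℝ} (h : KS K τ δ) {x y z v : ℝ × ℝ}
    (hp : Pos δ x y z v) : Near (1 / 100) x y z := by
  obtain ⟨d0, d1, d2, d3⟩ := Pot_del h
  have hx3 := abs_le.1 hp.x3
  have hx1 := abs_le.1 hp.x1
  have hx2 := abs_le.1 hp.x2
  have hy1 := abs_le.1 hp.y1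
  have hy2 := abs_le.1 hp.y2
  have hz1 := abs_le.1 hp.z1
  have hz2 := abs_le.1 hp.z2
  have hth0 : th (ce 0) = 2 / 3 := by
    simp only [th, ce, Matrix.cons_val_zero]
    norm_num
  have hth1 : th (ce 1) = -1 / 3 := by
    simp only [th, ce, Matrix.cons_val_zero, Matrix.cons_val_one]
    norm_num
  have hth2 : th (ce 2) = -1 / 3 := by
    simp only [th, ce, Matrix.cons_val]
    norm_num
  refine ⟨⟨?_, ?_, ?_⟩, ⟨?_, ?_, ?_⟩, ⟨?_, ?_, ?_⟩⟩
  · simp only [ce, Matrix.cons_val_zero, Prod.fst_sub]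
    rw [abs_le]
    constructor <;> linarith
  · simp only [ce, Matrix.cons_val_zero, Prod.snd_sub]
    rw [abs_le]
    constructor <;> linarith
  · rw [hth0]
    unfold th
    rw [Prod.fst_sub, Prod.snd_sub, abs_le]
    constructor <;> linarith
  · simp only [ce, Matrix.cons_val_zero, Matrix.cons_val_one, Prod.fst_sub]
    rw [abs_le]
    constructor <;> linarith
  · simp only [ce, Matrix.cons_val_zero, Matrix.cons_val_one, Prod.snd_sub]
    rw [abs_le]
    constructor <;> linarith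
  · rw [hth1]
    unfold th
    rw [Prod.fst_sub, Prod.snd_sub, abs_le]
    constructor <;> linarith
  · simp only [ce, Matrix.cons_val, Prod.fst_sub]
    rw [abs_le]
    constructor <;> linarith
  · simp only [ce, Matrix.cons_val, Prod.snd_sub]
    rw [abs_le]
    constructor <;> linarith
  · rw [hth2]
    unfold th
    rw [Prod.fst_sub, Prod.snd_sub, abs_le]
    constructor <;> linarith

end NT31
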