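import Pool.Agent.W_fa9b59_h31.Defs

set_option autoImplicit false

/-!
# Sorting consecutive intervals
-/

namespace NT31

private theorem RowEx_aux {ι : Type} [DecidableEq ι] (a b : ι → ℝ) {S : ℝ} (A : Finset ι) :
    ∀ t : ℝ, t < S → (∀ e ∈ A, a e < b e) → (∀ e ∈ A, t ≤ a e) → (∀ e ∈ A, b e ≤ S) →
    (∀ e ∈ A, ∀ f ∈ A, e ≠ f → ∀ x, a e < x → x < b e → ¬ (a f < x ∧ x < b f)) →
    (∀ x, t ≤ x → x ≤ S → ∃ e ∈ A, a e ≤ x ∧ x ≤ b e) →
    ∃ (i : ι) (L : List ι), (i :: L).Nodup ∧ (∀ e, e ∈ i :: L ↔ e ∈ A) ∧ a i = t ∧
      Ch a b S i L := by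
  induction A using Finset.strongInduction with
  | H A ih =>
    intro t htS hab h0 h1 hd hcov
    obtain ⟨i, hiA, hi1, hi2⟩ := hcov t le_rfl htS.le
    have hit : a i = t := le_antisymm hi1 (h0 i hiA)
    have hright : ∀ f ∈ A, f ≠ i → b i ≤ a f := by
      intro f hf hfi
      by_contra hlt
      push Not at hlt
      have h2 := h0 f hf
      have h3 := hab f hf
      rcases le_total (b i) (b f) with hbb | hbb
      · exact hd f hf i hiA hfi ((a f + b i) / 2) (by linarith) (by linarith)
          ⟨by linarith, by linarith⟩
      · exact hd f hf i hiA hfi ((a f + b f) / 2) (by linarith) (by linarith)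
          ⟨by linarith, by linarith⟩
    by_cases hbS : b i = S
    · refine ⟨i, [], List.nodup_singleton i, ?_, hit, hbS⟩
      intro e
      rw [List.mem_singleton]
      constructor
      · rintro rfl
        exact hiA
      · intro he
        by_contra hne
        have h2 := hright e he hne
        have h3 := hab e he
        have h4 := h1 e he
        linarith
    · have hbS' : b i < S := lt_of_le_of_ne (h1 i hiA) hbS
      have hss : A.erase i ⊂ A := Finset.erase_ssubset hiA
      obtain ⟨g, hgA, _, hg2⟩ := hcov S htS.le le_rfl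
      have hgi : g ≠ i := by
        rintro rfl
        linarith
      have hne : (A.erase i).Nonempty := ⟨g, Finset.mem_erase.mpr ⟨hgi, hgA⟩⟩
      obtain ⟨f0, hf0, hmin⟩ := Finset.exists_min_image (A.erase i) a hne
      obtain ⟨hf0i, hf0A⟩ := Finset.mem_erase.mp hf0
      have hf0a : a f0 = b i := by
        refine le_antisymm ?_ (hright f0 hf0A hf0i)
        by_contra hlt
        push Not at hlt
        have h2 := hab i hiA
        have h3 := hab f0 hf0A
        have h4 := h1 f0 hf0A
        obtain ⟨e, heA, he1, he2⟩ := hcov ((b i + a f0) / 2) (by linarith) (by linarith)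
        have hei : e ≠ i := by
          rintro rfl
          linarith
        have := hmin e (Finset.mem_erase.mpr ⟨hei, heA⟩)
        linarith
      obtain ⟨i', L', hnd, hmem, hai, hch⟩ := ih (A.erase i) hss (b i) hbS'
        (fun e he => hab e (Finset.mem_of_mem_erase he))
        (fun e he => hright e (Finset.mem_of_mem_erase he) (Finset.ne_of_mem_erase he))
        (fun e he => h1 e (Finset.mem_of_mem_erase he))
        (fun e he f hf => hd e (Finset.mem_of_mem_erase he) f (Finset.mem_of_mem_erase hf))
        (by
          intro x hx1 hx2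
          rcases eq_or_lt_of_le hx1 with hxe | hxl
          · exact ⟨f0, hf0, by linarith, by have := hab f0 hf0A; linarith⟩
          · obtain ⟨e, heA, he1, he2⟩ := hcov x (by have := hab i hiA; linarith) hx2
            refine ⟨e, Finset.mem_erase.mpr ⟨?_, heA⟩, he1, he2⟩
            rintro rfl
            linarith)
      refine ⟨i, i' :: L', ?_, ?_, hit, ⟨hai.symm, hch⟩⟩
      · refine List.nodup_cons.mpr ⟨?_, hnd⟩
        intro hi
        exact absurd ((hmem i).mp hi) (Finset.notMem_erase i A)
      · intro e
        rw [List.mem_cons, hmem e, Finset.mem_erase]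
        constructor
        · rintro (rfl | ⟨_, he⟩)
          · exact hiA
          · exact he
        · intro he
          by_cases hei : e = i
          · exact Or.inl hei
          · exact Or.inr ⟨hei, he⟩

/-- A finite set of intervals `[a e, b e]` in `[0, S]` with disjoint interiors which cover `[0, S]` can be listed from left to
right. PROOF. Induction on `n` (cardinality of `A`) for the more general statement with `[t, S]` in place of `[0, S]`, `t < S`: the
interval containing points arbitrarily close to `t` on the right (there are finitely many intervals; take the minimum of the left ends,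
it must be `t`, since `t` is covered and everything is in `[t, S]`) is `i` with `a i = t`; it is unique (disjoint interiors, positive
lengths). If `b i = S`, then `A = {i}`. Otherwise remove `i`: the others lie in `[b i, S]` (disjoint interiors: `(a e, b e)` does not
meet `(t, b i)` and `a e ≥ t`, so `a e ≥ b i`) and cover `[b i, S]` (points `> b i` are covered by others; the union of the others
is closed, so it contains `b i`). -/
theorem row_list {ι : Type} [DecidableEq ι] (A : Finset ι) (a b : ι → ℝ) {S : ℝ} (hS : 0 < S)
    (hab : ∀ e ∈ A, a e < b e) (h0 : ∀ e ∈ A, 0 ≤ a e) (h1 : ∀ e ∈ A, b e ≤ S)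
    (hd : ∀ e ∈ A, ∀ f ∈ A, e ≠ f → ∀ x, a e < x → x < b e → ¬ (a f < x ∧ x < b f))
    (hcov : ∀ x, 0 ≤ x → x ≤ S → ∃ e ∈ A, a e ≤ x ∧ x ≤ b e) :
    ∃ (i : ι) (L : List ι), (i :: L).Nodup ∧ (∀ e, e ∈ i :: L ↔ e ∈ A) ∧ a i = 0 ∧
      Ch a b S i L :=
  RowEx_aux a b A 0 hS hab h0 h1 hd hcov

end NT31
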