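import Pool.Agent.W_fa9b59_h31.Slice
import Pool.Agent.W_fa9b59_h31.RowEx

set_option autoImplicit false

/-!
# The chain of active cells
-/

open MeasureTheory Metric Set

namespace NT31

open FB88

private theorem RowCell_pt0 (x y : ℝ) : (pt x y) 0 = x := by simp [pt]

private theorem RowCell_pt1 (x y : ℝ) : (pt x y) 1 = y := by simp [pt]

/-- PROOF. `row_list` for the active cells (`Finset.univ.filter`, classical), `a e = sa (C e) y`, `b e = sb (C e) y`: `a e < b e` by `sa_lt_sb`,
in `[0, S]` by `Cells.sub`; disjoint interiors by `slice_interior` and `Cells.disj` (`interior_inter`); a point `pt x y`, `0 ≤ x ≤ S`, is in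
some cell, whose `lo` and `hi` are `≤ y` and `≥ y`, and `≠ y` as `y` is no event. -/
theorem row_exists {ι : Type} [Fintype ι] {S : ℝ} {C : ι → Set E} (h : Cells S C) {y : ℝ}
    (hy0 : 0 < y) (hy1 : y < S) (hy : NonEv C y) : ∃ i L, Row C S y i L := by
  classical
  have key := row_list (Finset.univ.filter (fun i => Act C y i)) (fun e => sa (C e) y)
    (fun e => sb (C e) y) (S := S) (by linarith)
    (by
      intro e he
      have ha : Act C y e := (Finset.mem_filter.mp he).2
      exact sa_lt_sb (h.body e) (h.int e) ha.1 ha.2)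
    (by
      intro e he
      have ha : Act C y e := (Finset.mem_filter.mp he).2
      have hlt := sa_lt_sb (h.body e) (h.int e) ha.1 ha.2
      have hm : pt (sa (C e) y) y ∈ C e :=
        (mem_slice (h.body e) ha.1.le ha.2.le _).mpr ⟨le_refl _, hlt.le⟩
      have hr := (h.sub e hm).1
      rwa [RowCell_pt0] at hr)
    (by
      intro e he
      have ha : Act C y e := (Finset.mem_filter.mp he).2
      have hlt := sa_lt_sb (h.body e) (h.int e) ha.1 ha.2
      have hm : pt (sb (C e) y) y ∈ C e :=
        (mem_slice (h.body e) ha.1.le ha.2.le _).mpr ⟨hlt.le, le_refl _⟩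
      have hr := (h.sub e hm).2.1
      rwa [RowCell_pt0] at hr)
    (by
      intro e he f hf hne x hx1 hx2 hx3
      have ha : Act C y e := (Finset.mem_filter.mp he).2
      have hb : Act C y f := (Finset.mem_filter.mp hf).2
      have h1 := slice_interior (h.body e) (h.int e) ha.1 ha.2 hx1 hx2
      have h2 := slice_interior (h.body f) (h.int f) hb.1 hb.2 hx3.1 hx3.2
      have h3 : pt x y ∈ interior (C e ∩ C f) := by
        rw [interior_inter]
        exact ⟨h1, h2⟩
      rw [h.disj e f hne] at h3
      exact h3)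
    (by
      intro x hx0 hx1
      have hR : pt x y ∈ Rs S := by
        refine ⟨?_, ?_, ?_, ?_⟩
        · rw [RowCell_pt0]; exact hx0
        · rw [RowCell_pt0]; exact hx1
        · rw [RowCell_pt1]; exact hy0.le
        · rw [RowCell_pt1]; exact hy1.le
      obtain ⟨i, hi⟩ := Set.mem_iUnion.mp (h.cov hR)
      have h1 := lo_le (h.body i) hi
      have h2 := le_hi (h.body i) hi
      rw [RowCell_pt1] at h1 h2
      have ha : Act C y i :=
        ⟨lt_of_le_of_ne h1 (fun hh => (hy i).1 hh.symm), lt_of_le_of_ne h2 (hy i).2⟩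
      have h3 := (mem_slice (h.body i) h1 h2 x).mp hi
      exact ⟨i, Finset.mem_filter.mpr ⟨Finset.mem_univ _, ha⟩, h3.1, h3.2⟩)
  obtain ⟨i, L, hnd, hmem, hhead, hch⟩ := key
  refine ⟨i, L, ⟨hnd, ?_, hhead, hch⟩⟩
  intro e
  rw [hmem e]
  simp

end NT31
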