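import Pool.Agent.W_fa9b59_h31.Slice

set_option autoImplicit false

/-!
# The chain does not change between two events
-/

open MeasureTheory Metric Set

namespace NT31

open FB88

private theorem RowConst_le {ι : Type} (a b : ι → ℝ) (S : ℝ) :
    ∀ (L : List ι) (i : ι), Ch a b S i L → (∀ e ∈ i :: L, a e < b e) → ∀ f ∈ L, b i ≤ a f := by
  intro L
  induction L with
  | nil => intro i _ _ f hf; simp at hf
  | cons l L ih =>
    intro i hc hl f hf
    obtain ⟨h1, h2⟩ := hc
    rcases List.mem_cons.1 hf with h3 | h3
    · rw [h3, h1]
    · have h4 := ih l h2 (fun e he => hl e (List.mem_cons_of_mem _ he)) f h3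
      have h5 := hl l (by simp)
      linarith

/-- Two chains listing the same elements, such that the order of two different elements is the same for both, are equal.
PROOF. In a chain (`Ch`, positive lengths) every later entry `f` has `a f ≥ b i` (induction). So for `e` before `f` in a chain `b e ≤ a f`.
Induction on the length: the heads are equal: otherwise `i` comes after `j` in the second list and `j` after `i` in the first one:
`b i ≤ a j` and `b' j ≤ a' i`, contradiction to `ho`. Then the tails are chains with the same elements (no duplicates). -/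
theorem chain_unique {ι : Type} (a b a' b' : ι → ℝ) (S : ℝ) :
    ∀ (i : ι) (L : List ι) (j : ι) (M : List ι), (i :: L).Nodup → (j :: M).Nodup →
      (∀ e, e ∈ i :: L ↔ e ∈ j :: M) → Ch a b S i L → Ch a' b' S j M →
      (∀ e ∈ i :: L, a e < b e) → (∀ e ∈ i :: L, a' e < b' e) →
      (∀ e ∈ i :: L, ∀ f ∈ i :: L, e ≠ f → b e ≤ a f → ¬ b' f ≤ a' e) → i = j ∧ L = M := by
  intro i L
  induction L generalizing i with
  | nil =>
    intro j M hn1 hn2 hm hc1 hc2 hl1 hl2 ho
    have hj : j ∈ i :: ([] : List ι) := (hm j).2 (List.mem_cons_self ..)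
    have hji : j = i := by simpa using hj
    subst hji
    refine ⟨rfl, ?_⟩
    cases M with
    | nil => rfl
    | cons m M =>
      exfalso
      have h1 : m ∈ j :: ([] : List ι) := (hm m).2 (by simp)
      have h2 : m = j := by simpa using h1
      subst h2
      simp at hn2
  | cons l L ih =>
    intro j M hn1 hn2 hm hc1 hc2 hl1 hl2 ho
    have hij : i = j := by
      by_contra hne
      have h1 : i ∈ M := by
        have := (hm i).1 (List.mem_cons_self ..)
        rcases List.mem_cons.1 this with h | h
        · exact absurd h hne
        · exact h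
      have h2 : j ∈ l :: L := by
        have := (hm j).2 (List.mem_cons_self ..)
        rcases List.mem_cons.1 this with h | h
        · exact absurd h.symm hne
        · exact h
      have h3 := RowConst_le a b S (l :: L) i hc1 hl1 j h2
      have h4 := RowConst_le a' b' S M j hc2
        (fun e he => hl2 e ((hm e).2 he)) i h1
      exact ho i (List.mem_cons_self ..) j (List.mem_cons_of_mem _ h2) hne h3 h4
    subst hij
    refine ⟨rfl, ?_⟩
    have hn1' := List.nodup_cons.1 hn1
    have hn2' := List.nodup_cons.1 hn2
    have hm' : ∀ e, e ∈ l :: L ↔ e ∈ M := by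
      intro e
      constructor
      · intro he
        rcases List.mem_cons.1 ((hm e).1 (List.mem_cons_of_mem _ he)) with h | h
        · subst h; exact absurd he hn1'.1
        · exact h
      · intro he
        rcases List.mem_cons.1 ((hm e).2 (List.mem_cons_of_mem _ he)) with h | h
        · subst h; exact absurd he hn2'.1
        · exact h
    cases M with
    | nil =>
      exfalso
      have := (hm' l).1 (List.mem_cons_self ..)
      simp at this
    | cons m M =>
      obtain ⟨h1, h2⟩ := ih l m M hn1'.2 hn2'.2 hm' hc1.2 hc2.2
        (fun e he => hl1 e (List.mem_cons_of_mem _ he))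
        (fun e he => hl2 e (List.mem_cons_of_mem _ he))
        (fun e he f hf => ho e (List.mem_cons_of_mem _ he) f (List.mem_cons_of_mem _ hf))
      rw [h1, h2]

/-- If no event lies between the heights `y ≤ y'` then the chains are equal. PROOF. `chain_unique`. The active cells are the same. For two
different active cells `e, f` the order is the same at both heights: if `sb (C e) y ≤ sa (C f) y` and `sb (C f) y' ≤ sa (C e) y'`, let
`m, m'` be the midpoints of the slices of `e` at `y, y'` and `M, M'` those of `f`: `m < M`, `M' < m'`, and for some `t ∈ [0, 1]`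
`(1-t) m + t m' = (1-t) M + t M'`: this point (at height `(1-t) y + t y'`) is an interior point of both cells (`slice_interior`, convexity of the
interior, `Convex.interior`), contradiction to `Cells.disj` (`interior_inter`). -/
theorem row_const {ι : Type} [Fintype ι] {S : ℝ} {C : ι → Set E} (h : Cells S C) {y y' : ℝ}
    (hyy : y ≤ y') (hne : ∀ i, ¬ (y ≤ lo (C i) ∧ lo (C i) ≤ y') ∧ ¬ (y ≤ hi (C i) ∧ hi (C i) ≤ y'))
    {i j : ι} {L M : List ι} (h1 : Row C S y i L) (h2 : Row C S y' j M) : i = j ∧ L = M := by
  have hact : ∀ e, Act C y e ↔ Act C y' e := by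
    intro e
    obtain ⟨n1, n2⟩ := hne e
    constructor
    · rintro ⟨a1, a2⟩
      refine ⟨a1.trans_le hyy, ?_⟩
      by_contra hc
      exact n2 ⟨a2.le, not_lt.1 hc⟩
    · rintro ⟨a1, a2⟩
      refine ⟨?_, hyy.trans_lt a2⟩
      by_contra hc
      exact n1 ⟨not_lt.1 hc, a1.le⟩
  refine chain_unique (fun e => sa (C e) y) (fun e => sb (C e) y) (fun e => sa (C e) y')
    (fun e => sb (C e) y') S i L j M h1.nd h2.nd ?_ h1.ch h2.ch ?_ ?_ ?_
  · intro e
    rw [h1.act, h2.act, hact]
  · intro e he
    have ha := (h1.act e).1 he
    exact sa_lt_sb (h.body e) (h.int e) ha.1 ha.2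
  · intro e he
    have ha := (hact e).1 ((h1.act e).1 he)
    exact sa_lt_sb (h.body e) (h.int e) ha.1 ha.2
  · intro e he f hf hef hb hb'
    have ae := (h1.act e).1 he
    have af := (h1.act f).1 hf
    have ae' := (hact e).1 ae
    have af' := (hact f).1 af

    have le1 := sa_lt_sb (h.body e) (h.int e) ae.1 ae.2
    have lf1 := sa_lt_sb (h.body f) (h.int f) af.1 af.2
    have le2 := sa_lt_sb (h.body e) (h.int e) ae'.1 ae'.2
    have lf2 := sa_lt_sb (h.body f) (h.int f) af'.1 af'.2
    set m := (sa (C e) y + sb (C e) y) / 2 with hm
    set m' := (sa (C e) y' + sb (C e) y') / 2 with hm'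
    set N := (sa (C f) y + sb (C f) y) / 2 with hN
    set N' := (sa (C f) y' + sb (C f) y') / 2 with hN'
    have i1 : pt m y ∈ interior (C e) :=
      slice_interior (h.body e) (h.int e) ae.1 ae.2 (by rw [hm]; linarith) (by rw [hm]; linarith)
    have i2 : pt m' y' ∈ interior (C e) :=
      slice_interior (h.body e) (h.int e) ae'.1 ae'.2 (by rw [hm']; linarith)
        (by rw [hm']; linarith)
    have i3 : pt N y ∈ interior (C f) :=
      slice_interior (h.body f) (h.int f) af.1 af.2 (by rw [hN]; linarith) (by rw [hN]; linarith)
    have i4 : pt N' y' ∈ interior (C f) :=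
      slice_interior (h.body f) (h.int f) af'.1 af'.2 (by rw [hN']; linarith)
        (by rw [hN']; linarith)
    have hA : 0 < N - m := by rw [hN, hm]; linarith
    have hB : 0 < m' - N' := by rw [hN', hm']; linarith
    have hAB : 0 < (N - m) + (m' - N') := by linarith
    set t := (N - m) / ((N - m) + (m' - N')) with ht
    set s := (m' - N') / ((N - m) + (m' - N')) with hs
    have ht0 : 0 ≤ t := by rw [ht]; positivity
    have hs0 : 0 ≤ s := by rw [hs]; positivity
    have hst : s + t = 1 := by
      rw [ht, hs, ← add_div, add_comm (m' - N'), div_self hAB.ne']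
    have hc1 := (h.body e).1.interior i1 i2 hs0 ht0 hst
    have hc2 := (h.body f).1.interior i3 i4 hs0 ht0 hst
    rw [← slc_combo] at hc1 hc2
    have hx : s * N + t * N' = s * m + t * m' := by
      have h5 : s * (N - m) = t * (m' - N') := by
        rw [ht, hs]; field_simp
      linarith
    rw [hx] at hc2
    have h6 : pt (s * m + t * m') (s * y + t * y') ∈ interior (C e ∩ C f) := by
      rw [interior_inter]
      exact ⟨hc1, hc2⟩
    rw [h.disj e f hef] at h6
    exact h6

end NT31
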