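import Pool.Agent.W_fa9b59_h31.CellA

set_option autoImplicit false

/-!
# The certificate on a slightly larger triangle
-/

namespace NT31

private lemma Scale_ce (j : Fin 3) :
    |(ce j).1| ≤ 2 / 3 ∧ |(ce j).2| ≤ 2 / 3 ∧ |th (ce j)| ≤ 2 / 3 := by
  fin_cases j
  · refine ⟨?_, ?_, ?_⟩ <;> simp [ce, th] <;> rw [abs_le] <;> constructor <;> norm_num
  · refine ⟨?_, ?_, ?_⟩ <;> simp [ce, th] <;> rw [abs_le] <;> constructor <;> norm_num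
  · refine ⟨?_, ?_, ?_⟩ <;> simp [ce, th] <;> rw [abs_le] <;> constructor <;> norm_num

private lemma Scale_coord {ε u c : ℝ} (h0 : 0 ≤ ε) (h1 : ε ≤ 1 / 10 ^ 6) (hc : |c| ≤ 2 / 3)
    (h : |(1 + 3 * ε)⁻¹ * u - c| ≤ 1 / 40) : |u - c| ≤ 1 / 36 := by
  have ht : (0 : ℝ) < 1 + 3 * ε := by linarith
  have h2 : u - c = (1 + 3 * ε) * ((1 + 3 * ε)⁻¹ * u - c) + 3 * ε * c := by
    field_simp
    ring
  rw [h2]
  calc |(1 + 3 * ε) * ((1 + 3 * ε)⁻¹ * u - c) + 3 * ε * c|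
      ≤ |(1 + 3 * ε) * ((1 + 3 * ε)⁻¹ * u - c)| + |3 * ε * c| := abs_add_le _ _
    _ = (1 + 3 * ε) * |(1 + 3 * ε)⁻¹ * u - c| + 3 * ε * |c| := by
        rw [abs_mul, abs_mul, abs_of_pos ht, abs_of_nonneg (by linarith : 0 ≤ 3 * ε)]
    _ ≤ (1 + 3 * ε) * (1 / 40) + 3 * ε * (2 / 3) := by
        apply add_le_add
        · exact mul_le_mul_of_nonneg_left h ht.le
        · exact mul_le_mul_of_nonneg_left hc (by linarith)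
    _ ≤ 1 / 36 := by linarith

private lemma Scale_Eb {ε : ℝ} (h0 : 0 ≤ ε) (h1 : ε ≤ 1 / 10 ^ 6) {j : Fin 3} {e : ℝ × ℝ}
    (h : Eb (1 / 40) j ((1 + 3 * ε)⁻¹ • e)) : Eb (1 / 36) j e := by
  obtain ⟨c1, c2, c3⟩ := Scale_ce j
  obtain ⟨e1, e2, e3⟩ := h
  refine ⟨Scale_coord h0 h1 c1 e1, Scale_coord h0 h1 c2 e2, Scale_coord h0 h1 c3 ?_⟩
  have : th ((1 + 3 * ε)⁻¹ • e) = (1 + 3 * ε)⁻¹ * th e := by
    simp only [th, Prod.smul_fst, Prod.smul_snd, smul_eq_mul]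
    ring
  rwa [this] at e3

private lemma Scale_sub (t : ℝ) (a x y : ℝ × ℝ) : t • (y + a) - t • (x + a) = t • (y - x) := by
  rw [← smul_sub]
  congr 1
  abel

private lemma Scale_Near {ε : ℝ} (h0 : 0 ≤ ε) (h1 : ε ≤ 1 / 10 ^ 6) (a : ℝ × ℝ) {x y z : ℝ × ℝ}
    (h : Near (1 / 40) ((1 + 3 * ε)⁻¹ • (x + a)) ((1 + 3 * ε)⁻¹ • (y + a))
      ((1 + 3 * ε)⁻¹ • (z + a))) : Near (1 / 36) x y z := by
  obtain ⟨e1, e2, e3⟩ := h
  rw [Scale_sub] at e1 e2 e3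
  exact ⟨Scale_Eb h0 h1 e1, Scale_Eb h0 h1 e2, Scale_Eb h0 h1 e3⟩

private lemma Scale_neg (t : ℝ) (a x : ℝ × ℝ) : -(t • (x + a)) = t • (-x + -a) := by
  rw [← smul_neg]
  congr 1
  abel

private lemma Scale_Tr {ε : ℝ} (h0 : 0 ≤ ε) {x : ℝ × ℝ} (hx : Tr ε x) :
    Tr 0 ((1 + 3 * ε)⁻¹ • (x + (ε, ε))) := by
  obtain ⟨a, b, c⟩ := hx
  have ht : (0 : ℝ) < 1 + 3 * ε := by linarith
  have hti : (0 : ℝ) < (1 + 3 * ε)⁻¹ := inv_pos.2 ht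
  refine ⟨?_, ?_, ?_⟩
  · simp only [Prod.smul_fst, smul_eq_mul, Prod.fst_add, neg_zero]
    exact mul_nonneg hti.le (by linarith)
  · simp only [Prod.smul_snd, smul_eq_mul, Prod.snd_add, neg_zero]
    exact mul_nonneg hti.le (by linarith)
  · simp only [Prod.smul_fst, Prod.smul_snd, smul_eq_mul, Prod.fst_add, Prod.snd_add, add_zero]
    rw [← mul_add]
    rw [inv_mul_le_iff₀ ht]
    linarith

private lemma Scale_edge {ε : ℝ} (h0 : 0 ≤ ε) {x y : ℝ × ℝ} (hx : Tr ε x) (hy : Tr ε y) :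
    |(1 + 3 * ε) ^ 2 * f0 ((1 + 3 * ε)⁻¹ • (y + (ε, ε)) - (1 + 3 * ε)⁻¹ • (x + (ε, ε))) -
      f0 (y - x)| ≤ 2 / 3 * ε * (1 + 3 * ε) := by
  rw [Scale_sub]
  obtain ⟨a, b, c⟩ := hx
  obtain ⟨a', b', c'⟩ := hy
  refine f0_scale h0 ?_ ?_ ?_
  · rw [abs_le, Prod.fst_sub]
    constructor <;> linarith
  · rw [abs_le, Prod.snd_sub]
    constructor <;> linarith
  · rw [abs_le, th, Prod.fst_sub, Prod.snd_sub]
    constructor <;> linarith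

private lemma Scale_dd {ε : ℝ} (h0 : 0 ≤ ε) (x y z : ℝ × ℝ) :
    (1 + 3 * ε) ^ 2 * dd ((1 + 3 * ε)⁻¹ • (x + (ε, ε))) ((1 + 3 * ε)⁻¹ • (y + (ε, ε)))
      ((1 + 3 * ε)⁻¹ • (z + (ε, ε))) = dd x y z := by
  have ht : (1 + 3 * ε) ≠ 0 := by positivity
  simp only [dd, Prod.smul_fst, Prod.smul_snd, smul_eq_mul, Prod.fst_add, Prod.snd_add]
  field_simp
  ring

/-- PROOF. Let `t = 1 + 3 ε`, `x' = t⁻¹ • (x + (ε, ε))` and the same for `y`, `z`: `Tr 0 x'`. The edges are divided by `t`, and `f0_scale`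
(all three coordinates of an edge are at most `t` in modulus) gives `|t² HH x' y' z' - HH x y z - (t² - 1)/3| ≤ 2 ε t`
(`t² dd x' y' z' = dd x y z`). So `HH x y z ≥ t² HH x' y' z' - 5 ε`. If `HH x y z < 1/50000` then `HH x' y' z' < 1/40000`, so
`NearA (1/40) x' y' z'` by `cell_all`, and the edges of `x, y, z` are `t` times those of `x', y', z'`:
`|e - ce| ≤ t / 40 + 3 ε * (2/3) ≤ 1/36`. -/
theorem cell_eps {ε : ℝ} (h0 : 0 ≤ ε) (h1 : ε ≤ 1 / 10 ^ 6) {x y z : ℝ × ℝ} (hx : Tr ε x)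
    (hy : Tr ε y) (hz : Tr ε z) :
    -(5 * ε) ≤ HH x y z ∧ (HH x y z < 1 / 50000 → NearA (1 / 36) x y z) := by
  obtain ⟨hc, hn⟩ := cell_all (Scale_Tr h0 hx) (Scale_Tr h0 hy) (Scale_Tr h0 hz)
  have exy := abs_le.1 (Scale_edge h0 hx hy)
  have eyz := abs_le.1 (Scale_edge h0 hy hz)
  have ezx := abs_le.1 (Scale_edge h0 hz hx)
  have edd := Scale_dd h0 x y z
  have hkey : ∀ H A B C D : ℝ, H = 1 / 3 + A + B + C - D →
      (1 + 3 * ε) ^ 2 * H = (1 + 3 * ε) ^ 2 / 3 + (1 + 3 * ε) ^ 2 * A + (1 + 3 * ε) ^ 2 * B +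
        (1 + 3 * ε) ^ 2 * C - (1 + 3 * ε) ^ 2 * D := by
    intro H A B C D h
    rw [h]
    ring
  have hH := hkey _ _ _ _ _ (show HH ((1 + 3 * ε)⁻¹ • (x + (ε, ε)))
    ((1 + 3 * ε)⁻¹ • (y + (ε, ε))) ((1 + 3 * ε)⁻¹ • (z + (ε, ε))) = _ from rfl)
  have hHH : HH x y z = 1 / 3 + f0 (y - x) + f0 (z - y) + f0 (x - z) - dd x y z := rfl
  have hsq : ε * ε ≤ ε * (1 / 10 ^ 6) := mul_le_mul_of_nonneg_left h1 h0
  have ht1 : 1 ≤ (1 + 3 * ε) ^ 2 := by nlinarith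
  constructor
  · have h2 : 0 ≤ (1 + 3 * ε) ^ 2 * HH ((1 + 3 * ε)⁻¹ • (x + (ε, ε)))
      ((1 + 3 * ε)⁻¹ • (y + (ε, ε))) ((1 + 3 * ε)⁻¹ • (z + (ε, ε))) :=
      mul_nonneg (by positivity) hc
    nlinarith [exy.1, exy.2, eyz.1, eyz.2, ezx.1, ezx.2]
  · intro hlt
    have h2 : HH ((1 + 3 * ε)⁻¹ • (x + (ε, ε))) ((1 + 3 * ε)⁻¹ • (y + (ε, ε)))
        ((1 + 3 * ε)⁻¹ • (z + (ε, ε))) ≤
        (1 + 3 * ε) ^ 2 * HH ((1 + 3 * ε)⁻¹ • (x + (ε, ε))) ((1 + 3 * ε)⁻¹ • (y + (ε, ε)))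
          ((1 + 3 * ε)⁻¹ • (z + (ε, ε))) := le_mul_of_one_le_left hc ht1
    have h3 := hn (by
      nlinarith [exy.1, exy.2, eyz.1, eyz.2, ezx.1, ezx.2])
    rcases h3 with (h | h | h) | (h | h | h)
    · exact Or.inl (Or.inl (Scale_Near h0 h1 _ h))
    · exact Or.inl (Or.inr (Or.inl (Scale_Near h0 h1 _ h)))
    · exact Or.inl (Or.inr (Or.inr (Scale_Near h0 h1 _ h)))
    · rw [Scale_neg, Scale_neg, Scale_neg] at h
      exact Or.inr (Or.inl (Scale_Near h0 h1 _ h))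
    · rw [Scale_neg, Scale_neg, Scale_neg] at h
      exact Or.inr (Or.inr (Or.inl (Scale_Near h0 h1 _ h)))
    · rw [Scale_neg, Scale_neg, Scale_neg] at h
      exact Or.inr (Or.inr (Or.inr (Scale_Near h0 h1 _ h)))

end NT31
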