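import Pool.Agent.W_fa9b59_h31.Defs

set_option autoImplicit false

/-!
# Slices of a convex body
-/

open MeasureTheory Metric Set

namespace NT31

open FB88

lemma slc_pt_zero (x y : ℝ) : pt x y 0 = x := by simp [pt]

lemma slc_pt_one (x y : ℝ) : pt x y 1 = y := by simp [pt]

lemma slc_eta (p : E) : pt (p 0) (p 1) = p := by
  ext i; fin_cases i <;> simp [pt]

lemma slc_combo (a b x1 x2 y1 y2 : ℝ) :
    pt (a * x1 + b * x2) (a * y1 + b * y2) = a • pt x1 y1 + b • pt x2 y2 := by
  ext i; fin_cases i <;> simp [pt]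

lemma slc_cont_coord (i : Fin 2) : Continuous (fun x : E => x i) := by fun_prop

lemma slc_cont_pt : Continuous (fun p : ℝ × ℝ => pt p.1 p.2) := by
  have h : (fun p : ℝ × ℝ => pt p.1 p.2) =
      (fun p : ℝ × ℝ => (WithLp.toLp 2 (fun i : Fin 2 => if i = 0 then p.1 else p.2) : E)) := by
    funext p
    ext i; fin_cases i <;> simp [pt]
  rw [h]
  refine (PiLp.continuous_toLp 2 _).comp (continuous_pi fun i => ?_)
  fin_cases i
  · simpa using continuous_fst
  · simpa using continuous_snd

lemma slc_cont_pt' (y : ℝ) : Continuous (fun x : ℝ => pt x y) :=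
  slc_cont_pt.comp (continuous_id.prodMk continuous_const)

/-- a small square around an interior point -/
lemma slc_square {C : Set E} {x y : ℝ} (hx : pt x y ∈ interior C) :
    ∃ ε > 0, ∀ x' y', |x' - x| < ε → |y' - y| < ε → pt x' y' ∈ C := by
  have h1 : IsOpen ((fun p : ℝ × ℝ => pt p.1 p.2) ⁻¹' interior C) :=
    isOpen_interior.preimage slc_cont_pt
  obtain ⟨ε, hε, hb⟩ := Metric.isOpen_iff.1 h1 (x, y) hx
  refine ⟨ε, hε, fun x' y' hx' hy' => ?_⟩
  have h2 : ((x', y') : ℝ × ℝ) ∈ ball ((x, y) : ℝ × ℝ) ε := by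
    rw [Metric.mem_ball, Prod.dist_eq]
    exact max_lt (by simpa [Real.dist_eq] using hx') (by simpa [Real.dist_eq] using hy')
  have h3 := hb h2
  exact interior_subset (show pt x' y' ∈ interior C from h3)

lemma slc_image_compact {C : Set E} (h : Body C) (i : Fin 2) :
    IsCompact ((fun x : E => x i) '' C) := h.2.1.image (slc_cont_coord i)

theorem lo_le {C : Set E} (h : Body C) {x : E} (hx : x ∈ C) : lo C ≤ x 1 :=
  csInf_le (slc_image_compact h 1).bddBelow ⟨x, hx, rfl⟩

theorem le_hi {C : Set E} (h : Body C) {x : E} (hx : x ∈ C) : x 1 ≤ hi C :=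
  le_csSup (slc_image_compact h 1).bddAbove ⟨x, hx, rfl⟩

lemma slc_lo_mem {C : Set E} (h : Body C) : ∃ p ∈ C, p 1 = lo C :=
  (slc_image_compact h 1).sInf_mem (h.2.2.image _)

lemma slc_hi_mem {C : Set E} (h : Body C) : ∃ p ∈ C, p 1 = hi C :=
  (slc_image_compact h 1).sSup_mem (h.2.2.image _)

/-- PROOF. A ball in `C` has points of different heights. -/
theorem lo_lt_hi {C : Set E} (h : Body C) (hi' : (interior C).Nonempty) : lo C < hi C := by
  obtain ⟨q, hq⟩ := hi'
  rw [← slc_eta q] at hq
  obtain ⟨ε, hε, hs⟩ := slc_square hq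
  have h1 := hs (q 0) (q 1) (by simpa using hε) (by simpa using hε)
  have h2 := hs (q 0) (q 1 + ε / 2) (by simpa using hε)
    (by rw [add_sub_cancel_left, abs_of_pos (by positivity)]; linarith)
  have h3 := lo_le h h1
  have h4 := le_hi h h2
  rw [slc_pt_one] at h3 h4
  linarith

lemma slc_slice_compact {C : Set E} (h : Body C) (y : ℝ) : IsCompact {x | pt x y ∈ C} := by
  refine IsCompact.of_isClosed_subset (slc_image_compact h 0)
    (h.2.1.isClosed.preimage (slc_cont_pt' y)) ?_
  intro x hx
  exact ⟨pt x y, hx, slc_pt_zero x y⟩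

lemma slc_slice_convex {C : Set E} (h : Body C) (y : ℝ) : Convex ℝ {x | pt x y ∈ C} := by
  intro x1 h1 x2 h2 a b ha hb hab
  have h3 := h.1 h1 h2 ha hb hab
  rw [← slc_combo] at h3
  have h4 : a * y + b * y = y := by rw [← add_mul, hab, one_mul]
  rw [h4] at h3
  simpa [smul_eq_mul] using h3

lemma slc_slice_nonempty {C : Set E} (h : Body C) {y : ℝ} (h1 : lo C ≤ y) (h2 : y ≤ hi C) :
    {x | pt x y ∈ C}.Nonempty := by
  have hc : Convex ℝ ((fun x : E => x 1) '' C) := by
    refine h.1.is_linear_image (f := fun x : E => x 1) ⟨fun x z => ?_, fun c x => ?_⟩ <;> simp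
  obtain ⟨p, hp, hp1⟩ := slc_lo_mem h
  obtain ⟨q, hq, hq1⟩ := slc_hi_mem h
  obtain ⟨z, hz, hz1⟩ := hc.ordConnected.out ⟨p, hp, hp1⟩ ⟨q, hq, hq1⟩ ⟨h1, h2⟩
  refine ⟨z 0, ?_⟩
  have hz1' : z 1 = y := hz1
  show pt (z 0) y ∈ C
  rw [← hz1', slc_eta]; exact hz

/-- PROOF. `lo C` and `hi C` are attained; a convex combination of the two points has height `y`; the set of the `x` with
`pt x y ∈ C` is a nonempty compact interval. -/
theorem mem_slice {C : Set E} (h : Body C) {y : ℝ} (h1 : lo C ≤ y) (h2 : y ≤ hi C) (x : ℝ) :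
    pt x y ∈ C ↔ sa C y ≤ x ∧ x ≤ sb C y := by
  have hk := slc_slice_compact h y
  have hn := slc_slice_nonempty h h1 h2
  constructor
  · intro hx
    exact ⟨csInf_le hk.bddBelow hx, le_csSup hk.bddAbove hx⟩
  · intro hx
    exact (slc_slice_convex h y).ordConnected.out (hk.sInf_mem hn) (hk.sSup_mem hn) hx

theorem sa_le_sb {C : Set E} (h : Body C) {y : ℝ} (h1 : lo C ≤ y) (h2 : y ≤ hi C) :
    sa C y ≤ sb C y := by
  obtain ⟨x, hx⟩ := slc_slice_nonempty h h1 h2
  have := (mem_slice h h1 h2 x).1 hx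
  exact this.1.trans this.2

/-- interior points of every height strictly between `lo C` and `hi C` -/
lemma slc_exists_int {C : Set E} (h : Body C) (hi' : (interior C).Nonempty) {y : ℝ}
    (h1 : lo C < y) (h2 : y < hi C) : ∃ x, pt x y ∈ interior C := by
  obtain ⟨q, hq⟩ := hi'
  rcases le_total (q 1) y with hqy | hqy
  · obtain ⟨p, hp, hp1⟩ := slc_hi_mem h
    have hpos : 0 < hi C - q 1 := by linarith
    have ha : 0 < (hi C - y) / (hi C - q 1) := div_pos (by linarith) hpos
    have hb : 0 ≤ (y - q 1) / (hi C - q 1) := div_nonneg (by linarith) hpos.le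
    have hab : (hi C - y) / (hi C - q 1) + (y - q 1) / (hi C - q 1) = 1 := by
      rw [← add_div, div_eq_one_iff_eq hpos.ne']; ring
    have h3 := h.1.combo_interior_self_mem_interior hq hp ha hb hab
    rw [← slc_eta q, ← slc_eta p, ← slc_combo, hp1] at h3
    simp only [slc_pt_zero, slc_pt_one] at h3
    have h4 : (hi C - y) / (hi C - q 1) * q 1 + (y - q 1) / (hi C - q 1) * hi C = y := by
      field_simp; ring
    rw [h4] at h3
    exact ⟨_, h3⟩
  · obtain ⟨p, hp, hp1⟩ := slc_lo_mem h
    have hpos : 0 < q 1 - lo C := by linarith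
    have ha : 0 < (y - lo C) / (q 1 - lo C) := div_pos (by linarith) hpos
    have hb : 0 ≤ (q 1 - y) / (q 1 - lo C) := div_nonneg (by linarith) hpos.le
    have hab : (y - lo C) / (q 1 - lo C) + (q 1 - y) / (q 1 - lo C) = 1 := by
      rw [← add_div, div_eq_one_iff_eq hpos.ne']; ring
    have h3 := h.1.combo_interior_self_mem_interior hq hp ha hb hab
    rw [← slc_eta q, ← slc_eta p, ← slc_combo, hp1] at h3
    simp only [slc_pt_zero, slc_pt_one] at h3
    have h4 : (y - lo C) / (q 1 - lo C) * q 1 + (q 1 - y) / (q 1 - lo C) * lo C = y := by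
      field_simp; ring
    rw [h4] at h3
    exact ⟨_, h3⟩

/-- PROOF. A ball around the point is in `C`. -/
theorem interior_slice {C : Set E} (h : Body C) {x y : ℝ} (hx : pt x y ∈ interior C) :
    lo C < y ∧ y < hi C ∧ sa C y < x ∧ x < sb C y := by
  obtain ⟨ε, hε, hs⟩ := slc_square hx
  have e1 : |ε / 2| < ε := by rw [abs_of_pos (by positivity)]; linarith
  have e2 : |-(ε / 2)| < ε := by rw [abs_neg]; exact e1
  have e0 : |(0 : ℝ)| < ε := by simpa using hε
  have a1 := hs x (y - ε / 2) (by simpa using e0) (by rw [sub_sub_cancel_left]; exact e2)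
  have a2 := hs x (y + ε / 2) (by simpa using e0) (by rw [add_sub_cancel_left]; exact e1)
  have a3 := hs (x - ε / 2) y (by rw [sub_sub_cancel_left]; exact e2) (by simpa using e0)
  have a4 := hs (x + ε / 2) y (by rw [add_sub_cancel_left]; exact e1) (by simpa using e0)
  have b1 := lo_le h a1
  have b2 := le_hi h a2
  rw [slc_pt_one] at b1 b2
  have c1 : lo C ≤ y := by linarith
  have c2 : y ≤ hi C := by linarith
  have b3 := ((mem_slice h c1 c2 _).1 a3).1
  have b4 := ((mem_slice h c1 c2 _).1 a4).2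
  exact ⟨by linarith, by linarith, by linarith, by linarith⟩

/-- PROOF. Let `q` be an interior point, `q 1 ≤ y` say (the other case is symmetric), `p` a point of height `hi C`; the point
`q + t (p - q)` of height `y`, `0 ≤ t < 1`, is an interior point of `C`. -/
theorem sa_lt_sb {C : Set E} (h : Body C) (hi' : (interior C).Nonempty) {y : ℝ}
    (h1 : lo C < y) (h2 : y < hi C) : sa C y < sb C y := by
  obtain ⟨x, hx⟩ := slc_exists_int h hi' h1 h2
  obtain ⟨_, _, h3, h4⟩ := interior_slice h hx
  exact h3.trans h4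

/-- PROOF. There is an interior point `q = pt x' y` of the same height (see `sa_lt_sb`), and `pt x y` is on an open segment from
`q` to `pt (sa C y) y` or to `pt (sb C y) y` (or equal to `q`): `Convex.openSegment_interior_self_subset_interior` or similar. -/
theorem slice_interior {C : Set E} (h : Body C) (hi' : (interior C).Nonempty) {x y : ℝ}
    (h1 : lo C < y) (h2 : y < hi C) (h3 : sa C y < x) (h4 : x < sb C y) :
    pt x y ∈ interior C := by
  obtain ⟨x', hx'⟩ := slc_exists_int h hi' h1 h2
  obtain ⟨_, _, h5, h6⟩ := interior_slice h hx'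
  have hsa : pt (sa C y) y ∈ C := (mem_slice h h1.le h2.le _).2 ⟨le_rfl, (h3.trans h4).le⟩
  have hsb : pt (sb C y) y ∈ C := (mem_slice h h1.le h2.le _).2 ⟨(h3.trans h4).le, le_rfl⟩
  rcases le_total x' x with hxx | hxx
  · have hpos : 0 < sb C y - x' := by linarith
    have ha : 0 < (sb C y - x) / (sb C y - x') := div_pos (by linarith) hpos
    have hb : 0 ≤ (x - x') / (sb C y - x') := div_nonneg (by linarith) hpos.le
    have hab : (sb C y - x) / (sb C y - x') + (x - x') / (sb C y - x') = 1 := by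
      rw [← add_div, div_eq_one_iff_eq hpos.ne']; ring
    have h7 := h.1.combo_interior_self_mem_interior hx' hsb ha hb hab
    rw [← slc_combo] at h7
    have h8 : (sb C y - x) / (sb C y - x') * y + (x - x') / (sb C y - x') * y = y := by
      rw [← add_mul, hab, one_mul]
    have h9 : (sb C y - x) / (sb C y - x') * x' + (x - x') / (sb C y - x') * sb C y = x := by
      field_simp; ring
    rwa [h8, h9] at h7
  · have hpos : 0 < x' - sa C y := by linarith
    have ha : 0 < (x - sa C y) / (x' - sa C y) := div_pos (by linarith) hpos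
    have hb : 0 ≤ (x' - x) / (x' - sa C y) := div_nonneg (by linarith) hpos.le
    have hab : (x - sa C y) / (x' - sa C y) + (x' - x) / (x' - sa C y) = 1 := by
      rw [← add_div, div_eq_one_iff_eq hpos.ne']; ring
    have h7 := h.1.combo_interior_self_mem_interior hx' hsa ha hb hab
    rw [← slc_combo] at h7
    have h8 : (x - sa C y) / (x' - sa C y) * y + (x' - x) / (x' - sa C y) * y = y := by
      rw [← add_mul, hab, one_mul]
    have h9 : (x - sa C y) / (x' - sa C y) * x' + (x' - x) / (x' - sa C y) * sa C y = x := by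
      field_simp; ring
    rwa [h8, h9] at h7

end NT31
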