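import Pool.Agent.W_fa9b59_h31.StepB
import Pool.Agent.W_fa9b59_h31.Merge

set_option autoImplicit false

/-!
# The sweep across two close heights
-/

open MeasureTheory Metric Set

namespace NT31

open FB88

/-- The chain at height `y` without duplicates: the number of the members not in the second chain. PROOF. Members of `i :: L` not in `j :: M` are active
at `y`, not at `y'`: `lo < y < y'`, so `hi ≤ y'`. (`List.Nodup.filter`, `List.toFinset_card_of_nodup`, `Finset.card_le_card`.) -/
theorem count_down {ι : Type} [Fintype ι] [DecidableEq ι] {S : ℝ} {C : ι → Set E} {y y' : ℝ}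
    (hyy : y < y') {i j : ι} {L M : List ι} (h1 : Row C S y i L) (h2 : Row C S y' j M) :
    ((i :: L).filter (fun e => e ∉ j :: M)).length ≤ c1 (fun i => hi (C i)) y y' := by
  classical
  unfold c1
  have hnd : ((i :: L).filter (fun e => e ∉ j :: M)).Nodup := h1.nd.filter _
  rw [← List.toFinset_card_of_nodup hnd]
  refine Finset.card_le_card ?_
  intro e he
  have he' : e ∈ (i :: L) ∧ e ∉ (j :: M) := by
    have := List.mem_toFinset.1 he
    rw [List.mem_filter] at this
    exact ⟨this.1, of_decide_eq_true this.2⟩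
  have ha := (h1.act e).1 he'.1
  have hb : ¬ Act C y' e := fun hh => he'.2 ((h2.act e).2 hh)
  rw [Finset.mem_filter]
  refine ⟨Finset.mem_univ _, ha.2, ?_⟩
  by_contra hlt
  exact hb ⟨lt_trans ha.1 hyy, not_le.1 hlt⟩

/-- PROOF. Members of `j :: M` not in `i :: L` are active at `y'`, not at `y`: `y < y' < hi`, so `y ≤ lo`, `y ≠ lo` by `hn`, `lo < y'`. -/
theorem count_up {ι : Type} [Fintype ι] [DecidableEq ι] {S : ℝ} {C : ι → Set E} {y y' : ℝ}
    (hyy : y < y') (hn : NonEv C y) {i j : ι} {L M : List ι} (h1 : Row C S y i L)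
    (h2 : Row C S y' j M) :
    ((j :: M).filter (fun e => e ∉ i :: L)).length ≤ c1 (fun i => lo (C i)) y y' := by
  classical
  unfold c1
  have hnd : ((j :: M).filter (fun e => e ∉ i :: L)).Nodup := h2.nd.filter _
  rw [← List.toFinset_card_of_nodup hnd]
  refine Finset.card_le_card ?_
  intro e he
  have he' : e ∈ (j :: M) ∧ e ∉ (i :: L) := by
    have := List.mem_toFinset.1 he
    rw [List.mem_filter] at this
    exact ⟨this.1, of_decide_eq_true this.2⟩
  have ha := (h2.act e).1 he'.1
  have hb : ¬ Act C y e := fun hh => he'.2 ((h1.act e).2 hh)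
  rw [Finset.mem_filter]
  refine ⟨Finset.mem_univ _, ?_, ha.1.le⟩
  by_contra hlt
  have hle : lo (C e) ≤ y := not_lt.1 hlt
  exact hb ⟨lt_of_le_of_ne hle (fun hh => (hn e).1 hh.symm), lt_trans hyy ha.2⟩

/-- One step of the sweep. PROOF. `merge` with `g e f = gg φ (v e) (v f)`, `am e = sa (C e) y`, `bm e = sb (C e) y`, `ap`, `bp` the same at `y'`, `x = 0`.
`h1`: the point `pt (bm e) y` is in `C e` and `C e'`, and `pt (bm e) y'` is in `C f` (`mem_slice`), their distance is `y' - y ≤ η`; so the three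
cells have a common point `p` (`hη`), which is in the three translates: `gg_tri`. `h2` the same, `h3` = `hov`. With `count_down`, `count_up`:
`g j i + PhiL g i L + g (lastD i L) (lastD j M) - PhiL g j M ≤ c (c1 hi + c1 lo)`. If `i = j` then `g j i = 0`, otherwise `left_change`: `g j i ≥ - c'` and
`c2 bL ≥ 1`. If the last members are equal then `g = 0`, otherwise `right_change`. -/
theorem sweep_step {ι : Type} [Fintype ι] {K : Set E} {φ : E → ℝ} {B c D : ℝ}
    (ho : ∀ e, φ (-e) = -φ e) (hB : ∀ x ∈ K, ∀ y ∈ K, |φ (x - y)| ≤ B) (hB0 : 0 ≤ B)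
    (hD : ∀ x ∈ K, ‖x‖ ≤ D)
    (hc : 0 ≤ c) (hT : TB K φ c) {S : ℝ} {C : ι → Set E} (h : Cells S C) {v : ι → E}
    (hv : ∀ i, C i ⊆ tr (v i) K) {y y' η : ℝ} (hy0 : 0 < y) (hyy : y < y') (hy1 : y' < S)
    (hn : NonEv C y) (hn' : NonEv C y')
    (hη : ∀ i j k, ∀ p ∈ C i ∩ C j, ∀ q ∈ C k, dist p q ≤ η → (C i ∩ C j ∩ C k).Nonempty)
    (hyη : y' - y ≤ η)
    (hov : ∀ i, Act C y i → Act C y' i →
        sa (C i) y < sb (C i) y' ∧ sa (C i) y' < sb (C i) y)
    {i j : ι} {L M : List ι} (h1 : Row C S y i L) (h2 : Row C S y' j M) :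
    Vl φ v S i L - Vl φ v S j M ≤ Mc C S c (2 * D ^ 2 + B) y y' := by
  classical
  set g : ι → ι → ℝ := fun e f => gg φ (v e) (v f) with hgdef
  have hganti : ∀ a b, g a b = - g b a := fun a b => gg_anti ho (v a) (v b)
  have hself : ∀ a, g a a = 0 := by
    intro a
    have := hganti a a
    linarith
  have actL : ∀ e ∈ i :: L, Act C y e := fun e he => (h1.act e).1 he
  have actM : ∀ e ∈ j :: M, Act C y' e := fun e he => (h2.act e).1 he
  have pL : ∀ e ∈ i :: L, sa (C e) y < sb (C e) y := fun e he =>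
    sa_lt_sb (h.body e) (h.int e) (actL e he).1 (actL e he).2
  have pM : ∀ e ∈ j :: M, sa (C e) y' < sb (C e) y' := fun e he =>
    sa_lt_sb (h.body e) (h.int e) (actM e he).1 (actM e he).2
  have hdist : ∀ x : ℝ, dist (pt x y) (pt x y') ≤ η := by
    intro x
    have : dist (pt x y) (pt x y') = y' - y := by
      rw [EuclideanSpace.dist_eq]
      simp only [pt, Fin.sum_univ_two]
      simp only [Matrix.cons_val_zero, Matrix.cons_val_one, dist_self]
      rw [Real.dist_eq, zero_pow two_ne_zero, zero_add, Real.sqrt_sq (abs_nonneg _), abs_sub_comm,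
        abs_of_pos (sub_pos.2 hyy)]
    rw [this]
    exact hyη
  have hdist' : ∀ x : ℝ, dist (pt x y') (pt x y) ≤ η := by
    intro x
    rw [dist_comm]
    exact hdist x
  have key : ∀ (a b d : ι) (p : E), p ∈ C a ∩ C b ∩ C d → g d a + g a b + g b d ≤ c := by
    intro a b d p hp
    exact gg_tri hT (p := p) (hv d hp.2) (hv a hp.1.1) (hv b hp.1.2)
  have hm := merge g hganti hc (fun e => sa (C e) y) (fun e => sb (C e) y)
    (fun e => sa (C e) y') (fun e => sb (C e) y') S i L j M 0 h1.nd h2.nd h1.ch h2.ch pL pM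
    (le_of_eq h1.head)
    (by
      have := pL i (List.mem_cons_self ..)
      rw [h1.head] at this
      exact this.le)
    (le_of_eq h2.head)
    (by
      have := pM j (List.mem_cons_self ..)
      rw [h2.head] at this
      exact this.le)
    (by
      intro e he e' he' f hf hee hfa hfb
      have hee' : sb (C e) y = sa (C e') y := hee
      have hfa' : sa (C f) y' ≤ sb (C e) y := hfa
      have hfb' : sb (C e) y ≤ sb (C f) y' := hfb
      have m1 : pt (sb (C e) y) y ∈ C e :=
        (mem_slice (h.body e) (actL e he).1.le (actL e he).2.le _).2 ⟨(pL e he).le, le_refl _⟩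
      have m2 : pt (sb (C e) y) y ∈ C e' :=
        (mem_slice (h.body e') (actL e' he').1.le (actL e' he').2.le _).2
          ⟨hee'.ge, by rw [hee']; exact (pL e' he').le⟩
      have m3 : pt (sb (C e) y) y' ∈ C f :=
        (mem_slice (h.body f) (actM f hf).1.le (actM f hf).2.le _).2 ⟨hfa', hfb'⟩
      obtain ⟨p, hp⟩ := hη e e' f _ ⟨m1, m2⟩ _ m3 (hdist _)
      exact key e e' f p hp)
    (by
      intro f hf f' hf' e he hff hea heb
      have hff' : sb (C f) y' = sa (C f') y' := hff
      have hea' : sa (C e) y ≤ sb (C f) y' := hea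
      have heb' : sb (C f) y' ≤ sb (C e) y := heb
      have m1 : pt (sb (C f) y') y' ∈ C f :=
        (mem_slice (h.body f) (actM f hf).1.le (actM f hf).2.le _).2 ⟨(pM f hf).le, le_refl _⟩
      have m2 : pt (sb (C f) y') y' ∈ C f' :=
        (mem_slice (h.body f') (actM f' hf').1.le (actM f' hf').2.le _).2
          ⟨hff'.ge, by rw [hff']; exact (pM f' hf').le⟩
      have m3 : pt (sb (C f) y') y ∈ C e :=
        (mem_slice (h.body e) (actL e he).1.le (actL e he).2.le _).2 ⟨hea', heb'⟩
      obtain ⟨p, hp⟩ := hη f f' e _ ⟨m1, m2⟩ _ m3 (hdist' _)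
      exact key e f' f p ⟨⟨hp.2, hp.1.2⟩, hp.1.1⟩)
    (fun e he he' => hov e (actL e he) (actM e he'))
  have hcd := count_down hyy h1 h2
  have hcu := count_up hyy hn h1 h2
  have hcd' : ((((i :: L).filter (fun e => e ∉ j :: M)).length : ℕ) : ℝ) ≤
      (c1 (fun i => hi (C i)) y y' : ℝ) := by exact_mod_cast hcd
  have hcu' : ((((j :: M).filter (fun e => e ∉ i :: L)).length : ℕ) : ℝ) ≤
      (c1 (fun i => lo (C i)) y y' : ℝ) := by exact_mod_cast hcu
  have hc' : 0 ≤ 2 * D ^ 2 + B := by positivity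
  have hcc : c * ((((i :: L).filter (fun e => e ∉ j :: M)).length : ℝ) +
        (((j :: M).filter (fun e => e ∉ i :: L)).length : ℝ)) ≤
      c * ((c1 (fun i => hi (C i)) y y' : ℝ) + c1 (fun i => lo (C i)) y y') :=
    mul_le_mul_of_nonneg_left (add_le_add hcd' hcu') hc
  have hleft : - g j i ≤ (2 * D ^ 2 + B) * (c2 (fun i => bL (C i)) y y' : ℝ) := by
    by_cases hij : i = j
    · subst hij
      rw [hself i, neg_zero]
      positivity
    · have hl := left_change hB hD h hv hy0 hyy hy1 hn' hη hyη h1 h2 hij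
      have h1' : 1 ≤ c2 (fun i => bL (C i)) y y' := by
        unfold c2
        refine Finset.card_pos.2 ⟨i, ?_⟩
        rw [Finset.mem_filter]
        exact ⟨Finset.mem_univ _, hl.2⟩
      have h1'' : (1 : ℝ) ≤ (c2 (fun i => bL (C i)) y y' : ℝ) := by exact_mod_cast h1'
      have h2' : - g j i ≤ 2 * D ^ 2 + B := by
        have := hl.1
        show - gg φ (v j) (v i) ≤ _
        linarith
      calc - g j i ≤ 2 * D ^ 2 + B := h2'
        _ = (2 * D ^ 2 + B) * 1 := (mul_one _).symm
        _ ≤ _ := mul_le_mul_of_nonneg_left h1'' hc'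
  have hright : S * (v (lastD j M) 1 - v (lastD i L) 1) - g (lastD i L) (lastD j M) ≤
      (2 * D ^ 2 + B) * (c2 (fun i => bR S (C i)) y y' : ℝ) := by
    by_cases hij : lastD i L = lastD j M
    · rw [hij, hself, sub_self, mul_zero, sub_zero]
      positivity
    · have hl := right_change hB hD h hv hy0 hyy hy1 hn' hη hyη h1 h2 hij
      have h1' : 1 ≤ c2 (fun i => bR S (C i)) y y' := by
        unfold c2
        refine Finset.card_pos.2 ⟨lastD i L, ?_⟩
        rw [Finset.mem_filter]
        exact ⟨Finset.mem_univ _, hl.2⟩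
      have h1'' : (1 : ℝ) ≤ (c2 (fun i => bR S (C i)) y y' : ℝ) := by exact_mod_cast h1'
      have h2' : S * (v (lastD j M) 1 - v (lastD i L) 1) - g (lastD i L) (lastD j M) ≤
          2 * D ^ 2 + B := by
        have := hl.1
        show S * (v (lastD j M) 1 - v (lastD i L) 1) - gg φ (v (lastD i L)) (v (lastD j M)) ≤ _
        linarith
      calc _ ≤ 2 * D ^ 2 + B := h2'
        _ = (2 * D ^ 2 + B) * 1 := (mul_one _).symm
        _ ≤ _ := mul_le_mul_of_nonneg_left h1'' hc'
  have hfin : Vl φ v S i L - Vl φ v S j M = (g j i + PhiL g i L + g (lastD i L) (lastD j M) -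
      PhiL g j M) + (- g j i) + (S * (v (lastD j M) 1 - v (lastD i L) 1) -
        g (lastD i L) (lastD j M)) := by
    unfold Vl
    ring
  rw [hfin]
  unfold Mc
  have hmm := le_trans hm hcc
  have : (2 * D ^ 2 + B) * ((c2 (fun i => bL (C i)) y y' : ℝ) + c2 (fun i => bR S (C i)) y y') =
      (2 * D ^ 2 + B) * (c2 (fun i => bL (C i)) y y' : ℝ) +
      (2 * D ^ 2 + B) * (c2 (fun i => bR S (C i)) y y' : ℝ) := by ring
  rw [this]
  linarith

end NT31
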