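import Pool.Agent.W_fa9b59_h31.Slice

set_option autoImplicit false

/-!
# The edge function
-/

open MeasureTheory Metric Set

namespace NT31

open FB88

theorem gg_anti {φ : E → ℝ} (ho : ∀ e, φ (-e) = -φ e) (v w : E) : gg φ v w = - gg φ w v := by
  unfold gg
  have h1 := ho (v - w)
  rw [neg_sub] at h1
  rw [h1]
  ring

/-- PROOF. Let `x = p - u`, `y = p - v`, `z = p - w ∈ K`. The sum of the three area terms is `det2 (v - u) (w - u) / 2`, and
`v - u = x - y`, `w - u = x - z`, `u - v = y - x` etc. Apply `TB` to `x, y, z`. -/
theorem gg_tri {K : Set E} {φ : E → ℝ} {c : ℝ} (hT : TB K φ c) {u v w p : E} (hu : p - u ∈ K)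
    (hv : p - v ∈ K) (hw : p - w ∈ K) : gg φ u v + gg φ v w + gg φ w u ≤ c := by
  have h1 := hT _ hu _ hv _ hw
  have e1 : p - v - (p - u) = u - v := by abel
  have e2 : p - w - (p - u) = u - w := by abel
  have e3 : p - w - (p - v) = v - w := by abel
  have e4 : p - u - (p - w) = w - u := by abel
  rw [e1, e2, e3, e4] at h1
  unfold gg
  simp only [det2, PiLp.sub_apply] at h1
  nlinarith

/-- In a chain every entry different from the first one has `a e ≥ b i`, and every entry different from the last one has `b e < S`.
PROOF. Induction on `L`. -/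
theorem ch_ends {ι : Type} (a b : ι → ℝ) (S : ℝ) :
    ∀ (i : ι) (L : List ι), (i :: L).Nodup → Ch a b S i L → (∀ e ∈ i :: L, a e < b e) →
      (∀ e ∈ L, b i ≤ a e) ∧ (∀ e ∈ i :: L, e ≠ lastD i L → b e < S) ∧ b (lastD i L) = S ∧
      lastD i L ∈ i :: L := by
  intro i L
  induction L generalizing i with
  | nil =>
    intro _ hc _
    refine ⟨fun e he => absurd he List.not_mem_nil, ?_, hc, List.mem_cons_self⟩
    intro e he hne
    rw [List.mem_singleton] at he
    exact absurd he hne
  | cons j L ih =>
    intro hnd hc hab
    obtain ⟨hij, hc'⟩ := hc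
    have hnd' : (j :: L).Nodup := (List.nodup_cons.mp hnd).2
    obtain ⟨h1, h2, h3, h4⟩ := ih j hnd' hc' (fun e he => hab e (List.mem_cons_of_mem _ he))
    have hj : a j < b j := hab j (List.mem_cons_of_mem _ List.mem_cons_self)
    have hlast : lastD i (j :: L) = lastD j L := rfl
    rw [hlast]
    refine ⟨?_, ?_, h3, List.mem_cons_of_mem _ h4⟩
    · intro e he
      rcases List.mem_cons.mp he with rfl | he'
      · exact hij.le
      · have := h1 e he'
        linarith
    · intro e he hne
      rcases List.mem_cons.mp he with rfl | he'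
      · rcases List.mem_cons.mp h4 with h5 | h5
        · rw [h5] at h3
          linarith
        · have h6 := h1 _ h5
          have h7 := hab (lastD j L) (List.mem_cons_of_mem _ h4)
          linarith
      · exact h2 e he' hne

end NT31
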