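import Pool.Agent.W_fa9b59_h31.StepA

set_option autoImplicit false

/-!
# Changes of the first and of the last cell
-/

open MeasureTheory Metric Set

namespace NT31

open FB88

private lemma StepB_pt0 (x y : ℝ) : (pt x y) 0 = x := rfl

private lemma StepB_pt1 (x y : ℝ) : (pt x y) 1 = y := rfl

private lemma StepB_cont (x : ℝ) : Continuous (fun t : ℝ => pt x t) := by
  unfold pt
  refine (PiLp.continuous_toLp 2 (fun _ : Fin 2 => ℝ)).comp (continuous_pi fun i => ?_)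
  fin_cases i
  · exact continuous_const
  · exact continuous_id

private lemma StepB_bdd {C : Set E} (hC : Body C) (x : ℝ) : BddAbove {t | pt x t ∈ C} := by
  refine ⟨hi C, fun t ht => ?_⟩
  have := le_hi hC ht
  rwa [StepB_pt1] at this

private lemma StepB_top {C : Set E} (hC : Body C) (x : ℝ) {y y' : ℝ} (hy : pt x y ∈ C)
    (hyy : y < y') (hn : pt x y' ∉ C) :
    y ≤ sSup {t | pt x t ∈ C} ∧ sSup {t | pt x t ∈ C} < y' := by
  have h1 : y ≤ sSup {t | pt x t ∈ C} := le_csSup (StepB_bdd hC x) hy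
  refine ⟨h1, ?_⟩
  by_contra h
  rw [not_lt] at h
  apply hn
  have hcl : IsClosed {t | pt x t ∈ C} := hC.2.1.isClosed.preimage (StepB_cont x)
  have h2 : pt x (sSup {t | pt x t ∈ C}) ∈ C := hcl.csSup_mem ⟨y, hy⟩ (StepB_bdd hC x)
  set s := sSup {t | pt x t ∈ C} with hs
  have hsy : 0 < s - y := by linarith
  have h3 : ((s - y') / (s - y)) • pt x y + ((y' - y) / (s - y)) • pt x s ∈ C :=
    hC.1 hy h2 (div_nonneg (by linarith) hsy.le) (div_nonneg (by linarith) hsy.le) (by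
      field_simp
      ring)
  have h4 : ((s - y') / (s - y)) • pt x y + ((y' - y) / (s - y)) • pt x s = pt x y' := by
    ext i
    fin_cases i
    · show (s - y') / (s - y) * x + (y' - y) / (s - y) * x = x
      field_simp
      ring
    · show (s - y') / (s - y) * y + (y' - y) / (s - y) * s = y'
      field_simp
      ring
  rwa [h4] at h3

private lemma StepB_abs (x : E) (i : Fin 2) {D : ℝ} (h : ‖x‖ ≤ D) : |x i| ≤ D :=
  le_trans (by simpa using PiLp.norm_apply_le x i) h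

private lemma StepB_dist (x y y' η : ℝ) (h1 : y < y') (h2 : y' - y ≤ η) :
    dist (pt x y) (pt x y') ≤ η := by
  rw [EuclideanSpace.dist_eq, Fin.sum_univ_two, StepB_pt0, StepB_pt0, StepB_pt1, StepB_pt1,
    dist_self, Real.dist_eq, sq_abs, zero_pow two_ne_zero, zero_add, Real.sqrt_sq_eq_abs,
    abs_sub_comm, abs_of_pos (by linarith)]
  exact h2

/-- the estimate of the edge function -/
private lemma StepB_est {K : Set E} {φ : E → ℝ} {B D : ℝ}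
    (hB : ∀ x ∈ K, ∀ y ∈ K, |φ (x - y)| ≤ B) (hD : ∀ x ∈ K, ‖x‖ ≤ D) (S : ℝ) {a b p : E}
    {y y' : ℝ} (ha : pt S y - a ∈ K) (hb : pt S y' - b ∈ K) (hpa : p - a ∈ K)
    (hpb : p - b ∈ K) :
    S * (b 1 - a 1) - (2 * D ^ 2 + B) ≤ gg φ a b := by
  have h1 : |S - a 0| ≤ D := StepB_abs _ 0 (hD _ ha)
  have h2 : |S - b 0| ≤ D := StepB_abs _ 0 (hD _ hb)
  have h3 : |p 1 - a 1| ≤ D := StepB_abs _ 1 (hD _ hpa)
  have h4 : |p 1 - b 1| ≤ D := StepB_abs _ 1 (hD _ hpb)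
  have h5 : |φ (a - b)| ≤ B := by
    have := hB _ hpb _ hpa
    rwa [sub_sub_sub_cancel_left] at this
  have hD0 : 0 ≤ D := le_trans (abs_nonneg _) h1
  have h6 : |((a 0 - S) + (b 0 - S)) / 2| ≤ D := by
    rw [abs_le] at h1 h2 ⊢
    constructor <;> linarith [h1.1, h1.2, h2.1, h2.2]
  have h7 : |b 1 - a 1| ≤ 2 * D := by
    rw [abs_le] at h3 h4 ⊢
    constructor <;> linarith [h3.1, h3.2, h4.1, h4.2]
  have h8 : |((a 0 - S) + (b 0 - S)) / 2 * (b 1 - a 1)| ≤ D * (2 * D) := by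
    rw [abs_mul]
    exact mul_le_mul h6 h7 (abs_nonneg _) hD0
  unfold gg
  rw [abs_le] at h8 h5
  have h9 : (a 0 + b 0) / 2 * (b 1 - a 1) =
      ((a 0 - S) + (b 0 - S)) / 2 * (b 1 - a 1) + S * (b 1 - a 1) := by ring
  rw [h9]
  nlinarith [h8.1, h5.2]

private lemma StepB_row {ι : Type} {S : ℝ} {C : ι → Set E} [Fintype ι] (h : Cells S C) {y : ℝ}
    {i : ι} {L : List ι} (h1 : Row C S y i L) :
    (∀ e ∈ i :: L, sa (C e) y < sb (C e) y) ∧ pt 0 y ∈ C i ∧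
      pt S y ∈ C (lastD i L) ∧ lastD i L ∈ i :: L := by
  have hlt : ∀ e ∈ i :: L, sa (C e) y < sb (C e) y := fun e he =>
    sa_lt_sb (h.body e) (h.int e) ((h1.act e).1 he).1 ((h1.act e).1 he).2
  obtain ⟨-, -, h4, h5⟩ := ch_ends _ _ _ _ _ h1.nd h1.ch hlt
  refine ⟨hlt, ?_, ?_, h5⟩
  · have ha := (h1.act i).1 List.mem_cons_self
    rw [mem_slice (h.body i) ha.1.le ha.2.le, h1.head]
    have := hlt i List.mem_cons_self
    rw [h1.head] at this
    exact ⟨le_rfl, this.le⟩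
  · have ha := (h1.act _).1 h5
    rw [mem_slice (h.body _) ha.1.le ha.2.le]
    have := hlt _ h5
    change sb (C (lastD i L)) y = S at h4
    rw [h4] at this ⊢
    exact ⟨this.le, le_rfl⟩

/-- PROOF. The cells `C i ∋ pt 0 y`, `C j ∋ pt 0 y'` have a common point `p` (`hη` with `i, i, j`), so `v j - v i = (p - v i) - (p - v j)`, `|φ (v j - v i)| ≤ B`,
`|v j 1 - v i 1| ≤ 2 D`, and `|v e 0| ≤ D` for `e = i, j` (`pt 0 y - v i ∈ K`). So `|g j i| ≤ D * 2 D + B`. Second part: `{t | pt 0 t ∈ C i}` is compact and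
contains `y`, so `y ≤ bL (C i)`. If `bL (C i) ≥ y'` then `pt 0 y' ∈ C i` by convexity; `lo (C i) < y'`, `y' ≤ hi (C i)`, `y' ≠ hi (C i)` by `hn'`: `i` is
active at `y'`, so `i ∈ j :: M`, `i ≠ j`, and `sa (C i) y' ≥ sb (C j) y' > sa (C j) y' = 0` (`ch_ends`), contradiction to `pt 0 y' ∈ C i`. -/
theorem left_change {ι : Type} [Fintype ι] {K : Set E} {φ : E → ℝ} {B D : ℝ}
    (hB : ∀ x ∈ K, ∀ y ∈ K, |φ (x - y)| ≤ B) (hD : ∀ x ∈ K, ‖x‖ ≤ D)
    {S : ℝ} {C : ι → Set E} (h : Cells S C) {v : ι → E}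
    (hv : ∀ i, C i ⊆ tr (v i) K) {y y' η : ℝ} (hy0 : 0 < y) (hyy : y < y') (hy1 : y' < S)
    (hn' : NonEv C y')
    (hη : ∀ i j k, ∀ p ∈ C i ∩ C j, ∀ q ∈ C k, dist p q ≤ η → (C i ∩ C j ∩ C k).Nonempty)
    (hyη : y' - y ≤ η) {i j : ι} {L M : List ι} (h1 : Row C S y i L) (h2 : Row C S y' j M)
    (hij : i ≠ j) :
    -(2 * D ^ 2 + B) ≤ gg φ (v j) (v i) ∧ y ≤ bL (C i) ∧ bL (C i) < y' := by
  obtain ⟨hlt1, hi0, -, -⟩ := StepB_row h h1
  obtain ⟨hlt2, hj0, -, -⟩ := StepB_row h h2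
  obtain ⟨p, ⟨hpi, -⟩, hpj⟩ := hη i i j (pt 0 y) ⟨hi0, hi0⟩ (pt 0 y') hj0
    (StepB_dist 0 y y' η hyy hyη)
  have hest := StepB_est hB hD 0 (a := v j) (b := v i) (p := p) (y := y') (y' := y)
    (hv j hj0) (hv i hi0) (hv j hpj) (hv i hpi)
  rw [zero_mul, zero_sub] at hest
  refine ⟨hest, StepB_top (h.body i) 0 hi0 hyy ?_⟩
  intro hc
  have hai := (h1.act i).1 List.mem_cons_self
  have hhi : y' < hi (C i) := by
    have h3 := le_hi (h.body i) hc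
    rw [StepB_pt1] at h3
    exact lt_of_le_of_ne h3 (hn' i).2
  have hmem : i ∈ j :: M := (h2.act i).2 ⟨hai.1.trans hyy, hhi⟩
  have hiM : i ∈ M := by
    rcases List.mem_cons.1 hmem with h3 | h3
    · exact absurd h3 hij
    · exact h3
  obtain ⟨h4, -, -, -⟩ := ch_ends _ _ _ _ _ h2.nd h2.ch hlt2
  have h5 := h4 i hiM
  have h6 := hlt2 j List.mem_cons_self
  rw [h2.head] at h6
  have h7 := ((mem_slice (h.body i) (hai.1.trans hyy).le hhi.le 0).1 hc).1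
  have h8 : sb (C j) y' ≤ sa (C i) y' := h5
  linarith

/-- PROOF. As `left_change`, with the last members `k = lastD i L`, `l = lastD j M` of the chains: `sb = S` for them, `|v k 0 - S|, |v l 0 - S| ≤ D`,
`gg φ (v k) (v l) - S (v l 1 - v k 1) = ((v k 0 - S) + (v l 0 - S)) / 2 * (v l 1 - v k 1) - φ (v k - v l)`. -/
theorem right_change {ι : Type} [Fintype ι] {K : Set E} {φ : E → ℝ} {B D : ℝ}
    (hB : ∀ x ∈ K, ∀ y ∈ K, |φ (x - y)| ≤ B) (hD : ∀ x ∈ K, ‖x‖ ≤ D)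
    {S : ℝ} {C : ι → Set E} (h : Cells S C) {v : ι → E}
    (hv : ∀ i, C i ⊆ tr (v i) K) {y y' η : ℝ} (hy0 : 0 < y) (hyy : y < y') (hy1 : y' < S)
    (hn' : NonEv C y')
    (hη : ∀ i j k, ∀ p ∈ C i ∩ C j, ∀ q ∈ C k, dist p q ≤ η → (C i ∩ C j ∩ C k).Nonempty)
    (hyη : y' - y ≤ η) {i j : ι} {L M : List ι} (h1 : Row C S y i L) (h2 : Row C S y' j M)
    (hij : lastD i L ≠ lastD j M) :
    S * (v (lastD j M) 1 - v (lastD i L) 1) - (2 * D ^ 2 + B) ≤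
        gg φ (v (lastD i L)) (v (lastD j M)) ∧
      y ≤ bR S (C (lastD i L)) ∧ bR S (C (lastD i L)) < y' := by
  obtain ⟨hlt1, -, hi0, hk⟩ := StepB_row h h1
  obtain ⟨hlt2, -, hj0, hl⟩ := StepB_row h h2
  obtain ⟨p, ⟨hpi, -⟩, hpj⟩ := hη _ _ _ _ ⟨hi0, hi0⟩ _ hj0
    (StepB_dist S y y' η hyy hyη)
  refine ⟨StepB_est hB hD S (hv _ hi0) (hv _ hj0) (hv _ hpi) (hv _ hpj),
    StepB_top (h.body _) S hi0 hyy ?_⟩
  intro hc
  have hak := (h1.act _).1 hk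
  have hhi : y' < hi (C (lastD i L)) := by
    have h3 := le_hi (h.body _) hc
    rw [StepB_pt1] at h3
    exact lt_of_le_of_ne h3 (hn' _).2
  have hmem : lastD i L ∈ j :: M := (h2.act _).2 ⟨hak.1.trans hyy, hhi⟩
  obtain ⟨-, h4, -, -⟩ := ch_ends _ _ _ _ _ h2.nd h2.ch hlt2
  have h5 : sb (C (lastD i L)) y' < S := h4 _ hmem hij
  have h7 := ((mem_slice (h.body _) (hak.1.trans hyy).le hhi.le S).1 hc).2
  linarith

end NT31
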