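import Pool.Agent.W_fa9b59_h31.Step
import Pool.Agent.W_fa9b59_h31.RowCell
import Pool.Agent.W_fa9b59_h31.RowConst
import Pool.Agent.W_fa9b59_h31.NearTr

set_option autoImplicit false

/-!
# The sweep
-/

open MeasureTheory Metric Set

namespace NT31

open FB88

private theorem Sweep_c1_add {ι : Type} [Fintype ι] (f : ι → ℝ) {y y' y'' : ℝ} (h1 : y ≤ y')
    (h2 : y' ≤ y'') : c1 f y y' + c1 f y' y'' = c1 f y y'' := by
  classical
  unfold c1
  rw [← Finset.card_union_of_disjoint]
  · congr 1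
    ext i
    simp only [Finset.mem_union, Finset.mem_filter, Finset.mem_univ, true_and]
    constructor
    · rintro (⟨a, b⟩ | ⟨a, b⟩)
      · exact ⟨a, b.trans h2⟩
      · exact ⟨h1.trans_lt a, b⟩
    · rintro ⟨a, b⟩
      rcases le_or_gt (f i) y' with h | h
      · exact Or.inl ⟨a, h⟩
      · exact Or.inr ⟨h, b⟩
  · rw [Finset.disjoint_left]
    intro i hi hi'
    simp only [Finset.mem_filter, Finset.mem_univ, true_and] at hi hi'
    exact absurd hi.2 (not_le.2 hi'.1)

private theorem Sweep_c2_add {ι : Type} [Fintype ι] (f : ι → ℝ) {y y' y'' : ℝ} (h1 : y ≤ y')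
    (h2 : y' ≤ y'') : c2 f y y' + c2 f y' y'' = c2 f y y'' := by
  classical
  unfold c2
  rw [← Finset.card_union_of_disjoint]
  · congr 1
    ext i
    simp only [Finset.mem_union, Finset.mem_filter, Finset.mem_univ, true_and]
    constructor
    · rintro (⟨a, b⟩ | ⟨a, b⟩)
      · exact ⟨a, b.trans_le h2⟩
      · exact ⟨h1.trans a, b⟩
    · rintro ⟨a, b⟩
      rcases lt_or_ge (f i) y' with h | h
      · exact Or.inl ⟨a, h⟩
      · exact Or.inr ⟨h, b⟩
  · rw [Finset.disjoint_left]
    intro i hi hi'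
    simp only [Finset.mem_filter, Finset.mem_univ, true_and] at hi hi'
    exact absurd hi.2 (not_lt.2 hi'.1)

/-- `Mc` is additive and nonnegative. -/
theorem Mc_add {ι : Type} [Fintype ι] (C : ι → Set E) (S c c' : ℝ) {y y' y'' : ℝ} (h1 : y ≤ y')
    (h2 : y' ≤ y'') : Mc C S c c' y y' + Mc C S c c' y' y'' = Mc C S c c' y y'' := by
  unfold Mc
  rw [← Sweep_c1_add (fun i => hi (C i)) h1 h2, ← Sweep_c1_add (fun i => lo (C i)) h1 h2,
    ← Sweep_c2_add (fun i => bL (C i)) h1 h2, ← Sweep_c2_add (fun i => bR S (C i)) h1 h2]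
  push_cast
  ring

theorem Mc_nonneg {ι : Type} [Fintype ι] (C : ι → Set E) {S c c' : ℝ} (hc : 0 ≤ c) (hc' : 0 ≤ c')
    (y y' : ℝ) : 0 ≤ Mc C S c c' y y' := by
  unfold Mc
  positivity

/-- PROOF. Induction on the number of the event heights (`lo (C i)`, `hi (C i)`) in `(y, y')`. None: `row_const`, the left side is `0`.
Otherwise let `t` be the smallest one. `near_triple` gives `η`, `straddle` gives `ε₀`; take `ε` small: `ε < ε₀`, `2 ε ≤ η`, `y < t - ε`,
`t + ε < y'` and no event other than `t` in `[t - ε, t + ε]`. Rows at `t - ε` and `t + ε` by `row_exists`. Between `y` and `t - ε` no event: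
`row_const`. From `t - ε` to `t + ε`: `sweep_step`. From `t + ε` to `y'`: induction hypothesis (the event `t` is missing). Add
(`Mc_add`, `Mc_nonneg`). -/
theorem sweep {ι : Type} [Fintype ι] {K : Set E} {φ : E → ℝ} {B c D : ℝ}
    (ho : ∀ e, φ (-e) = -φ e) (hB : ∀ x ∈ K, ∀ y ∈ K, |φ (x - y)| ≤ B) (hB0 : 0 ≤ B)
    (hD : ∀ x ∈ K, ‖x‖ ≤ D)
    (hc : 0 ≤ c) (hT : TB K φ c) {S : ℝ} {C : ι → Set E} (h : Cells S C) {v : ι → E}
    (hv : ∀ i, C i ⊆ tr (v i) K) {y y' : ℝ} (hy0 : 0 < y) (hyy : y < y') (hy1 : y' < S)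
    (hn : NonEv C y) (hn' : NonEv C y')
    {i j : ι} {L M : List ι} (h1 : Row C S y i L) (h2 : Row C S y' j M) :
    Vl φ v S i L - Vl φ v S j M ≤ Mc C S c (2 * D ^ 2 + B) y y' := by
  classical
  have hc' : 0 ≤ 2 * D ^ 2 + B := by positivity
  set Ev : Finset ℝ := Finset.univ.image (fun i => lo (C i)) ∪
    Finset.univ.image (fun i => hi (C i)) with hEv
  have hlo : ∀ i, lo (C i) ∈ Ev := fun i => Finset.mem_union_left _
    (Finset.mem_image_of_mem _ (Finset.mem_univ i))
  have hhi : ∀ i, hi (C i) ∈ Ev := fun i => Finset.mem_union_right _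
    (Finset.mem_image_of_mem _ (Finset.mem_univ i))
  obtain ⟨η, hη0, hη⟩ := near_triple (C := C) (fun i => (h.body i).2.1)
  suffices H : ∀ (n : ℕ) (y : ℝ), 0 < y → y < y' → NonEv C y →
      (Ev.filter (fun t => y < t ∧ t < y')).card ≤ n → ∀ (i : ι) (L : List ι),
      Row C S y i L → Vl φ v S i L - Vl φ v S j M ≤ Mc C S c (2 * D ^ 2 + B) y y' from
    H _ y hy0 hyy hn le_rfl i L h1
  intro n
  -- the case without events
  have base : ∀ (y : ℝ), y ≤ y' → NonEv C y → (∀ t ∈ Ev, ¬ (y < t ∧ t < y')) →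
      ∀ i, ¬ (y ≤ lo (C i) ∧ lo (C i) ≤ y') ∧ ¬ (y ≤ hi (C i) ∧ hi (C i) ≤ y') := by
    intro y hyy hn hno i
    constructor
    · rintro ⟨a, b⟩
      exact hno _ (hlo i) ⟨lt_of_le_of_ne a (hn i).1, lt_of_le_of_ne b (hn' i).1.symm⟩
    · rintro ⟨a, b⟩
      exact hno _ (hhi i) ⟨lt_of_le_of_ne a (hn i).2, lt_of_le_of_ne b (hn' i).2.symm⟩
  induction n with
  | zero =>
    intro y hy0 hyy hn hcard i L hR
    have hemp : Ev.filter (fun t => y < t ∧ t < y') = ∅ := Finset.card_eq_zero.1 (by omega)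
    have hno : ∀ t ∈ Ev, ¬ (y < t ∧ t < y') := by
      intro t ht hlt
      have : t ∈ Ev.filter (fun t => y < t ∧ t < y') := Finset.mem_filter.2 ⟨ht, hlt⟩
      rw [hemp] at this
      exact absurd this (Finset.notMem_empty t)
    obtain ⟨rfl, rfl⟩ := row_const h hyy.le (base y hyy.le hn hno) hR h2
    rw [sub_self]
    exact Mc_nonneg C hc hc' y y'
  | succ n ih =>
    intro y hy0 hyy hn hcard i L hR
    rcases (Ev.filter (fun t => y < t ∧ t < y')).eq_empty_or_nonempty with hemp | hne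
    · have hno : ∀ t ∈ Ev, ¬ (y < t ∧ t < y') := by
        intro t ht hlt
        have : t ∈ Ev.filter (fun t => y < t ∧ t < y') := Finset.mem_filter.2 ⟨ht, hlt⟩
        rw [hemp] at this
        exact absurd this (Finset.notMem_empty t)
      obtain ⟨rfl, rfl⟩ := row_const h hyy.le (base y hyy.le hn hno) hR h2
      rw [sub_self]
      exact Mc_nonneg C hc hc' y y'
    · set t := (Ev.filter (fun t => y < t ∧ t < y')).min' hne with ht
      have htm : t ∈ Ev.filter (fun t => y < t ∧ t < y') := Finset.min'_mem _ hne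
      have htmin : ∀ s ∈ Ev.filter (fun t => y < t ∧ t < y'), t ≤ s :=
        fun s hs => Finset.min'_le _ s hs
      obtain ⟨htE, hyt, hty⟩ : t ∈ Ev ∧ y < t ∧ t < y' := by
        simpa only [Finset.mem_filter] using htm
      obtain ⟨ε₀, hε₀, hst⟩ := straddle h t
      obtain ⟨ε, hε0, hε1⟩ : ∃ ε : ℝ, 0 < ε ∧ ε < min (min ε₀ (η / 2)) (min (t - y) (y' - t)) := by
        have : 0 < min (min ε₀ (η / 2)) (min (t - y) (y' - t)) := by
          apply lt_min <;> apply lt_min <;> linarith
        exact exists_between this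
      obtain ⟨⟨ha, hb⟩, hc1, hd⟩ : (ε < ε₀ ∧ ε < η / 2) ∧ ε < t - y ∧ ε < y' - t := by
        simpa only [lt_min_iff] using hε1
      obtain ⟨hne1, hne2, hov⟩ := hst ε hε0 ha
      obtain ⟨i1, L1, R1⟩ := row_exists h (y := t - ε) (by linarith) (by linarith) hne1
      obtain ⟨i2, L2, R2⟩ := row_exists h (y := t + ε) (by linarith) (by linarith) hne2
      have hfirst : ∀ i, ¬ (y ≤ lo (C i) ∧ lo (C i) ≤ t - ε) ∧
          ¬ (y ≤ hi (C i) ∧ hi (C i) ≤ t - ε) := by
        intro k
        constructor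
        · rintro ⟨a, b⟩
          have hm : lo (C k) ∈ Ev.filter (fun t => y < t ∧ t < y') :=
            Finset.mem_filter.2 ⟨hlo k, lt_of_le_of_ne a (hn k).1, by linarith⟩
          have := htmin _ hm
          linarith
        · rintro ⟨a, b⟩
          have hm : hi (C k) ∈ Ev.filter (fun t => y < t ∧ t < y') :=
            Finset.mem_filter.2 ⟨hhi k, lt_of_le_of_ne a (hn k).2, by linarith⟩
          have := htmin _ hm
          linarith
      obtain ⟨rfl, rfl⟩ := row_const h (by linarith : y ≤ t - ε) hfirst hR R1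
      have hstep := sweep_step ho hB hB0 hD hc hT h hv (by linarith : 0 < t - ε)
        (by linarith : t - ε < t + ε) (by linarith : t + ε < S) hne1 hne2 hη (by linarith) hov R1 R2
      have hsub : (Ev.filter (fun s => t + ε < s ∧ s < y')).card ≤ n := by
        have hss : Ev.filter (fun s => t + ε < s ∧ s < y') ⊂
            Ev.filter (fun t => y < t ∧ t < y') := by
          rw [Finset.ssubset_iff_of_subset]
          · refine ⟨t, htm, ?_⟩
            intro hcon
            have := (Finset.mem_filter.1 hcon).2.1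
            linarith
          · intro s hs
            obtain ⟨hs1, hs2, hs3⟩ := Finset.mem_filter.1 hs
            exact Finset.mem_filter.2 ⟨hs1, by linarith, hs3⟩
        have := Finset.card_lt_card hss
        omega
      have hih := ih (t + ε) (by linarith) (by linarith) hne2 hsub i2 L2 R2
      have e1 := Mc_add C S c (2 * D ^ 2 + B) (by linarith : t - ε ≤ t + ε)
        (by linarith : t + ε ≤ y')
      have e2 := Mc_add C S c (2 * D ^ 2 + B) (by linarith : y ≤ t - ε)
        (by linarith : t - ε ≤ y')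
      have e3 := Mc_nonneg C (S := S) hc hc' y (t - ε)
      linarith

end NT31
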